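import Mathlib

/-!
Definitions for the dense Havet-Yu theorem.
-/

set_option autoImplicit false

namespace Pool.Agent.H71.DN

open Finset Classical

/-- The degree of `v`. -/
noncomputable def dg {V : Type} [Fintype V] (G : SimpleGraph V) (v : V) : ℕ :=
  (univ.filter fun u => G.Adj v u).card

/-- The number of ordered pairs `(a, b)` with `a ∈ A`, `b ∈ B` and `a b` an edge. -/
noncomputable def ee {V : Type} [Fintype V] (G : SimpleGraph V) (A B : Finset V) : ℕ :=
  ((A ×ˢ B).filter fun x => G.Adj x.1 x.2).card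

/-- A matching as an involution of the vertex set (fixed points = uncovered vertices). -/
def Inv {V : Type} (π : V → V) : Prop := ∀ v, π (π v) = v

/-- The expansion properties of the graph of unused reserve edges. -/
structure Ex {V : Type} [Fintype V] (F : SimpleGraph V) (D m bb q ζ : ℕ) : Prop where
  d1 : ∀ v, D ≤ dg F v
  p2 : ∀ A Y : Finset V, m ≤ A.card → (∀ a ∈ A, ∀ y ∈ Y, ¬ F.Adj a y) →
    Y.card + bb ≤ Fintype.card V
  p3 : ∀ A B : Finset V, bb ≤ A.card + q → bb ≤ B.card + q → Fintype.card V < ee F A B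
  p4 : ∀ A Z : Finset V, bb ≤ A.card + q → ζ ≤ Z.card → 0 < ee F A Z

/-- Robust expansion: every set `A` of at least `δ - ε n` vertices sends at least
`ε n |B| - θ n²` edges (ordered pairs) to every set `B`. -/
def Rob {V : Type} [Fintype V] (G : SimpleGraph V) (δ ε θ : ℝ) : Prop :=
  ∀ A B : Finset V, δ - ε * Fintype.card V ≤ (A.card : ℝ) →
    ε * Fintype.card V * B.card - θ * (Fintype.card V : ℝ) ^ 2 ≤ (ee G A B : ℝ)

/-- `mm ℓ`, `ℓ < L`, are edge-disjoint matchings of `G` that avoid the sets `U ℓ`. -/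
structure PM {V : Type} (G : SimpleGraph V) (L : ℕ) (U : ℕ → Finset V) (mm : ℕ → V → V) :
    Prop where
  inv : ∀ ℓ < L, Inv (mm ℓ)
  adj : ∀ ℓ < L, ∀ v, mm ℓ v ≠ v → G.Adj v (mm ℓ v)
  dis : ∀ ℓ < L, ∀ ℓ' < L, ℓ ≠ ℓ' → ∀ v, mm ℓ v ≠ v → mm ℓ v ≠ mm ℓ' v
  fix : ∀ ℓ < L, ∀ v ∈ U ℓ, mm ℓ v = v

/-- The parameters of the whole construction, for one graph `G` and one reserve `R`. -/
structure Par {V : Type} [Fintype V] (G R : SimpleGraph V)
    (N s t D m bb q ζ β β2 S0 E : ℕ) : Prop where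
  le : R ≤ G
  hS0 : 0 < S0
  hN : ∀ v, dg (G \ R) v + 1 ≤ N
  ht : Fintype.card V * s ^ t < t.factorial
  h1 : ζ + 1 + 2 * β + 3 * m ≤ D
  h2 : ζ + 1 + 2 * β + 4 * m ≤ q
  ex : ∀ F : SimpleGraph V, F ≤ R → (∀ v, dg R v ≤ dg F v + (S0 + E)) →
    (∀ A B, ee R A B ≤ ee F A B + 10 * (Fintype.card V * E)) → Ex F D m bb q ζ
  hT : 10 * (Fintype.card V * E) ≤ S0 * β2

/-- The vertices outside `C0` split into `O` independent classes of odd size and `E` independent
classes of even size, all of size at most `s`. -/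
structure Fam {V : Type} [Fintype V] (G : SimpleGraph V) (C0 : Finset V) (s O E : ℕ)
    (cl : V → ℕ) : Prop where
  lt : ∀ v, v ∉ C0 → cl v < O + E
  prop : ∀ u, u ∉ C0 → ∀ v, v ∉ C0 → G.Adj u v → cl u ≠ cl v
  odd : ∀ i < O, Odd (univ.filter fun v => v ∉ C0 ∧ cl v = i).card
  even : ∀ i, O ≤ i → i < O + E → Even (univ.filter fun v => v ∉ C0 ∧ cl v = i).card
  small : ∀ i, (univ.filter fun v => v ∉ C0 ∧ cl v = i).card ≤ s

/-- Quasirandom graphs of density `q` with almost equal degrees. -/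
def QR {V : Type} [Fintype V] (G : SimpleGraph V) (q θ : ℝ) : Prop :=
  (∀ v, |(dg G v : ℝ) - q * Fintype.card V| ≤ θ * Fintype.card V) ∧
  ∀ A B : Finset V, |(ee G A B : ℝ) - q * A.card * B.card| ≤ θ * (Fintype.card V : ℝ) ^ 2

end Pool.Agent.H71.DN
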