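import Mathlib
import Pool.Agent.H71.DN.Defs

/-!
HIT: a permutation `σ` (of a finite type `ι` of `N` elements) that hits the small sets `I v i` fewer
than `t` times, for every `v`.

Proof.  If `N < t` any `σ` works (the count is `≤ N < t`). Otherwise count permutations.
For fixed `v` and a `t`-subset `T` of `ι`, the number of `σ` with `σ i ∈ I v i` for all `i ∈ T` is at
most `s ^ t (N - t)!`: there are at most `∏_{i ∈ T} #(I v i) ≤ s ^ t` possible restrictions of `σ` to
`T`, and the permutations with a given restriction to `T` are either none or a coset `τ · Fix(T)` of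
the group of the permutations fixing `T` pointwise (`σ ↦ τ⁻¹ σ`), which is the permutation group of the
complement of `T` (for example `Equiv.Perm.subtypeEquivSubtypePerm`), of order `(N - t)!`.
If `σ` is bad for `v`, i.e. `t ≤ #{i : σ i ∈ I v i}`, then `σ` is counted for some `t`-subset `T`. So the
number of bad `σ` is at most `#V (N choose t) s ^ t (N - t)!`, and
`(N choose t) (N - t)! t! = N!`; hence `#bad * t! ≤ #V s ^ t N! < t! N!`, i.e. `#bad < N!`.
-/

set_option autoImplicit false

namespace Pool.Agent.H71.DN

open Finset Classical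

lemma hit_card_fix {ι : Type} [Fintype ι] (T : Finset ι) :
    (univ.filter fun g : Equiv.Perm ι => ∀ a, ¬ (a ∉ T) → g a = a).card =
      (Fintype.card ι - T.card).factorial := by
  have h1 : (univ.filter fun g : Equiv.Perm ι => ∀ a, ¬ (a ∉ T) → g a = a).card =
      Fintype.card {g : Equiv.Perm ι // ∀ a, ¬ (a ∉ T) → g a = a} := by
    rw [Fintype.card_subtype]
  rw [h1, ← Fintype.card_congr (Equiv.Perm.subtypeEquivSubtypePerm (fun a => a ∉ T)),
    Fintype.card_perm]
  congr 1
  rw [Fintype.card_subtype]
  have : univ.filter (fun a => a ∉ T) = univ \ T := by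
    ext a
    simp
  rw [this, card_sdiff_of_subset (subset_univ T), card_univ]

lemma hit_card_restr {ι : Type} [Fintype ι] (T : Finset ι) (f : T → ι) :
    (univ.filter fun σ : Equiv.Perm ι => (fun i : T => σ i) = f).card ≤
      (Fintype.card ι - T.card).factorial := by
  rcases (univ.filter fun σ : Equiv.Perm ι => (fun i : T => σ i) = f).eq_empty_or_nonempty with
    h | ⟨σ0, h0⟩
  · rw [h]
    simp
  · rw [← hit_card_fix T]
    refine card_le_card_of_injOn (fun σ => σ0⁻¹ * σ) ?_ ?_
    · intro σ hσ
      have h1 := (mem_filter.1 (mem_coe.1 hσ)).2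
      have h2 := (mem_filter.1 h0).2
      refine mem_coe.2 (mem_filter.2 ⟨mem_univ _, ?_⟩)
      intro a ha
      rw [not_not] at ha
      have h3 : σ a = σ0 a := by
        have e1 := congrFun h1 ⟨a, ha⟩
        have e2 := congrFun h2 ⟨a, ha⟩
        simp only at e1 e2
        rw [e1, e2]
      rw [Equiv.Perm.mul_apply, h3]
      exact Equiv.symm_apply_apply σ0 a
    · intro σ _ σ' _ h
      exact mul_left_cancel h

lemma hit_card_box {ι : Type} [Fintype ι] (J : ι → Finset ι) (s : ℕ) (hJ : ∀ i, (J i).card ≤ s)
    (T : Finset ι) :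
    (univ.filter fun σ : Equiv.Perm ι => ∀ i ∈ T, σ i ∈ J i).card ≤
      (Fintype.card ι - T.card).factorial * s ^ T.card := by
  have h1 := card_le_mul_card_image_of_maps_to
    (s := univ.filter fun σ : Equiv.Perm ι => ∀ i ∈ T, σ i ∈ J i)
    (t := Fintype.piFinset fun i : T => J i) (f := fun σ => fun i : T => σ i) (by
      intro σ hσ
      rw [Fintype.mem_piFinset]
      intro i
      exact (mem_filter.1 hσ).2 i i.2) (Fintype.card ι - T.card).factorial (by
      intro f _
      refine le_trans (card_le_card ?_) (hit_card_restr T f)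
      intro σ hσ
      exact mem_filter.2 ⟨mem_univ _, (mem_filter.1 hσ).2⟩)
  refine h1.trans (Nat.mul_le_mul_left _ ?_)
  rw [Fintype.card_piFinset]
  refine (prod_le_prod' (s := univ) (f := fun i : T => (J i).card) (g := fun _ => s)
    (fun i _ => hJ i)).trans ?_
  rw [prod_const, card_univ, Fintype.card_coe]

theorem hit {ι V : Type} [Fintype ι] [Fintype V] (I : V → ι → Finset ι) (s t : ℕ)
    (hI : ∀ v i, (I v i).card ≤ s) (h : Fintype.card V * s ^ t < t.factorial) :
    ∃ σ : Equiv.Perm ι, ∀ v, (univ.filter fun i => σ i ∈ I v i).card < t := by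
  by_cases hN : Fintype.card ι < t
  · exact ⟨1, fun v => (card_le_univ _).trans_lt hN⟩
  rw [not_lt] at hN
  by_contra hcon
  push Not at hcon
  have hsub : (univ : Finset (Equiv.Perm ι)) ⊆ (univ : Finset V).biUnion (fun v =>
      ((univ : Finset ι).powersetCard t).biUnion (fun T =>
        univ.filter fun σ : Equiv.Perm ι => ∀ i ∈ T, σ i ∈ I v i)) := by
    intro σ _
    obtain ⟨v, hv⟩ := hcon σ
    obtain ⟨T, hT, hTc⟩ := exists_subset_card_eq hv
    rw [mem_biUnion]
    refine ⟨v, mem_univ _, ?_⟩
    rw [mem_biUnion]
    refine ⟨T, mem_powersetCard.2 ⟨subset_univ _, hTc⟩, ?_⟩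
    exact mem_filter.2 ⟨mem_univ _, fun i hi => (mem_filter.1 (hT hi)).2⟩
  have h1 : (Fintype.card ι).factorial ≤
      Fintype.card V * ((Fintype.card ι).choose t *
        ((Fintype.card ι - t).factorial * s ^ t)) := by
    rw [← Fintype.card_perm, ← card_univ]
    refine (card_le_card hsub).trans (card_biUnion_le.trans ?_)
    have h2 : ∀ v ∈ (univ : Finset V), (((univ : Finset ι).powersetCard t).biUnion (fun T =>
        univ.filter fun σ : Equiv.Perm ι => ∀ i ∈ T, σ i ∈ I v i)).card ≤
        (Fintype.card ι).choose t * ((Fintype.card ι - t).factorial * s ^ t) := by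
      intro v _
      refine card_biUnion_le.trans ?_
      refine (sum_le_card_nsmul _ _ ((Fintype.card ι - t).factorial * s ^ t)
        (fun T hT => ?_)).trans (le_of_eq ?_)
      · have hTc := (mem_powersetCard.1 hT).2
        rw [← hTc]
        exact hit_card_box (I v) s (hI v) T
      · rw [card_powersetCard, card_univ, smul_eq_mul]
    refine (sum_le_card_nsmul _ _ _ h2).trans (le_of_eq ?_)
    rw [card_univ, smul_eq_mul]
  have h3 := Nat.choose_mul_factorial_mul_factorial hN
  have hpos : 0 < (Fintype.card ι).factorial := Nat.factorial_pos _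
  have h4 : (Fintype.card ι).factorial * t.factorial ≤
      (Fintype.card V * s ^ t) * (Fintype.card ι).factorial := by
    calc (Fintype.card ι).factorial * t.factorial
        ≤ Fintype.card V * ((Fintype.card ι).choose t *
        ((Fintype.card ι - t).factorial * s ^ t)) * t.factorial := Nat.mul_le_mul_right _ h1
      _ = (Fintype.card V * s ^ t) *
          ((Fintype.card ι).choose t * t.factorial * (Fintype.card ι - t).factorial) := by ring
      _ = _ := by rw [h3]
  have h5 : (Fintype.card V * s ^ t) * (Fintype.card ι).factorial <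
      t.factorial * (Fintype.card ι).factorial := Nat.mul_lt_mul_of_pos_right h hpos
  rw [Nat.mul_comm t.factorial] at h5
  exact absurd h4 (not_le.2 h5)

end Pool.Agent.H71.DN
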