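import Mathlib
import Pool.Agent.H71.DN.Defs

/-!
The two elementary changes of a matching (involution) `π`.
-/

set_option autoImplicit false

namespace Pool.Agent.H71.DN

open Finset Classical

/-- Match two uncovered vertices `b ≠ c` with each other. -/
theorem join {V : Type} (π : V → V) (hπ : Inv π) (b c : V) (hbc : b ≠ c) (hb : π b = b)
    (hc : π c = c) :
    ∃ π' : V → V, Inv π' ∧ π' b = c ∧ π' c = b ∧ ∀ v, v ≠ b → v ≠ c → π' v = π v := by
  refine ⟨fun v => if v = b then c else if v = c then b else π v, ?_, ?_, ?_, ?_⟩
  · intro v
    by_cases h1 : v = b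
    · subst h1
      simp [hbc.symm]
    · by_cases h2 : v = c
      · subst h2
        simp [h1]
      · have h3 : π v ≠ b := fun h => h1 (by rw [← hπ v, h, hb])
        have h4 : π v ≠ c := fun h => h2 (by rw [← hπ v, h, hc])
        simp [h1, h2, h3, h4, hπ v]
  · simp
  · simp [hbc.symm]
  · intro v h1 h2
    simp [h1, h2]

/-- `w` is uncovered, `x` is covered: match `w` with `x`, and uncover the old partner `π x`. -/
theorem rot {V : Type} (π : V → V) (hπ : Inv π) (w x : V) (hw : π w = w) (hx : π x ≠ x) :
    ∃ π' : V → V, Inv π' ∧ π' w = x ∧ π' x = w ∧ π' (π x) = π x ∧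
      ∀ v, v ≠ w → v ≠ x → v ≠ π x → π' v = π v := by
  have hwx : w ≠ x := fun h => hx (by rw [← h, hw])
  have hwa : w ≠ π x := fun h => hx (by
    have : π w = x := by rw [h, hπ x]
    rw [hw] at this
    exact absurd this hwx)
  refine ⟨fun v => if v = w then x else if v = x then w else if v = π x then v else π v,
    ?_, ?_, ?_, ?_, ?_⟩
  · intro v
    by_cases h1 : v = w
    · subst h1
      simp [hwx.symm]
    · by_cases h2 : v = x
      · subst h2
        simp [h1]
      · by_cases h5 : v = π x
        · subst h5
          simp [h1, h2]
        · have h3 : π v ≠ w := fun h => h1 (by rw [← hπ v, h, hw])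
          have h4 : π v ≠ x := fun h => h5 (by rw [← h, hπ v])
          have h6 : π v ≠ π x := fun h => h2 (by rw [← hπ v, h, hπ x])
          simp [h1, h2, h3, h4, h5, h6, hπ v]
  · simp
  · simp [hwx.symm]
  · simp [hwa.symm, hx]
  · intro v h1 h2 h3
    simp [h1, h2, h3]

/-- The covered vertices of a matching are even in number; so the uncovered vertices outside a
set `U` of uncovered vertices have the parity of `V ∖ U`. -/
theorem par {V : Type} [Fintype V] (π : V → V) (hπ : Inv π) (U : Finset V)
    (hU : ∀ v ∈ U, π v = v) (hE : Even (univ \ U).card) :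
    Even (univ.filter fun v => π v = v ∧ v ∉ U).card := by
  have h1 : (univ.filter fun v => π v ≠ v).card + (univ.filter fun v => π v = v ∧ v ∉ U).card
      = (univ \ U).card := by
    rw [← card_union_of_disjoint]
    · congr 1
      ext v
      simp only [mem_union, mem_filter, mem_univ, true_and, mem_sdiff]
      constructor
      · rintro (h | ⟨_, h⟩)
        · intro hv
          exact h (hU v hv)
        · exact h
      · intro h
        by_cases h2 : π v = v
        · exact Or.inr ⟨h2, h⟩
        · exact Or.inl h2
    · rw [disjoint_left]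
      intro v h2 h3
      simp only [mem_filter, mem_univ, true_and] at h2 h3
      exact h2 h3.1
  have h2 : Even (univ.filter fun v => π v ≠ v).card := by
    have h3 : (∑ v ∈ univ.filter (fun v => π v ≠ v), (1 : ZMod 2)) = 0 := by
      refine Finset.sum_involution (fun v _ => π v) ?_ ?_ ?_ ?_
      · intro v _
        decide
      · intro v hv _ h
        simp only [mem_filter, mem_univ, true_and] at hv
        exact hv h
      · intro v hv
        simp only [mem_filter, mem_univ, true_and] at hv ⊢
        rw [hπ v]
        exact fun h => hv h.symm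
      · intro v _
        exact hπ v
    rw [Finset.sum_const, nsmul_eq_mul, mul_one] at h3
    exact (ZMod.natCast_eq_zero_iff_even).1 h3
  rw [← h1] at hE
  exact (Nat.even_add.1 hE).1 h2

end Pool.Agent.H71.DN
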