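import Mathlib
import Pool.Agent.H71.DN.Defs

/-!
CHN: two tail bounds for a uniformly random function `f : E → Fin g` (a random set
`{e : f e = 0}` of density `1 / g`), by counting functions.

`tail1`. For `f` in the set, `2 ^ (- ∑ e, [f e = 0] c e) ≥ 2 ^ (- S / (4 g))` with `S = ∑ e, c e`.
 So `#set * 2 ^ (- S / (4 g)) ≤ ∑ f, ∏ e, 2 ^ (- [f e = 0] c e) = ∏ e, (g - 1 + 2 ^ (- c e))`
 (`Finset.prod_univ_sum` / `Fintype.piFinset`, or `Finset.sum_prod_piFinset`)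
 `= g ^ #E ∏ e, (1 - (1 - 2 ^ (- c e)) / g) ≤ g ^ #E exp (- ∑ e, (1 - 2 ^ (- c e)) / g)`
 `≤ g ^ #E exp (- (3 / 8) S / g)`, because `1 - 2 ^ (- c) ≥ (3 / 8) c` for `c = 0, 1, 2`. Since
 `2 ^ (S / (4 g)) = exp (log 2 * S / (4 g)) ≤ exp (7 S / (40 g))` (`log 2 < 0.6932 < 0.7`), the total
 exponent is `- (3/8 - 7/40) S / g = - S / (5 g)`.

`tail2`. Let `t = x / 2 ∈ [0, 1/2]`, `X_e = [f e = 0]`. For a sign `σ = ± 1`:
 `(1 / g) ∑_{i < g} exp (σ t ([i = 0] - 1 / g)) ≤ 1 + 0 + t ^ 2 ≤ exp (t ^ 2)`, by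
 `exp y ≤ 1 + y + y ^ 2` for `|y| ≤ 1` (`Real.abs_exp_sub_one_sub_id_le`), `∑_i ([i = 0] - 1/g) = 0` and
 `|[i = 0] - 1/g| ≤ 1`. Hence `∑ f, exp (σ t ∑_{e ∈ D} (X_e - 1 / g)) ≤ g ^ #E exp (t ^ 2 #D)`
 `≤ g ^ #E exp (t ^ 2 n)`, and by Markov the number of `f` with `σ (∑_{e ∈ D} (X_e - 1/g)) > x n` is at
 most `g ^ #E exp (t ^ 2 n - t x n) = g ^ #E exp (- x ^ 2 n / 4)`. Add the two signs.
-/

set_option autoImplicit false

namespace Pool.Agent.H71.DN

open Finset Classical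

theorem DnChn_swap {E : Type} [Fintype E] (g : ℕ) (w : E → Fin g → ℝ) :
    ∑ f : E → Fin g, ∏ e, w e (f e) = ∏ e, ∑ i : Fin g, w e i := by
  rw [Finset.prod_univ_sum, Fintype.piFinset_univ]

theorem DnChn_c (c : ℕ) (hc : c ≤ 2) : (3 / 8 : ℝ) * c ≤ 1 - (1 / 2) ^ c := by
  interval_cases c <;> norm_num

theorem DnChn_pow {E : Type} [Fintype E] (g : ℕ) (c : E → ℕ) (f : E → Fin g) :
    ∏ e, (if (f e : ℕ) = 0 then (1 / 2 : ℝ) ^ (c e) else 1) =
      (1 / 2) ^ (∑ e, if (f e : ℕ) = 0 then c e else 0) := by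
  rw [← Finset.prod_pow_eq_pow_sum]
  refine Finset.prod_congr rfl fun e _ => ?_
  by_cases h : (f e : ℕ) = 0
  · rw [if_pos h, if_pos h]
  · rw [if_neg h, if_neg h, pow_zero]

theorem tail1 {E : Type} [Fintype E] (g : ℕ) (hg : 1 ≤ g) (c : E → ℕ) (hc : ∀ e, c e ≤ 2) :
    ((univ.filter fun f : E → Fin g =>
      4 * g * (∑ e, if (f e : ℕ) = 0 then c e else 0) < ∑ e, c e).card : ℝ) ≤
      (g : ℝ) ^ Fintype.card E * Real.exp (-((∑ e, c e : ℕ) : ℝ) / (5 * g)) := by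
  obtain ⟨S, hS⟩ : ∃ S : ℝ, S = ((∑ e, c e : ℕ) : ℝ) := ⟨_, rfl⟩
  have hS0 : 0 ≤ S := by rw [hS]; positivity
  have hg0 : (0 : ℝ) < g := by exact_mod_cast hg
  have hfac : ∀ e, ∑ i : Fin g, (if (i : ℕ) = 0 then (1 / 2 : ℝ) ^ (c e) else 1) ≤
      g * Real.exp (-(3 / 8 * (c e : ℝ) / g)) := by
    intro e
    obtain ⟨n, rfl⟩ : ∃ n, g = n + 1 := ⟨g - 1, by omega⟩
    rw [Fin.sum_univ_succ]
    have h1 : ∀ i : Fin n, (if ((i.succ : Fin (n + 1)) : ℕ) = 0 then (1 / 2 : ℝ) ^ (c e) else 1) = 1 := by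
      intro i
      rw [if_neg (by simp)]
    rw [Finset.sum_congr rfl fun i _ => h1 i]
    simp only [Fin.val_zero, if_true, Finset.sum_const, Finset.card_univ, Fintype.card_fin, nsmul_eq_mul, mul_one]
    have h2 := Real.add_one_le_exp (-(3 / 8 * (c e : ℝ) / ((n + 1 : ℕ) : ℝ)))
    have h3 := mul_le_mul_of_nonneg_left h2 hg0.le
    have h4 := DnChn_c (c e) (hc e)
    have h5 : ((n + 1 : ℕ) : ℝ) * (-(3 / 8 * (c e : ℝ) / ((n + 1 : ℕ) : ℝ)) + 1) =
        ((n + 1 : ℕ) : ℝ) - 3 / 8 * (c e : ℝ) := by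
      field_simp
      ring
    rw [h5] at h3
    push_cast at h3 ⊢
    linarith
  have htot : ∑ f : E → Fin g, (1 / 2 : ℝ) ^ (∑ e, if (f e : ℕ) = 0 then c e else 0) ≤
      (g : ℝ) ^ Fintype.card E * Real.exp (-(3 / 8 * S / g)) := by
    have h1 : ∑ f : E → Fin g, (1 / 2 : ℝ) ^ (∑ e, if (f e : ℕ) = 0 then c e else 0) =
        ∏ e, ∑ i : Fin g, (if (i : ℕ) = 0 then (1 / 2 : ℝ) ^ (c e) else 1) := by
      rw [← DnChn_swap g (fun e i => if (i : ℕ) = 0 then (1 / 2 : ℝ) ^ (c e) else 1)]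
      exact Finset.sum_congr rfl fun f _ => (DnChn_pow g c f).symm
    rw [h1]
    have h2 : ∏ e, ∑ i : Fin g, (if (i : ℕ) = 0 then (1 / 2 : ℝ) ^ (c e) else 1) ≤
        ∏ e : E, ((g : ℝ) * Real.exp (-(3 / 8 * (c e : ℝ) / g))) := by
      refine Finset.prod_le_prod (fun e _ => Finset.sum_nonneg fun i _ => ?_) fun e _ => hfac e
      split_ifs <;> positivity
    refine h2.trans (le_of_eq ?_)
    rw [Finset.prod_mul_distrib, Finset.prod_const, Finset.card_univ, ← Real.exp_sum]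
    congr 2
    rw [hS, Nat.cast_sum, Finset.mul_sum, Finset.sum_div, Finset.sum_neg_distrib]
  have hlow : ∀ f ∈ (univ.filter fun f : E → Fin g =>
      4 * g * (∑ e, if (f e : ℕ) = 0 then c e else 0) < ∑ e, c e),
      Real.exp (-(7 / 40 * S / g)) ≤ (1 / 2 : ℝ) ^ (∑ e, if (f e : ℕ) = 0 then c e else 0) := by
    intro f hf
    have h1 := (Finset.mem_filter.1 hf).2
    obtain ⟨X, hX⟩ : ∃ X : ℕ, X = ∑ e, if (f e : ℕ) = 0 then c e else 0 := ⟨_, rfl⟩
    rw [← hX] at h1 ⊢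
    have h2 : 4 * (g : ℝ) * X ≤ S := by
      rw [hS]
      exact_mod_cast h1.le
    have h3 : (1 / 2 : ℝ) ^ X = Real.exp (-(Real.log 2 * X)) := by
      rw [one_div, inv_pow, Real.exp_neg, Real.exp_mul, Real.exp_log (by norm_num), Real.rpow_natCast]
    rw [h3]
    refine Real.exp_le_exp.2 (neg_le_neg ?_)
    have h4 : Real.log 2 ≤ 7 / 10 := by linarith [Real.log_two_lt_d9]
    have h5 : (X : ℝ) ≤ S / (4 * g) := by
      rw [le_div_iff₀ (by positivity)]
      linarith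
    calc Real.log 2 * X ≤ 7 / 10 * (S / (4 * g)) :=
          mul_le_mul h4 h5 (Nat.cast_nonneg X) (by norm_num)
      _ = 7 / 40 * S / g := by
          field_simp
          ring
  have hcard : ((univ.filter fun f : E → Fin g =>
      4 * g * (∑ e, if (f e : ℕ) = 0 then c e else 0) < ∑ e, c e).card : ℝ) * Real.exp (-(7 / 40 * S / g)) ≤
      (g : ℝ) ^ Fintype.card E * Real.exp (-(3 / 8 * S / g)) := by
    refine le_trans ?_ htot
    rw [← nsmul_eq_mul]
    refine (Finset.card_nsmul_le_sum _ _ _ hlow).trans ?_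
    exact Finset.sum_le_sum_of_subset_of_nonneg (Finset.filter_subset _ _) fun f _ _ => by positivity
  have he : Real.exp (-(7 / 40 * S / g)) * Real.exp (7 / 40 * S / g) = 1 := by
    rw [← Real.exp_add]
    simp
  have hfin := mul_le_mul_of_nonneg_right hcard (Real.exp_pos (7 / 40 * S / g)).le
  rw [mul_assoc, he, mul_one, mul_assoc, ← Real.exp_add] at hfin
  refine hfin.trans (le_of_eq ?_)
  congr 2
  rw [hS]
  field_simp
  ring

theorem DnChn_mgf (g : ℕ) (hg : 1 ≤ g) (σ t : ℝ) (hσ : |σ| = 1) (ht0 : 0 ≤ t) (ht1 : t ≤ 1 / 2) :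
    ∑ i : Fin g, Real.exp (σ * t * ((if (i : ℕ) = 0 then 1 else 0) - 1 / (g : ℝ))) ≤ g * Real.exp (t ^ 2) := by
  have hg0 : (0 : ℝ) < g := by exact_mod_cast hg
  have hg1 : (1 : ℝ) ≤ g := by exact_mod_cast hg
  have hinv : 1 / (g : ℝ) ≤ 1 := by
    rw [div_le_one hg0]
    exact hg1
  have hinv0 : 0 < 1 / (g : ℝ) := by positivity
  have hy : ∀ i : Fin g, |(if (i : ℕ) = 0 then (1 : ℝ) else 0) - 1 / (g : ℝ)| ≤ 1 := by
    intro i
    split_ifs <;> rw [abs_le] <;> constructor <;> linarith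
  have hpt : ∀ i : Fin g, Real.exp (σ * t * ((if (i : ℕ) = 0 then 1 else 0) - 1 / (g : ℝ))) ≤
      1 + σ * t * ((if (i : ℕ) = 0 then 1 else 0) - 1 / (g : ℝ)) + t ^ 2 := by
    intro i
    obtain ⟨y, hyd⟩ : ∃ y : ℝ, y = (if (i : ℕ) = 0 then (1 : ℝ) else 0) - 1 / (g : ℝ) := ⟨_, rfl⟩
    have hy1 : |y| ≤ 1 := by rw [hyd]; exact hy i
    rw [← hyd]
    have h1 : |σ * t * y| ≤ t := by
      rw [abs_mul, abs_mul, hσ, one_mul, abs_of_nonneg ht0]
      exact mul_le_of_le_one_right ht0 hy1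
    have h2 := Real.abs_exp_sub_one_sub_id_le (x := σ * t * y) (h1.trans (by linarith))
    have h3 := (abs_le.1 h2).2
    have h4 : (σ * t * y) ^ 2 ≤ t ^ 2 := by
      rw [← sq_abs (σ * t * y)]
      exact pow_le_pow_left₀ (abs_nonneg _) h1 2
    linarith
  refine (Finset.sum_le_sum fun i _ => hpt i).trans ?_
  have hz : ∑ i : Fin g, ((if (i : ℕ) = 0 then (1 : ℝ) else 0) - 1 / (g : ℝ)) = 0 := by
    obtain ⟨n, rfl⟩ : ∃ n, g = n + 1 := ⟨g - 1, by omega⟩
    rw [Finset.sum_sub_distrib, Fin.sum_univ_succ]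
    have h1 : ∀ i : Fin n, (if ((i.succ : Fin (n + 1)) : ℕ) = 0 then (1 : ℝ) else 0) = 0 := by
      intro i
      rw [if_neg (by simp)]
    rw [Finset.sum_congr rfl fun i _ => h1 i]
    simp only [Fin.val_zero, if_true, Finset.sum_const, Finset.card_univ, Fintype.card_fin, nsmul_eq_mul]
    field_simp
    ring
  rw [Finset.sum_add_distrib, Finset.sum_add_distrib, ← Finset.mul_sum, hz, mul_zero, add_zero]
  simp only [Finset.sum_const, Finset.card_univ, Fintype.card_fin, nsmul_eq_mul, mul_one]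
  have h5 := Real.add_one_le_exp (t ^ 2)
  nlinarith

theorem DnChn_one {E : Type} [Fintype E] (g : ℕ) (hg : 1 ≤ g) (D : Finset E) (x n σ : ℝ) (hσ : |σ| = 1)
    (hx0 : 0 ≤ x) (hx1 : x ≤ 1) (hn : (D.card : ℝ) ≤ n) :
    ((univ.filter fun f : E → Fin g =>
      x * n < σ * (((D.filter fun e => (f e : ℕ) = 0).card : ℝ) - (D.card : ℝ) / g)).card : ℝ) ≤
      (g : ℝ) ^ Fintype.card E * Real.exp (-(x ^ 2 * n / 4)) := by
  have hg0 : (0 : ℝ) < g := by exact_mod_cast hg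
  obtain ⟨t, ht⟩ : ∃ t, t = x / 2 := ⟨_, rfl⟩
  have ht0 : 0 ≤ t := by rw [ht]; positivity
  have ht1 : t ≤ 1 / 2 := by rw [ht]; linarith
  have hYe : ∀ f : E → Fin g, ((D.filter fun e => (f e : ℕ) = 0).card : ℝ) - (D.card : ℝ) / g =
      ∑ e ∈ D, ((if (f e : ℕ) = 0 then (1 : ℝ) else 0) - 1 / (g : ℝ)) := by
    intro f
    rw [Finset.sum_sub_distrib, Finset.sum_const, nsmul_eq_mul, Finset.card_filter]
    push_cast
    ring
  have hprod : ∀ f : E → Fin g, ∏ e, (if e ∈ D then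
      Real.exp (σ * t * ((if (f e : ℕ) = 0 then 1 else 0) - 1 / (g : ℝ))) else 1) =
      Real.exp (σ * t * (((D.filter fun e => (f e : ℕ) = 0).card : ℝ) - (D.card : ℝ) / g)) := by
    intro f
    rw [hYe f, Finset.mul_sum, Real.exp_sum, Finset.prod_ite_mem, Finset.univ_inter]
  have htot : ∑ f : E → Fin g, Real.exp (σ * t * (((D.filter fun e => (f e : ℕ) = 0).card : ℝ) - (D.card : ℝ) / g)) ≤
      (g : ℝ) ^ Fintype.card E * Real.exp (t ^ 2 * n) := by
    have h1 : ∑ f : E → Fin g, Real.exp (σ * t * (((D.filter fun e => (f e : ℕ) = 0).card : ℝ) - (D.card : ℝ) / g)) =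
        ∏ e, ∑ i : Fin g, (if e ∈ D then
          Real.exp (σ * t * ((if (i : ℕ) = 0 then 1 else 0) - 1 / (g : ℝ))) else 1) := by
      rw [← DnChn_swap g (fun e i => if e ∈ D then
          Real.exp (σ * t * ((if (i : ℕ) = 0 then 1 else 0) - 1 / (g : ℝ))) else 1)]
      exact Finset.sum_congr rfl fun f _ => (hprod f).symm
    rw [h1]
    have h2 : ∏ e, ∑ i : Fin g, (if e ∈ D then
          Real.exp (σ * t * ((if (i : ℕ) = 0 then 1 else 0) - 1 / (g : ℝ))) else 1) ≤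
        ∏ e : E, ((g : ℝ) * (if e ∈ D then Real.exp (t ^ 2) else 1)) := by
      refine Finset.prod_le_prod (fun e _ => Finset.sum_nonneg fun i _ => ?_) fun e _ => ?_
      · split_ifs <;> positivity
      · by_cases he : e ∈ D
        · simp only [if_pos he]
          exact DnChn_mgf g hg σ t hσ ht0 ht1
        · simp only [if_neg he, Finset.sum_const, Finset.card_univ, Fintype.card_fin, nsmul_eq_mul, mul_one]
          exact le_rfl
    refine h2.trans ?_
    rw [Finset.prod_mul_distrib, Finset.prod_const, Finset.card_univ, Finset.prod_ite_mem, Finset.univ_inter,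
      Finset.prod_const, ← Real.exp_nat_mul]
    refine mul_le_mul_of_nonneg_left (Real.exp_le_exp.2 ?_) (by positivity)
    have := mul_le_mul_of_nonneg_right hn (sq_nonneg t)
    linarith
  have hlow : ∀ f ∈ (univ.filter fun f : E → Fin g =>
      x * n < σ * (((D.filter fun e => (f e : ℕ) = 0).card : ℝ) - (D.card : ℝ) / g)),
      Real.exp (t * (x * n)) ≤
        Real.exp (σ * t * (((D.filter fun e => (f e : ℕ) = 0).card : ℝ) - (D.card : ℝ) / g)) := by
    intro f hf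
    have h1 := (Finset.mem_filter.1 hf).2
    refine Real.exp_le_exp.2 ?_
    have := mul_le_mul_of_nonneg_left h1.le ht0
    linarith
  have hcard : ((univ.filter fun f : E → Fin g =>
      x * n < σ * (((D.filter fun e => (f e : ℕ) = 0).card : ℝ) - (D.card : ℝ) / g)).card : ℝ) *
      Real.exp (t * (x * n)) ≤ (g : ℝ) ^ Fintype.card E * Real.exp (t ^ 2 * n) := by
    refine le_trans ?_ htot
    rw [← nsmul_eq_mul]
    refine (Finset.card_nsmul_le_sum _ _ _ hlow).trans ?_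
    exact Finset.sum_le_sum_of_subset_of_nonneg (Finset.filter_subset _ _) fun f _ _ => by positivity
  have he : Real.exp (t * (x * n)) * Real.exp (-(t * (x * n))) = 1 := by
    rw [← Real.exp_add]
    simp
  have hfin := mul_le_mul_of_nonneg_right hcard (Real.exp_pos (-(t * (x * n)))).le
  rw [mul_assoc, he, mul_one, mul_assoc, ← Real.exp_add] at hfin
  refine hfin.trans (le_of_eq ?_)
  congr 2
  rw [ht]
  ring

theorem tail2 {E : Type} [Fintype E] (g : ℕ) (hg : 1 ≤ g) (D : Finset E) (x n : ℝ) (hx0 : 0 ≤ x)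
    (hx1 : x ≤ 1) (hn : (D.card : ℝ) ≤ n) :
    ((univ.filter fun f : E → Fin g =>
      x * n < |((D.filter fun e => (f e : ℕ) = 0).card : ℝ) - (D.card : ℝ) / g|).card : ℝ) ≤
      2 * (g : ℝ) ^ Fintype.card E * Real.exp (-(x ^ 2 * n / 4)) := by
  have h1 := DnChn_one g hg D x n 1 (by simp) hx0 hx1 hn
  have h2 := DnChn_one g hg D x n (-1) (by simp) hx0 hx1 hn
  have hsub : (univ.filter fun f : E → Fin g =>
      x * n < |((D.filter fun e => (f e : ℕ) = 0).card : ℝ) - (D.card : ℝ) / g|) ⊆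
      (univ.filter fun f : E → Fin g =>
        x * n < 1 * (((D.filter fun e => (f e : ℕ) = 0).card : ℝ) - (D.card : ℝ) / g)) ∪
      (univ.filter fun f : E → Fin g =>
        x * n < (-1) * (((D.filter fun e => (f e : ℕ) = 0).card : ℝ) - (D.card : ℝ) / g)) := by
    intro f hf
    have h3 := (Finset.mem_filter.1 hf).2
    rw [Finset.mem_union, Finset.mem_filter, Finset.mem_filter]
    rcases lt_abs.1 h3 with h4 | h4
    · exact Or.inl ⟨Finset.mem_univ _, by linarith⟩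
    · exact Or.inr ⟨Finset.mem_univ _, by linarith⟩
  have h3 : ((univ.filter fun f : E → Fin g =>
      x * n < |((D.filter fun e => (f e : ℕ) = 0).card : ℝ) - (D.card : ℝ) / g|).card : ℝ) ≤ _ :=
    Nat.cast_le.2 ((Finset.card_le_card hsub).trans (Finset.card_union_le _ _))
  rw [Nat.cast_add] at h3
  linarith

end Pool.Agent.H71.DN
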