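import Mathlib
import Pool.Agent.H71.DN.Chn

/-!
RES: the reserve `R`.

Proof (`n = #V`). Take `E = Sym2 V` (a fintype) and, for `f : Sym2 V → Fin g`, the graph
`R_f.Adj u v := G.Adj u v ∧ (f s(u, v) : ℕ) = 0`.
 * For a vertex `v` let `D_v = image (fun u => s(v, u)) {u : G.Adj v u}`, `#D_v = dg G v ≤ n`, and
   `dg R_f v = #{e ∈ D_v : f e = 0}` (`u ↦ s(v, u)` is injective). `tail2` with `x = ρ`: the number
   of `f` for which `v` is bad is at most `2 g ^ #E exp (- ρ² n / 4)`.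
 * For `A, B` with `lam n² ≤ ee G A B` let `c e = #{x ∈ A ×ˢ B : G.Adj x.1 x.2 ∧ s(x.1, x.2) = e} ≤ 2`;
   `∑ e, c e = ee G A B`, `∑ e, [f e = 0] c e = ee R_f A B` (`Finset.card_eq_sum_card_fiberwise`).
   `tail1`: the number of `f` with `4 g ee R_f A B < ee G A B` is at most
   `g ^ #E exp (- lam n² / (5 g))`.
 The number of bad `f` is at most `g ^ #E (2 n exp (- ρ² n / 4) + 4 ^ n exp (- lam n² / (5 g)))`, which
 is `< g ^ #E` for `n ≥ n0` (both terms tend to 0). So a good `f` exists.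
-/

set_option autoImplicit false

namespace Pool.Agent.H71.DN

open Finset Classical

/-- the random subgraph -/
def Rf {V : Type} (G : SimpleGraph V) {g : ℕ} (f : Sym2 V → Fin g) : SimpleGraph V where
  Adj u v := G.Adj u v ∧ (f s(u, v) : ℕ) = 0
  symm := by
    constructor
    intro u v h
    refine ⟨h.1.symm, ?_⟩
    rw [Sym2.eq_swap]
    exact h.2
  loopless := by
    constructor
    intro v h
    exact G.loopless.irrefl v h.1

/-- the edges at `v` -/
noncomputable def Dv {V : Type} [Fintype V] (G : SimpleGraph V) (v : V) : Finset (Sym2 V) :=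
  (univ.filter fun u => G.Adj v u).image (fun u => s(v, u))

theorem Res_inj {V : Type} (v : V) : Function.Injective (fun u : V => s(v, u)) := by
  intro a b h
  have h' : s(v, a) = s(v, b) := h
  exact Sym2.congr_right.1 h'

theorem Res_Dv_card {V : Type} [Fintype V] (G : SimpleGraph V) (v : V) :
    (Dv G v).card = dg G v := by
  unfold Dv dg
  rw [Finset.card_image_of_injective _ (Res_inj v)]

theorem Res_dg {V : Type} [Fintype V] (G : SimpleGraph V) {g : ℕ} (f : Sym2 V → Fin g) (v : V) :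
    ((Dv G v).filter fun e => (f e : ℕ) = 0).card = dg (Rf G f) v := by
  have h : (Dv G v).filter (fun e => (f e : ℕ) = 0) =
      (univ.filter fun u => (Rf G f).Adj v u).image (fun u => s(v, u)) := by
    ext e
    unfold Dv
    simp only [Finset.mem_filter, Finset.mem_image, Finset.mem_univ, true_and]
    constructor
    · rintro ⟨⟨u, hu, rfl⟩, h0⟩
      exact ⟨u, ⟨hu, h0⟩, rfl⟩
    · rintro ⟨u, hu, rfl⟩
      exact ⟨⟨u, hu.1, rfl⟩, hu.2⟩
  rw [h, Finset.card_image_of_injective _ (Res_inj v)]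
  rfl

/-- multiplicity of the edge `e` between `A` and `B` -/
noncomputable def cc {V : Type} [Fintype V] (G : SimpleGraph V) (A B : Finset V) (e : Sym2 V) : ℕ :=
  (((A ×ˢ B).filter fun x => G.Adj x.1 x.2).filter fun x => s(x.1, x.2) = e).card

theorem Res_cc_le {V : Type} [Fintype V] (G : SimpleGraph V) (A B : Finset V) (e : Sym2 V) :
    cc G A B e ≤ 2 := by
  induction e using Sym2.ind with
  | _ a b =>
    have h : (((A ×ˢ B).filter fun x => G.Adj x.1 x.2).filter fun x => s(x.1, x.2) = s(a, b)) ⊆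
        ({(a, b), (b, a)} : Finset (V × V)) := by
      intro x hx
      have hx2 := (Finset.mem_filter.1 hx).2
      rw [Sym2.eq_iff] at hx2
      rw [Finset.mem_insert, Finset.mem_singleton]
      rcases hx2 with ⟨h1, h2⟩ | ⟨h1, h2⟩
      · left
        exact Prod.ext h1 h2
      · right
        exact Prod.ext h1 h2
    unfold cc
    exact (Finset.card_le_card h).trans Finset.card_le_two

theorem Res_sum {V : Type} [Fintype V] (G : SimpleGraph V) (A B : Finset V) :
    ∑ e, cc G A B e = ee G A B := by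
  unfold cc ee
  exact (Finset.card_eq_sum_card_fiberwise (fun x _ => Finset.mem_univ _)).symm

theorem Res_sum0 {V : Type} [Fintype V] (G : SimpleGraph V) {g : ℕ} (f : Sym2 V → Fin g)
    (A B : Finset V) :
    ∑ e, (if (f e : ℕ) = 0 then cc G A B e else 0) = ee (Rf G f) A B := by
  rw [← Res_sum (Rf G f) A B]
  refine Finset.sum_congr rfl (fun e _ => ?_)
  by_cases h : (f e : ℕ) = 0
  · rw [if_pos h]
    unfold cc
    congr 1
    ext x
    simp only [Finset.mem_filter]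
    constructor
    · rintro ⟨⟨h1, h2⟩, h3⟩
      refine ⟨⟨h1, h2, ?_⟩, h3⟩
      rw [h3]
      exact h
    · rintro ⟨⟨h1, h2⟩, h3⟩
      exact ⟨⟨h1, h2.1⟩, h3⟩
  · rw [if_neg h]
    unfold cc
    symm
    rw [Finset.card_eq_zero]
    apply Finset.eq_empty_of_forall_notMem
    intro x hx
    have h3 := (Finset.mem_filter.1 hx).2
    have h2 := (Finset.mem_filter.1 (Finset.mem_filter.1 hx).1).2
    apply h
    rw [← h3]
    exact h2.2

theorem Res_num (c a : ℝ) (hc : 0 < c) (ha : 0 < a) :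
    ∃ n0 : ℕ, ∀ n : ℕ, n0 ≤ n →
      (n : ℝ) * (2 * Real.exp (-(c * n))) + 4 ^ n * Real.exp (-(a * (n : ℝ) ^ 2)) < 1 := by
  refine ⟨⌈8 / c ^ 2⌉₊ + ⌈3 / a⌉₊ + 1, fun n hn => ?_⟩
  have h1 : 8 / c ^ 2 + 1 ≤ n := by
    have := Nat.le_ceil (8 / c ^ 2)
    have h2 : ((⌈8 / c ^ 2⌉₊ + ⌈3 / a⌉₊ + 1 : ℕ) : ℝ) ≤ n := by exact_mod_cast hn
    push_cast at h2
    have h3 : (0 : ℝ) ≤ ⌈3 / a⌉₊ := Nat.cast_nonneg _
    linarith
  have h1' : 3 / a ≤ n := by
    have := Nat.le_ceil (3 / a)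
    have h2 : ((⌈8 / c ^ 2⌉₊ + ⌈3 / a⌉₊ + 1 : ℕ) : ℝ) ≤ n := by exact_mod_cast hn
    push_cast at h2
    have h3 : (0 : ℝ) ≤ ⌈8 / c ^ 2⌉₊ := Nat.cast_nonneg _
    linarith
  have hn1 : (1 : ℝ) ≤ n := by
    have : (0 : ℝ) ≤ 8 / c ^ 2 := by positivity
    linarith
  have hn0 : (0 : ℝ) < n := by linarith
  have hA : (n : ℝ) * (2 * Real.exp (-(c * n))) < 1 / 2 := by
    have hcn : 0 < c * n := mul_pos hc hn0
    have h2 : (c * n) ^ 2 / 2 < Real.exp (c * n) := by
      have := Real.quadratic_le_exp_of_nonneg hcn.le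
      linarith
    have h3 : (8 : ℝ) < c ^ 2 * n := by
      have h4 : 8 / c ^ 2 < n := by linarith
      rwa [div_lt_iff₀' (by positivity)] at h4
    rw [Real.exp_neg, show (n : ℝ) * (2 * (Real.exp (c * n))⁻¹) = (2 * n) / Real.exp (c * n) by
      rw [div_eq_mul_inv]; ring, div_lt_iff₀ (Real.exp_pos _)]
    have h5 : 8 * (n : ℝ) < c ^ 2 * n * n := mul_lt_mul_of_pos_right h3 hn0
    nlinarith
  have hB : (4 : ℝ) ^ n * Real.exp (-(a * (n : ℝ) ^ 2)) < 1 / 2 := by
    have h2 : (4 : ℝ) ≤ Real.exp 2 := by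
      have h3 := Real.exp_one_gt_d9
      have h4 : Real.exp 2 = Real.exp 1 * Real.exp 1 := by
        rw [← Real.exp_add]; norm_num
      rw [h4]
      nlinarith
    have h3 : (4 : ℝ) ^ n ≤ Real.exp (2 * n) := by
      calc (4 : ℝ) ^ n ≤ Real.exp 2 ^ n := pow_le_pow_left₀ (by norm_num) h2 n
        _ = Real.exp (2 * n) := by rw [← Real.exp_nat_mul]; ring_nf
    have h4 : 3 ≤ a * n := by
      rwa [div_le_iff₀' ha] at h1'
    have h5 : 3 * (n : ℝ) ≤ a * (n : ℝ) ^ 2 := by nlinarith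
    calc (4 : ℝ) ^ n * Real.exp (-(a * (n : ℝ) ^ 2))
        ≤ Real.exp (2 * n) * Real.exp (-(a * (n : ℝ) ^ 2)) :=
          mul_le_mul_of_nonneg_right h3 (Real.exp_pos _).le
      _ = Real.exp (2 * n - a * (n : ℝ) ^ 2) := by rw [← Real.exp_add]; ring_nf
      _ ≤ Real.exp (-1) := by
          apply Real.exp_le_exp.2
          linarith
      _ < 1 / 2 := by
          rw [Real.exp_neg]
          have h6 := Real.exp_one_gt_d9
          rw [one_div]
          apply inv_strictAnti₀ (by norm_num)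
          linarith
  linarith

theorem reserve (g : ℕ) (hg : 1 ≤ g) (ρ lam : ℝ) (hρ : 0 < ρ) (hρ1 : ρ ≤ 1) (hl : 0 < lam) :
    ∃ n0 : ℕ, ∀ (V : Type) [Fintype V] (G : SimpleGraph V), n0 ≤ Fintype.card V →
      ∃ R : SimpleGraph V, R ≤ G ∧
        (∀ v, |(dg R v : ℝ) - (dg G v : ℝ) / g| ≤ ρ * Fintype.card V) ∧
        (∀ A B : Finset V, lam * (Fintype.card V : ℝ) ^ 2 ≤ ee G A B →
          (ee G A B : ℝ) ≤ 4 * g * ee R A B) := by
  have hg0 : (0 : ℝ) < g := by exact_mod_cast hg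
  obtain ⟨n0, hn0⟩ := Res_num (ρ ^ 2 / 4) (lam / (5 * g)) (by positivity) (by positivity)
  refine ⟨n0, fun V _ G hV => ?_⟩
  set n : ℕ := Fintype.card V with hn
  have hnum := hn0 n hV
  set Ω : ℝ := (g : ℝ) ^ Fintype.card (Sym2 V) with hΩ
  have hΩ0 : 0 < Ω := pow_pos hg0 _
  set B1 : V → Finset (Sym2 V → Fin g) := fun v => univ.filter fun f : Sym2 V → Fin g =>
      ρ * (n : ℝ) < |(((Dv G v).filter fun e => (f e : ℕ) = 0).card : ℝ) - ((Dv G v).card : ℝ) / g|
    with hB1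
  set B2 : Finset V × Finset V → Finset (Sym2 V → Fin g) := fun P =>
      univ.filter fun f : Sym2 V → Fin g =>
      4 * g * (∑ e, if (f e : ℕ) = 0 then cc G P.1 P.2 e else 0) < ∑ e, cc G P.1 P.2 e
    with hB2
  set PP : Finset (Finset V × Finset V) :=
    univ.filter fun P => lam * (n : ℝ) ^ 2 ≤ (ee G P.1 P.2 : ℝ) with hPP
  have c1 : ∀ v, ((B1 v).card : ℝ) ≤ Ω * (2 * Real.exp (-(ρ ^ 2 / 4 * n))) := by
    intro v
    have h := tail2 (E := Sym2 V) g hg (Dv G v) ρ n hρ.le hρ1 (by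
      rw [Res_Dv_card]
      unfold dg
      exact_mod_cast Finset.card_le_univ _)
    refine (le_of_eq ?_).trans (h.trans (le_of_eq ?_))
    · simp only [hB1]
      refine congrArg (fun k : ℕ => (k : ℝ)) (congrArg Finset.card ?_)
      ext f
      simp only [Finset.mem_filter, Finset.mem_univ, true_and]
    · rw [hΩ, show -(ρ ^ 2 * (n : ℝ) / 4) = -(ρ ^ 2 / 4 * n) by ring]
      ring
  have c2 : ∀ P ∈ PP, ((B2 P).card : ℝ) ≤ Ω * Real.exp (-(lam / (5 * g) * (n : ℝ) ^ 2)) := by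
    intro P hP
    have hP' : lam * (n : ℝ) ^ 2 ≤ (ee G P.1 P.2 : ℝ) := (Finset.mem_filter.1 hP).2
    have h := tail1 (E := Sym2 V) g hg (cc G P.1 P.2) (Res_cc_le G P.1 P.2)
    refine (le_of_eq ?_).trans (h.trans ?_)
    · simp only [hB2]
      refine congrArg (fun k : ℕ => (k : ℝ)) (congrArg Finset.card ?_)
      ext f
      simp only [Finset.mem_filter, Finset.mem_univ, true_and]
    · refine mul_le_mul_of_nonneg_left (Real.exp_le_exp.2 ?_) hΩ0.le
      rw [Res_sum]
      rw [show -(lam / (5 * (g : ℝ)) * (n : ℝ) ^ 2) = -(lam * (n : ℝ) ^ 2) / (5 * g) by ring]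
      exact div_le_div_of_nonneg_right (by linarith) (by positivity)
  have hex : ∃ f : Sym2 V → Fin g, (∀ v, f ∉ B1 v) ∧ ∀ P ∈ PP, f ∉ B2 P := by
    by_contra hcon
    push Not at hcon
    have hcov : (univ : Finset (Sym2 V → Fin g)) ⊆ (univ.biUnion B1) ∪ (PP.biUnion B2) := by
      intro f _
      rw [Finset.mem_union, Finset.mem_biUnion, Finset.mem_biUnion]
      by_cases h : ∃ v, f ∈ B1 v
      · obtain ⟨v, hv⟩ := h
        exact Or.inl ⟨v, Finset.mem_univ _, hv⟩
      · push Not at h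
        obtain ⟨P, hP, hf⟩ := hcon f h
        exact Or.inr ⟨P, hP, hf⟩
    have hcard : ((Fintype.card (Sym2 V → Fin g) : ℕ) : ℝ) ≤
        (∑ v, ((B1 v).card : ℝ)) + ∑ P ∈ PP, ((B2 P).card : ℝ) := by
      have h1 := (Finset.card_le_card hcov).trans (Finset.card_union_le _ _)
      have h2 := Finset.card_biUnion_le (s := (univ : Finset V)) (t := B1)
      have h3 := Finset.card_biUnion_le (s := PP) (t := B2)
      rw [Finset.card_univ] at h1
      have h4 : Fintype.card (Sym2 V → Fin g) ≤ (∑ v, (B1 v).card) + ∑ P ∈ PP, (B2 P).card := by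
        omega
      exact_mod_cast h4
    have hΩc : ((Fintype.card (Sym2 V → Fin g) : ℕ) : ℝ) = Ω := by
      rw [Fintype.card_fun, Fintype.card_fin]
      push_cast
      rfl
    have s1 : (∑ v, ((B1 v).card : ℝ)) ≤ Ω * ((n : ℝ) * (2 * Real.exp (-(ρ ^ 2 / 4 * n)))) := by
      refine (Finset.sum_le_sum (fun v _ => c1 v)).trans (le_of_eq ?_)
      rw [Finset.sum_const, Finset.card_univ, nsmul_eq_mul]
      ring
    have hPPc : (PP.card : ℝ) ≤ 4 ^ n := by
      have h1 : PP.card ≤ Fintype.card (Finset V × Finset V) := Finset.card_le_univ _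
      rw [Fintype.card_prod, Fintype.card_finset, ← hn, ← mul_pow] at h1
      have h2 : (PP.card : ℝ) ≤ (((2 * 2) ^ n : ℕ) : ℝ) := by exact_mod_cast h1
      refine h2.trans (le_of_eq ?_)
      push_cast
      norm_num
    have s2 : (∑ P ∈ PP, ((B2 P).card : ℝ)) ≤
        Ω * (4 ^ n * Real.exp (-(lam / (5 * g) * (n : ℝ) ^ 2))) := by
      refine (Finset.sum_le_sum c2).trans ?_
      rw [Finset.sum_const, nsmul_eq_mul]
      have he := (Real.exp_pos (-(lam / (5 * g) * (n : ℝ) ^ 2))).le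
      calc (PP.card : ℝ) * (Ω * Real.exp (-(lam / (5 * g) * (n : ℝ) ^ 2)))
          ≤ 4 ^ n * (Ω * Real.exp (-(lam / (5 * g) * (n : ℝ) ^ 2))) :=
            mul_le_mul_of_nonneg_right hPPc (mul_nonneg hΩ0.le he)
        _ = _ := by ring
    rw [hΩc] at hcard
    have h5 : Ω ≤ Ω * ((n : ℝ) * (2 * Real.exp (-(ρ ^ 2 / 4 * n))) +
        4 ^ n * Real.exp (-(lam / (5 * g) * (n : ℝ) ^ 2))) := by
      rw [mul_add]
      linarith
    have h6 := mul_lt_mul_of_pos_left hnum hΩ0
    linarith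
  obtain ⟨f, hf1, hf2⟩ := hex
  refine ⟨Rf G f, fun u v h => h.1, ?_, ?_⟩
  · intro v
    have h := hf1 v
    rw [hB1] at h
    simp only [Finset.mem_filter, Finset.mem_univ, true_and, not_lt] at h
    rw [Res_dg, Res_Dv_card] at h
    exact h
  · intro A B hAB
    have hP : (A, B) ∈ PP := by
      rw [hPP, Finset.mem_filter]
      exact ⟨Finset.mem_univ _, hAB⟩
    have h := hf2 (A, B) hP
    rw [hB2] at h
    simp only [Finset.mem_filter, Finset.mem_univ, true_and, not_lt] at h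
    rw [Res_sum, Res_sum0] at h
    exact_mod_cast h

end Pool.Agent.H71.DN
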