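import Mathlib
import Pool.Agent.H71.DN.Alt

/-!
CONN: two uncovered vertices `w1 ≠ w2` get covered by an alternating path
`w1 - x1 = a1 - y1 = b1 - b2 = y2 - a2 = x2 - w2`
(`-` an edge of `F`, `=` an edge of the matching `π`).

Proof.  Let `B' = {v : v ∈ Bl ∨ π v ∈ Bl ∨ (π v = v ∧ v ∉ Bl)}`; `#B' ≤ 2β + ζ` (`π` is injective).
Write `good = V ∖ B'`: for `v ∈ good`, `v` is covered, `v, π v ∉ Bl`; `good` is `π`-invariant.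
1. `N_F(w1) ∩ good` has at least `D - 2β - ζ ≥ 3m` elements: take `X1` in it, `#X1 = m`
   (`Finset.exists_subset_card_eq`). `S1 := X1 ∪ π(X1)`, `#S1 ≤ 2m`, `π`-invariant.
2. `(N_F(w2) ∩ good) ∖ S1` has at least `3m - 2m = m` elements: `X2` in it, `#X2 = m`;
   `S2 := X2 ∪ π(X2)`; `S1, S2` are disjoint since `S1` is `π`-invariant.
3. `A1 := π(X1)`, `#A1 = m`. `NA1 := {y : ∃ a ∈ A1, F.Adj a y}`. `p2` with `A = A1`,
   `Y = univ ∖ NA1` gives `#NA1 ≥ bb`. `B1 := π '' {y ∈ NA1 : y ∈ good, y ∉ S1 ∪ S2}`, so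
   `#B1 ≥ bb - (2β + ζ) - 4m ≥ bb - q`. The same with `A2 := π(X2)` gives `B2`.
4. `p3` : `ee F B1 B2 > #V ≥ #B1`. The pairs `(b, π b)`, `b ∈ B1`, are at most `#B1 ≤ #V` many, so
   there are `b1 ∈ B1`, `b2 ∈ B2` with `F.Adj b1 b2` and `b2 ≠ π b1`.
   `y1 := π b1 ∈ NA1`, `y2 := π b2 ∈ NA2`; `a1 ∈ A1` with `F.Adj a1 y1`, `a2 ∈ A2` with `F.Adj a2 y2`;
   `x1 := π a1 ∈ X1`, `x2 := π a2 ∈ X2`: `F.Adj w1 x1`, `F.Adj w2 x2`.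
   All of `x1, a1` (in `S1`), `x2, a2` (in `S2`), `y1, b1, y2, b2` (in `good`, outside `S1 ∪ S2`) are
   covered (so `≠ w1, w2`) and `x1 ≠ a1` etc.; `{y1, b1}` and `{y2, b2}` are disjoint: `b1 ≠ b2`
   (irreflexivity), `b2 ≠ y1 = π b1`, `y2 ≠ b1`, `y1 ≠ y2`. So the ten vertices are distinct.
5. Apply `rot` to `(w1, x1)` (uncovers `a1`), to `(w2, x2)` (uncovers `a2`), to `(a1, y1)`
   (uncovers `b1`), to `(a2, y2)` (uncovers `b2`), and `join` to `(b1, b2)`. The new matching `π'`: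
   `w1 ↔ x1`, `a1 ↔ y1`, `b1 ↔ b2`, `y2 ↔ a2`, `x2 ↔ w2`, and `π' = π` elsewhere. (Alternatively
   define `π'` directly by this table.) Only the ten vertices change, none of them but `w1, w2`
   is in `Bl`, all the new pairs are edges of `F`, everything covered stays covered.
-/

set_option autoImplicit false

namespace Pool.Agent.H71.DN

open Finset Classical

private theorem DnConn_ten {V : Type} (π : V → V) (hπ : Inv π)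
    (w1 x1 a1 y1 b1 b2 y2 a2 x2 w2 : V)
    (hnd : [w1, x1, a1, y1, b1, b2, y2, a2, x2, w2].Nodup)
    (hw1 : π w1 = w1) (hw2 : π w2 = w2) (hx1 : π x1 = a1) (hy1 : π y1 = b1) (hx2 : π x2 = a2)
    (hy2 : π y2 = b2) :
    ∃ π' : V → V, Inv π' ∧ π' w1 = x1 ∧ π' x1 = w1 ∧ π' a1 = y1 ∧ π' y1 = a1 ∧ π' b1 = b2 ∧
      π' b2 = b1 ∧ π' y2 = a2 ∧ π' a2 = y2 ∧ π' x2 = w2 ∧ π' w2 = x2 ∧
      ∀ v, v ∉ [w1, x1, a1, y1, b1, b2, y2, a2, x2, w2] → π' v = π v := by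
  simp only [List.nodup_cons, List.mem_cons, List.not_mem_nil, not_or, or_false, not_false_eq_true,
    List.nodup_nil, and_true] at hnd
  obtain ⟨⟨n_w1_x1, n_w1_a1, n_w1_y1, n_w1_b1, n_w1_b2, n_w1_y2, n_w1_a2, n_w1_x2, n_w1_w2⟩, ⟨n_x1_a1, n_x1_y1, n_x1_b1, n_x1_b2, n_x1_y2, n_x1_a2, n_x1_x2, n_x1_w2⟩, ⟨n_a1_y1, n_a1_b1, n_a1_b2, n_a1_y2, n_a1_a2, n_a1_x2, n_a1_w2⟩, ⟨n_y1_b1, n_y1_b2, n_y1_y2, n_y1_a2, n_y1_x2, n_y1_w2⟩, ⟨n_b1_b2, n_b1_y2, n_b1_a2, n_b1_x2, n_b1_w2⟩, ⟨n_b2_y2, n_b2_a2, n_b2_x2, n_b2_w2⟩, ⟨n_y2_a2, n_y2_x2, n_y2_w2⟩, ⟨n_a2_x2, n_a2_w2⟩, n_x2_w2⟩ := hnd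
  obtain ⟨π1, i1, r1w, r1x, r1a, r1o⟩ := rot π hπ w1 x1 hw1 (by rw [hx1]; exact (Ne.symm n_x1_a1))
  rw [hx1] at r1a r1o
  have q1w2 : π1 w2 = w2 := (r1o w2 (Ne.symm n_w1_w2) (Ne.symm n_x1_w2) (Ne.symm n_a1_w2)).trans hw2
  have q1x2 : π1 x2 = a2 := (r1o x2 (Ne.symm n_w1_x2) (Ne.symm n_x1_x2) (Ne.symm n_a1_x2)).trans hx2
  obtain ⟨π2, i2, r2w, r2x, r2a, r2o⟩ := rot π1 i1 w2 x2 q1w2 (by rw [q1x2]; exact n_a2_x2)
  rw [q1x2] at r2a r2o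
  have q2a1 : π2 a1 = a1 := (r2o a1 n_a1_w2 n_a1_x2 n_a1_a2).trans r1a
  have q2y1 : π2 y1 = b1 := ((r2o y1 n_y1_w2 n_y1_x2 n_y1_a2).trans (r1o y1 (Ne.symm n_w1_y1) (Ne.symm n_x1_y1) (Ne.symm n_a1_y1))).trans hy1
  obtain ⟨π3, i3, r3w, r3x, r3a, r3o⟩ := rot π2 i2 a1 y1 q2a1 (by rw [q2y1]; exact (Ne.symm n_y1_b1))
  rw [q2y1] at r3a r3o
  have q3a2 : π3 a2 = a2 := (r3o a2 (Ne.symm n_a1_a2) (Ne.symm n_y1_a2) (Ne.symm n_b1_a2)).trans r2a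
  have q3y2 : π3 y2 = b2 := (((r3o y2 (Ne.symm n_a1_y2) (Ne.symm n_y1_y2) (Ne.symm n_b1_y2)).trans (r2o y2 n_y2_w2 n_y2_x2 n_y2_a2)).trans (r1o y2 (Ne.symm n_w1_y2) (Ne.symm n_x1_y2) (Ne.symm n_a1_y2))).trans hy2
  obtain ⟨π4, i4, r4w, r4x, r4a, r4o⟩ := rot π3 i3 a2 y2 q3a2 (by rw [q3y2]; exact n_b2_y2)
  rw [q3y2] at r4a r4o
  have q4b1 : π4 b1 = b1 := (r4o b1 n_b1_a2 n_b1_y2 n_b1_b2).trans r3a
  obtain ⟨π5, i5, r5b, r5c, r5o⟩ := join π4 i4 b1 b2 n_b1_b2 q4b1 r4a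
  refine ⟨π5, i5, ?_, ?_, ?_, ?_, r5b, r5c, ?_, ?_, ?_, ?_, ?_⟩
  · exact ((((r5o w1 n_w1_b1 n_w1_b2).trans (r4o w1 n_w1_a2 n_w1_y2 n_w1_b2)).trans (r3o w1 n_w1_a1 n_w1_y1 n_w1_b1)).trans (r2o w1 n_w1_w2 n_w1_x2 n_w1_a2)).trans r1w
  · exact ((((r5o x1 n_x1_b1 n_x1_b2).trans (r4o x1 n_x1_a2 n_x1_y2 n_x1_b2)).trans (r3o x1 n_x1_a1 n_x1_y1 n_x1_b1)).trans (r2o x1 n_x1_w2 n_x1_x2 n_x1_a2)).trans r1x
  · exact ((r5o a1 n_a1_b1 n_a1_b2).trans (r4o a1 n_a1_a2 n_a1_y2 n_a1_b2)).trans r3w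
  · exact ((r5o y1 n_y1_b1 n_y1_b2).trans (r4o y1 n_y1_a2 n_y1_y2 n_y1_b2)).trans r3x
  · exact (r5o y2 (Ne.symm n_b1_y2) (Ne.symm n_b2_y2)).trans r4x
  · exact (r5o a2 (Ne.symm n_b1_a2) (Ne.symm n_b2_a2)).trans r4w
  · exact (((r5o x2 (Ne.symm n_b1_x2) (Ne.symm n_b2_x2)).trans (r4o x2 (Ne.symm n_a2_x2) (Ne.symm n_y2_x2) (Ne.symm n_b2_x2))).trans (r3o x2 (Ne.symm n_a1_x2) (Ne.symm n_y1_x2) (Ne.symm n_b1_x2))).trans r2x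
  · exact (((r5o w2 (Ne.symm n_b1_w2) (Ne.symm n_b2_w2)).trans (r4o w2 (Ne.symm n_a2_w2) (Ne.symm n_y2_w2) (Ne.symm n_b2_w2))).trans (r3o w2 (Ne.symm n_a1_w2) (Ne.symm n_y1_w2) (Ne.symm n_b1_w2))).trans r2w
  · intro v hv
    simp only [List.mem_cons, List.not_mem_nil, not_or, or_false] at hv
    obtain ⟨v1, v2, v3, v4, v5, v6, v7, v8, v9, v10⟩ := hv
    rw [r5o v v5 v6, r4o v v8 v7 v6, r3o v v3 v4 v5, r2o v v10 v9 v8, r1o v v1 v2 v3]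

private theorem DnConn_sel {V : Type} [Fintype V] (F : SimpleGraph V) (w : V) (Bp T : Finset V)
    (m : ℕ) (h : m + Bp.card + T.card ≤ dg F w) :
    ∃ X : Finset V, X.card = m ∧ ∀ x ∈ X, F.Adj w x ∧ x ∉ Bp ∧ x ∉ T := by
  have h1 : m ≤ ((univ.filter fun u => F.Adj w u) \ (Bp ∪ T)).card := by
    have h2 := le_card_sdiff (Bp ∪ T) (univ.filter fun u => F.Adj w u)
    have h3 := card_union_le Bp T
    unfold dg at h
    omega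
  obtain ⟨X, hX, hc⟩ := exists_subset_card_eq h1
  refine ⟨X, hc, fun x hx => ?_⟩
  have h2 := hX hx
  rw [mem_sdiff, mem_filter, mem_union, not_or] at h2
  exact ⟨h2.1.2, h2.2.1, h2.2.2⟩

private theorem DnConn_B {V : Type} [Fintype V] (F : SimpleGraph V) (D m bb q ζ : ℕ)
    (hF : Ex F D m bb q ζ) (π : V → V) (hπ : Inv π) (A : Finset V) (hA : m ≤ A.card)
    (Bad : Finset V) (hBad : Bad.card ≤ q) :
    ∃ B : Finset V, bb ≤ B.card + q ∧ ∀ b ∈ B, π b ∉ Bad ∧ ∃ a ∈ A, F.Adj a (π b) := by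
  have hinj : Function.Injective π := fun a b h => by rw [← hπ a, h, hπ b]
  obtain ⟨NA, hNA⟩ : ∃ NA : Finset V, NA = univ.filter (fun y => ∃ a ∈ A, F.Adj a y) := ⟨_, rfl⟩
  have h1 := hF.p2 A (univ \ NA) hA (by
    intro a ha y hy hay
    rw [mem_sdiff] at hy
    apply hy.2
    rw [hNA, mem_filter]
    exact ⟨mem_univ _, a, ha, hay⟩)
  have h2 : (univ \ NA).card = Fintype.card V - NA.card := by
    rw [card_univ_sdiff]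
  have h3 : NA.card ≤ Fintype.card V := card_le_univ _
  have h4 := le_card_sdiff Bad NA
  refine ⟨(NA \ Bad).image π, ?_, ?_⟩
  · rw [card_image_of_injective _ hinj]
    omega
  · intro b hb
    rw [mem_image] at hb
    obtain ⟨c, hc, rfl⟩ := hb
    rw [mem_sdiff, hNA, mem_filter] at hc
    rw [hπ c]
    exact ⟨hc.2, hc.1.2⟩

theorem conn {V : Type} [Fintype V] (F : SimpleGraph V) (D m bb q ζ β : ℕ)
    (hF : Ex F D m bb q ζ) (h1 : ζ + 2 * β + 3 * m ≤ D) (h2 : ζ + 2 * β + 4 * m ≤ q)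
    (π : V → V) (hπ : Inv π) (Bl : Finset V) (hBl : Bl.card ≤ β)
    (hZ : (univ.filter fun v => π v = v ∧ v ∉ Bl).card ≤ ζ)
    (w1 w2 : V) (hw : w1 ≠ w2) (hw1 : π w1 = w1) (hw2 : π w2 = w2) :
    ∃ π' : V → V, Inv π' ∧ (∀ v, π v ≠ v → π' v ≠ v) ∧ π' w1 ≠ w1 ∧ π' w2 ≠ w2 ∧
      (∀ v, π' v = π v ∨ F.Adj v (π' v)) ∧ (∀ v ∈ Bl, v ≠ w1 → v ≠ w2 → π' v = π v) ∧
      (univ.filter fun v => π' v ≠ π v).card ≤ 10 := by
  have hinj : Function.Injective π := fun a b h => by rw [← hπ a, h, hπ b]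
  -- the bad vertices
  obtain ⟨Bp, hBp⟩ : ∃ Bp : Finset V, Bp = (Bl ∪ Bl.image π) ∪
      univ.filter (fun v => π v = v ∧ v ∉ Bl) := ⟨_, rfl⟩
  have hBpc : Bp.card ≤ 2 * β + ζ := by
    rw [hBp]
    have h3 := card_union_le (Bl ∪ Bl.image π) (univ.filter (fun v => π v = v ∧ v ∉ Bl))
    have h4 := card_union_le Bl (Bl.image π)
    have h5 : (Bl.image π).card ≤ Bl.card := card_image_le
    omega
  have hBpi : ∀ v, v ∈ Bp → π v ∈ Bp := by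
    intro v hv
    rw [hBp] at hv ⊢
    simp only [mem_union, mem_image, mem_filter, mem_univ, true_and] at hv ⊢
    rcases hv with (h | ⟨u, h, rfl⟩) | ⟨h, h'⟩
    · exact Or.inl (Or.inr ⟨v, h, rfl⟩)
    · rw [hπ u]
      exact Or.inl (Or.inl h)
    · right
      rw [h]
      exact ⟨h, h'⟩
  have hBpn : ∀ v, v ∉ Bp → π v ∉ Bp := by
    intro v hv h
    have := hBpi _ h
    rw [hπ v] at this
    exact hv this
  have hBpf : ∀ v, π v = v → v ∈ Bp := by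
    intro v hv
    rw [hBp]
    simp only [mem_union, mem_image, mem_filter, mem_univ, true_and]
    by_cases h : v ∈ Bl
    · exact Or.inl (Or.inl h)
    · exact Or.inr ⟨hv, h⟩
  have hBpB : ∀ v, v ∈ Bl → v ∈ Bp := by
    intro v hv
    rw [hBp]
    exact mem_union_left _ (mem_union_left _ hv)
  -- the first neighbours
  obtain ⟨X1, hX1c, hX1⟩ := DnConn_sel F w1 Bp ∅ m (by
    rw [card_empty]
    have := hF.d1 w1
    omega)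
  obtain ⟨S1, hS1⟩ : ∃ S1 : Finset V, S1 = X1 ∪ X1.image π := ⟨_, rfl⟩
  have hS1c : S1.card ≤ 2 * m := by
    rw [hS1]
    have h3 := card_union_le X1 (X1.image π)
    have h5 : (X1.image π).card ≤ X1.card := card_image_le
    omega
  obtain ⟨X2, hX2c, hX2⟩ := DnConn_sel F w2 Bp S1 m (by
    have := hF.d1 w2
    omega)
  obtain ⟨S2, hS2⟩ : ∃ S2 : Finset V, S2 = X2 ∪ X2.image π := ⟨_, rfl⟩
  have hS2c : S2.card ≤ 2 * m := by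
    rw [hS2]
    have h3 := card_union_le X2 (X2.image π)
    have h5 : (X2.image π).card ≤ X2.card := card_image_le
    omega
  have hinv : ∀ X : Finset V, ∀ v, v ∈ X ∪ X.image π → π v ∈ X ∪ X.image π := by
    intro X v hv
    rw [mem_union, mem_image] at hv ⊢
    rcases hv with h | ⟨u, h, rfl⟩
    · exact Or.inr ⟨v, h, rfl⟩
    · rw [hπ u]
      exact Or.inl h
  have hS1i : ∀ v, v ∈ S1 → π v ∈ S1 := by
    rw [hS1]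
    exact hinv X1
  have hS2i : ∀ v, v ∈ S2 → π v ∈ S2 := by
    rw [hS2]
    exact hinv X2
  have hS1n : ∀ v, π v ∉ S1 → v ∉ S1 := fun v h h' => h (hS1i v h')
  have hS2n : ∀ v, π v ∉ S2 → v ∉ S2 := fun v h h' => h (hS2i v h')
  have hdis : ∀ v, v ∈ S2 → v ∉ S1 := by
    intro v hv
    rw [hS2, mem_union, mem_image] at hv
    rcases hv with h | ⟨u, h, rfl⟩
    · exact (hX2 v h).2.2
    · intro h3
      have := hS1i _ h3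
      rw [hπ u] at this
      exact (hX2 u h).2.2 this
  -- the second neighbours
  obtain ⟨Bad, hBad⟩ : ∃ Bad : Finset V, Bad = Bp ∪ (S1 ∪ S2) := ⟨_, rfl⟩
  have hBadc : Bad.card ≤ q := by
    rw [hBad]
    have h3 := card_union_le Bp (S1 ∪ S2)
    have h4 := card_union_le S1 S2
    omega
  have hA : ∀ X : Finset V, X.card = m → m ≤ (X.image π).card := by
    intro X hX
    rw [card_image_of_injective _ hinj, hX]
  obtain ⟨B1, hB1c, hB1⟩ := DnConn_B F D m bb q ζ hF π hπ (X1.image π) (hA X1 hX1c) Bad hBadc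
  obtain ⟨B2, hB2c, hB2⟩ := DnConn_B F D m bb q ζ hF π hπ (X2.image π) (hA X2 hX2c) Bad hBadc
  have hex : ∃ b1 ∈ B1, ∃ b2 ∈ B2, F.Adj b1 b2 ∧ b2 ≠ π b1 := by
    by_contra hcon
    push Not at hcon
    have h3 := hF.p3 B1 B2 hB1c hB2c
    have h4 : ((B1 ×ˢ B2).filter fun x => F.Adj x.1 x.2) ⊆ B1.image (fun b => (b, π b)) := by
      intro x hx
      rw [mem_filter, mem_product] at hx
      rw [mem_image]
      refine ⟨x.1, hx.1.1, ?_⟩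
      have := hcon x.1 hx.1.1 x.2 hx.1.2 hx.2
      rw [← this]
    have h5 := (card_le_card h4).trans card_image_le
    have h6 : B1.card ≤ Fintype.card V := card_le_univ _
    unfold ee at h3
    omega
  obtain ⟨b1, hb1, b2, hb2, hbb, hne⟩ := hex
  obtain ⟨hy1n, a1, ha1, hay1⟩ := hB1 b1 hb1
  obtain ⟨hy2n, a2, ha2, hay2⟩ := hB2 b2 hb2
  rw [mem_image] at ha1 ha2
  obtain ⟨x1, hx1, hxa1⟩ := ha1
  obtain ⟨x2, hx2, hxa2⟩ := ha2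
  obtain ⟨y1, hy1⟩ : ∃ y1, y1 = π b1 := ⟨_, rfl⟩
  obtain ⟨y2, hy2⟩ : ∃ y2, y2 = π b2 := ⟨_, rfl⟩
  rw [← hy1] at hy1n hay1 hne
  rw [← hy2] at hy2n hay2
  have hyb1 : π y1 = b1 := by rw [hy1, hπ b1]
  have hyb2 : π y2 = b2 := by rw [hy2, hπ b2]
  obtain ⟨hwx1, Bx1, -⟩ := hX1 x1 hx1
  obtain ⟨hwx2, Bx2, -⟩ := hX2 x2 hx2
  rw [hBad, mem_union, mem_union, not_or, not_or] at hy1n hy2n
  obtain ⟨By1, Sy1, Ty1⟩ := hy1n
  obtain ⟨By2, Sy2, Ty2⟩ := hy2n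
  have Bb1 : b1 ∉ Bp := by
    rw [← hyb1]
    exact hBpn _ By1
  have Bb2 : b2 ∉ Bp := by
    rw [← hyb2]
    exact hBpn _ By2
  have Sb1 : b1 ∉ S1 := hS1n _ (by rw [← hy1]; exact Sy1)
  have Tb1 : b1 ∉ S2 := hS2n _ (by rw [← hy1]; exact Ty1)
  have Sb2 : b2 ∉ S1 := hS1n _ (by rw [← hy2]; exact Sy2)
  have Tb2 : b2 ∉ S2 := hS2n _ (by rw [← hy2]; exact Ty2)
  have Ba1 : a1 ∉ Bp := by
    rw [← hxa1]
    exact hBpn _ Bx1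
  have Ba2 : a2 ∉ Bp := by
    rw [← hxa2]
    exact hBpn _ Bx2
  have Sx1 : x1 ∈ S1 := by
    rw [hS1]
    exact mem_union_left _ hx1
  have Sa1 : a1 ∈ S1 := by
    rw [← hxa1]
    exact hS1i _ Sx1
  have Tx2 : x2 ∈ S2 := by
    rw [hS2]
    exact mem_union_left _ hx2
  have Ta2 : a2 ∈ S2 := by
    rw [← hxa2]
    exact hS2i _ Tx2
  have Sx2 : x2 ∉ S1 := hdis _ Tx2
  have Sa2 : a2 ∉ S1 := hdis _ Ta2
  have Bw1 : w1 ∈ Bp := hBpf _ hw1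
  have Bw2 : w2 ∈ Bp := hBpf _ hw2
  have hfix : ∀ v, v ∉ Bp → π v ≠ v := fun v h h' => h (hBpf v h')
  have e1 : x1 ≠ a1 := by
    rw [← hxa1]
    exact (hfix _ Bx1).symm
  have e2 : x2 ≠ a2 := by
    rw [← hxa2]
    exact (hfix _ Bx2).symm
  have e3 : y1 ≠ b1 := by
    rw [← hyb1]
    exact (hfix _ By1).symm
  have e4 : y2 ≠ b2 := by
    rw [← hyb2]
    exact (hfix _ By2).symm
  have e5 : y1 ≠ b2 := hne.symm
  have e6 : b1 ≠ b2 := F.ne_of_adj hbb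
  have e7 : b1 ≠ y2 := by
    intro h
    apply hne
    rw [hy1, h, hyb2]
  have e8 : y1 ≠ y2 := by
    intro h
    rw [hy1, hy2] at h
    exact e6 (hinj h)
  have n_w1_x1 : w1 ≠ x1 := (ne_of_mem_of_not_mem Bw1 Bx1)
  have n_w1_a1 : w1 ≠ a1 := (ne_of_mem_of_not_mem Bw1 Ba1)
  have n_w1_y1 : w1 ≠ y1 := (ne_of_mem_of_not_mem Bw1 By1)
  have n_w1_b1 : w1 ≠ b1 := (ne_of_mem_of_not_mem Bw1 Bb1)
  have n_w1_b2 : w1 ≠ b2 := (ne_of_mem_of_not_mem Bw1 Bb2)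
  have n_w1_y2 : w1 ≠ y2 := (ne_of_mem_of_not_mem Bw1 By2)
  have n_w1_a2 : w1 ≠ a2 := (ne_of_mem_of_not_mem Bw1 Ba2)
  have n_w1_x2 : w1 ≠ x2 := (ne_of_mem_of_not_mem Bw1 Bx2)
  have n_w1_w2 : w1 ≠ w2 := hw
  have n_x1_a1 : x1 ≠ a1 := e1
  have n_x1_y1 : x1 ≠ y1 := (ne_of_mem_of_not_mem Sx1 Sy1)
  have n_x1_b1 : x1 ≠ b1 := (ne_of_mem_of_not_mem Sx1 Sb1)
  have n_x1_b2 : x1 ≠ b2 := (ne_of_mem_of_not_mem Sx1 Sb2)
  have n_x1_y2 : x1 ≠ y2 := (ne_of_mem_of_not_mem Sx1 Sy2)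
  have n_x1_a2 : x1 ≠ a2 := (ne_of_mem_of_not_mem Sx1 Sa2)
  have n_x1_x2 : x1 ≠ x2 := (ne_of_mem_of_not_mem Sx1 Sx2)
  have n_x1_w2 : x1 ≠ w2 := (ne_of_mem_of_not_mem Bw2 Bx1).symm
  have n_a1_y1 : a1 ≠ y1 := (ne_of_mem_of_not_mem Sa1 Sy1)
  have n_a1_b1 : a1 ≠ b1 := (ne_of_mem_of_not_mem Sa1 Sb1)
  have n_a1_b2 : a1 ≠ b2 := (ne_of_mem_of_not_mem Sa1 Sb2)
  have n_a1_y2 : a1 ≠ y2 := (ne_of_mem_of_not_mem Sa1 Sy2)
  have n_a1_a2 : a1 ≠ a2 := (ne_of_mem_of_not_mem Sa1 Sa2)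
  have n_a1_x2 : a1 ≠ x2 := (ne_of_mem_of_not_mem Sa1 Sx2)
  have n_a1_w2 : a1 ≠ w2 := (ne_of_mem_of_not_mem Bw2 Ba1).symm
  have n_y1_b1 : y1 ≠ b1 := e3
  have n_y1_b2 : y1 ≠ b2 := e5
  have n_y1_y2 : y1 ≠ y2 := e8
  have n_y1_a2 : y1 ≠ a2 := (ne_of_mem_of_not_mem Ta2 Ty1).symm
  have n_y1_x2 : y1 ≠ x2 := (ne_of_mem_of_not_mem Tx2 Ty1).symm
  have n_y1_w2 : y1 ≠ w2 := (ne_of_mem_of_not_mem Bw2 By1).symm
  have n_b1_b2 : b1 ≠ b2 := e6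
  have n_b1_y2 : b1 ≠ y2 := e7
  have n_b1_a2 : b1 ≠ a2 := (ne_of_mem_of_not_mem Ta2 Tb1).symm
  have n_b1_x2 : b1 ≠ x2 := (ne_of_mem_of_not_mem Tx2 Tb1).symm
  have n_b1_w2 : b1 ≠ w2 := (ne_of_mem_of_not_mem Bw2 Bb1).symm
  have n_b2_y2 : b2 ≠ y2 := e4.symm
  have n_b2_a2 : b2 ≠ a2 := (ne_of_mem_of_not_mem Ta2 Tb2).symm
  have n_b2_x2 : b2 ≠ x2 := (ne_of_mem_of_not_mem Tx2 Tb2).symm
  have n_b2_w2 : b2 ≠ w2 := (ne_of_mem_of_not_mem Bw2 Bb2).symm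
  have n_y2_a2 : y2 ≠ a2 := (ne_of_mem_of_not_mem Ta2 Ty2).symm
  have n_y2_x2 : y2 ≠ x2 := (ne_of_mem_of_not_mem Tx2 Ty2).symm
  have n_y2_w2 : y2 ≠ w2 := (ne_of_mem_of_not_mem Bw2 By2).symm
  have n_a2_x2 : a2 ≠ x2 := e2.symm
  have n_a2_w2 : a2 ≠ w2 := (ne_of_mem_of_not_mem Bw2 Ba2).symm
  have n_x2_w2 : x2 ≠ w2 := (ne_of_mem_of_not_mem Bw2 Bx2).symm
  obtain ⟨π', i, rw1, rx1, ra1, ry1, rb1, rb2, ry2, ra2, rx2, rw2, ro⟩ := DnConn_ten π hπ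
    w1 x1 a1 y1 b1 b2 y2 a2 x2 w2 (by
      simp only [List.nodup_cons, List.mem_cons, List.not_mem_nil, not_or, or_false,
        not_false_eq_true, List.nodup_nil, and_true]
      exact ⟨⟨n_w1_x1, n_w1_a1, n_w1_y1, n_w1_b1, n_w1_b2, n_w1_y2, n_w1_a2, n_w1_x2, n_w1_w2⟩, ⟨n_x1_a1, n_x1_y1, n_x1_b1, n_x1_b2, n_x1_y2, n_x1_a2, n_x1_x2, n_x1_w2⟩, ⟨n_a1_y1, n_a1_b1, n_a1_b2, n_a1_y2, n_a1_a2, n_a1_x2, n_a1_w2⟩, ⟨n_y1_b1, n_y1_b2, n_y1_y2, n_y1_a2, n_y1_x2, n_y1_w2⟩, ⟨n_b1_b2, n_b1_y2, n_b1_a2, n_b1_x2, n_b1_w2⟩, ⟨n_b2_y2, n_b2_a2, n_b2_x2, n_b2_w2⟩, ⟨n_y2_a2, n_y2_x2, n_y2_w2⟩, ⟨n_a2_x2, n_a2_w2⟩, n_x2_w2⟩)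
    hw1 hw2 hxa1 hyb1 hxa2 hyb2
  refine ⟨π', i, ?_, ?_, ?_, ?_, ?_, ?_⟩
  · intro v hv
    by_cases hvl : v ∈ [w1, x1, a1, y1, b1, b2, y2, a2, x2, w2]
    · simp only [List.mem_cons, List.not_mem_nil, or_false] at hvl
      rcases hvl with rfl | rfl | rfl | rfl | rfl | rfl | rfl | rfl | rfl | rfl
      · rw [rw1]; exact n_w1_x1.symm
      · rw [rx1]; exact n_w1_x1
      · rw [ra1]; exact n_a1_y1.symm
      · rw [ry1]; exact n_a1_y1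
      · rw [rb1]; exact n_b1_b2.symm
      · rw [rb2]; exact n_b1_b2
      · rw [ry2]; exact n_y2_a2.symm
      · rw [ra2]; exact n_y2_a2
      · rw [rx2]; exact n_x2_w2.symm
      · rw [rw2]; exact n_x2_w2
    · rw [ro v hvl]
      exact hv
  · rw [rw1]
    exact n_w1_x1.symm
  · rw [rw2]
    exact n_x2_w2
  · intro v
    by_cases hvl : v ∈ [w1, x1, a1, y1, b1, b2, y2, a2, x2, w2]
    · right
      simp only [List.mem_cons, List.not_mem_nil, or_false] at hvl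
      rcases hvl with rfl | rfl | rfl | rfl | rfl | rfl | rfl | rfl | rfl | rfl
      · rw [rw1]; exact hwx1
      · rw [rx1]; exact hwx1.symm
      · rw [ra1]; exact hay1
      · rw [ry1]; exact hay1.symm
      · rw [rb1]; exact hbb
      · rw [rb2]; exact hbb.symm
      · rw [ry2]; exact hay2.symm
      · rw [ra2]; exact hay2
      · rw [rx2]; exact hwx2.symm
      · rw [rw2]; exact hwx2
    · left
      exact ro v hvl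
  · intro v hv hv1 hv2
    have hvB := hBpB v hv
    apply ro
    simp only [List.mem_cons, List.not_mem_nil, or_false, not_or]
    exact ⟨hv1, ne_of_mem_of_not_mem hvB Bx1, ne_of_mem_of_not_mem hvB Ba1,
      ne_of_mem_of_not_mem hvB By1, ne_of_mem_of_not_mem hvB Bb1, ne_of_mem_of_not_mem hvB Bb2,
      ne_of_mem_of_not_mem hvB By2, ne_of_mem_of_not_mem hvB Ba2, ne_of_mem_of_not_mem hvB Bx2,
      hv2⟩
  · have h3 : (univ.filter fun v => π' v ≠ π v) ⊆ ([w1, x1, a1, y1, b1, b2, y2, a2, x2, w2] : List V).toFinset := by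
      intro v hv
      rw [mem_filter] at hv
      rw [List.mem_toFinset]
      by_contra h
      exact hv.2 (ro v h)
    refine (card_le_card h3).trans ((List.toFinset_card_le _).trans ?_)
    simp

end Pool.Agent.H71.DN
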