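import Mathlib
import Pool.Agent.H71.DN.Alt

/-!
LRG: when there are at least `ζ` uncovered vertices outside `Bl` (other than `w`), the uncovered
vertex `w` gets covered by an alternating path of length 1, 3 or 5 to one of them:
`w - z`, or `w - x = a - z`, or `w - x = a - y = b - z`
(`-` an edge of `F`, `=` an edge of the matching `π`).

Proof.  `Z := {v : π v = v, v ∉ Bl, v ≠ w}`, `#Z ≥ ζ`.
(a) Some `z ∈ Z` with `F.Adj w z`: `join` `w z`.
(b) Otherwise every `F`-neighbour `x ∉ Bl` of `w` is covered (`x ≠ w`). The set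
   `{x ∈ N_F(w) : x ∉ Bl, π x ∉ Bl}` has at least `D - 2β ≥ m` elements; take `X` in it, `#X = m`;
   `A := π(X)`, `#A = m`; `S := X ∪ A` is `π`-invariant, `#S ≤ 2m`.
   If some `a ∈ A`, `z ∈ Z` have `F.Adj a z`: with `x := π a ∈ X`: `rot` `(w, x)` uncovers `a`
   (`z` stays uncovered, as `z ≠ w`, and `x`, `a` are covered by `π`), then `join` `a z`.
(c) Otherwise `NA := {y : ∃ a ∈ A, F.Adj a y}` is disjoint from `Z`, and `#NA ≥ bb` by `p2` (with
   `Y = univ ∖ NA`). `B := π '' {y ∈ NA : y ∉ Bl, π y ∉ Bl, y ≠ w, y ∉ S}`,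
   `#B ≥ bb - 2β - 1 - 2m ≥ bb - q`. All these `y` are covered (`y ∉ Z`, `y ∉ Bl`, `y ≠ w`).
   `p4` (`ee F B Z > 0`) gives `b ∈ B`, `z ∈ Z` with `F.Adj b z`; `y := π b`, `a ∈ A` with
   `F.Adj a y`, `x := π a`, `F.Adj w x`. The vertices `w, z` (uncovered, distinct), `x, a` (in `S`),
   `y, b` (outside `S`) are distinct. `rot` `(w, x)` uncovers `a`; `rot` `(a, y)` uncovers `b`;
   `join` `b z`. The new matching: `w ↔ x`, `a ↔ y`, `b ↔ z`, unchanged elsewhere.
In all the cases the changed vertices other than `w` are outside `Bl`, at most 6 vertices change,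
all new pairs are edges of `F`, and everything covered stays covered.
-/

set_option autoImplicit false

namespace Pool.Agent.H71.DN

open Finset Classical

theorem DnLrg_inj {V : Type} {π : V → V} (hπ : Inv π) : Function.Injective π := fun a b h => by
  rw [← hπ a, h, hπ b]

/-- the elements with partner in `Bl` -/
theorem DnLrg_pre {V : Type} [Fintype V] {π : V → V} (hπ : Inv π) (Bl : Finset V) (β : ℕ)
    (hBl : Bl.card ≤ β) : (univ.filter fun x => π x ∈ Bl).card ≤ β := by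
  refine le_trans (card_le_card (t := Bl.image π) ?_) (card_image_le.trans hBl)
  intro x hx
  rw [mem_filter] at hx
  exact mem_image.2 ⟨π x, hx.2, hπ x⟩

/-- few changed vertices -/
theorem DnLrg_card {V : Type} [Fintype V] {π π' : V → V} (L : Finset V) (n : ℕ) (hL : L.card ≤ n)
    (h : ∀ v, v ∉ L → π' v = π v) : (univ.filter fun v => π' v ≠ π v).card ≤ n := by
  refine (card_le_card ?_).trans hL
  intro v hv
  rw [mem_filter] at hv
  by_contra h2
  exact hv.2 (h v h2)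

theorem lrg {V : Type} [Fintype V] (F : SimpleGraph V) (D m bb q ζ β : ℕ)
    (hF : Ex F D m bb q ζ) (h1 : 2 * β + m ≤ D) (h2 : 2 * β + 2 * m + 1 ≤ q)
    (π : V → V) (hπ : Inv π) (Bl : Finset V) (hBl : Bl.card ≤ β) (w : V) (hw : π w = w)
    (hZ : ζ ≤ (univ.filter fun v => π v = v ∧ v ∉ Bl ∧ v ≠ w).card) :
    ∃ π' : V → V, Inv π' ∧ (∀ v, π v ≠ v → π' v ≠ v) ∧ π' w ≠ w ∧
      (∀ v, π' v = π v ∨ F.Adj v (π' v)) ∧ (∀ v ∈ Bl, v ≠ w → π' v = π v) ∧
      (univ.filter fun v => π' v ≠ π v).card ≤ 10 := by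
  have hinj := DnLrg_inj hπ
  by_cases ha : ∃ z, π z = z ∧ z ∉ Bl ∧ z ≠ w ∧ F.Adj w z
  · -- case a
    obtain ⟨z, hz1, hz2, hz3, hz4⟩ := ha
    obtain ⟨π', k1, k2, k3, k4⟩ := join π hπ w z hz3.symm hw hz1
    refine ⟨π', k1, ?_, ?_, ?_, ?_, ?_⟩
    · intro v hv
      have e1 : v ≠ w := fun h => hv (by rw [h, hw])
      have e2 : v ≠ z := fun h => hv (by rw [h, hz1])
      rw [k4 v e1 e2]
      exact hv
    · rw [k2]
      exact hz3
    · intro v
      by_cases e1 : v = w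
      · right
        rw [e1, k2]
        exact hz4
      by_cases e2 : v = z
      · right
        rw [e2, k3]
        exact hz4.symm
      exact Or.inl (k4 v e1 e2)
    · intro v hv e1
      exact k4 v e1 (fun h => hz2 (h ▸ hv))
    · refine DnLrg_card {w, z} 10 ((card_le_two).trans (by norm_num)) ?_
      intro v hv
      simp only [mem_insert, mem_singleton, not_or] at hv
      exact k4 v hv.1 hv.2
  -- neighbours of w outside Bl are covered
  have hcov : ∀ x, F.Adj w x → x ∉ Bl → π x ≠ x := fun x hx hxB h =>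
    ha ⟨x, h, hxB, hx.ne', hx⟩
  have hN1 : m ≤ (univ.filter fun x => F.Adj w x ∧ x ∉ Bl ∧ π x ∉ Bl).card := by
    have e1 : D ≤ (univ.filter fun u => F.Adj w u).card := hF.d1 w
    have e2 : (univ.filter fun u => F.Adj w u) ⊆
        ((univ.filter fun x => F.Adj w x ∧ x ∉ Bl ∧ π x ∉ Bl) ∪ Bl) ∪ (univ.filter fun x => π x ∈ Bl) := by
      intro u hu
      simp only [mem_filter, mem_univ, true_and] at hu
      simp only [mem_union, mem_filter, mem_univ, true_and]
      by_cases e3 : u ∈ Bl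
      · exact Or.inl (Or.inr e3)
      by_cases e4 : π u ∈ Bl
      · exact Or.inr e4
      exact Or.inl (Or.inl ⟨hu, e3, e4⟩)
    have e3 := (card_le_card e2).trans ((card_union_le _ _).trans (Nat.add_le_add_right (card_union_le _ _) _))
    have e4 := DnLrg_pre hπ Bl β hBl
    omega
  obtain ⟨X, hXs, hXc⟩ := exists_subset_card_eq hN1
  have hX : ∀ x ∈ X, F.Adj w x ∧ x ∉ Bl ∧ π x ∉ Bl := by
    intro x hx
    have := hXs hx
    rw [mem_filter] at this
    exact this.2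
  have hAc : (X.image π).card = m := by rw [card_image_of_injective _ hinj, hXc]
  by_cases hb : ∃ x ∈ X, ∃ z, π z = z ∧ z ∉ Bl ∧ z ≠ w ∧ F.Adj (π x) z
  · -- case b
    obtain ⟨x, hxX, z, hz1, hz2, hz3, hz4⟩ := hb
    obtain ⟨hx1, hx2, hx3⟩ := hX x hxX
    have hx4 := hcov x hx1 hx2
    obtain ⟨π1, a1, a2, a3, a4, a5⟩ := rot π hπ w x hw hx4
    have zx : z ≠ x := fun h => hx4 (by rw [← h, hz1])
    have zpx : z ≠ π x := fun h => hx4 (by
      have e : π z = x := by rw [h, hπ x]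
      rw [← h, ← hz1, e])
    have wpx : w ≠ π x := fun h => hx4 (by
      have e : π w = x := by rw [h, hπ x]
      rw [← h, ← hw, e])
    have hz5 : π1 z = z := by rw [a5 z hz3 zx zpx, hz1]
    obtain ⟨π', k1, k2, k3, k4⟩ := join π1 a1 (π x) z zpx.symm a4 hz5
    have xpx : x ≠ π x := fun h => hx4 h.symm
    have hw' : π' w = x := by rw [k4 w wpx hz3.symm, a2]
    have hx' : π' x = w := by rw [k4 x xpx zx.symm, a3]
    have hoth : ∀ v, v ≠ w → v ≠ x → v ≠ π x → v ≠ z → π' v = π v := fun v e1 e2 e3 e4 => by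
      rw [k4 v e3 e4, a5 v e1 e2 e3]
    refine ⟨π', k1, ?_, ?_, ?_, ?_, ?_⟩
    · intro v hv
      have e1 : v ≠ w := fun h => hv (by rw [h, hw])
      have e2 : v ≠ z := fun h => hv (by rw [h, hz1])
      by_cases e3 : v = x
      · rw [e3, hx']
        exact hx1.ne
      by_cases e4 : v = π x
      · rw [e4, k2]
        exact zpx
      rw [hoth v e1 e3 e4 e2]
      exact hv
    · rw [hw']
      exact hx1.ne'
    · intro v
      by_cases e1 : v = w
      · right
        rw [e1, hw']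
        exact hx1
      by_cases e2 : v = x
      · right
        rw [e2, hx']
        exact hx1.symm
      by_cases e3 : v = π x
      · right
        rw [e3, k2]
        exact hz4
      by_cases e4 : v = z
      · right
        rw [e4, k3]
        exact hz4.symm
      exact Or.inl (hoth v e1 e2 e3 e4)
    · intro v hv e1
      exact hoth v e1 (fun h => hx2 (h ▸ hv)) (fun h => hx3 (h ▸ hv)) (fun h => hz2 (h ▸ hv))
    · refine DnLrg_card {w, x, π x, z} 10 ((card_le_four).trans (by norm_num)) ?_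
      intro v hv
      simp only [mem_insert, mem_singleton, not_or] at hv
      exact hoth v hv.1 hv.2.1 hv.2.2.1 hv.2.2.2
  -- case c
  have hNA : bb ≤ (univ.filter fun y => ∃ a ∈ X.image π, F.Adj a y).card := by
    have e1 := hF.p2 (X.image π) (univ \ (univ.filter fun y => ∃ a ∈ X.image π, F.Adj a y)) hAc.ge (by
      intro a ha' y hy hadj
      rw [mem_sdiff] at hy
      exact hy.2 (mem_filter.2 ⟨mem_univ _, a, ha', hadj⟩))
    rw [card_sdiff_of_subset (subset_univ _), card_univ] at e1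
    have e2 : (univ.filter fun y => ∃ a ∈ X.image π, F.Adj a y).card ≤ Fintype.card V := card_le_univ _
    omega
  have hB0 : bb ≤ (univ.filter fun y => (∃ a ∈ X.image π, F.Adj a y) ∧ y ∉ Bl ∧ π y ∉ Bl ∧ y ≠ w ∧
      y ∉ X ∧ y ∉ X.image π).card + q := by
    have e2 : (univ.filter fun y => ∃ a ∈ X.image π, F.Adj a y) ⊆
        (((((univ.filter fun y => (∃ a ∈ X.image π, F.Adj a y) ∧ y ∉ Bl ∧ π y ∉ Bl ∧ y ≠ w ∧
      y ∉ X ∧ y ∉ X.image π) ∪ Bl) ∪ (univ.filter fun x => π x ∈ Bl)) ∪ {w}) ∪ X) ∪ X.image π := by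
      intro u hu
      simp only [mem_filter, mem_univ, true_and] at hu
      simp only [mem_union, mem_filter, mem_univ, true_and, mem_singleton]
      by_cases e3 : u ∈ Bl
      · tauto
      by_cases e4 : π u ∈ Bl
      · tauto
      by_cases e5 : u = w
      · tauto
      by_cases e6 : u ∈ X
      · tauto
      by_cases e7 : u ∈ X.image π
      · exact Or.inr e7
      exact Or.inl (Or.inl (Or.inl (Or.inl (Or.inl ⟨hu, e3, e4, e5, e6, e7⟩))))
    have e3 := card_le_card e2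
    have s1 := card_union_le (((((univ.filter fun y => (∃ a ∈ X.image π, F.Adj a y) ∧ y ∉ Bl ∧ π y ∉ Bl ∧ y ≠ w ∧
      y ∉ X ∧ y ∉ X.image π) ∪ Bl) ∪ (univ.filter fun x => π x ∈ Bl)) ∪ {w}) ∪ X) (X.image π)
    have s2 := card_union_le ((((univ.filter fun y => (∃ a ∈ X.image π, F.Adj a y) ∧ y ∉ Bl ∧ π y ∉ Bl ∧ y ≠ w ∧
      y ∉ X ∧ y ∉ X.image π) ∪ Bl) ∪ (univ.filter fun x => π x ∈ Bl)) ∪ {w}) X
    have s3 := card_union_le (((univ.filter fun y => (∃ a ∈ X.image π, F.Adj a y) ∧ y ∉ Bl ∧ π y ∉ Bl ∧ y ≠ w ∧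
      y ∉ X ∧ y ∉ X.image π) ∪ Bl) ∪ (univ.filter fun x => π x ∈ Bl)) {w}
    have s4 := card_union_le ((univ.filter fun y => (∃ a ∈ X.image π, F.Adj a y) ∧ y ∉ Bl ∧ π y ∉ Bl ∧ y ≠ w ∧
      y ∉ X ∧ y ∉ X.image π) ∪ Bl) (univ.filter fun x => π x ∈ Bl)
    have s5 := card_union_le (univ.filter fun y => (∃ a ∈ X.image π, F.Adj a y) ∧ y ∉ Bl ∧ π y ∉ Bl ∧ y ≠ w ∧
      y ∉ X ∧ y ∉ X.image π) Bl
    have s6 := DnLrg_pre hπ Bl β hBl
    have s7 : ({w} : Finset V).card = 1 := card_singleton w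
    omega
  have hp4 := hF.p4 ((univ.filter fun y => (∃ a ∈ X.image π, F.Adj a y) ∧ y ∉ Bl ∧ π y ∉ Bl ∧ y ≠ w ∧
      y ∉ X ∧ y ∉ X.image π).image π) _ (by rw [card_image_of_injective _ hinj]; exact hB0) hZ
  unfold ee at hp4
  obtain ⟨⟨b, z⟩, hbz⟩ := card_pos.1 hp4
  rw [mem_filter, mem_product] at hbz
  obtain ⟨⟨hb1, hz0⟩, hbz⟩ := hbz
  rw [mem_filter] at hz0
  obtain ⟨-, hz1, hz2, hz3⟩ := hz0
  obtain ⟨y, hy, hyb⟩ := mem_image.1 hb1
  rw [mem_filter] at hy
  obtain ⟨-, ⟨a, haA, hay⟩, hy1, hy2, hy3, hy4, hy5⟩ := hy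
  obtain ⟨x, hxX, hxa⟩ := mem_image.1 haA
  obtain ⟨hx1, hx2, hx3⟩ := hX x hxX
  have hx4 := hcov x hx1 hx2
  simp only at hyb hbz hz1 hz2 hz3
  have hy6 : π y ≠ y := fun h => hb ⟨x, hxX, y, h, hy1, hy3, by rw [hxa]; exact hay⟩
  -- the vertices are distinct
  have hπa : π a = x := by rw [← hxa, hπ x]
  have hπb : π b = y := by rw [← hyb, hπ y]
  have wx : w ≠ x := hx1.ne
  have wa : w ≠ a := fun h => wx (by rw [← hπa, ← h, hw])
  have xa : x ≠ a := fun h => hx4 (by rw [hxa, h])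
  have yw : y ≠ w := hy3
  have yx : y ≠ x := fun h => hy4 (h ▸ hxX)
  have ya : y ≠ a := fun h => hy5 (h ▸ haA)
  have yb : y ≠ b := fun h => hy6 (by rw [hyb, ← h])
  have bw : b ≠ w := fun h => yw (by rw [← hπb, h, hw])
  have bx : b ≠ x := fun h => ya (by rw [← hπb, h, hxa])
  have ba : b ≠ a := fun h => yx (by rw [← hπb, h, hπa])
  have zw : z ≠ w := hz3
  have zx : z ≠ x := fun h => hx4 (by rw [← h, hz1])
  have za : z ≠ a := fun h => xa (by rw [← hπa, ← h, hz1, h])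
  have zy : z ≠ y := fun h => hy6 (by rw [← h, hz1])
  have zb : z ≠ b := fun h => yb (by rw [← hπb, ← h, hz1, h])
  have hbB : b ∉ Bl := hyb ▸ hy2
  have haB : a ∉ Bl := hxa ▸ hx3
  obtain ⟨π1, a1, a2, a3, a4, a5⟩ := rot π hπ w x hw hx4
  rw [hxa] at a4 a5
  have hy7 : π1 y = b := by rw [a5 y yw yx ya, hyb]
  obtain ⟨π2, b1, b2, b3, b4, b5⟩ := rot π1 a1 a y a4 (by rw [hy7]; exact yb.symm)
  rw [hy7] at b4 b5
  have hz5 : π2 z = z := by rw [b5 z za zy zb, a5 z zw zx za, hz1]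
  obtain ⟨π', k1, k2, k3, k4⟩ := join π2 b1 b z zb.symm b4 hz5
  have hw' : π' w = x := by rw [k4 w bw.symm zw.symm, b5 w wa yw.symm bw.symm, a2]
  have hx' : π' x = w := by rw [k4 x bx.symm zx.symm, b5 x xa yx.symm bx.symm, a3]
  have ha' : π' a = y := by rw [k4 a ba.symm za.symm, b2]
  have hy' : π' y = a := by rw [k4 y yb zy.symm, b3]
  have hoth : ∀ v, v ≠ w → v ≠ x → v ≠ a → v ≠ y → v ≠ b → v ≠ z → π' v = π v :=
    fun v e1 e2 e3 e4 e5 e6 => by rw [k4 v e5 e6, b5 v e3 e4 e5, a5 v e1 e2 e3]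
  refine ⟨π', k1, ?_, ?_, ?_, ?_, ?_⟩
  · intro v hv
    have e1 : v ≠ w := fun h => hv (by rw [h, hw])
    have e2 : v ≠ z := fun h => hv (by rw [h, hz1])
    by_cases e3 : v = x
    · rw [e3, hx']
      exact wx
    by_cases e4 : v = a
    · rw [e4, ha']
      exact ya
    by_cases e5 : v = y
    · rw [e5, hy']
      exact ya.symm
    by_cases e6 : v = b
    · rw [e6, k2]
      exact zb
    rw [hoth v e1 e3 e4 e5 e6 e2]
    exact hv
  · rw [hw']
    exact wx.symm
  · intro v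
    by_cases e1 : v = w
    · right
      rw [e1, hw']
      exact hx1
    by_cases e2 : v = x
    · right
      rw [e2, hx']
      exact hx1.symm
    by_cases e3 : v = a
    · right
      rw [e3, ha']
      exact hay
    by_cases e4 : v = y
    · right
      rw [e4, hy']
      exact hay.symm
    by_cases e5 : v = b
    · right
      rw [e5, k2]
      exact hbz
    by_cases e6 : v = z
    · right
      rw [e6, k3]
      exact hbz.symm
    exact Or.inl (hoth v e1 e2 e3 e4 e5 e6)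
  · intro v hv e1
    exact hoth v e1 (fun h => hx2 (h ▸ hv)) (fun h => haB (h ▸ hv)) (fun h => hy1 (h ▸ hv))
      (fun h => hbB (h ▸ hv)) (fun h => hz2 (h ▸ hv))
  · refine DnLrg_card {w, x, a, y, b, z} 10 ((card_le_six).trans (by norm_num)) ?_
    intro v hv
    simp only [mem_insert, mem_singleton, not_or] at hv
    exact hoth v hv.1 hv.2.1 hv.2.2.1 hv.2.2.2.1 hv.2.2.2.2.1 hv.2.2.2.2.2

end Pool.Agent.H71.DN
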