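import Mathlib
import Pool.Agent.H71.DN.Conn
import Pool.Agent.H71.DN.Lrg

/-!
LAB: one label. `π0` is the matching found so far for this label, `U` the forbidden vertices, `W` the
uncovered vertices that have to get covered, `Bl ⊇ U ∪ J` the blocked vertices, `J` is empty or
consists of one joker `z` (uncovered, may get covered in the end to fix the parity).

Proof.  Prove by induction on `k` the statement: for every `π` such that
 (i) `Inv π`; (ii) `∀ v, π0 v ≠ v → π v ≠ v`; (iii) `∀ v, π v = π0 v ∨ F.Adj v (π v)`;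
 (iv) `∀ v ∈ Bl, v ∉ W → v ∉ J → π v = π0 v`; (v) `#{v : π v ≠ π0 v} + 10 k ≤ 10 #W`
 (vi) `#{v ∈ W : π v = v} = k` (or `≤ k`, with strong induction),
 (vii) if `k ≥ 1` then `∀ z ∈ J, π z = z`,
there is `π'` as claimed.
`k = 0`: take `π' = π` (`π v = v` for `v ∈ U`: `v ∈ Bl`, `v ∉ W` by `hW`, `v ∉ J` by `hJ`, so
`π v = π0 v = v`).
Step: choose `w ∈ W` with `π w = w`. Let `Z = {v : π v = v, v ∉ Bl, v ≠ w}`.
 * `ζ ≤ #Z`: `lrg` gives `π1` covering `w`, everything covered stays covered, `≤ 10` more changed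
   vertices; `J ⊆ Bl` and `w ∉ J`, so the joker is untouched. The number of uncovered vertices of `W`
   goes down by at least 1. Use the induction hypothesis (strong induction; (v) keeps room).
 * `#Z < ζ`: then `#{v : π v = v, v ∉ Bl} ≤ #Z + 1 ≤ ζ`.
   - If there is another uncovered `w2 ∈ W`, `w2 ≠ w`: `conn` for `w, w2`; both get covered; the joker
     is untouched (`J ⊆ Bl`, `w, w2 ∉ J`).
   - Otherwise `w` is the only uncovered vertex of `W`. In the first case of `hJ` the joker `z` is
     uncovered (vii), `z ≠ w` as `z ∉ W`: `conn` for `w, z`; then `W` is completely covered, `k = 0`.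
     In the second case of `hJ`: every `v` with `π v = v` has `π0 v = v` (by (ii)), so is in `U` or
     in `W`; hence `{v : π v = v, v ∉ U} = {v ∈ W : π v = v} = {w}`, whose cardinality 1 is odd,
     against `par` (Alt.lean; `π v = v` on `U`).
The bounds needed by `lrg` and `conn` follow from `h1`, `h2`.
-/

set_option autoImplicit false

namespace Pool.Agent.H71.DN

open Finset Classical

theorem lab {V : Type} [Fintype V] (F : SimpleGraph V) (D m bb q ζ β : ℕ)
    (hF : Ex F D m bb q ζ) (h1 : ζ + 1 + 2 * β + 3 * m ≤ D) (h2 : ζ + 1 + 2 * β + 4 * m ≤ q)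
    (π0 : V → V) (hπ : Inv π0) (U Bl W J : Finset V) (hUB : U ⊆ Bl) (hJB : J ⊆ Bl)
    (hBl : Bl.card ≤ β) (hU : ∀ v ∈ U, π0 v = v) (hW : ∀ v ∈ W, π0 v = v ∧ v ∉ U)
    (hJ : (∃ z, J = {z} ∧ π0 z = z ∧ z ∉ W ∧ z ∉ U) ∨
      (J = ∅ ∧ Even (univ \ U).card ∧ ∀ v, π0 v = v → v ∈ U ∨ v ∈ W)) :
    ∃ π' : V → V, Inv π' ∧ (∀ v ∈ U, π' v = v) ∧ (∀ v ∈ W, π' v ≠ v) ∧
      (∀ v, π0 v ≠ v → π' v ≠ v) ∧ (∀ v, π' v = π0 v ∨ F.Adj v (π' v)) ∧
      (∀ v ∈ Bl, v ∉ W → v ∉ J → π' v = π0 v) ∧
      (univ.filter fun v => π' v ≠ π0 v).card ≤ 10 * W.card := by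
  have hJW : ∀ z ∈ J, z ∉ W := by
    intro z hz
    rcases hJ with ⟨z', rfl, _, h, _⟩ | ⟨rfl, _⟩
    · rw [mem_singleton] at hz
      rwa [hz]
    · exact absurd hz (notMem_empty _)
  have hJU : ∀ z ∈ J, z ∉ U := by
    intro z hz
    rcases hJ with ⟨z', rfl, _, _, h⟩ | ⟨rfl, _⟩
    · rw [mem_singleton] at hz
      rwa [hz]
    · exact absurd hz (notMem_empty _)
  have hUfix : ∀ π : V → V, (∀ v ∈ Bl, v ∉ W → v ∉ J → π v = π0 v) → ∀ v ∈ U, π v = v := by
    intro π h4 v hv
    rw [h4 v (hUB hv) (fun h => (hW v h).2 hv) (fun h => hJU v h hv), hU v hv]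
  -- composition of changes
  have hcomp : ∀ π π1 : V → V, (univ.filter fun v => π1 v ≠ π0 v).card ≤
      (univ.filter fun v => π1 v ≠ π v).card + (univ.filter fun v => π v ≠ π0 v).card := by
    intro π π1
    refine le_trans (card_le_card ?_) (card_union_le _ _)
    intro v hv
    rw [mem_filter] at hv
    by_cases h : π1 v = π v
    · refine mem_union_right _ (mem_filter.2 ⟨mem_univ _, ?_⟩)
      rw [← h]
      exact hv.2
    · exact mem_union_left _ (mem_filter.2 ⟨mem_univ _, h⟩)
  have main : ∀ k : ℕ, ∀ π : V → V, Inv π → (∀ v, π0 v ≠ v → π v ≠ v) →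
      (∀ v, π v = π0 v ∨ F.Adj v (π v)) → (∀ v ∈ Bl, v ∉ W → v ∉ J → π v = π0 v) →
      (univ.filter fun v => π v ≠ π0 v).card + 10 * k ≤ 10 * W.card →
      (W.filter fun v => π v = v).card = k → (∀ z ∈ J, π z = z) →
      ∃ π' : V → V, Inv π' ∧ (∀ v ∈ U, π' v = v) ∧ (∀ v ∈ W, π' v ≠ v) ∧
      (∀ v, π0 v ≠ v → π' v ≠ v) ∧ (∀ v, π' v = π0 v ∨ F.Adj v (π' v)) ∧
      (∀ v ∈ Bl, v ∉ W → v ∉ J → π' v = π0 v) ∧
      (univ.filter fun v => π' v ≠ π0 v).card ≤ 10 * W.card := by
    intro k
    induction k using Nat.strong_induction_on with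
    | _ k ih =>
    intro π hi hii hiii hiv hv hvi hvii
    by_cases hex : ∃ w ∈ W, π w = w
    swap
    · push Not at hex
      exact ⟨π, hi, hUfix π hiv, hex, hii, hiii, hiv, by omega⟩
    obtain ⟨w, hwW, hw⟩ := hex
    have hwk : w ∈ W.filter fun v => π v = v := mem_filter.2 ⟨hwW, hw⟩
    have hkpos : 0 < k := by
      rw [← hvi]
      exact card_pos.2 ⟨w, hwk⟩
    -- step for a new matching
    have hstep : ∀ π1 : V → V, (∀ v, π v ≠ v → π1 v ≠ v) → π1 w ≠ w →
        (W.filter fun v => π1 v = v).card < k := by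
      intro π1 hc hw1
      rw [← hvi]
      refine card_lt_card ⟨?_, ?_⟩
      · intro v hv'
        rw [mem_filter] at hv' ⊢
        exact ⟨hv'.1, by_contra fun h => hc v h hv'.2⟩
      · intro h
        exact hw1 (mem_filter.1 (h hwk)).2
    have hadj : ∀ π1 : V → V, (∀ v, π1 v = π v ∨ F.Adj v (π1 v)) →
        ∀ v, π1 v = π0 v ∨ F.Adj v (π1 v) := by
      intro π1 h v
      rcases h v with h' | h'
      · rw [h']
        exact hiii v
      · exact Or.inr h'
    by_cases hZ : ζ ≤ (univ.filter fun v => π v = v ∧ v ∉ Bl ∧ v ≠ w).card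
    · obtain ⟨π1, a1, a2, a3, a4, a5, a6⟩ := lrg F D m bb q ζ β hF (by omega) (by omega) π hi Bl
        hBl w hw hZ
      have hlt := hstep π1 a2 a3
      refine ih _ hlt π1 a1 (fun v h => a2 v (hii v h)) (hadj π1 a4) ?_ ?_ rfl ?_
      · intro v hvB hvW hvJ
        rw [a5 v hvB (fun h => hvW (h ▸ hwW)), hiv v hvB hvW hvJ]
      · have := hcomp π π1
        omega
      · intro z hz
        rw [a5 z (hJB hz) (fun h => hJW z hz (h ▸ hwW)), hvii z hz]
    · rw [not_le] at hZ
      have hZ' : (univ.filter fun v => π v = v ∧ v ∉ Bl).card ≤ ζ := by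
        have hsub : (univ.filter fun v => π v = v ∧ v ∉ Bl) ⊆
            insert w (univ.filter fun v => π v = v ∧ v ∉ Bl ∧ v ≠ w) := by
          intro v hv'
          rw [mem_filter] at hv'
          by_cases h : v = w
          · exact mem_insert.2 (Or.inl h)
          · exact mem_insert.2 (Or.inr (mem_filter.2 ⟨mem_univ _, hv'.2.1, hv'.2.2, h⟩))
        have := (card_le_card hsub).trans (card_insert_le _ _)
        omega
      by_cases hex2 : ∃ w2 ∈ W, w2 ≠ w ∧ π w2 = w2
      · obtain ⟨w2, hw2W, hne, hw2⟩ := hex2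
        obtain ⟨π1, a1, a2, a3, a3', a4, a5, a6⟩ := conn F D m bb q ζ β hF (by omega) (by omega)
          π hi Bl hBl hZ' w w2 (fun h => hne h.symm) hw hw2
        have hlt := hstep π1 a2 a3
        refine ih _ hlt π1 a1 (fun v h => a2 v (hii v h)) (hadj π1 a4) ?_ ?_ rfl ?_
        · intro v hvB hvW hvJ
          rw [a5 v hvB (fun h => hvW (h ▸ hwW)) (fun h => hvW (h ▸ hw2W)), hiv v hvB hvW hvJ]
        · have := hcomp π π1
          omega
        · intro z hz
          rw [a5 z (hJB hz) (fun h => hJW z hz (h ▸ hwW)) (fun h => hJW z hz (h ▸ hw2W)),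
            hvii z hz]
      · push Not at hex2
        rcases hJ with ⟨z, hJz, _, hzW, hzU⟩ | ⟨hJe, hE, hcov⟩
        · have hzz : π z = z := hvii z (by rw [hJz]; exact mem_singleton_self z)
          have hwz : w ≠ z := fun h => hzW (h ▸ hwW)
          obtain ⟨π1, a1, a2, a3, a3', a4, a5, a6⟩ := conn F D m bb q ζ β hF (by omega)
            (by omega) π hi Bl hBl hZ' w z hwz hw hzz
          have h4 : ∀ v ∈ Bl, v ∉ W → v ∉ J → π1 v = π0 v := by
            intro v hvB hvW hvJ
            rw [a5 v hvB (fun h => hvW (h ▸ hwW))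
              (fun h => hvJ (by rw [hJz, h]; exact mem_singleton_self z)), hiv v hvB hvW hvJ]
          refine ⟨π1, a1, hUfix π1 h4, ?_, fun v h => a2 v (hii v h), hadj π1 a4, h4, ?_⟩
          · intro v hvW
            by_cases h : v = w
            · rw [h]
              exact a3
            · exact a2 v (hex2 v hvW h)
          · have := hcomp π π1
            omega
        · exfalso
          have hpar := par π hi U (hUfix π hiv) hE
          have hset : (univ.filter fun v => π v = v ∧ v ∉ U) = {w} := by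
            ext v
            rw [mem_filter, mem_singleton]
            constructor
            · rintro ⟨_, hv1, hv2⟩
              have h0 : π0 v = v := by_contra fun h => hii v h hv1
              rcases hcov v h0 with h | h
              · exact absurd h hv2
              · by_contra hvw
                exact hex2 v h hvw hv1
            · rintro rfl
              exact ⟨mem_univ _, hw, (hW v hwW).2⟩
          rw [hset, card_singleton] at hpar
          exact absurd hpar (by decide)
  refine main _ π0 hπ (fun v h => h) (fun v => Or.inl rfl) (fun v _ _ _ => rfl) ?_ rfl ?_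
  · have h0 : (univ.filter fun v => π0 v ≠ π0 v) = ∅ := by
      ext v
      simp
    rw [h0, card_empty, Nat.zero_add]
    exact Nat.mul_le_mul_left _ (card_le_card (filter_subset _ _))
  · intro z hz
    rcases hJ with ⟨z', rfl, h, _, _⟩ | ⟨rfl, _⟩
    · rw [mem_singleton] at hz
      rw [hz]
      exact h
    · exact absurd hz (notMem_empty _)

end Pool.Agent.H71.DN
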