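import Mathlib
import Pool.Agent.H71.DN.Hit
import Pool.Agent.H28.VAL

/-!
NTM: the natural matchings. A proper edge colouring of `G0` with `N` colours (Vizing), the colours
assigned to the labels by a permutation from `hit`.

Proof.  If `V` is empty everything is trivial (`μ = fun _ => id`). Otherwise `N ≥ 1` and
`H28.vizing (G := G0) (d := N - 1)` (its hypothesis `(G0.neighborSet v).ncard ≤ N - 1` is `hN`:
`dg G0 v = (G0.neighborSet v).ncard`) gives `c : Sym2 V → ℕ` with `H28.IsEC G0 N c` (a proper edge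
colouring with colours `< N`; `H28.ECol G0 N` is `∃ c, IsEC G0 N c`).
For a colour `j < N` let `ν j v` be the `u` with `G0.Adj v u` and `c s(v, u) = j` if there is one
(it is unique), and `v` otherwise. `ν j` is an involution; its moved pairs are edges of `G0`; for
`j ≠ j'`, `ν j v ≠ v → ν j v ≠ ν j' v`.  `#{j < N : ν j v = v} = N - dg G0 v` (`u ↦ c s(v, u)` is a
bijection from the neighbours of `v` to the colours `j` with `ν j v ≠ v`).
For `v` and a colour `j : Fin N` let `I v j = {i : Fin N | i < L ∧ ν j v ≠ v ∧ ν j v ∈ U i}`,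
`#(I v j) ≤ s` by `hU` for the vertex `ν j v`. `hit` gives `σ : Perm (Fin N)` with
`#{j : σ j ∈ I v j} < t` for all `v`. Put `μ ℓ := ν (σ⁻¹ ℓ)` for `ℓ < N` and `μ ℓ := id` otherwise.
The labels `ℓ < L` with `μ ℓ v ≠ v`, `μ ℓ v ∈ U ℓ` correspond to the colours `j = σ⁻¹ ℓ` with
`σ j ∈ I v j`: fewer than `t`. `#{ℓ < L : μ ℓ v = v} ≤ #{j < N : ν j v = v} = N - dg G0 v`.
-/

set_option autoImplicit false

namespace Pool.Agent.H71.DN

open Finset Classical

/-- The matching of the colour `j`. -/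
noncomputable def natm_nu {V : Type} (G0 : SimpleGraph V) (c : Sym2 V → ℕ) (j : ℕ) (v : V) : V :=
  if h : ∃ u, G0.Adj v u ∧ c s(v, u) = j then h.choose else v

theorem natm_adj {V : Type} {G0 : SimpleGraph V} {c : Sym2 V → ℕ} {j : ℕ} {v : V}
    (h : natm_nu G0 c j v ≠ v) : G0.Adj v (natm_nu G0 c j v) ∧ c s(v, natm_nu G0 c j v) = j := by
  by_cases hex : ∃ u, G0.Adj v u ∧ c s(v, u) = j
  · have h1 : natm_nu G0 c j v = hex.choose := by
      unfold natm_nu
      rw [dif_pos hex]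
    rw [h1]
    exact hex.choose_spec
  · exfalso
    apply h
    unfold natm_nu
    rw [dif_neg hex]

theorem natm_eq {V : Type} {G0 : SimpleGraph V} {c : Sym2 V → ℕ} {N : ℕ} (hc : H28.IsEC G0 N c)
    {j : ℕ} {v u : V} (h : G0.Adj v u) (hj : c s(v, u) = j) : natm_nu G0 c j v = u := by
  have hex : ∃ u, G0.Adj v u ∧ c s(v, u) = j := ⟨u, h, hj⟩
  have h1 : natm_nu G0 c j v = hex.choose := by
    unfold natm_nu
    rw [dif_pos hex]
  rw [h1]
  obtain ⟨h2, h3⟩ := hex.choose_spec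
  by_contra hne
  exact hc.2 v _ _ h2 h hne (h3.trans hj.symm)

theorem natm_inv {V : Type} {G0 : SimpleGraph V} {c : Sym2 V → ℕ} {N : ℕ} (hc : H28.IsEC G0 N c)
    (j : ℕ) : Inv (natm_nu G0 c j) := by
  intro v
  by_cases h : natm_nu G0 c j v = v
  · rw [h, h]
  · obtain ⟨h1, h2⟩ := natm_adj h
    exact natm_eq hc h1.symm (by rw [Sym2.eq_swap]; exact h2)

theorem natm {V : Type} [Fintype V] (G0 : SimpleGraph V) (N L s t : ℕ)
    (hN : ∀ v, dg G0 v + 1 ≤ N) (hL : L ≤ N) (U : ℕ → Finset V)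
    (hU : ∀ v, ((range L).filter fun ℓ => v ∈ U ℓ).card ≤ s)
    (ht : Fintype.card V * s ^ t < t.factorial) :
    ∃ μ : ℕ → V → V, (∀ ℓ, Inv (μ ℓ)) ∧ (∀ ℓ v, μ ℓ v ≠ v → G0.Adj v (μ ℓ v)) ∧
      (∀ ℓ < L, ∀ ℓ' < L, ℓ ≠ ℓ' → ∀ v, μ ℓ v ≠ v → μ ℓ v ≠ μ ℓ' v) ∧
      (∀ v, ((range L).filter fun ℓ => μ ℓ v = v).card + dg G0 v ≤ N) ∧
      (∀ v, ((range L).filter fun ℓ => μ ℓ v ≠ v ∧ μ ℓ v ∈ U ℓ).card ≤ t) := by
  rcases isEmpty_or_nonempty V with hV | ⟨⟨v0⟩⟩
  · exact ⟨fun _ => id, fun _ _ => rfl, fun _ v => (hV.false v).elim, fun _ _ _ _ _ v => (hV.false v).elim,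
      fun v => (hV.false v).elim, fun v => (hV.false v).elim⟩
  have hN1 : 1 ≤ N := by have := hN v0; omega
  obtain ⟨c, hc⟩ : H28.ECol G0 N := by
    have h1 := H28.vizing (G := G0) (d := N - 1) (fun v => by
      have h2 : (G0.neighborSet v).ncard = dg G0 v := by
        unfold dg
        rw [Set.ncard_eq_toFinset_card']
        congr 1
        ext u
        simp
      rw [h2]
      have := hN v
      omega)
    rwa [Nat.sub_add_cancel hN1] at h1
  set ν := natm_nu G0 c with hν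
  have hdis : ∀ j j' v, ν j v ≠ v → ν j v = ν j' v → j = j' := by
    intro j j' v h1 h2
    have h3 := (natm_adj h1).2
    have h4 : ν j' v ≠ v := by rw [← h2]; exact h1
    have h5 := (natm_adj h4).2
    change c s(v, ν j v) = j at h3
    change c s(v, ν j' v) = j' at h5
    rw [← h3, ← h5, h2]
  have hcount : ∀ v, ((range N).filter fun j => ν j v = v).card + dg G0 v ≤ N := by
    intro v
    have h1 : dg G0 v ≤ ((range N).filter fun j => ¬ ν j v = v).card := by
      unfold dg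
      apply Finset.card_le_card_of_injOn (fun u => c s(v, u))
      · intro u hu
        have hu' : G0.Adj v u := (mem_filter.1 hu).2
        refine mem_filter.2 ⟨mem_range.2 (hc.1 v u hu'), ?_⟩
        have h2 : ν (c s(v, u)) v = u := natm_eq hc hu' rfl
        show ¬ ν (c s(v, u)) v = v
        rw [h2]
        exact hu'.ne'
      · intro a ha b hb hab
        by_contra hne
        exact hc.2 v a b (mem_filter.1 ha).2 (mem_filter.1 hb).2 hne hab
    have h2 := Finset.card_filter_add_card_filter_not (s := range N) (fun j => ν j v = v)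
    rw [card_range] at h2
    omega
  set I : V → Fin N → Finset (Fin N) := fun v j =>
    univ.filter fun i : Fin N => (i : ℕ) < L ∧ ν j v ≠ v ∧ ν j v ∈ U i with hI
  have hIs : ∀ v j, (I v j).card ≤ s := by
    intro v j
    refine le_trans ?_ (hU (ν j v))
    apply Finset.card_le_card_of_injOn (fun i : Fin N => (i : ℕ))
    · intro i hi
      have h1 := (mem_filter.1 hi).2
      exact mem_filter.2 ⟨mem_range.2 h1.1, h1.2.2⟩
    · intro a _ b _ hab
      exact Fin.ext hab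
  obtain ⟨σ, hσ⟩ := hit I s t hIs ht
  set g : ℕ → Fin N := fun ℓ => if h : ℓ < N then σ.symm ⟨ℓ, h⟩ else ⟨0, hN1⟩ with hg
  have hginj : ∀ ℓ < N, ∀ ℓ' < N, g ℓ = g ℓ' → ℓ = ℓ' := by
    intro ℓ hℓ ℓ' hℓ' h
    rw [hg] at h
    simp only [dif_pos hℓ, dif_pos hℓ'] at h
    have h1 := σ.symm.injective h
    exact congrArg Fin.val h1
  have hσg : ∀ ℓ (hℓ : ℓ < N), σ (g ℓ) = ⟨ℓ, hℓ⟩ := by
    intro ℓ hℓ
    rw [hg]
    simp only [dif_pos hℓ, Equiv.apply_symm_apply]
  refine ⟨fun ℓ => ν (g ℓ), fun ℓ => natm_inv hc _, fun ℓ v h => (natm_adj h).1, ?_, ?_, ?_⟩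
  · intro ℓ hℓ ℓ' hℓ' hne v h1 h2
    have h3 := hdis _ _ v h1 h2
    exact hne (hginj ℓ (hℓ.trans_le hL) ℓ' (hℓ'.trans_le hL) (Fin.ext h3))
  · intro v
    refine le_trans (Nat.add_le_add_right ?_ _) (hcount v)
    apply Finset.card_le_card_of_injOn (fun ℓ => (g ℓ : ℕ))
    · intro ℓ hℓ
      have h1 := (mem_filter.1 hℓ).2
      exact mem_filter.2 ⟨mem_range.2 (g ℓ).2, h1⟩
    · intro a ha b hb hab
      exact hginj a ((mem_range.1 (mem_filter.1 ha).1).trans_le hL) b
        ((mem_range.1 (mem_filter.1 hb).1).trans_le hL) (Fin.ext hab)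
  · intro v
    have hσv : (univ.filter fun i : Fin N => σ i ∈ I v i).card ≤ t := by
      refine le_trans (le_of_eq ?_) (hσ v).le
      congr 1
      ext i
      simp only [mem_filter, mem_univ, true_and]
    refine le_trans ?_ hσv
    apply Finset.card_le_card_of_injOn g
    · intro ℓ hℓ
      have h0 := mem_range.1 (mem_filter.1 hℓ).1
      have h1 := (mem_filter.1 hℓ).2
      refine mem_filter.2 ⟨mem_univ _, ?_⟩
      rw [hσg ℓ (h0.trans_le hL)]
      exact mem_filter.2 ⟨mem_univ _, h0, h1⟩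
    · intro a ha b hb hab
      exact hginj a ((mem_range.1 (mem_filter.1 ha).1).trans_le hL) b
        ((mem_range.1 (mem_filter.1 hb).1).trans_le hL) hab

end Pool.Agent.H71.DN
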