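import Mathlib
import Pool.Agent.H71.DN.Defs

/-!
EXP: the graph `F` of the unused reserve edges has the expansion properties `Ex`.

Proof (`n = #V`).
`d1`: by `hF1`, `hR1`, `c1`: `dg F v ≥ dg R v - S ≥ δ / g - ρ n - S ≥ D` (reals; `dg G v ≥ δ`).
Claim (*): if `lam n² ≤ ee G A B` then `n < ee F A B`. Indeed `ee G A B ≤ 4 g ee R A B` (`hR2`) and
 `ee R A B ≤ ee F A B + 10 T` (`hF2`), so if `ee F A B ≤ n` then
 `lam n² ≤ 4 g (n + 10 T)`, against `c5`.
`p2`: suppose `m ≤ #A`, no `F`-edge between `A` and `Y`, and `#Y + bb > n`. Every `a ∈ A` has at least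
 `dg G a - (n - #Y) ≥ δ - (n - #Y) ≥ δ - bb` neighbours in `Y` (`n - #Y < bb`), so
 `ee G A Y ≥ #A (δ - bb) ≥ m (δ - bb) ≥ lam n²` (`c2`; `bb ≤ δ` is `c0`). By (*) `ee F A Y > n ≥ 0`,
 but `ee F A Y = 0`. Contradiction.
`p3`: `#A ≥ bb - q ≥ δ - ε n` (`c3`), so `ee G A B ≥ ε n #B - θ n² ≥ ε n (bb - q) - θ n² ≥ lam n²`
 (`hrob`, `c3'`), and (*).
`p4`: in the same way with `c4`; `ee F A Z > n ≥ 0`.
-/

set_option autoImplicit false

namespace Pool.Agent.H71.DN

open Finset Classical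

theorem Exp_ee {V : Type} [Fintype V] (G : SimpleGraph V) (A B : Finset V) :
    ee G A B = ∑ a ∈ A, (B.filter fun y => G.Adj a y).card := by
  unfold ee
  rw [card_filter, sum_product]
  refine sum_congr rfl fun a _ => ?_
  rw [card_filter]

theorem Exp_nb {V : Type} [Fintype V] (G : SimpleGraph V) (Y : Finset V) (a : V) :
    dg G a + Y.card ≤ (Y.filter fun y => G.Adj a y).card + Fintype.card V := by
  have h1 : (univ.filter fun u => G.Adj a u) ⊆ (Y.filter fun y => G.Adj a y) ∪ Yᶜ := by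
    intro u hu
    by_cases h : u ∈ Y
    · exact mem_union_left _ (mem_filter.2 ⟨h, (mem_filter.1 hu).2⟩)
    · exact mem_union_right _ (mem_compl.2 h)
  have h2 := (card_le_card h1).trans (card_union_le _ _)
  have h3 := card_add_card_compl Y
  unfold dg
  omega

theorem expand {V : Type} [Fintype V] (G R F : SimpleGraph V) (ε θ lam ρ : ℝ)
    (δ g D m bb q ζ S T : ℕ) (hε : 0 < ε) (hg : 1 ≤ g)
    (hδ : ∀ v, δ ≤ dg G v) (hrob : Rob G δ ε θ)
    (hR1 : ∀ v, (dg G v : ℝ) / g - ρ * Fintype.card V ≤ dg R v)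
    (hR2 : ∀ A B : Finset V, lam * (Fintype.card V : ℝ) ^ 2 ≤ ee G A B →
      (ee G A B : ℝ) ≤ 4 * g * ee R A B)
    (hF1 : ∀ v, dg R v ≤ dg F v + S) (hF2 : ∀ A B, ee R A B ≤ ee F A B + 10 * T)
    (c0 : bb ≤ δ)
    (c1 : (D : ℝ) + S ≤ δ / g - ρ * Fintype.card V)
    (c2 : lam * (Fintype.card V : ℝ) ^ 2 ≤ m * ((δ : ℝ) - bb))
    (c3 : (δ : ℝ) - ε * Fintype.card V ≤ (bb : ℝ) - q)
    (c3' : lam * (Fintype.card V : ℝ) ^ 2 ≤
      ε * Fintype.card V * ((bb : ℝ) - q) - θ * (Fintype.card V : ℝ) ^ 2)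
    (c4 : lam * (Fintype.card V : ℝ) ^ 2 ≤
      ε * Fintype.card V * ζ - θ * (Fintype.card V : ℝ) ^ 2)
    (c5 : 4 * g * (10 * (T : ℝ) + Fintype.card V) < lam * (Fintype.card V : ℝ) ^ 2) :
    Ex F D m bb q ζ := by
  have hn : (0 : ℝ) ≤ Fintype.card V := Nat.cast_nonneg _
  have hg0 : (0 : ℝ) < g := by exact_mod_cast hg
  have key : ∀ A B : Finset V, lam * (Fintype.card V : ℝ) ^ 2 ≤ ee G A B →
      Fintype.card V < ee F A B := by
    intro A B h
    by_contra hcon
    push Not at hcon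
    have h1 := hR2 A B h
    have h2 : (ee R A B : ℝ) ≤ ee F A B + 10 * T := by exact_mod_cast hF2 A B
    have h3 : (ee F A B : ℝ) ≤ Fintype.card V := by exact_mod_cast hcon
    have h4 : 4 * (g : ℝ) * ee R A B ≤ 4 * g * (10 * (T : ℝ) + Fintype.card V) :=
      mul_le_mul_of_nonneg_left (by linarith) (by positivity)
    linarith
  refine ⟨fun v => ?_, fun A Y hA hAY => ?_, fun A B hA hB => ?_, fun A Z hA hZ => ?_⟩
  · have h1 := hR1 v
    have h2 : (dg R v : ℝ) ≤ dg F v + S := by exact_mod_cast hF1 v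
    have h3 : (δ : ℝ) / g ≤ (dg G v : ℝ) / g :=
      div_le_div_of_nonneg_right (by exact_mod_cast hδ v) hg0.le
    have h4 : (D : ℝ) ≤ dg F v := by linarith
    exact_mod_cast h4
  · by_contra hcon
    push Not at hcon
    have h1 : ∀ a ∈ A, δ - bb ≤ (Y.filter fun y => G.Adj a y).card := by
      intro a _
      have h2 := Exp_nb G Y a
      have h3 := hδ a
      omega
    have h2 : A.card * (δ - bb) ≤ ee G A Y := by
      rw [Exp_ee, ← smul_eq_mul]
      exact card_nsmul_le_sum A _ _ h1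
    have h3 : m * (δ - bb) ≤ ee G A Y := (Nat.mul_le_mul_right _ hA).trans h2
    have h4 : (m : ℝ) * ((δ : ℝ) - bb) ≤ ee G A Y := by
      have h5 : ((m * (δ - bb) : ℕ) : ℝ) ≤ ee G A Y := by exact_mod_cast h3
      rw [Nat.cast_mul, Nat.cast_sub c0] at h5
      exact h5
    have h6 := key A Y (c2.trans h4)
    have h7 : ee F A Y = 0 := by
      rw [Exp_ee]
      refine sum_eq_zero fun a ha => ?_
      rw [card_eq_zero, filter_eq_empty_iff]
      intro y hy
      exact hAY a ha y hy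
    omega
  · have h1 : (bb : ℝ) ≤ A.card + q := by exact_mod_cast hA
    have h2 : (bb : ℝ) ≤ B.card + q := by exact_mod_cast hB
    have h3 := hrob A B (by linarith)
    refine key A B (c3'.trans ?_)
    refine le_trans ?_ h3
    have h4 : ε * Fintype.card V * ((bb : ℝ) - q) ≤ ε * Fintype.card V * B.card :=
      mul_le_mul_of_nonneg_left (by linarith) (by positivity)
    linarith
  · have h1 : (bb : ℝ) ≤ A.card + q := by exact_mod_cast hA
    have h2 : (ζ : ℝ) ≤ Z.card := by exact_mod_cast hZ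
    have h3 := hrob A Z (by linarith)
    refine lt_of_le_of_lt (Nat.zero_le _) (key A Z (c4.trans ?_))
    refine le_trans ?_ h3
    have h4 : ε * Fintype.card V * (ζ : ℝ) ≤ ε * Fintype.card V * Z.card :=
      mul_le_mul_of_nonneg_left h2 (by positivity)
    linarith

end Pool.Agent.H71.DN
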