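import Mathlib
import Pool.Agent.H71.DN.Exp
import Pool.Agent.H71.DN.Res

/-!
NUM: the choice of all parameters.

Proof (`n = #V`).  `τ := ε² / 4096`, `θ := ε τ`, `lam := ε τ`, `ρ := ε⁴ / 10 ^ 10`, `κ := ρ / 24`,
`g := ⌈4 / ε⌉₊` (so `1 / g ≤ ε / 4` and `g ≤ 5 / ε` as `ε ≤ 1`). `R` from `reserve g ρ lam`.
 `N := ⌊(1 - 1/g) Δ + ρ n⌋₊ + 1`, `s := ⌈κ n⌉₊`, `t := ⌈ρ n⌉₊`, `E := ⌊5 ρ n⌋₊`,
 `S0 := β2 := ⌈τ n / 2⌉₊`, `β := ζ := ⌈2 τ n⌉₊`, `m := ⌈ε² n / 128⌉₊`, `D := ⌊ε² n / 10⌋₊`,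
 `q := ⌊ε n / 4⌋₊`, `bb := δ - ⌈ε n / 4⌉₊`.
Facts. `δ > ε n`: otherwise `hrob` for `A = ∅`, `B = univ` reads `ε n² - θ n² ≤ 0`, but `θ < ε`, `n > 0`.
 `dg (G \ R) v = dg G v - dg R v` (as `R ≤ G`), so
 `(1 - 1/g) dg G v - ρ n ≤ dg (G \ R) v ≤ (1 - 1/g) dg G v + ρ n`.
 * `N`: `dg (G \ R) v ≤ ⌊(1 - 1/g) Δ + ρ n⌋₊`. `(1 - ε/2) Δ ≤ (1 - 1/g) Δ ≤ N`.
 * `ht`: `s ≤ 2 κ n ≤ t / 12`, `t! ≥ (t / e) ^ t` (`Real.pow_div_factorial_le_exp`:
   `t ^ t / t! ≤ exp t`), and `n < 4 ^ t ≤ (12 / e) ^ t` for large `n` (`t ≥ ρ n`).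
 * the last but one claim: `N + t ≤ (1 - 1/g) Δ + 2 ρ n + 2`, `dg (G \ R) v ≥ (1 - 1/g) (Δ - ρ n) - ρ n`
   so `4 ρ n + 2 ≤ E` suffices (`E ≥ 5 ρ n - 1`).
 * `hE` of B: `N + dg G v + t + 2 s - dg (G \ R) v - Δ ≤ - (1/g) (Δ - dg G v) + 3 ρ n + 2 + 2 s`
   `≤ 3 ρ n + 2 + 4 κ n ≤ E`. `t + 2 s ≤ E`.
 * `κ n + 1 + β2 ≤ β`.
 * `h1`: left side `≤ (6 τ + 3 ε² / 128) n + 7 ≤ ε² n / 10 - 1`. `h2`: `≤ (6 τ + ε² / 32) n + 8`
   `≤ ε n / 4 - 1`.
 * `hT`: `10 n E ≤ 50 ρ n² = ε⁴ n² / (2 * 10 ^ 8) ≤ τ² n² / 4 = ε⁴ n² / 67108864 ≤ S0 β2`.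
 * `ex`: `expand` with `S = S0 + E`, `T = n E`.
   `c0`: `bb ≤ δ`. `c1`: `D + S ≤ ε² n / 10 + τ n / 2 + 1 + 5 ρ n ≤ ε² n / 5 - ρ n ≤ δ / g - ρ n`.
   `c2`: `m (δ - bb) ≥ (ε² n / 128) (ε n / 4) = ε³ n² / 512 ≥ ε³ n² / 4096 = lam n²`
   (`δ - bb = ⌈ε n / 4⌉₊` because `δ > ε n ≥ ⌈ε n / 4⌉₊` for large `n`).
   `c3`: `bb - q ≥ δ - ε n / 4 - 1 - ε n / 4 ≥ δ - ε n`.
   `c3'`: `bb - q ≥ ε n / 2 - 1`, so the right side is `≥ ε² n² / 2 - ε n - θ n² ≥ lam n²`.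
   `c4`: `ζ ≥ 2 τ n`: right side `≥ 2 ε τ n² - ε τ n²`.
   `c5`: `4 g (10 T + n) ≤ (20 / ε) (50 ρ n² + n) = ε³ n² / 10 ^ 7 + 20 n / ε < ε³ n² / 4096`.
All for `n ≥ n0(ε)`.
-/

set_option autoImplicit false

namespace Pool.Agent.H71.DN

open Finset Classical

theorem Num_ht (n s t : ℕ) (hs : 12 * s ≤ t) (hn : n ≤ t * t) (ht : 0 < t) :
    n * s ^ t < t.factorial := by
  have hR : ((n * s ^ t : ℕ) : ℝ) < ((t.factorial : ℕ) : ℝ) := by
    push_cast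
    have hf : (0 : ℝ) < t.factorial := by exact_mod_cast Nat.factorial_pos t
    have hs' : (s : ℝ) ≤ (t : ℝ) / 12 := by
      rw [le_div_iff₀ (by norm_num)]
      have : ((12 * s : ℕ) : ℝ) ≤ t := by exact_mod_cast hs
      push_cast at this
      linarith
    have h1 : (s : ℝ) ^ t ≤ ((t : ℝ) / 12) ^ t := pow_le_pow_left₀ (Nat.cast_nonneg _) hs' _
    have h2 := Real.pow_div_factorial_le_exp (t : ℝ) (Nat.cast_nonneg _) t
    rw [div_le_iff₀ hf] at h2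
    have h3 : Real.exp (t : ℝ) ≤ 3 ^ t := by
      have e1 : Real.exp (t : ℝ) = Real.exp 1 ^ t := by
        rw [← Real.exp_nat_mul, mul_one]
      rw [e1]
      refine pow_le_pow_left₀ (Real.exp_pos _).le ?_ _
      have := Real.exp_one_lt_d9
      linarith
    have h4 : ((t : ℝ) / 12) ^ t * 4 ^ t ≤ t.factorial := by
      have e1 : ((t : ℝ) / 12) ^ t * 4 ^ t * 3 ^ t = (t : ℝ) ^ t := by
        rw [← mul_pow, ← mul_pow]
        congr 1
        ring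
      have h5 : (t : ℝ) ^ t ≤ 3 ^ t * t.factorial :=
        h2.trans (mul_le_mul_of_nonneg_right h3 hf.le)
      rw [← e1] at h5
      have h6 : (0 : ℝ) < 3 ^ t := by positivity
      nlinarith
    have h5 : (n : ℝ) < 4 ^ t := by
      have e1 : n < 4 ^ t := by
        have h7 : t < 2 ^ t := Nat.lt_two_pow_self
        have h8 : (4 : ℕ) ^ t = 2 ^ t * 2 ^ t := by
          rw [← mul_pow]
          norm_num
        rw [h8]
        calc n ≤ t * t := hn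
          _ < 2 ^ t * 2 ^ t := Nat.mul_lt_mul'' h7 h7
      exact_mod_cast e1
    have h6 : (0 : ℝ) < ((t : ℝ) / 12) ^ t := by
      have : (0 : ℝ) < t := by exact_mod_cast ht
      positivity
    calc (n : ℝ) * (s : ℝ) ^ t ≤ n * ((t : ℝ) / 12) ^ t :=
          mul_le_mul_of_nonneg_left h1 (Nat.cast_nonneg _)
      _ < 4 ^ t * ((t : ℝ) / 12) ^ t := mul_lt_mul_of_pos_right h5 h6
      _ ≤ t.factorial := by rw [mul_comm]; exact h4
  exact_mod_cast hR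

theorem Num_sdiff {V : Type} [Fintype V] (G R : SimpleGraph V) (h : R ≤ G) (v : V) :
    dg (G \ R) v + dg R v = dg G v := by
  unfold dg
  rw [← Finset.card_union_of_disjoint]
  · congr 1
    ext u
    simp only [mem_union, mem_filter, mem_univ, true_and, SimpleGraph.sdiff_adj]
    constructor
    · rintro (⟨h1, _⟩ | h1)
      · exact h1
      · exact h h1
    · intro h1
      by_cases h2 : R.Adj v u
      · exact Or.inr h2
      · exact Or.inl ⟨h1, h2⟩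
  · rw [Finset.disjoint_left]
    intro u hu hu2
    simp only [mem_filter, mem_univ, true_and, SimpleGraph.sdiff_adj] at hu hu2
    exact hu.2 hu2

theorem Num_ee_empty {V : Type} [Fintype V] (G : SimpleGraph V) (B : Finset V) :
    ee G ∅ B = 0 := by
  unfold ee
  simp

theorem params (ε : ℝ) (hε : 0 < ε) (hε1 : ε ≤ 1) :
    ∃ (θ κ ρ : ℝ) (n0 : ℕ), 0 < θ ∧ 0 < κ ∧ 0 < ρ ∧ κ ≤ 1 / 10 ∧
      ∀ (V : Type) [Fintype V] (G : SimpleGraph V) (δ Δ : ℕ), n0 ≤ Fintype.card V →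
        (∀ v, δ ≤ dg G v ∧ dg G v ≤ Δ) → Rob G δ ε θ →
        ε * Fintype.card V ≤ δ ∧
        ∃ (R : SimpleGraph V) (N s t D m bb q ζ β β2 S0 E : ℕ),
          Par G R N s t D m bb q ζ β β2 S0 E ∧ (1 - ε / 2) * Δ ≤ (N : ℝ) ∧
          κ * Fintype.card V ≤ (s : ℝ) ∧ κ * Fintype.card V + 1 + β2 ≤ (β : ℝ) ∧
          (∀ v, (Δ : ℝ) ≤ dg G v + ρ * Fintype.card V → N + t ≤ dg (G \ R) v + E) ∧
          (∀ v, N + dg G v + t + 2 * s ≤ dg (G \ R) v + Δ + E) ∧ t + 2 * s ≤ E := by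
  obtain ⟨ρ, hρdef⟩ : ∃ ρ : ℝ, ρ = ε ^ 4 / 10 ^ 10 := ⟨_, rfl⟩
  have hρ : 0 < ρ := by rw [hρdef]; positivity
  have hε4 : ε ^ 4 ≤ 1 := pow_le_one₀ hε.le hε1
  have hρ1 : ρ ≤ 1 := by
    rw [hρdef, div_le_one (by norm_num)]
    linarith
  obtain ⟨lam, hlam⟩ : ∃ lam : ℝ, lam = ε ^ 3 / 4096 := ⟨_, rfl⟩
  have hlam0 : 0 < lam := by rw [hlam]; positivity
  obtain ⟨g, hg⟩ : ∃ g : ℕ, g = ⌈4 / ε⌉₊ := ⟨_, rfl⟩
  have hgl : 4 / ε ≤ (g : ℝ) := by rw [hg]; exact Nat.le_ceil _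
  have hgu : (g : ℝ) < 4 / ε + 1 := by rw [hg]; exact Nat.ceil_lt_add_one (by positivity)
  have h1ε : 1 ≤ 1 / ε := by rw [le_div_iff₀ hε]; linarith
  have hgu5 : (g : ℝ) ≤ 5 / ε := by
    have : (5 : ℝ) / ε = 4 / ε + 1 / ε := by ring
    linarith
  have hg0 : (0 : ℝ) < g := lt_of_lt_of_le (by positivity) hgl
  have hg1 : 1 ≤ g := by
    have : 0 < g := by exact_mod_cast hg0
    omega
  have hginv : 1 / (g : ℝ) ≤ ε / 4 := by
    rw [div_le_iff₀ hg0]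
    have := mul_le_mul_of_nonneg_left hgl (by positivity : (0 : ℝ) ≤ ε / 4)
    have e1 : ε / 4 * (4 / ε) = 1 := by field_simp
    linarith
  have hginv5 : ε / 5 ≤ 1 / (g : ℝ) := by
    rw [le_div_iff₀ hg0]
    have := mul_le_mul_of_nonneg_left hgu5 (by positivity : (0 : ℝ) ≤ ε / 5)
    have e1 : ε / 5 * (5 / ε) = 1 := by field_simp
    linarith
  have hginv0 : 0 < 1 / (g : ℝ) := by positivity
  obtain ⟨n1, hn1⟩ := reserve g hg1 ρ lam hρ hρ1 hlam0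
  refine ⟨lam, ρ / 24, ρ, max n1 ⌈1 / ρ ^ 2⌉₊, hlam0, by positivity, hρ, by linarith, ?_⟩
  intro V _ G δ Δ hn hdeg hrob
  obtain ⟨R, hRG, hR1, hR2⟩ := hn1 V G (le_trans (le_max_left _ _) hn)
  obtain ⟨x, hx⟩ : ∃ x : ℝ, x = Fintype.card V := ⟨_, rfl⟩
  have hxρ : 1 / ρ ^ 2 ≤ x := by
    rw [hx]
    have h1 : ⌈1 / ρ ^ 2⌉₊ ≤ Fintype.card V := le_trans (le_max_right _ _) hn
    exact (Nat.le_ceil _).trans (by exact_mod_cast h1)
  have hx1 : 1 ≤ ρ ^ 2 * x := by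
    rw [div_le_iff₀ (by positivity)] at hxρ
    linarith
  have hx0 : 0 < x := lt_of_lt_of_le (by positivity) hxρ
  have hxx : x ≤ (ρ * x) ^ 2 := by
    have := mul_le_mul_of_nonneg_right hx1 hx0.le
    linarith
  -- the scales
  obtain ⟨e1, he1⟩ : ∃ e1 : ℝ, e1 = ε * x := ⟨_, rfl⟩
  obtain ⟨e2, he2⟩ : ∃ e2 : ℝ, e2 = ε ^ 2 * x := ⟨_, rfl⟩
  obtain ⟨e4, he4⟩ : ∃ e4 : ℝ, e4 = ε ^ 4 * x := ⟨_, rfl⟩
  have hρx : ρ * x = e4 / 10 ^ 10 := by rw [he4, hρdef]; ring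
  have h12 : e2 ≤ e1 := by
    rw [he1, he2]
    refine mul_le_mul_of_nonneg_right ?_ hx0.le
    exact pow_le_of_le_one hε.le hε1 (by norm_num)
  have h24 : e4 ≤ e2 := by
    rw [he4, he2]
    refine mul_le_mul_of_nonneg_right ?_ hx0.le
    exact pow_le_pow_of_le_one hε.le hε1 (by norm_num)
  have h4 : (10 : ℝ) ^ 20 ≤ e4 := by
    have h5 : ρ ^ 2 * x = ε ^ 4 * e4 / 10 ^ 20 := by rw [he4, hρdef]; ring
    rw [h5, le_div_iff₀ (by norm_num)] at hx1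
    have h6 : ε ^ 4 * e4 ≤ 1 * e4 := mul_le_mul_of_nonneg_right hε4 (by rw [he4]; positivity)
    linarith
  have h2pos : 0 < e2 := by linarith
  have h1pos : 0 < e1 := by linarith
  -- δ > ε n
  have hδ : e1 < δ := by
    by_contra hcon
    rw [not_lt] at hcon
    have h5 := hrob ∅ univ (by
      rw [Finset.card_empty, Nat.cast_zero, ← hx, ← he1]
      linarith)
    rw [Num_ee_empty, Nat.cast_zero, Finset.card_univ, ← hx, hlam] at h5
    have h6 : ε ^ 3 ≤ ε := by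
      have := pow_le_pow_of_le_one hε.le hε1 (show 1 ≤ 3 by norm_num)
      rwa [pow_one] at this
    have h7 : 0 < x ^ 2 := by positivity
    have h8 : 0 < ε * x ^ 2 := by positivity
    have h9 : ε ^ 3 * x ^ 2 ≤ ε * x ^ 2 := mul_le_mul_of_nonneg_right h6 h7.le
    linarith [mul_le_mul_of_nonneg_right hcon hx0.le]
  have hδg : e2 / 5 ≤ (δ : ℝ) / g := by
    have h5 : (δ : ℝ) / g = δ * (1 / (g : ℝ)) := by ring
    rw [h5]
    have h6 : e1 * (ε / 5) ≤ δ * (1 / (g : ℝ)) :=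
      mul_le_mul hδ.le hginv5 (by positivity) (Nat.cast_nonneg _)
    have h7 : e1 * (ε / 5) = e2 / 5 := by rw [he1, he2]; ring
    linarith
  -- the parameters
  obtain ⟨s, hs⟩ : ∃ s : ℕ, s = ⌈ρ / 24 * x⌉₊ := ⟨_, rfl⟩
  obtain ⟨t, ht⟩ : ∃ t : ℕ, t = ⌈ρ * x⌉₊ := ⟨_, rfl⟩
  obtain ⟨E, hE⟩ : ∃ E : ℕ, E = ⌊5 * (ρ * x)⌋₊ := ⟨_, rfl⟩
  obtain ⟨S0, hS0⟩ : ∃ S0 : ℕ, S0 = ⌈e2 / 8192⌉₊ := ⟨_, rfl⟩
  obtain ⟨β, hβ⟩ : ∃ β : ℕ, β = ⌈e2 / 2048⌉₊ := ⟨_, rfl⟩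
  obtain ⟨m, hm⟩ : ∃ m : ℕ, m = ⌈e2 / 128⌉₊ := ⟨_, rfl⟩
  obtain ⟨D, hD⟩ : ∃ D : ℕ, D = ⌊e2 / 10⌋₊ := ⟨_, rfl⟩
  obtain ⟨q, hq⟩ : ∃ q : ℕ, q = ⌊e1 / 4⌋₊ := ⟨_, rfl⟩
  obtain ⟨c, hc⟩ : ∃ c : ℕ, c = ⌈e1 / 4⌉₊ := ⟨_, rfl⟩
  obtain ⟨F0, hF0⟩ : ∃ F0 : ℕ, F0 = ⌊(1 - 1 / (g : ℝ)) * Δ + ρ * x⌋₊ := ⟨_, rfl⟩
  have hs1 : ρ / 24 * x ≤ s := by rw [hs]; exact Nat.le_ceil _
  have hs2 : (s : ℝ) < ρ / 24 * x + 1 := by
    rw [hs]; exact Nat.ceil_lt_add_one (by positivity)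
  have hρ24 : ρ / 24 * x = e4 / (24 * 10 ^ 10) := by rw [he4, hρdef]; ring
  have ht1 : ρ * x ≤ t := by rw [ht]; exact Nat.le_ceil _
  have ht2 : (t : ℝ) < ρ * x + 1 := by
    rw [ht]; exact Nat.ceil_lt_add_one (by positivity)
  have hE1 : (E : ℝ) ≤ 5 * (ρ * x) := by rw [hE]; exact Nat.floor_le (by positivity)
  have hE2 : 5 * (ρ * x) < (E : ℝ) + 1 := by rw [hE]; exact Nat.lt_floor_add_one _
  have hS01 : e2 / 8192 ≤ S0 := by rw [hS0]; exact Nat.le_ceil _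
  have hS02 : (S0 : ℝ) < e2 / 8192 + 1 := by
    rw [hS0]; exact Nat.ceil_lt_add_one (by positivity)
  have hβ1 : e2 / 2048 ≤ β := by rw [hβ]; exact Nat.le_ceil _
  have hβ2 : (β : ℝ) < e2 / 2048 + 1 := by
    rw [hβ]; exact Nat.ceil_lt_add_one (by positivity)
  have hm1 : e2 / 128 ≤ m := by rw [hm]; exact Nat.le_ceil _
  have hm2 : (m : ℝ) < e2 / 128 + 1 := by
    rw [hm]; exact Nat.ceil_lt_add_one (by positivity)
  have hD1 : (D : ℝ) ≤ e2 / 10 := by rw [hD]; exact Nat.floor_le (by positivity)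
  have hD2 : e2 / 10 < (D : ℝ) + 1 := by rw [hD]; exact Nat.lt_floor_add_one _
  have hq1 : (q : ℝ) ≤ e1 / 4 := by rw [hq]; exact Nat.floor_le (by positivity)
  have hq2 : e1 / 4 < (q : ℝ) + 1 := by rw [hq]; exact Nat.lt_floor_add_one _
  have hc1 : e1 / 4 ≤ c := by rw [hc]; exact Nat.le_ceil _
  have hc2 : (c : ℝ) < e1 / 4 + 1 := by
    rw [hc]; exact Nat.ceil_lt_add_one (by positivity)
  have hginv1 : 1 / (g : ℝ) ≤ 1 := by linarith
  have hA0 : 0 ≤ (1 - 1 / (g : ℝ)) * Δ + ρ * x := by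
    have : 0 ≤ (1 - 1 / (g : ℝ)) * Δ := mul_nonneg (by linarith) (Nat.cast_nonneg _)
    have : 0 < ρ * x := by positivity
    linarith
  have hF1 : (F0 : ℝ) ≤ (1 - 1 / (g : ℝ)) * Δ + ρ * x := by rw [hF0]; exact Nat.floor_le hA0
  have hF2 : (1 - 1 / (g : ℝ)) * Δ + ρ * x < (F0 : ℝ) + 1 := by
    rw [hF0]; exact Nat.lt_floor_add_one _
  have hcδ : c ≤ δ := by
    have : (c : ℝ) ≤ δ := by linarith
    exact_mod_cast this
  obtain ⟨bb, hbb⟩ : ∃ bb : ℕ, bb = δ - c := ⟨_, rfl⟩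
  have hbbR : (bb : ℝ) = δ - c := by rw [hbb]; push_cast [hcδ]; ring
  -- degrees in G \ R
  have hdl : ∀ v, (1 - 1 / (g : ℝ)) * dg G v - ρ * x ≤ (dg (G \ R) v : ℝ) := by
    intro v
    have h5 := (abs_le.1 (hR1 v)).2
    have h6 : (dg (G \ R) v : ℝ) + dg R v = dg G v := by exact_mod_cast Num_sdiff G R hRG v
    have h7 : (dg G v : ℝ) / g = 1 / (g : ℝ) * dg G v := by ring
    rw [← hx, h7] at h5
    linarith
  have hdu : ∀ v, (dg (G \ R) v : ℝ) ≤ (1 - 1 / (g : ℝ)) * dg G v + ρ * x := by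
    intro v
    have h5 := (abs_le.1 (hR1 v)).1
    have h6 : (dg (G \ R) v : ℝ) + dg R v = dg G v := by exact_mod_cast Num_sdiff G R hRG v
    have h7 : (dg G v : ℝ) / g = 1 / (g : ℝ) * dg G v := by ring
    rw [← hx, h7] at h5
    linarith
  refine ⟨by rw [← hx, ← he1]; exact hδ.le, R, F0 + 1, s, t, D, m, bb, q, β, β, S0, S0, E, ?_, ?_,
    ?_, ?_, ?_, ?_, ?_⟩
  · refine ⟨hRG, ?_, ?_, ?_, ?_, ?_, ?_, ?_⟩
    · -- hS0
      have : (0 : ℝ) < S0 := by linarith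
      exact_mod_cast this
    · -- hN
      intro v
      refine Nat.succ_le_succ ?_
      rw [hF0]
      refine Nat.le_floor ?_
      refine (hdu v).trans ?_
      have h5 : (dg G v : ℝ) ≤ Δ := by exact_mod_cast (hdeg v).2
      have h6 := mul_le_mul_of_nonneg_left h5 (by linarith : (0 : ℝ) ≤ 1 - 1 / (g : ℝ))
      linarith
    · -- ht
      refine Num_ht _ s t ?_ ?_ ?_
      · have : ((12 * s : ℕ) : ℝ) ≤ t := by
          push_cast
          rw [hρx] at ht1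
          rw [hρ24] at hs2
          have h5 : (12 : ℝ) * (e4 / (24 * 10 ^ 10) + 1) ≤ e4 / 10 ^ 10 := by
            have : (12 : ℝ) * (e4 / (24 * 10 ^ 10)) = e4 / 10 ^ 10 / 2 := by ring
            have h6 : (24 : ℝ) ≤ e4 / 10 ^ 10 := by
              rw [le_div_iff₀ (by norm_num)]
              norm_num at h4 ⊢
              linarith
            linarith
          linarith
        exact_mod_cast this
      · have : ((Fintype.card V : ℕ) : ℝ) ≤ ((t * t : ℕ) : ℝ) := by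
          push_cast
          rw [← hx]
          have h5 : (ρ * x) ^ 2 ≤ (t : ℝ) ^ 2 := pow_le_pow_left₀ (by positivity) ht1 2
          linarith
        exact_mod_cast this
      · have : (0 : ℝ) < t := lt_of_lt_of_le (by positivity) ht1
        exact_mod_cast this
    · -- h1
      have : ((β + 1 + 2 * β + 3 * m : ℕ) : ℝ) ≤ D := by
        push_cast
        norm_num at h4
        linarith
      exact_mod_cast this
    · -- h2
      have : ((β + 1 + 2 * β + 4 * m : ℕ) : ℝ) ≤ q := by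
        push_cast
        norm_num at h4
        linarith
      exact_mod_cast this
    · -- ex
      intro F hFR hF1' hF2'
      refine expand G R F ε lam lam ρ δ g D m bb q β (S0 + E) (Fintype.card V * E) hε hg1
        (fun v => (hdeg v).1) hrob ?_ hR2 hF1' hF2' ?_ ?_ ?_ ?_ ?_ ?_ ?_
      · intro v
        have h5 := (abs_le.1 (hR1 v)).1
        linarith
      · rw [hbb]
        exact Nat.sub_le _ _
      · -- c1
        rw [← hx, hρx]
        rw [hρx] at hE1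
        push_cast
        norm_num at h4 hE1 ⊢
        linarith
      · -- c2
        rw [← hx, hbbR]
        have h5 : (e2 / 128) * (e1 / 4) ≤ (m : ℝ) * c :=
          mul_le_mul hm1 hc1 (by positivity) (Nat.cast_nonneg _)
        have h6 : (δ : ℝ) - (δ - c) = c := by ring
        rw [h6]
        have h7 : lam * x ^ 2 = e2 * e1 / 4096 := by rw [hlam, he1, he2]; ring
        rw [h7]
        have h8 : 0 < e2 * e1 := by positivity
        have h9 : (e2 / 128) * (e1 / 4) = e2 * e1 / 512 := by ring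
        rw [h9] at h5
        linarith
      · -- c3
        rw [← hx, ← he1, hbbR]
        norm_num at h4
        linarith
      · -- c3'
        rw [← hx, ← he1, hbbR]
        have h7 : lam * x ^ 2 = e1 * (e2 / 4096) := by rw [hlam, he1, he2]; ring
        rw [h7]
        have h8 : e2 / 2048 ≤ (δ : ℝ) - c - q := by
          norm_num at h4
          linarith
        have h9 := mul_le_mul_of_nonneg_left h8 h1pos.le
        have h10 : e1 * (e2 / 2048) = e1 * (e2 / 4096) + e1 * (e2 / 4096) := by ring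
        linarith
      · -- c4
        rw [← hx, ← he1]
        have h7 : lam * x ^ 2 = e1 * (e2 / 4096) := by rw [hlam, he1, he2]; ring
        rw [h7]
        have h9 := mul_le_mul_of_nonneg_left hβ1 h1pos.le
        have h10 : e1 * (e2 / 2048) = e1 * (e2 / 4096) + e1 * (e2 / 4096) := by ring
        linarith
      · -- c5
        rw [← hx]
        push_cast
        rw [← hx]
        have h5 : (10 : ℝ) * (x * E) + x ≤ 50 * (ρ * x) * x + x := by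
          have := mul_le_mul_of_nonneg_left hE1 hx0.le
          linarith
        have h6 : 4 * (g : ℝ) * (10 * (x * E) + x) ≤ 4 * (5 / ε) * (50 * (ρ * x) * x + x) := by
          refine mul_le_mul (by linarith) h5 ?_ (by positivity)
          have : (0 : ℝ) ≤ E := Nat.cast_nonneg _
          positivity
        refine lt_of_le_of_lt h6 ?_
        have h7 : 4 * (5 / ε) * (50 * (ρ * x) * x + x) =
            (e4 / 10 ^ 7 + 20) * (x / ε) := by
          rw [hρx]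
          field_simp
          ring
        have h8 : lam * x ^ 2 = (e4 / 4096) * (x / ε) := by
          rw [hlam, he4]
          field_simp
        rw [h7, h8]
        refine mul_lt_mul_of_pos_right ?_ (by positivity)
        norm_num at h4 ⊢
        linarith
    · -- hT
      have : ((10 * (Fintype.card V * E) : ℕ) : ℝ) ≤ ((S0 * S0 : ℕ) : ℝ) := by
        push_cast
        rw [← hx]
        have h5 : (e2 / 8192) * (e2 / 8192) ≤ (S0 : ℝ) * S0 :=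
          mul_le_mul hS01 hS01 (by positivity) (Nat.cast_nonneg _)
        have h6 : (10 : ℝ) * (x * E) ≤ 10 * (x * (5 * (ρ * x))) := by
          have := mul_le_mul_of_nonneg_left hE1 hx0.le
          linarith
        have h7 : (10 : ℝ) * (x * (5 * (ρ * x))) = e2 * e2 * (50 / 10 ^ 10) := by
          rw [he2, hρdef]; ring
        have h8 : (e2 / 8192) * (e2 / 8192) = e2 * e2 * (1 / 67108864) := by ring
        rw [h7] at h6
        rw [h8] at h5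
        have h9 : 0 < e2 * e2 := by positivity
        norm_num at h6 h5 ⊢
        linarith
      exact_mod_cast this
  · -- (1 - ε/2) Δ ≤ N
    push_cast
    have h5 : (1 / (g : ℝ)) * Δ ≤ ε / 4 * Δ := mul_le_mul_of_nonneg_right hginv (Nat.cast_nonneg _)
    have h6 : 0 ≤ ε * (Δ : ℝ) := mul_nonneg hε.le (Nat.cast_nonneg _)
    have h7 : 0 < ρ * x := by positivity
    linarith
  · rw [← hx]; exact hs1
  · rw [← hx, hρ24]
    norm_num at h4 ⊢
    linarith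
  · intro v hv
    rw [← hx] at hv
    have : ((F0 + 1 + t : ℕ) : ℝ) ≤ ((dg (G \ R) v + E : ℕ) : ℝ) := by
      push_cast
      have h5 := hdl v
      have h6 : (1 - 1 / (g : ℝ)) * Δ ≤ (1 - 1 / (g : ℝ)) * (dg G v + ρ * x) :=
        mul_le_mul_of_nonneg_left hv (by linarith)
      have h7 : (1 - 1 / (g : ℝ)) * (ρ * x) ≤ 1 * (ρ * x) :=
        mul_le_mul_of_nonneg_right (by linarith) (by positivity)
      have h8 : (10 : ℝ) ≤ ρ * x := by
        rw [hρx, le_div_iff₀ (by norm_num)]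
        norm_num at h4 ⊢
        linarith
      have h9 : (1 - 1 / (g : ℝ)) * (dg G v + ρ * x) =
        (1 - 1 / (g : ℝ)) * dg G v + (1 - 1 / (g : ℝ)) * (ρ * x) := by ring
      linarith
    exact_mod_cast this
  · intro v
    have : ((F0 + 1 + dg G v + t + 2 * s : ℕ) : ℝ) ≤ ((dg (G \ R) v + Δ + E : ℕ) : ℝ) := by
      push_cast
      have h5 := hdl v
      have h6 : (dg G v : ℝ) ≤ Δ := by exact_mod_cast (hdeg v).2
      have h7 : (1 / (g : ℝ)) * dg G v ≤ (1 / (g : ℝ)) * Δ :=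
        mul_le_mul_of_nonneg_left h6 hginv0.le
      have h8 : (10 : ℝ) ≤ ρ * x := by
        rw [hρx, le_div_iff₀ (by norm_num)]
        norm_num at h4 ⊢
        linarith
      have h9 : ρ / 24 * x = (ρ * x) / 24 := by ring
      rw [h9] at hs2
      linarith
    exact_mod_cast this
  · have : ((t + 2 * s : ℕ) : ℝ) ≤ (E : ℝ) := by
      push_cast
      have h8 : (10 : ℝ) ≤ ρ * x := by
        rw [hρx, le_div_iff₀ (by norm_num)]
        norm_num at h4 ⊢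
        linarith
      have h9 : ρ / 24 * x = (ρ * x) / 24 := by ring
      rw [h9] at hs2
      linarith
    exact_mod_cast this

end Pool.Agent.H71.DN
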