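import Mathlib
import Pool.Agent.H71.DN.Defs

/-!
IND: quasirandom graphs: independent sets of size `r` in every large set; greedy colouring; robust
expansion.

`indep`. Let `a = (1 - q) / 4`. By induction on `r`, for all `η`: if `r = 0` trivial (`C = ∅`). Step: given
`S` with `#S ≥ η n`, by the second part of `QR` (`A = B = S`)
 `∑_{v ∈ S} #{u ∈ S : G.Adj v u} = ee G S S ≤ q #S ^ 2 + θ n ^ 2 ≤ #S (q #S + (θ / η ^ 2) #S)`,
 so some `v ∈ S` has at most `(q + θ / η ^ 2) #S ≤ ((1 + q) / 2) #S` neighbours in `S`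
 (`θ ≤ η ^ 2 (1 - q) / 2`; `S` is nonempty for `n ≥ 1`), hence at least
 `((1 - q) / 2) #S - 1 ≥ a #S ≥ a η n` non-neighbours `u ≠ v` in `S` (for `n ≥ 4 / ((1 - q) η)`). The
 induction hypothesis for `r` and `a η` gives an independent `r`-set `C'` among them; `C = insert v C'`.
 (`θ` and `n0`: the minimum, resp. maximum, of the two requirements. `QR` is monotone in `θ`.)

`greedyCol`. Strong induction on `#S` for subsets `S` of `V`: `S` has a proper colouring with at most
 `#S / r + M` colours. If `#S < M`: give all vertices different colours. Otherwise take `C ⊆ S` as in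
 `h`, colour `S \ C` with `#(S \ C) / r + M = #S / r - 1 + M` colours and give `C` a new colour.

`qr_rob`. `#A ≥ δ - ε n ≥ (q - θ - ε) n`, so
 `ee G A B ≥ q #A #B - θ n ^ 2 ≥ q (q - θ - ε) n #B - θ n ^ 2 ≥ ε n #B - θ n ^ 2`.
-/

set_option autoImplicit false

namespace Pool.Agent.H71.DN

open Finset Classical

theorem qr_mono {V : Type} [Fintype V] {G : SimpleGraph V} {q θ θ' : ℝ} (h : θ ≤ θ')
    (hQ : QR G q θ) : QR G q θ' := by
  refine ⟨fun v => (hQ.1 v).trans ?_, fun A B => (hQ.2 A B).trans ?_⟩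
  · exact mul_le_mul_of_nonneg_right h (by positivity)
  · exact mul_le_mul_of_nonneg_right h (by positivity)

theorem ee_self {V : Type} [Fintype V] (G : SimpleGraph V) (S : Finset V) :
    ee G S S = ∑ v ∈ S, (S.filter fun u => G.Adj v u).card := by
  unfold ee
  rw [Finset.card_filter, Finset.sum_product]
  refine Finset.sum_congr rfl fun v _ => ?_
  rw [Finset.card_filter]

theorem indep (q : ℝ) (hq0 : 0 ≤ q) (hq1 : q < 1) (r : ℕ) (η : ℝ) (hη : 0 < η) :
    ∃ (θ : ℝ) (n0 : ℕ), 0 < θ ∧ ∀ (V : Type) [Fintype V] (G : SimpleGraph V),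
      n0 ≤ Fintype.card V → QR G q θ → ∀ S : Finset V, η * Fintype.card V ≤ S.card →
        ∃ C ⊆ S, C.card = r ∧ ∀ u ∈ C, ∀ v ∈ C, ¬ G.Adj u v := by
  induction r generalizing η with
  | zero =>
    refine ⟨1, 0, one_pos, fun V _ G _ _ S _ => ⟨∅, Finset.empty_subset _, Finset.card_empty, ?_⟩⟩
    intro u hu
    exact absurd hu (Finset.notMem_empty u)
  | succ r ih =>
    have h1q : 0 < 1 - q := by linarith
    obtain ⟨θ', n0', hθ', H⟩ := ih ((1 - q) / 4 * η) (by positivity)
    have hpos : 0 < η ^ 2 * (1 - q) / 2 := by positivity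
    refine ⟨min θ' (η ^ 2 * (1 - q) / 2), max n0' (⌈4 / ((1 - q) * η)⌉₊ + 1), lt_min hθ' hpos,
      fun V _ G hn hQ S hS => ?_⟩
    have hn1 : n0' ≤ Fintype.card V := (le_max_left _ _).trans hn
    have hn2 : ⌈4 / ((1 - q) * η)⌉₊ + 1 ≤ Fintype.card V := (le_max_right _ _).trans hn
    have hn3 : 4 / ((1 - q) * η) ≤ (Fintype.card V : ℝ) := by
      refine (Nat.le_ceil _).trans ?_
      exact_mod_cast (Nat.le_succ _).trans hn2
    obtain ⟨n, hnn⟩ : ∃ n : ℝ, n = (Fintype.card V : ℝ) := ⟨_, rfl⟩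
    rw [← hnn] at hn3 hS
    have hn4 : 4 ≤ (1 - q) * (η * n) := by
      rw [div_le_iff₀ (by positivity)] at hn3
      nlinarith
    have hS1 : 4 ≤ (1 - q) * (S.card : ℝ) := hn4.trans (mul_le_mul_of_nonneg_left hS h1q.le)
    have hSpos : (0 : ℝ) < S.card := by
      by_contra h0
      have h2 := mul_nonpos_of_nonneg_of_nonpos h1q.le (not_lt.1 h0)
      linarith
    have hn0 : 0 ≤ n := by rw [hnn]; positivity
    have h2 := (abs_le.1 (hQ.2 S S)).2
    rw [← hnn] at h2
    have h3 : min θ' (η ^ 2 * (1 - q) / 2) * n ^ 2 ≤ (1 - q) / 2 * (S.card : ℝ) ^ 2 := by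
      have h4 : min θ' (η ^ 2 * (1 - q) / 2) * n ^ 2 ≤ η ^ 2 * (1 - q) / 2 * n ^ 2 :=
        mul_le_mul_of_nonneg_right (min_le_right _ _) (by positivity)
      have h5 : (η * n) ^ 2 ≤ (S.card : ℝ) ^ 2 := pow_le_pow_left₀ (by positivity) hS 2
      have h6 := mul_le_mul_of_nonneg_left h5 (by positivity : 0 ≤ (1 - q) / 2)
      have h7 : η ^ 2 * (1 - q) / 2 * n ^ 2 = (1 - q) / 2 * (η * n) ^ 2 := by ring
      linarith
    have h4 : (ee G S S : ℝ) ≤ (1 + q) / 2 * (S.card : ℝ) ^ 2 := by nlinarith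
    have h5 : ∃ v ∈ S, ((S.filter fun u => G.Adj v u).card : ℝ) ≤ (1 + q) / 2 * S.card := by
      by_contra hcon
      push Not at hcon
      have hne : S.Nonempty := by
        rw [← Finset.card_pos]
        exact_mod_cast hSpos
      have h6 : ∑ v ∈ S, (1 + q) / 2 * (S.card : ℝ) < ∑ v ∈ S, ((S.filter fun u => G.Adj v u).card : ℝ) :=
        Finset.sum_lt_sum_of_nonempty hne hcon
      rw [Finset.sum_const, nsmul_eq_mul] at h6
      rw [ee_self, Nat.cast_sum] at h4
      nlinarith
    obtain ⟨v, hv, hd⟩ := h5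
    have h6 : ((S.filter fun u => ¬ G.Adj v u).card : ℝ) = S.card - (S.filter fun u => G.Adj v u).card := by
      have h7 := Finset.card_filter_add_card_filter_not (s := S) (fun u => G.Adj v u)
      rw [eq_sub_iff_add_eq, add_comm]
      exact_mod_cast h7
    obtain ⟨T, hT⟩ : ∃ T : Finset V, T = (S.filter fun u => ¬ G.Adj v u).erase v := ⟨_, rfl⟩
    have h7 : ((S.filter fun u => ¬ G.Adj v u).card : ℝ) - 1 ≤ T.card := by
      have h8 : (S.filter fun u => ¬ G.Adj v u).card - 1 ≤ T.card := by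
        rw [hT]
        exact Finset.pred_card_le_card_erase
      have h9 : (S.filter fun u => ¬ G.Adj v u).card ≤ T.card + 1 := by omega
      have h10 : ((S.filter fun u => ¬ G.Adj v u).card : ℝ) ≤ (T.card : ℝ) + 1 := by exact_mod_cast h9
      linarith
    have h8 : (1 - q) / 4 * η * n ≤ T.card := by
      have h9 : (1 - q) / 4 * (η * n) ≤ (1 - q) / 4 * S.card :=
        mul_le_mul_of_nonneg_left hS (by positivity)
      nlinarith
    rw [hnn] at h8
    obtain ⟨C, hCT, hC, hI⟩ := H V G hn1 (qr_mono (min_le_left _ _) hQ) T h8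
    have hTS : ∀ u ∈ T, u ≠ v ∧ u ∈ S ∧ ¬ G.Adj v u := by
      intro u hu
      rw [hT, Finset.mem_erase, Finset.mem_filter] at hu
      exact hu
    refine ⟨insert v C, ?_, ?_, ?_⟩
    · intro u hu
      rcases Finset.mem_insert.1 hu with h | h
      · rw [h]; exact hv
      · exact (hTS u (hCT h)).2.1
    · rw [Finset.card_insert_of_notMem (fun h => (hTS v (hCT h)).1 rfl), hC]
    · intro u hu w hw
      rcases Finset.mem_insert.1 hu with h | h
      · rcases Finset.mem_insert.1 hw with h' | h'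
        · rw [h, h']; exact G.irrefl
        · rw [h]; exact (hTS w (hCT h')).2.2
      · rcases Finset.mem_insert.1 hw with h' | h'
        · rw [h']
          intro h9
          exact (hTS u (hCT h)).2.2 h9.symm
        · exact hI u h w h'

theorem greedyCol_aux {V : Type} [Fintype V] (G : SimpleGraph V) (r M : ℕ) (hr : 1 ≤ r)
    (h : ∀ S : Finset V, M ≤ S.card → ∃ C ⊆ S, C.card = r ∧ ∀ u ∈ C, ∀ v ∈ C, ¬ G.Adj u v) :
    ∀ (n : ℕ) (S : Finset V), S.card = n → ∃ (k : ℕ) (col : V → ℕ), k ≤ n / r + M ∧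
      (∀ v ∈ S, col v < k) ∧ ∀ u ∈ S, ∀ v ∈ S, G.Adj u v → col u ≠ col v := by
  intro n
  induction n using Nat.strong_induction_on with
  | _ n ih =>
    intro S hS
    rcases lt_or_ge S.card M with hM | hM
    · refine ⟨S.card, fun v => if hv : v ∈ S then (S.equivFin ⟨v, hv⟩ : ℕ) else 0,
        hM.le.trans (Nat.le_add_left _ _), ?_, ?_⟩
      · intro v hv
        simp only [hv, dif_pos]
        exact (S.equivFin ⟨v, hv⟩).isLt
      · intro u hu v hv huv he
        simp only [hu, hv, dif_pos] at he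
        have h1 := S.equivFin.injective (Fin.ext he)
        exact huv.ne (congrArg Subtype.val h1)
    · obtain ⟨C, hCS, hC, hI⟩ := h S hM
      have hle : r ≤ n := by rw [← hS, ← hC]; exact Finset.card_le_card hCS
      have h1 : (S \ C).card = n - r := by rw [Finset.card_sdiff_of_subset hCS, hS, hC]
      obtain ⟨k, col, hk, hlt, hcol⟩ := ih (n - r) (by omega) (S \ C) h1
      refine ⟨k + 1, fun v => if v ∈ C then k else col v, ?_, ?_, ?_⟩
      · have h2 : n / r = (n - r) / r + 1 := Nat.div_eq_sub_div (by omega) hle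
        omega
      · intro v hv
        by_cases hvC : v ∈ C
        · simp only [hvC, if_true]
          omega
        · simp only [hvC, if_false]
          have h2 := hlt v (Finset.mem_sdiff.2 ⟨hv, hvC⟩)
          omega
      · intro u hu v hv huv
        by_cases huC : u ∈ C
        · by_cases hvC : v ∈ C
          · exact absurd huv (hI u huC v hvC)
          · simp only [huC, hvC, if_true, if_false]
            have h2 := hlt v (Finset.mem_sdiff.2 ⟨hv, hvC⟩)
            omega
        · by_cases hvC : v ∈ C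
          · simp only [huC, hvC, if_true, if_false]
            have h2 := hlt u (Finset.mem_sdiff.2 ⟨hu, huC⟩)
            omega
          · simp only [huC, hvC, if_false]
            exact hcol u (Finset.mem_sdiff.2 ⟨hu, huC⟩) v (Finset.mem_sdiff.2 ⟨hv, hvC⟩) huv

theorem greedyCol {V : Type} [Fintype V] (G : SimpleGraph V) (r M : ℕ) (hr : 1 ≤ r)
    (h : ∀ S : Finset V, M ≤ S.card → ∃ C ⊆ S, C.card = r ∧ ∀ u ∈ C, ∀ v ∈ C, ¬ G.Adj u v) :
    ∃ (k : ℕ) (col : V → ℕ), k ≤ Fintype.card V / r + M ∧ (∀ v, col v < k) ∧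
      ∀ u v, G.Adj u v → col u ≠ col v := by
  obtain ⟨k, col, hk, hlt, hcol⟩ := greedyCol_aux G r M hr h (Fintype.card V) univ Finset.card_univ
  exact ⟨k, col, hk, fun v => hlt v (Finset.mem_univ v),
    fun u v => hcol u (Finset.mem_univ u) v (Finset.mem_univ v)⟩

theorem qr_rob {V : Type} [Fintype V] (G : SimpleGraph V) (q θ ε δ : ℝ) (hq : 0 ≤ q)
    (hε : ε ≤ q * (q - θ - ε)) (hQ : QR G q θ) (hδ : (q - θ) * Fintype.card V ≤ δ) :
    Rob G δ ε θ := by
  intro A B hA
  have h1 := (abs_le.1 (hQ.2 A B)).1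
  obtain ⟨n, hn⟩ : ∃ n : ℝ, n = (Fintype.card V : ℝ) := ⟨_, rfl⟩
  rw [← hn] at h1 hδ hA ⊢
  have hn0 : 0 ≤ n := by rw [hn]; positivity
  have h2 : (q - θ - ε) * n ≤ A.card := by nlinarith
  have h3 : q * ((q - θ - ε) * n) ≤ q * A.card := mul_le_mul_of_nonneg_left h2 hq
  have h4 : ε * n ≤ q * (q - θ - ε) * n := mul_le_mul_of_nonneg_right hε hn0
  have h5 : ε * n ≤ q * A.card := by nlinarith
  have h6 : ε * n * B.card ≤ q * A.card * B.card := mul_le_mul_of_nonneg_right h5 (by positivity)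
  linarith

end Pool.Agent.H71.DN
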