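import Mathlib
import Pool.Agent.H71.DN.Defs

/-!
RFP: a proper colouring `col` with `k` colours gives a family `Fam` of small independent classes of
the vertices outside `C0`.

Proof.
(1) Cut each colour class (of the vertices outside `C0`) into pieces of size `≤ s`, all but the last one
of size exactly `s`: a class of size `a` gives `⌈a / s⌉ ≤ a / s + 1` nonempty pieces (no piece if
`a = 0`), in total at most `k + ∑ a / s ≤ k + #V / s` pieces (natural division; `∑ (a / s) ≤ (∑ a) / s`).
So `{v : v ∉ C0}` is the disjoint union of `K ≤ k + #V / s` nonempty sets of size `≤ s`, each inside one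
colour class. (A convenient form: a finset `P` of finsets; or by induction on the size of the set.)
(2) `refE`: let `O`, `E` be the numbers of odd and of even pieces; number the odd ones `0, ..., O - 1` and
the even ones `O, ..., O + E - 1`; `cl v` is the number of the piece of `v`. For `i ≥ O + E` the set
`{v : v ∉ C0 ∧ cl v = i}` is empty, so `small` holds for all `i`.
(3) `refO`: let `O0`, `E0` be the numbers of (1), and `x = (E0 + 2) / 3 ≤ E0`. Take `x` of the even pieces
(size `≥ 2`) and split each into a single vertex and the rest (of odd size). Now there are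
`O = O0 + 2 x` odd pieces and `E = E0 - x` even pieces: `E ≤ 2 x ≤ O`, and
`2 (O + E) = 2 (O0 + E0) + 2 x ≤ 2 K + 2 (E0 + 2) / 3 ≤ 3 K + 2`. Number them as in (2).
-/

set_option autoImplicit false

namespace Pool.Agent.H71.DN

open Finset Classical

/-- a partition of `W` into small independent sets -/
structure Rfp_P {V : Type} (G : SimpleGraph V) (W : Finset V) (s : ℕ)
    (P : Finset (Finset V)) : Prop where
  ne : ∀ A ∈ P, A.Nonempty
  sub : ∀ A ∈ P, A ⊆ W
  cov : ∀ v ∈ W, ∃ A ∈ P, v ∈ A
  dis : ∀ A ∈ P, ∀ B ∈ P, ∀ v, v ∈ A → v ∈ B → A = B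
  ind : ∀ A ∈ P, ∀ u ∈ A, ∀ v ∈ A, ¬ G.Adj u v
  small : ∀ A ∈ P, A.card ≤ s

theorem Rfp_ex {V : Type} (G : SimpleGraph V) (k : ℕ) (col : V → ℕ)
    (hcol : ∀ v, col v < k) (hprop : ∀ u v, G.Adj u v → col u ≠ col v) (s : ℕ) (hs : 1 ≤ s) :
    ∀ (n : ℕ) (W : Finset V), W.card = n → ∃ P, Rfp_P G W s P ∧ P.card ≤ k + W.card / s := by
  intro n
  induction n using Nat.strong_induction_on with
  | _ n ih =>
    intro W hW
    by_cases h : ∃ i, s ≤ (W.filter fun v => col v = i).card
    · obtain ⟨i, hi⟩ := h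
      obtain ⟨S, hS, hSc⟩ := Finset.exists_subset_card_eq hi
      have hSW : S ⊆ W := hS.trans (Finset.filter_subset _ _)
      have hcard : (W \ S).card = W.card - s := by
        rw [Finset.card_sdiff_of_subset hSW, hSc]
      have hle : s ≤ W.card := by
        rw [← hSc]; exact Finset.card_le_card hSW
      obtain ⟨P, hP, hPc⟩ := ih (W \ S).card (by omega) (W \ S) rfl
      refine ⟨insert S P, ?_, ?_⟩
      · refine ⟨?_, ?_, ?_, ?_, ?_, ?_⟩
        · intro A hA
          rcases Finset.mem_insert.1 hA with rfl | hA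
          · rw [← Finset.card_pos]; omega
          · exact hP.ne A hA
        · intro A hA
          rcases Finset.mem_insert.1 hA with rfl | hA
          · exact hSW
          · exact (hP.sub A hA).trans Finset.sdiff_subset
        · intro v hv
          by_cases hvS : v ∈ S
          · exact ⟨S, Finset.mem_insert_self _ _, hvS⟩
          · obtain ⟨A, hA, hvA⟩ := hP.cov v (Finset.mem_sdiff.2 ⟨hv, hvS⟩)
            exact ⟨A, Finset.mem_insert_of_mem hA, hvA⟩
        · intro A hA B hB v hvA hvB
          rcases Finset.mem_insert.1 hA with rfl | hA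
          · rcases Finset.mem_insert.1 hB with rfl | hB
            · rfl
            · exact absurd hvA (Finset.mem_sdiff.1 (hP.sub B hB hvB)).2
          · rcases Finset.mem_insert.1 hB with hBS | hB
            · rw [hBS] at hvB
              exact absurd hvB (Finset.mem_sdiff.1 (hP.sub A hA hvA)).2
            · exact hP.dis A hA B hB v hvA hvB
        · intro A hA u hu v hv
          rcases Finset.mem_insert.1 hA with rfl | hA
          · intro hadj
            refine hprop u v hadj ?_
            rw [(Finset.mem_filter.1 (hS hu)).2, (Finset.mem_filter.1 (hS hv)).2]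
          · exact hP.ind A hA u hu v hv
        · intro A hA
          rcases Finset.mem_insert.1 hA with rfl | hA
          · exact hSc.le
          · exact hP.small A hA
      · have h1 := Finset.card_insert_le S P
        rw [hcard] at hPc
        have h2 : W.card / s = (W.card - s) / s + 1 := by
          conv_lhs => rw [← Nat.sub_add_cancel hle]
          rw [Nat.add_div_right _ (by omega)]
        omega
    · push Not at h
      refine ⟨((Finset.range k).image fun i => W.filter fun v => col v = i).filter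
        fun A => A.Nonempty, ?_, ?_⟩
      · refine ⟨?_, ?_, ?_, ?_, ?_, ?_⟩
        · intro A hA
          exact (Finset.mem_filter.1 hA).2
        · intro A hA
          obtain ⟨i, -, rfl⟩ := Finset.mem_image.1 (Finset.mem_filter.1 hA).1
          exact Finset.filter_subset _ _
        · intro v hv
          have hmem : v ∈ W.filter fun v' => col v' = col v := Finset.mem_filter.2 ⟨hv, rfl⟩
          refine ⟨W.filter fun v' => col v' = col v, Finset.mem_filter.2 ⟨Finset.mem_image.2
            ⟨col v, Finset.mem_range.2 (hcol v), rfl⟩, ⟨v, hmem⟩⟩, hmem⟩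
        · intro A hA B hB v hvA hvB
          obtain ⟨i, -, rfl⟩ := Finset.mem_image.1 (Finset.mem_filter.1 hA).1
          obtain ⟨j, -, rfl⟩ := Finset.mem_image.1 (Finset.mem_filter.1 hB).1
          rw [← (Finset.mem_filter.1 hvA).2, ← (Finset.mem_filter.1 hvB).2]
        · intro A hA u hu v hv hadj
          obtain ⟨i, -, rfl⟩ := Finset.mem_image.1 (Finset.mem_filter.1 hA).1
          refine hprop u v hadj ?_
          rw [(Finset.mem_filter.1 hu).2, (Finset.mem_filter.1 hv).2]
        · intro A hA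
          obtain ⟨i, -, rfl⟩ := Finset.mem_image.1 (Finset.mem_filter.1 hA).1
          exact (h i).le
      · refine (Finset.card_filter_le _ _).trans (Finset.card_image_le.trans ?_)
        rw [Finset.card_range]
        exact Nat.le_add_right _ _

theorem Rfp_split {V : Type} (G : SimpleGraph V) (W : Finset V) (s : ℕ)
    (P : Finset (Finset V)) (hP : Rfp_P G W s P) (O E : ℕ)
    (hO : (P.filter fun A => Odd A.card).card = O)
    (hE : (P.filter fun A => Even A.card).card = E + 1) :
    ∃ P', Rfp_P G W s P' ∧ (P'.filter fun A => Odd A.card).card = O + 2 ∧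
      (P'.filter fun A => Even A.card).card = E := by
  obtain ⟨A, hA⟩ : (P.filter fun A => Even A.card).Nonempty := by
    rw [← Finset.card_pos]; omega
  obtain ⟨hAP, hAe⟩ := Finset.mem_filter.1 hA
  obtain ⟨a, ha⟩ := hP.ne A hAP
  have hA2 : 2 ≤ A.card := by
    have h1 : 0 < A.card := Finset.card_pos.2 ⟨a, ha⟩
    rcases hAe with ⟨m, hm⟩
    omega
  have hcA : (A.erase a).card = A.card - 1 := Finset.card_erase_of_mem ha
  obtain ⟨c, hc⟩ : (A.erase a).Nonempty := by
    rw [← Finset.card_pos]; omega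
  have hcA' : c ∈ A := Finset.mem_of_mem_erase hc
  have hodd : Odd (A.erase a).card := by
    rw [hcA]
    rcases hAe with ⟨m, hm⟩
    exact ⟨m - 1, by omega⟩
  have hne1 : ({a} : Finset V) ∉ P.erase A := by
    intro h
    have h1 := Finset.mem_erase.1 h
    exact h1.1 (hP.dis _ h1.2 _ hAP a (Finset.mem_singleton_self a) ha)
  have hne2 : A.erase a ∉ P.erase A := by
    intro h
    have h1 := Finset.mem_erase.1 h
    exact h1.1 (hP.dis _ h1.2 _ hAP c hc hcA')
  have hne3 : ({a} : Finset V) ≠ A.erase a := by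
    intro h
    have h1 : a ∈ A.erase a := by rw [← h]; exact Finset.mem_singleton_self a
    exact absurd rfl (Finset.ne_of_mem_erase h1)
  have hne4 : ({a} : Finset V) ∉ insert (A.erase a) (P.erase A) := by
    intro h
    rcases Finset.mem_insert.1 h with h | h
    · exact hne3 h
    · exact hne1 h
  have hmem : ∀ B, B ∈ insert ({a} : Finset V) (insert (A.erase a) (P.erase A)) →
      B = {a} ∨ B = A.erase a ∨ (B ∈ P ∧ B ≠ A) := by
    intro B hB
    rcases Finset.mem_insert.1 hB with h | hB
    · exact Or.inl h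
    rcases Finset.mem_insert.1 hB with h | hB
    · exact Or.inr (Or.inl h)
    · exact Or.inr (Or.inr ⟨Finset.mem_of_mem_erase hB, Finset.ne_of_mem_erase hB⟩)
  refine ⟨insert {a} (insert (A.erase a) (P.erase A)), ⟨?_, ?_, ?_, ?_, ?_, ?_⟩, ?_, ?_⟩
  · intro B hB
    rcases hmem B hB with rfl | rfl | ⟨hB, -⟩
    · exact Finset.singleton_nonempty a
    · exact ⟨c, hc⟩
    · exact hP.ne B hB
  · intro B hB
    rcases hmem B hB with rfl | rfl | ⟨hB, -⟩
    · exact Finset.singleton_subset_iff.2 (hP.sub A hAP ha)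
    · exact (Finset.erase_subset _ _).trans (hP.sub A hAP)
    · exact hP.sub B hB
  · intro v hv
    obtain ⟨B, hB, hvB⟩ := hP.cov v hv
    by_cases hBA : B = A
    · subst hBA
      by_cases hva : v = a
      · exact ⟨{a}, Finset.mem_insert_self _ _, Finset.mem_singleton.2 hva⟩
      · exact ⟨B.erase a, Finset.mem_insert_of_mem (Finset.mem_insert_self _ _),
          Finset.mem_erase.2 ⟨hva, hvB⟩⟩
    · exact ⟨B, Finset.mem_insert_of_mem (Finset.mem_insert_of_mem (Finset.mem_erase.2 ⟨hBA, hB⟩)), hvB⟩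
  · intro B hB C hC v hvB hvC
    have key : ∀ C, C ∈ P → C ≠ A → v ∈ C → v ∉ A := by
      intro C hC hCA hvC hvA
      exact hCA (hP.dis C hC A hAP v hvC hvA)
    rcases hmem B hB with rfl | rfl | ⟨hB', hBA⟩ <;> rcases hmem C hC with rfl | rfl | ⟨hC', hCA⟩
    · rfl
    · exact absurd (Finset.mem_singleton.1 hvB) (Finset.ne_of_mem_erase hvC)
    · have h1 := Finset.mem_singleton.1 hvB
      subst h1
      exact absurd ha (key C hC' hCA hvC)
    · exact absurd (Finset.mem_singleton.1 hvC) (Finset.ne_of_mem_erase hvB)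
    · rfl
    · exact absurd (Finset.mem_of_mem_erase hvB) (key C hC' hCA hvC)
    · have h1 := Finset.mem_singleton.1 hvC
      subst h1
      exact absurd ha (key B hB' hBA hvB)
    · exact absurd (Finset.mem_of_mem_erase hvC) (key B hB' hBA hvB)
    · exact hP.dis B hB' C hC' v hvB hvC
  · intro B hB u hu v hv
    rcases hmem B hB with rfl | rfl | ⟨hB, -⟩
    · have h1 := Finset.mem_singleton.1 hu
      have h2 := Finset.mem_singleton.1 hv
      subst h1
      subst h2
      exact G.irrefl
    · exact hP.ind A hAP u (Finset.mem_of_mem_erase hu) v (Finset.mem_of_mem_erase hv)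
    · exact hP.ind B hB u hu v hv
  · intro B hB
    rcases hmem B hB with rfl | rfl | ⟨hB, -⟩
    · rw [Finset.card_singleton]
      have := hP.small A hAP
      omega
    · have := hP.small A hAP
      omega
    · exact hP.small B hB
  · have h1 : Odd ({a} : Finset V).card := by rw [Finset.card_singleton]; exact odd_one
    rw [Finset.filter_insert, if_pos h1, Finset.filter_insert, if_pos hodd,
      Finset.card_insert_of_notMem, Finset.card_insert_of_notMem, Finset.filter_erase,
      Finset.erase_eq_of_notMem, hO]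
    · intro h
      exact (Nat.not_even_iff_odd.2 (Finset.mem_filter.1 h).2) hAe
    · intro h
      exact hne2 (Finset.mem_filter.1 h).1
    · intro h
      rcases Finset.mem_insert.1 h with h | h
      · exact hne3 h
      · exact hne1 (Finset.mem_filter.1 h).1
  · have h1 : ¬ Even ({a} : Finset V).card := by rw [Finset.card_singleton]; exact Nat.not_even_one
    have h2 : ¬ Even (A.erase a).card := Nat.not_even_iff_odd.2 hodd
    rw [Finset.filter_insert, if_neg h1, Finset.filter_insert, if_neg h2, Finset.filter_erase,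
      Finset.card_erase_of_mem hA, hE]
    rfl

theorem Rfp_splits {V : Type} (G : SimpleGraph V) (W : Finset V) (s : ℕ) (x : ℕ) :
    ∀ (P : Finset (Finset V)), Rfp_P G W s P → ∀ (O E : ℕ),
    (P.filter fun A => Odd A.card).card = O →
    (P.filter fun A => Even A.card).card = E + x →
    ∃ P', Rfp_P G W s P' ∧ (P'.filter fun A => Odd A.card).card = O + 2 * x ∧
      (P'.filter fun A => Even A.card).card = E := by
  induction x with
  | zero =>
    intro P hP O E hO hE
    exact ⟨P, hP, by rw [hO]; rfl, by rw [hE]; rfl⟩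
  | succ x ih =>
    intro P hP O E hO hE
    obtain ⟨P', hP', hO', hE'⟩ := Rfp_split G W s P hP O (E + x) hO (by rw [hE]; ring)
    obtain ⟨P'', hP'', hO'', hE''⟩ := ih P' hP' (O + 2) E hO' hE'
    exact ⟨P'', hP'', by rw [hO'']; ring, hE''⟩

theorem Rfp_num {V : Type} [Fintype V] (G : SimpleGraph V) (C0 : Finset V) (s : ℕ)
    (P : Finset (Finset V)) (hP : Rfp_P G (univ.filter fun v => v ∉ C0) s P) (O E : ℕ)
    (hO : (P.filter fun A => Odd A.card).card = O)
    (hE : (P.filter fun A => Even A.card).card = E) :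
    ∃ cl : V → ℕ, Fam G C0 s O E cl := by
  set PO := P.filter fun A => Odd A.card with hPO
  set PE := P.filter fun A => Even A.card with hPE
  have hdis : ∀ A, A ∈ PO → A ∉ PE := by
    intro A hA hA'
    exact (Nat.not_even_iff_odd.2 (Finset.mem_filter.1 hA).2) (Finset.mem_filter.1 hA').2
  have hor : ∀ A ∈ P, A ∈ PO ∨ A ∈ PE := by
    intro A hA
    rcases Nat.even_or_odd A.card with h | h
    · exact Or.inr (Finset.mem_filter.2 ⟨hA, h⟩)
    · exact Or.inl (Finset.mem_filter.2 ⟨hA, h⟩)
  obtain ⟨num, hn1, hn2⟩ : ∃ num : Finset V → ℕ,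
      (∀ A (h : A ∈ PO), num A = (PO.equivFin ⟨A, h⟩ : ℕ)) ∧
      (∀ A (h : A ∈ PE), num A = O + (PE.equivFin ⟨A, h⟩ : ℕ)) := by
    refine ⟨fun A => if h : A ∈ PO then (PO.equivFin ⟨A, h⟩ : ℕ) else
      if h : A ∈ PE then O + (PE.equivFin ⟨A, h⟩ : ℕ) else 0, ?_, ?_⟩
    · intro A h
      simp only [h, dif_pos]
    · intro A h
      have h' : A ∉ PO := fun h' => hdis A h' h
      simp only [h, h', dif_pos, dif_neg, not_false_eq_true]
  have hltO : ∀ A ∈ PO, num A < O := by
    intro A h
    rw [hn1 A h, ← hO]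
    exact (PO.equivFin ⟨A, h⟩).2
  have hltE : ∀ A ∈ PE, O ≤ num A ∧ num A < O + E := by
    intro A h
    rw [hn2 A h]
    have h1 := (PE.equivFin ⟨A, h⟩).2
    rw [← hE]
    omega
  have hinj : ∀ A ∈ P, ∀ B ∈ P, num A = num B → A = B := by
    intro A hA B hB hAB
    rcases hor A hA with hA' | hA' <;> rcases hor B hB with hB' | hB'
    · rw [hn1 A hA', hn1 B hB'] at hAB
      have h1 := PO.equivFin.injective (Fin.ext hAB)
      exact congrArg Subtype.val h1
    · have h1 := hltO A hA'
      have h2 := hltE B hB'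
      omega
    · have h1 := hltO B hB'
      have h2 := hltE A hA'
      omega
    · rw [hn2 A hA', hn2 B hB'] at hAB
      have h1 := PE.equivFin.injective (Fin.ext (Nat.add_left_cancel hAB))
      exact congrArg Subtype.val h1
  have hsO : ∀ i < O, ∃ A ∈ PO, num A = i := by
    intro i hi
    rw [← hO] at hi
    refine ⟨(PO.equivFin.symm ⟨i, hi⟩).1, (PO.equivFin.symm ⟨i, hi⟩).2, ?_⟩
    rw [hn1 _ (PO.equivFin.symm ⟨i, hi⟩).2]
    simp
  have hsE : ∀ i, O ≤ i → i < O + E → ∃ A ∈ PE, num A = i := by
    intro i hi1 hi2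
    have hi : i - O < PE.card := by omega
    refine ⟨(PE.equivFin.symm ⟨i - O, hi⟩).1, (PE.equivFin.symm ⟨i - O, hi⟩).2, ?_⟩
    rw [hn2 _ (PE.equivFin.symm ⟨i - O, hi⟩).2]
    simp
    omega
  obtain ⟨cl, hcl⟩ : ∃ cl : V → ℕ, ∀ v, ∀ A ∈ P, v ∈ A → cl v = num A := by
    refine ⟨fun v => if h : ∃ A ∈ P, v ∈ A then num h.choose else 0, ?_⟩
    intro v A hA hvA
    have h : ∃ A ∈ P, v ∈ A := ⟨A, hA, hvA⟩
    simp only [h, dif_pos]
    rw [hP.dis _ h.choose_spec.1 A hA v h.choose_spec.2 hvA]
  have hcov : ∀ v, v ∉ C0 → ∃ A ∈ P, v ∈ A := fun v hv =>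
    hP.cov v (Finset.mem_filter.2 ⟨Finset.mem_univ v, hv⟩)
  have hfil : ∀ A ∈ P, (univ.filter fun v => v ∉ C0 ∧ cl v = num A) = A := by
    intro A hA
    ext v
    rw [Finset.mem_filter]
    constructor
    · rintro ⟨-, hv, hv2⟩
      obtain ⟨B, hB, hvB⟩ := hcov v hv
      rw [hcl v B hB hvB] at hv2
      rw [← hinj B hB A hA hv2]
      exact hvB
    · intro hv
      exact ⟨Finset.mem_univ v, (Finset.mem_filter.1 (hP.sub A hA hv)).2, hcl v A hA hv⟩
  have hlt : ∀ A ∈ P, num A < O + E := by
    intro A hA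
    rcases hor A hA with h | h
    · have := hltO A h
      omega
    · exact (hltE A h).2
  refine ⟨cl, ⟨?_, ?_, ?_, ?_, ?_⟩⟩
  · intro v hv
    obtain ⟨A, hA, hvA⟩ := hcov v hv
    rw [hcl v A hA hvA]
    exact hlt A hA
  · intro u hu v hv hadj heq
    obtain ⟨A, hA, huA⟩ := hcov u hu
    obtain ⟨B, hB, hvB⟩ := hcov v hv
    rw [hcl u A hA huA, hcl v B hB hvB] at heq
    have h1 := hinj A hA B hB heq
    subst h1
    exact hP.ind A hA u huA v hvB hadj
  · intro i hi
    obtain ⟨A, hA, rfl⟩ := hsO i hi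
    rw [hfil A (Finset.mem_filter.1 hA).1]
    exact (Finset.mem_filter.1 hA).2
  · intro i hi1 hi2
    obtain ⟨A, hA, rfl⟩ := hsE i hi1 hi2
    rw [hfil A (Finset.mem_filter.1 hA).1]
    exact (Finset.mem_filter.1 hA).2
  · intro i
    by_cases hi : i < O + E
    · have hex : ∃ A ∈ P, num A = i := by
        by_cases hi' : i < O
        · obtain ⟨A, hA, h⟩ := hsO i hi'
          exact ⟨A, (Finset.mem_filter.1 hA).1, h⟩
        · obtain ⟨A, hA, h⟩ := hsE i (by omega) hi
          exact ⟨A, (Finset.mem_filter.1 hA).1, h⟩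
      obtain ⟨A, hA, rfl⟩ := hex
      rw [hfil A hA]
      exact hP.small A hA
    · have hemp : (univ.filter fun v => v ∉ C0 ∧ cl v = i) = ∅ := by
        rw [Finset.eq_empty_iff_forall_notMem]
        intro v hv
        obtain ⟨-, hv1, hv2⟩ := Finset.mem_filter.1 hv
        obtain ⟨A, hA, hvA⟩ := hcov v hv1
        rw [hcl v A hA hvA] at hv2
        have := hlt A hA
        omega
      rw [hemp, Finset.card_empty]
      exact Nat.zero_le s

theorem Rfp_cnt {V : Type} (P : Finset (Finset V)) :
    (P.filter fun A => Odd A.card).card + (P.filter fun A => Even A.card).card = P.card := by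
  have h1 := Finset.card_filter_add_card_filter_not (s := P) (fun A => Odd A.card)
  rw [← h1]
  congr 2
  ext A
  simp only [Finset.mem_filter, Nat.not_odd_iff_even]

theorem refE {V : Type} [Fintype V] (G : SimpleGraph V) (k : ℕ) (col : V → ℕ)
    (hcol : ∀ v, col v < k) (hprop : ∀ u v, G.Adj u v → col u ≠ col v) (s : ℕ) (hs : 1 ≤ s)
    (C0 : Finset V) :
    ∃ (O E : ℕ) (cl : V → ℕ), Fam G C0 s O E cl ∧ O + E ≤ k + Fintype.card V / s := by
  obtain ⟨P, hP, hPc⟩ := Rfp_ex G k col hcol hprop s hs _ (univ.filter fun v => v ∉ C0) rfl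
  obtain ⟨cl, hcl⟩ := Rfp_num G C0 s P hP _ _ rfl rfl
  refine ⟨_, _, cl, hcl, ?_⟩
  rw [Rfp_cnt]
  refine hPc.trans (Nat.add_le_add_left (Nat.div_le_div_right ?_) _)
  exact Finset.card_le_univ _

theorem refO {V : Type} [Fintype V] (G : SimpleGraph V) (k : ℕ) (col : V → ℕ)
    (hcol : ∀ v, col v < k) (hprop : ∀ u v, G.Adj u v → col u ≠ col v) (s : ℕ) (hs : 1 ≤ s)
    (C0 : Finset V) :
    ∃ (O E : ℕ) (cl : V → ℕ), Fam G C0 s O E cl ∧ E ≤ O ∧
      2 * (O + E) ≤ 3 * (k + Fintype.card V / s) + 2 := by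
  obtain ⟨P, hP, hPc⟩ := Rfp_ex G k col hcol hprop s hs _ (univ.filter fun v => v ∉ C0) rfl
  have hPc' : P.card ≤ k + Fintype.card V / s :=
    hPc.trans (Nat.add_le_add_left (Nat.div_le_div_right (Finset.card_le_univ _)) _)
  have hcnt := Rfp_cnt P
  set O0 := (P.filter fun A => Odd A.card).card with hO0
  set E0 := (P.filter fun A => Even A.card).card with hE0
  obtain ⟨P', hP', hO', hE'⟩ := Rfp_splits G _ s ((E0 + 2) / 3) P hP O0 (E0 - (E0 + 2) / 3) rfl (by omega)
  obtain ⟨cl, hcl⟩ := Rfp_num G C0 s P' hP' _ _ hO' hE'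
  exact ⟨_, _, cl, hcl, by omega, by omega⟩

end Pool.Agent.H71.DN
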