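import Mathlib
import Pool.Agent.H71.DN.Rfp

/-!
LAYB: vertex labels `c`, forbidden sets `U ℓ` and jokers `z ℓ` (at most `f v` times the vertex `v`).

Proof.  (1) There is `A1 ⊆ V` with `f v ≥ 1` on `A1`, `#A1 ≤ 2 p - 1`, `2 p - 1 ≤ ∑_{A1} f ≤ 2 p - 1 + M`
(a minimal set with `∑_{A1} f ≥ 2 p - 1`: removing any vertex gives `< 2 p - 1`, and `f ≥ 1` on it,
so it has at most `2 p - 1` elements). Then `∑_{V ∖ A1} f ≥ 2 p - 1` by `hbig`, and in the same way
`A2 ⊆ V ∖ A1` with `#A2 ≤ 2 p - 1`, `2 p - 1 ≤ ∑_{A2} f`.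
(2) `refE` with `C0 = A1 ∪ A2`: `O, E, cl`, `K := O + E ≤ k + n / s`. Labels: `c` injective from `A1` to
`[0, 2 p - 1)`, injective from `A2` to `[4 p + K, 6 p - 1 + K)`, and `c v = 2 p + cl v` for the other
vertices (in `[2 p, 2 p + K)`). `k' := K + 6 p`. Proper: different vertices of `A1` (of `A2`) have
different labels; `cl` is proper.
`U ℓ := {v : c v < ℓ + p ∧ ℓ < c v + p}`, `#(U ℓ) ≤ (2 p - 1) s` (each label is used at most `s` times,
`s ≥ 1`), each `v` is in at most `2 p - 1` of them.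
(3) Jokers, by Hall's theorem (`Finset.all_card_le_biUnion_card_iff_exists_injective`) for the family
`ℓ ↦ {(v, i) : v ∉ U ℓ, i < f v}`, `ℓ < L = k' + p - 1`. Hall's condition for a nonempty set `S` of labels:
let `a = min S`, `b = max S`. If `b - a ≥ 2 p - 1` then `U a ∩ U b = ∅` and the union is everything:
`∑ f ≥ L ≥ #S` by `hsum` (`L ≤ k + n / s + 7 p`). Otherwise `#S ≤ b - a + 1 ≤ 2 p - 1`; the window of `a`
(an interval of `2 p - 1` consecutive labels) does not meet both `c(A1) ⊆ [0, 2 p - 1)` and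
`c(A2) ⊆ [4 p + K, ...)`, so `U a` is disjoint from `A1` or from `A2`, and the family at `a` has at least
`2 p - 1` elements. The injection gives `z ℓ` = first coordinate; `#{ℓ < L : z ℓ = v} ≤ f v`.
(`z ℓ` arbitrary for `ℓ ≥ L`; `V` is nonempty since `∑ f ≥ 2 (2 p - 1) > 0`.)
-/

set_option autoImplicit false

namespace Pool.Agent.H71.DN

open Finset Classical

/-- a minimal set of weight at least `m` -/
theorem LayB_min {V : Type} (f : V → ℕ) (M m : ℕ) (hf : ∀ v, f v ≤ M) (hm : 1 ≤ m) (D : Finset V)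
    (hD : m ≤ ∑ v ∈ D, f v) :
    ∃ A ⊆ D, A.card ≤ m ∧ m ≤ ∑ v ∈ A, f v ∧ ∑ v ∈ A, f v ≤ m + M := by
  classical
  have hne : (D.powerset.filter fun A => m ≤ ∑ v ∈ A, f v).Nonempty :=
    ⟨D, mem_filter.2 ⟨mem_powerset.2 (subset_refl D), hD⟩⟩
  obtain ⟨A, hA, hmin⟩ := exists_min_image _ (fun A : Finset V => A.card) hne
  rw [mem_filter, mem_powerset] at hA
  obtain ⟨hAD, hAm⟩ := hA
  have key : ∀ v ∈ A, ∑ u ∈ A.erase v, f u < m := by
    intro v hv
    by_contra hcon
    have h1 : A.erase v ∈ D.powerset.filter fun A => m ≤ ∑ v ∈ A, f v :=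
      mem_filter.2 ⟨mem_powerset.2 ((erase_subset v A).trans hAD), not_lt.1 hcon⟩
    have h2 := hmin _ h1
    have h3 := card_erase_lt_of_mem hv
    omega
  have hA0 : A.Nonempty := by
    rw [nonempty_iff_ne_empty]
    rintro rfl
    simp only [sum_empty] at hAm
    omega
  have hpos : ∀ v ∈ A, 1 ≤ f v := by
    intro v hv
    have h1 := key v hv
    have h2 := add_sum_erase A f hv
    omega
  obtain ⟨v, hv⟩ := hA0
  have h1 := key v hv
  have h2 := add_sum_erase A f hv
  have h3 := hf v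
  refine ⟨A, hAD, ?_, hAm, by omega⟩
  have h4 : (A.erase v).card ≤ ∑ u ∈ A.erase v, f u := by
    rw [card_eq_sum_ones]
    exact sum_le_sum fun u hu => hpos u (mem_of_mem_erase hu)
  have h5 := card_erase_add_one hv
  omega

/-- numbering of a finset -/
theorem LayB_num {V : Type} (A : Finset V) :
    ∃ g : V → ℕ, (∀ v ∈ A, g v < A.card) ∧ ∀ u ∈ A, ∀ v ∈ A, g u = g v → u = v := by
  classical
  refine ⟨fun v => if h : v ∈ A then (A.equivFin ⟨v, h⟩ : ℕ) else 0, ?_, ?_⟩
  · intro v hv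
    show (if h : v ∈ A then (A.equivFin ⟨v, h⟩ : ℕ) else 0) < A.card
    rw [dif_pos hv]
    exact (A.equivFin ⟨v, hv⟩).2
  · intro u hu v hv huv
    have h1 : (if h : u ∈ A then (A.equivFin ⟨u, h⟩ : ℕ) else 0) =
        (if h : v ∈ A then (A.equivFin ⟨v, h⟩ : ℕ) else 0) := huv
    rw [dif_pos hu, dif_pos hv] at h1
    have h2 : A.equivFin ⟨u, hu⟩ = A.equivFin ⟨v, hv⟩ := Fin.ext h1
    have h3 := A.equivFin.injective h2
    exact congrArg Subtype.val h3

/-- Hall's theorem for the jokers -/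
theorem LayB_hall {V : Type} [Fintype V] (f c : V → ℕ) (p K L : ℕ) (hp : 1 ≤ p) (A1 A2 : Finset V)
    (h1 : 2 * p - 1 ≤ ∑ v ∈ A1, f v) (h2 : 2 * p - 1 ≤ ∑ v ∈ A2, f v)
    (hc1 : ∀ v ∈ A1, c v < 2 * p - 1) (hc2 : ∀ v ∈ A2, 4 * p + K ≤ c v) (hL : L ≤ ∑ v, f v) :
    ∃ z : ℕ → V, (∀ ℓ < L, ¬ (c (z ℓ) < ℓ + p ∧ ℓ < c (z ℓ) + p)) ∧
      ∀ v, ((range L).filter fun ℓ => z ℓ = v).card ≤ f v := by
  classical
  let U : ℕ → Finset V := fun ℓ => univ.filter fun v => ¬ (c v < ℓ + p ∧ ℓ < c v + p)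
  let t : Fin L → Finset (Σ _ : V, ℕ) := fun ℓ => (U ℓ).sigma fun v => range (f v)
  have hall : ∀ S : Finset (Fin L), S.card ≤ (S.biUnion t).card := by
    intro S
    rcases S.eq_empty_or_nonempty with rfl | hS
    · simp
    obtain ⟨a, haS, ha⟩ : ∃ a ∈ S, ∀ x ∈ S, a ≤ x := ⟨S.min' hS, S.min'_mem hS, fun x hx => S.min'_le x hx⟩
    obtain ⟨b, hbS, hb⟩ : ∃ b ∈ S, ∀ x ∈ S, x ≤ b := ⟨S.max' hS, S.max'_mem hS, fun x hx => S.le_max' x hx⟩
    by_cases hab : (a : ℕ) + (2 * p - 1) ≤ b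
    · have hsub : (univ : Finset V).sigma (fun v => range (f v)) ⊆ S.biUnion t := by
        rintro ⟨v, i⟩ hvi
        rw [mem_sigma] at hvi
        rw [mem_biUnion]
        by_cases hv : c v < (a : ℕ) + p ∧ (a : ℕ) < c v + p
        · refine ⟨b, hbS, ?_⟩
          show (⟨v, i⟩ : Σ _ : V, ℕ) ∈ (U b).sigma fun v => range (f v)
          rw [mem_sigma]
          refine ⟨mem_filter.2 ⟨mem_univ _, ?_⟩, hvi.2⟩
          rintro ⟨h3, h4⟩
          have h5 : c v < (a : ℕ) + p := hv.1
          have h6 : (b : ℕ) < c v + p := h4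
          omega
        · refine ⟨a, haS, ?_⟩
          show (⟨v, i⟩ : Σ _ : V, ℕ) ∈ (U a).sigma fun v => range (f v)
          rw [mem_sigma]
          exact ⟨mem_filter.2 ⟨mem_univ _, hv⟩, hvi.2⟩
      have h3 := card_le_card hsub
      rw [card_sigma] at h3
      simp only [card_range] at h3
      have h4 : S.card ≤ L := by
        have := card_le_univ S
        rwa [Fintype.card_fin] at this
      omega
    · have hScard : S.card ≤ 2 * p - 1 := by
        have h3 : (S.image fun x : Fin L => (x : ℕ)) ⊆ Icc (a : ℕ) b := by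
          intro y hy
          obtain ⟨x, hx, rfl⟩ := mem_image.1 hy
          rw [mem_Icc]
          exact ⟨ha x hx, hb x hx⟩
        have h4 := card_le_card h3
        rw [card_image_of_injective _ Fin.val_injective, Nat.card_Icc] at h4
        omega
      have haux : ∀ A : Finset V, 2 * p - 1 ≤ ∑ v ∈ A, f v → (∀ v ∈ A, ¬ (c v < (a : ℕ) + p ∧ (a : ℕ) < c v + p)) →
          S.card ≤ (S.biUnion t).card := by
        intro A hA hdis
        have hsub : A.sigma (fun v => range (f v)) ⊆ S.biUnion t := by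
          rintro ⟨v, i⟩ hvi
          rw [mem_sigma] at hvi
          rw [mem_biUnion]
          refine ⟨a, haS, ?_⟩
          show (⟨v, i⟩ : Σ _ : V, ℕ) ∈ (U a).sigma fun v => range (f v)
          rw [mem_sigma]
          exact ⟨mem_filter.2 ⟨mem_univ _, hdis v hvi.1⟩, hvi.2⟩
        have h3 := card_le_card hsub
        rw [card_sigma] at h3
        simp only [card_range] at h3
        omega
      by_cases hd : ∀ v ∈ A1, ¬ (c v < (a : ℕ) + p ∧ (a : ℕ) < c v + p)
      · exact haux A1 h1 hd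
      · push Not at hd
        obtain ⟨v1, hv1, h3, h4⟩ := hd
        refine haux A2 h2 fun v hv => ?_
        rintro ⟨h5, h6⟩
        have h7 := hc1 v1 hv1
        have h8 := hc2 v hv
        omega
  obtain ⟨g, hg, hgt⟩ := (Finset.all_card_le_biUnion_card_iff_exists_injective t).1 hall
  have hne : Nonempty V := by
    by_contra hcon
    rw [not_nonempty_iff] at hcon
    have : ∑ v ∈ A1, f v = 0 := by
      have hA : A1 = ∅ := by
        rw [eq_empty_iff_forall_notMem]
        intro v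
        exact hcon.elim v
      rw [hA, sum_empty]
    omega
  obtain ⟨v0⟩ := hne
  have hgm : ∀ ℓ : Fin L, (g ℓ).1 ∈ U ℓ ∧ (g ℓ).2 < f (g ℓ).1 := by
    intro ℓ
    have h3 : g ℓ ∈ (U ℓ).sigma fun v => range (f v) := hgt ℓ
    rw [mem_sigma, mem_range] at h3
    exact h3
  refine ⟨fun ℓ => if h : ℓ < L then (g ⟨ℓ, h⟩).1 else v0, ?_, ?_⟩
  · intro ℓ hℓ
    have h3 := (hgm ⟨ℓ, hℓ⟩).1
    show ¬ (c (if h : ℓ < L then (g ⟨ℓ, h⟩).1 else v0) < ℓ + p ∧
      ℓ < c (if h : ℓ < L then (g ⟨ℓ, h⟩).1 else v0) + p)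
    rw [dif_pos hℓ]
    exact (mem_filter.1 h3).2
  · intro v
    rw [← card_range (f v)]
    refine card_le_card_of_injOn (fun ℓ => if h : ℓ < L then (g ⟨ℓ, h⟩).2 else 0) ?_ ?_
    · intro ℓ hℓ
      have hℓ' := mem_filter.1 (mem_coe.1 hℓ)
      have hℓL := mem_range.1 hℓ'.1
      have h4 : (if h : ℓ < L then (g ⟨ℓ, h⟩).1 else v0) = v := hℓ'.2
      rw [dif_pos hℓL] at h4
      have h5 := (hgm ⟨ℓ, hℓL⟩).2
      rw [h4] at h5
      rw [mem_coe, mem_range]
      show (if h : ℓ < L then (g ⟨ℓ, h⟩).2 else 0) < f v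
      rw [dif_pos hℓL]
      exact h5
    · intro ℓ hℓ ℓ' hℓ' heq
      have hℓ1 := mem_filter.1 (mem_coe.1 hℓ)
      have hℓ2 := mem_filter.1 (mem_coe.1 hℓ')
      have hL1 := mem_range.1 hℓ1.1
      have hL2 := mem_range.1 hℓ2.1
      have h4 : (if h : ℓ < L then (g ⟨ℓ, h⟩).1 else v0) = v := hℓ1.2
      have h5 : (if h : ℓ' < L then (g ⟨ℓ', h⟩).1 else v0) = v := hℓ2.2
      rw [dif_pos hL1] at h4
      rw [dif_pos hL2] at h5
      have h6 : (if h : ℓ < L then (g ⟨ℓ, h⟩).2 else 0) = (if h : ℓ' < L then (g ⟨ℓ', h⟩).2 else 0) := heq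
      rw [dif_pos hL1, dif_pos hL2] at h6
      have h7 : g ⟨ℓ, hL1⟩ = g ⟨ℓ', hL2⟩ := by
        refine Sigma.ext (h4.trans h5.symm) ?_
        exact heq_of_eq h6
      have h8 := hg h7
      exact congrArg Fin.val h8

theorem LayB_win (a p : ℕ) (hp : 1 ≤ p) (S : Finset ℕ) (h : ∀ x ∈ S, x < a + p ∧ a < x + p) :
    S.card ≤ 2 * p - 1 := by
  have h1 : S ⊆ Ico (a + 1 - p) (a + p) := by
    intro x hx
    have h2 := h x hx
    rw [mem_Ico]
    omega
  have h3 := card_le_card h1
  rw [Nat.card_Ico] at h3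
  omega

theorem layB {V : Type} [Fintype V] (G : SimpleGraph V) (k : ℕ) (col : V → ℕ)
    (hcol : ∀ v, col v < k) (hprop : ∀ u v, G.Adj u v → col u ≠ col v) (p s : ℕ) (hp : 1 ≤ p)
    (hs : 1 ≤ s) (f : V → ℕ) (M : ℕ) (hf : ∀ v, f v ≤ M)
    (hbig : 2 * (2 * p - 1) + M ≤ ∑ v, f v)
    (hsum : k + Fintype.card V / s + 7 * p ≤ ∑ v, f v) :
    ∃ (c : V → ℕ) (k' : ℕ) (U : ℕ → Finset V) (z : ℕ → V), (∀ v, c v < k') ∧
      (∀ u v, G.Adj u v → c u ≠ c v) ∧ k' ≤ k + Fintype.card V / s + 6 * p ∧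
      (∀ ℓ < k' + p - 1, ∀ v, c v < ℓ + p → ℓ < c v + p → v ∈ U ℓ) ∧
      (∀ ℓ < k' + p - 1, (U ℓ).card ≤ (2 * p - 1) * s) ∧
      (∀ v, ((range (k' + p - 1)).filter fun ℓ => v ∈ U ℓ).card ≤ 2 * p - 1) ∧
      (∀ ℓ < k' + p - 1, z ℓ ∉ U ℓ) ∧
      (∀ v, ((range (k' + p - 1)).filter fun ℓ => z ℓ = v).card ≤ f v) := by
  have hm : 1 ≤ 2 * p - 1 := by omega
  obtain ⟨A1, -, hA1c, hA1s, hA1M⟩ := LayB_min f M (2 * p - 1) hf hm univ (by omega)
  have hrest : 2 * p - 1 ≤ ∑ v ∈ univ \ A1, f v := by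
    have h1 := sum_sdiff (f := f) (subset_univ A1)
    omega
  obtain ⟨A2, hA2, hA2c, hA2s, -⟩ := LayB_min f M (2 * p - 1) hf hm (univ \ A1) hrest
  have hdis : ∀ v ∈ A2, v ∉ A1 := fun v hv => (mem_sdiff.1 (hA2 hv)).2
  obtain ⟨O, E, cl, hF, hOE⟩ := refE G k col hcol hprop s hs (A1 ∪ A2)
  obtain ⟨g1, hg1, hg1i⟩ := LayB_num A1
  obtain ⟨g2, hg2, hg2i⟩ := LayB_num A2
  obtain ⟨K, hK⟩ : ∃ K, K = O + E := ⟨_, rfl⟩
  obtain ⟨c, hc⟩ : ∃ c : V → ℕ, c = fun v => if v ∈ A1 then g1 v else if v ∈ A2 then 4 * p + K + g2 v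
    else 2 * p + cl v := ⟨_, rfl⟩
  have e1 : ∀ v ∈ A1, c v = g1 v := by
    intro v hv
    rw [hc]
    exact if_pos hv
  have e2 : ∀ v ∈ A2, c v = 4 * p + K + g2 v := by
    intro v hv
    rw [hc]
    show (if v ∈ A1 then g1 v else if v ∈ A2 then 4 * p + K + g2 v else 2 * p + cl v) = _
    rw [if_neg (hdis v hv), if_pos hv]
  have e3 : ∀ v, v ∉ A1 ∪ A2 → c v = 2 * p + cl v := by
    intro v hv
    rw [mem_union, not_or] at hv
    rw [hc]
    show (if v ∈ A1 then g1 v else if v ∈ A2 then 4 * p + K + g2 v else 2 * p + cl v) = _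
    rw [if_neg hv.1, if_neg hv.2]
  have r1 : ∀ v ∈ A1, c v < 2 * p - 1 := by
    intro v hv
    have := hg1 v hv
    rw [e1 v hv]
    omega
  have r2 : ∀ v ∈ A2, 4 * p + K ≤ c v ∧ c v < K + 6 * p - 1 := by
    intro v hv
    have := hg2 v hv
    rw [e2 v hv]
    omega
  have r3 : ∀ v, v ∉ A1 ∪ A2 → 2 * p ≤ c v ∧ c v < 2 * p + K := by
    intro v hv
    have := hF.lt v hv
    rw [e3 v hv]
    omega
  have hcase : ∀ v, v ∈ A1 ∨ v ∈ A2 ∨ v ∉ A1 ∪ A2 := by
    intro v
    by_cases h1 : v ∈ A1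
    · exact Or.inl h1
    · by_cases h2 : v ∈ A2
      · exact Or.inr (Or.inl h2)
      · right; right
        rw [mem_union, not_or]
        exact ⟨h1, h2⟩
  have hfib : ∀ i, (univ.filter fun v => c v = i).card ≤ s := by
    intro i
    by_cases hi1 : i < 2 * p
    · refine le_trans ?_ hs
      rw [card_le_one]
      intro u hu v hv
      rw [mem_filter] at hu hv
      have hu1 : u ∈ A1 := by
        rcases hcase u with h | h | h
        · exact h
        · have := r2 u h
          omega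
        · have := r3 u h
          omega
      have hv1 : v ∈ A1 := by
        rcases hcase v with h | h | h
        · exact h
        · have := r2 v h
          omega
        · have := r3 v h
          omega
      refine hg1i u hu1 v hv1 ?_
      rw [← e1 u hu1, ← e1 v hv1, hu.2, hv.2]
    · by_cases hi2 : 4 * p + K ≤ i
      · refine le_trans ?_ hs
        rw [card_le_one]
        intro u hu v hv
        rw [mem_filter] at hu hv
        have hu1 : u ∈ A2 := by
          rcases hcase u with h | h | h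
          · have := r1 u h
            omega
          · exact h
          · have := r3 u h
            omega
        have hv1 : v ∈ A2 := by
          rcases hcase v with h | h | h
          · have := r1 v h
            omega
          · exact h
          · have := r3 v h
            omega
        refine hg2i u hu1 v hv1 ?_
        have h3 := e2 u hu1
        have h4 := e2 v hv1
        omega
      · refine le_trans (card_le_card ?_) (hF.small (i - 2 * p))
        intro v hv
        rw [mem_filter] at hv ⊢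
        have hv1 : v ∉ A1 ∪ A2 := by
          rcases hcase v with h | h | h
          · have := r1 v h
            omega
          · have := r2 v h
            omega
          · exact h
        refine ⟨mem_univ _, hv1, ?_⟩
        have := e3 v hv1
        omega
  have hL : K + 6 * p + p - 1 ≤ ∑ v, f v := by omega
  obtain ⟨z, hz1, hz2⟩ := LayB_hall f c p K (K + 6 * p + p - 1) hp A1 A2 hA1s hA2s r1
    (fun v hv => (r2 v hv).1) hL
  refine ⟨c, K + 6 * p, fun ℓ => univ.filter fun v => c v < ℓ + p ∧ ℓ < c v + p, z, ?_, ?_, by omega, ?_, ?_, ?_, ?_, hz2⟩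
  · intro v
    rcases hcase v with h | h | h
    · have := r1 v h
      omega
    · have := r2 v h
      omega
    · have := r3 v h
      omega
  · intro u v huv heq
    have hne : u ≠ v := G.ne_of_adj huv
    rcases hcase u with hu | hu | hu
    · rcases hcase v with hv | hv | hv
      · rw [e1 u hu, e1 v hv] at heq
        exact hne (hg1i u hu v hv heq)
      · have h1 := r1 u hu
        have h2 := r2 v hv
        omega
      · have h1 := r1 u hu
        have h2 := r3 v hv
        omega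
    · rcases hcase v with hv | hv | hv
      · have h1 := r2 u hu
        have h2 := r1 v hv
        omega
      · rw [e2 u hu, e2 v hv] at heq
        exact hne (hg2i u hu v hv (by omega))
      · have h1 := r2 u hu
        have h2 := r3 v hv
        omega
    · rcases hcase v with hv | hv | hv
      · have h1 := r3 u hu
        have h2 := r1 v hv
        omega
      · have h1 := r3 u hu
        have h2 := r2 v hv
        omega
      · rw [e3 u hu, e3 v hv] at heq
        exact hF.prop u hu v hv huv (by omega)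
  · intro ℓ _ v h1 h2
    exact mem_filter.2 ⟨mem_univ _, h1, h2⟩
  · intro ℓ _
    have h1 : (Ico (ℓ + 1 - p) (ℓ + p)).card ≤ 2 * p - 1 := by
      rw [Nat.card_Ico]
      omega
    have h2 := card_le_mul_card_image_of_maps_to (s := univ.filter fun v => c v < ℓ + p ∧ ℓ < c v + p)
      (t := Ico (ℓ + 1 - p) (ℓ + p)) (f := c) (by
        intro v hv
        have hv' := (mem_filter.1 hv).2
        rw [mem_Ico]
        omega) s (by
        intro i _
        refine le_trans (card_le_card ?_) (hfib i)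
        intro v hv
        rw [mem_filter] at hv ⊢
        exact ⟨mem_univ _, hv.2⟩)
    calc _ ≤ s * (Ico (ℓ + 1 - p) (ℓ + p)).card := h2
      _ ≤ s * (2 * p - 1) := Nat.mul_le_mul_left s h1
      _ = (2 * p - 1) * s := Nat.mul_comm _ _
  · intro v
    refine LayB_win (c v) p hp _ fun ℓ hℓ => ?_
    have h1 := (mem_filter.1 (mem_filter.1 hℓ).2).2
    exact ⟨h1.2, h1.1⟩
  · intro ℓ hℓ h
    exact hz1 ℓ hℓ (mem_filter.1 h).2

end Pool.Agent.H71.DN
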