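import Mathlib
import Pool.Agent.H71.DN.Prc
import Pool.Agent.H71.DN.Ntm

/-!
INA: edge-disjoint perfect matchings of the graphs `G - U ℓ`, `ℓ < L`; the case in which nothing may
stay uncovered (nearly regular graphs).

Proof.  `natm` for `G0 = G \ R` gives `μ`. Put
 `m0 ℓ v := if v ∈ U ℓ ∨ μ ℓ v ∈ U ℓ then v else μ ℓ v` (an involution), `J ℓ := ∅`,
 `W0 ℓ := {v : v ∉ U ℓ ∧ m0 ℓ v = v}`.
Then `m0 ℓ v` is `v` or a `G0`-neighbour of `v`, so `¬ R.Adj v (m0 ℓ v)`. If `v ∈ W0 ℓ` then `μ ℓ v = v`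
or (`μ ℓ v ≠ v` and `μ ℓ v ∈ U ℓ`), so
 `#{ℓ < L : v ∈ W0 ℓ ∨ v ∈ J ℓ} ≤ (N - dg G0 v) + t ≤ E` (`hE`), and
 `∑ ℓ < L, #(W0 ℓ) = ∑ v, #{ℓ < L : v ∈ W0 ℓ} ≤ #V * E =: T`.
Apply `prc` (second case of `hJ` for all `ℓ`). For the result `mm`:
 * `mm ℓ v ≠ v` for `v ∉ U ℓ`: if `m0 ℓ v ≠ v` by the fourth conclusion; otherwise `v ∈ W0 ℓ`.
 * `adj`: if `mm ℓ v ≠ v` then `mm ℓ v = m0 ℓ v` is a `G0`-neighbour, or an `R`-neighbour; both in `G`.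
 * `dis` for `ℓ ≠ ℓ'`: if `R.Adj v (mm ℓ v)` use the last conclusion of `prc`. Otherwise
   `mm ℓ v = m0 ℓ v = μ ℓ v ≠ v`; suppose `mm ℓ v = mm ℓ' v`. It is not an `R`-neighbour, so
   `mm ℓ' v = m0 ℓ' v ≠ v`, i.e. `= μ ℓ' v`, against the third conclusion of `natm`.
-/

set_option autoImplicit false

namespace Pool.Agent.H71.DN

open Finset Classical

theorem inA {V : Type} [Fintype V] (G R : SimpleGraph V) (L N s t : ℕ) (U : ℕ → Finset V)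
    (D m bb q ζ β β2 S0 E : ℕ) (hP : Par G R N s t D m bb q ζ β β2 S0 E) (hL : L ≤ N)
    (hU : ∀ v, ((range L).filter fun ℓ => v ∈ U ℓ).card ≤ s)
    (hE : ∀ v, N + t ≤ dg (G \ R) v + E)
    (hβ : ∀ ℓ < L, (U ℓ).card + 1 + β2 ≤ β)
    (hev : ∀ ℓ < L, Even (univ \ U ℓ).card) :
    ∃ mm : ℕ → V → V, PM G L U mm ∧ ∀ ℓ < L, ∀ v, v ∉ U ℓ → mm ℓ v ≠ v := by
  obtain ⟨μ, hμ1, hμ2, hμ3, hμ4, hμ5⟩ := natm (G \ R) N L s t hP.hN hL U hU hP.ht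
  let m0 : ℕ → V → V := fun ℓ v => if v ∈ U ℓ ∨ μ ℓ v ∈ U ℓ then v else μ ℓ v
  let W0 : ℕ → Finset V := fun ℓ => univ.filter fun v => v ∉ U ℓ ∧ m0 ℓ v = v
  have hmpos : ∀ ℓ v, (v ∈ U ℓ ∨ μ ℓ v ∈ U ℓ) → m0 ℓ v = v := fun ℓ v h => if_pos h
  have hmneg : ∀ ℓ v, ¬ (v ∈ U ℓ ∨ μ ℓ v ∈ U ℓ) → m0 ℓ v = μ ℓ v := fun ℓ v h => if_neg h
  have hcase : ∀ ℓ v, m0 ℓ v = v ∨ m0 ℓ v = μ ℓ v := by
    intro ℓ v
    by_cases h : v ∈ U ℓ ∨ μ ℓ v ∈ U ℓ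
    · exact Or.inl (hmpos ℓ v h)
    · exact Or.inr (hmneg ℓ v h)
  have hinv : ∀ ℓ, Inv (m0 ℓ) := by
    intro ℓ v
    by_cases h : v ∈ U ℓ ∨ μ ℓ v ∈ U ℓ
    · rw [hmpos ℓ v h, hmpos ℓ v h]
    · rw [hmneg ℓ v h]
      have h2 : ¬ (μ ℓ v ∈ U ℓ ∨ μ ℓ (μ ℓ v) ∈ U ℓ) := by
        rw [hμ1 ℓ v]
        intro h3
        exact h (Or.symm h3)
      rw [hmneg ℓ _ h2, hμ1 ℓ v]
  have hm1 : ∀ ℓ v, ¬ R.Adj v (m0 ℓ v) := by
    intro ℓ v hR
    rcases hcase ℓ v with h | h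
    · rw [h] at hR
      exact R.loopless.irrefl v hR
    · rw [h] at hR
      by_cases h2 : μ ℓ v = v
      · rw [h2] at hR
        exact R.loopless.irrefl v hR
      · exact (hμ2 ℓ v h2).2 hR
  have hW0mem : ∀ ℓ v, v ∈ W0 ℓ ↔ (v ∉ U ℓ ∧ m0 ℓ v = v) := by
    intro ℓ v
    show v ∈ univ.filter _ ↔ _
    rw [Finset.mem_filter]
    exact ⟨fun h => h.2, fun h => ⟨Finset.mem_univ v, h⟩⟩
  have hWcount : ∀ v, ((range L).filter fun ℓ => v ∈ W0 ℓ ∨ v ∈ (∅ : Finset V)).card ≤ E := by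
    intro v
    have hsub : ((range L).filter fun ℓ => v ∈ W0 ℓ ∨ v ∈ (∅ : Finset V)) ⊆
        ((range L).filter fun ℓ => μ ℓ v = v) ∪
        ((range L).filter fun ℓ => μ ℓ v ≠ v ∧ μ ℓ v ∈ U ℓ) := by
      intro ℓ hℓ
      rw [Finset.mem_filter] at hℓ
      rw [Finset.mem_union, Finset.mem_filter, Finset.mem_filter]
      obtain ⟨h1, h2⟩ := hℓ
      have h3 : v ∈ W0 ℓ := by
        rcases h2 with h2 | h2
        · exact h2
        · exact absurd h2 (Finset.notMem_empty v)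
      obtain ⟨h4, h5⟩ := (hW0mem ℓ v).mp h3
      by_cases h6 : μ ℓ v = v
      · exact Or.inl ⟨h1, h6⟩
      · right
        refine ⟨h1, h6, ?_⟩
        by_contra h7
        have h8 : ¬ (v ∈ U ℓ ∨ μ ℓ v ∈ U ℓ) := by
          intro h
          rcases h with h | h
          · exact h4 h
          · exact h7 h
        rw [hmneg ℓ v h8] at h5
        exact h6 h5
    have h1 := (Finset.card_le_card hsub).trans (Finset.card_union_le _ _)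
    have h2 := hμ4 v
    have h3 := hμ5 v
    have h4 := hE v
    omega
  have hT : ∑ ℓ ∈ range L, (W0 ℓ).card ≤ Fintype.card V * E := by
    have e1 : ∀ ℓ, (W0 ℓ).card = ∑ v : V, if v ∈ W0 ℓ then 1 else 0 := by
      intro ℓ
      rw [← Finset.card_filter]
      apply congrArg Finset.card
      ext v
      constructor
      · intro h
        exact Finset.mem_filter.mpr ⟨Finset.mem_univ v, h⟩
      · intro h
        exact (Finset.mem_filter.mp h).2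
    calc ∑ ℓ ∈ range L, (W0 ℓ).card
        = ∑ ℓ ∈ range L, ∑ v : V, (if v ∈ W0 ℓ then 1 else 0) :=
          Finset.sum_congr rfl (fun ℓ _ => e1 ℓ)
      _ = ∑ v : V, ∑ ℓ ∈ range L, (if v ∈ W0 ℓ then 1 else 0) := Finset.sum_comm
      _ ≤ ∑ v : V, E := by
          apply Finset.sum_le_sum
          intro v _
          rw [← Finset.card_filter]
          refine le_trans (Finset.card_le_card ?_) (hWcount v)
          intro ℓ hℓ
          rw [Finset.mem_filter] at hℓ ⊢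
          exact ⟨hℓ.1, Or.inl hℓ.2⟩
      _ = Fintype.card V * E := by
          rw [Finset.sum_const, Finset.card_univ, smul_eq_mul]
  obtain ⟨mm, k1, k2, k3, k4, k5, k6⟩ := prc R L U W0 (fun _ => ∅) m0 D m bb q ζ β β2 S0 E
    (Fintype.card V * E) hP.hS0 hP.h1 hP.h2 hP.ex (fun ℓ _ => hinv ℓ) (fun ℓ _ v => hm1 ℓ v)
    (fun ℓ _ v hv => hmpos ℓ v (Or.inl hv))
    (fun ℓ _ v hv => ⟨((hW0mem ℓ v).mp hv).2, ((hW0mem ℓ v).mp hv).1⟩)
    (fun ℓ hℓ => Or.inr ⟨rfl, hev ℓ hℓ, fun v hv => by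
      by_cases h : v ∈ U ℓ
      · exact Or.inl h
      · exact Or.inr ((hW0mem ℓ v).mpr ⟨h, hv⟩)⟩)
    hβ hT hP.hT hWcount
  refine ⟨mm, ⟨k1, ?_, ?_, k2⟩, ?_⟩
  · intro ℓ hℓ v hv
    rcases k5 ℓ hℓ v with h | h
    · rw [h] at hv ⊢
      rcases hcase ℓ v with h2 | h2
      · exact absurd h2 hv
      · rw [h2] at hv ⊢
        exact (hμ2 ℓ v hv).1
    · exact hP.le h
  · intro ℓ hℓ ℓ' hℓ' hne v hv he
    by_cases hR : R.Adj v (mm ℓ v)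
    · exact k6 ℓ hℓ ℓ' hℓ' (Ne.symm hne) v hR he
    · have h1 : mm ℓ v = m0 ℓ v := (k5 ℓ hℓ v).resolve_right hR
      have hR' : ¬ R.Adj v (mm ℓ' v) := by
        rw [← he]
        exact hR
      have h2 : mm ℓ' v = m0 ℓ' v := (k5 ℓ' hℓ' v).resolve_right hR'
      have h3 : m0 ℓ v = μ ℓ v := by
        rcases hcase ℓ v with h | h
        · exact absurd (h1.trans h) hv
        · exact h
      have hv' : mm ℓ' v ≠ v := by
        rw [← he]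
        exact hv
      have h4 : m0 ℓ' v = μ ℓ' v := by
        rcases hcase ℓ' v with h | h
        · exact absurd (h2.trans h) hv'
        · exact h
      refine hμ3 ℓ hℓ ℓ' hℓ' hne v ?_ ?_
      · rw [← h3, ← h1]
        exact hv
      · rw [← h3, ← h1, he, h2, h4]
  · intro ℓ hℓ v hv
    by_cases h : m0 ℓ v = v
    · exact k3 ℓ hℓ v ((hW0mem ℓ v).mpr ⟨hv, h⟩)
    · exact k4 ℓ hℓ v h

end Pool.Agent.H71.DN
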