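import Mathlib
import Pool.Agent.H71.DN.InA
import Pool.Agent.H71.DN.InB
import Pool.Agent.H71.DN.Num

/-!
The two core theorems on edge-disjoint matchings in robust expanders.
-/

set_option autoImplicit false

namespace Pool.Agent.H71.DN

open Finset Classical

/-- Nearly regular graphs: edge-disjoint perfect matchings of `G - U ℓ`.
General graphs: edge-disjoint matchings with few uncovered vertices. -/
theorem core (ε : ℝ) (hε : 0 < ε) (hε1 : ε ≤ 1) :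
    ∃ (θ κ ρ : ℝ) (n0 : ℕ), 0 < θ ∧ 0 < κ ∧ 0 < ρ ∧ κ ≤ 1 / 10 ∧
      ∀ (V : Type) [Fintype V] (G : SimpleGraph V) (δ Δ : ℕ), n0 ≤ Fintype.card V →
        (∀ v, δ ≤ dg G v ∧ dg G v ≤ Δ) → Rob G δ ε θ →
        ε * Fintype.card V ≤ δ ∧
        ∀ (L : ℕ) (U : ℕ → Finset V), (L : ℝ) ≤ (1 - ε / 2) * Δ →
          (∀ ℓ < L, ((U ℓ).card : ℝ) ≤ κ * Fintype.card V) →
          ((∀ v, (Δ : ℝ) ≤ dg G v + ρ * Fintype.card V) →
            (∀ v, (((range L).filter fun ℓ => v ∈ U ℓ).card : ℝ) ≤ κ * Fintype.card V) →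
            (∀ ℓ < L, Even (univ \ U ℓ).card) →
            ∃ mm : ℕ → V → V, PM G L U mm ∧ ∀ ℓ < L, ∀ v, v ∉ U ℓ → mm ℓ v ≠ v) ∧
          (∀ z : ℕ → V, (∀ ℓ < L, z ℓ ∉ U ℓ) →
            (∀ v, dg G v + ((range L).filter fun ℓ => z ℓ = v).card ≤ Δ) →
            (∀ v, (((range L).filter fun ℓ => v ∈ U ℓ ∨ z ℓ = v).card : ℝ)
              ≤ κ * Fintype.card V) →
            ∃ mm : ℕ → V → V, PM G L U mm ∧
              ∀ v, dg G v + ((range L).filter fun ℓ => v ∉ U ℓ ∧ mm ℓ v = v).card ≤ Δ) := by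
  obtain ⟨θ, κ, ρ, n0, hθ, hκ, hρ, hκ1, h⟩ := params ε hε hε1
  refine ⟨θ, κ, ρ, n0, hθ, hκ, hρ, hκ1, ?_⟩
  intro V _ G δ Δ hn hdeg hrob
  obtain ⟨hδ, R, N, s, t, D, m, bb, q, ζ, β, β2, S0, E, hP, hN, hs, hβ, hA, hB, hB'⟩ :=
    h V G δ Δ hn hdeg hrob
  refine ⟨hδ, ?_⟩
  intro L U hL hU
  have hLN : L ≤ N := by exact_mod_cast hL.trans hN
  have hUβ : ∀ ℓ < L, (U ℓ).card + 1 + β2 ≤ β := by
    intro ℓ hℓ
    have := hU ℓ hℓ
    have h3 : (((U ℓ).card + 1 + β2 : ℕ) : ℝ) ≤ β := by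
      push_cast
      linarith
    exact_mod_cast h3
  constructor
  · intro hreg hUs hev
    refine inA G R L N s t U D m bb q ζ β β2 S0 E hP hLN ?_ (fun v => hA v (hreg v)) hUβ hev
    intro v
    exact_mod_cast (hUs v).trans hs
  · intro z hz hzd hUs
    refine inB G R L N s t U D m bb q ζ β β2 S0 E hP hLN Δ z hz hzd ?_ hB hB' hUβ
    intro v
    exact_mod_cast (hUs v).trans hs

end Pool.Agent.H71.DN
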