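import Mathlib
import Pool.Agent.H71.DN.Defs
import Pool.Agent.H28.VAL
import Pool.Agent.H70.HY.Defs

/-!
FNL: from edge-disjoint matchings for the labels `< L = k' + p - 1` to a labelling.

Proof.  If `V` is empty, take `fV = 0`, `fE = 0`. Let `L = k' + p - 1`, `D' = Δ + 2 p - 1 - L`.
`G'.Adj u v := G.Adj u v ∧ ∀ ℓ < L, mm ℓ u ≠ v` (symmetric as `mm ℓ` is an involution). The vertices
`mm ℓ v ≠ v`, `ℓ < L`, are distinct neighbours of `v` (`hPM.adj`, `hPM.dis`), so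
`dg G' v = dg G v - #{ℓ < L : mm ℓ v ≠ v} = dg G v - (L - #{ℓ < L : mm ℓ v = v}) ≤ D'` by `hd`.
`H28.vizing (G := G') (d := D')` gives a proper edge colouring `ec` with colours `< D' + 1`
(`dg G' v = (G'.neighborSet v).ncard`).
Labels: `fV = c`; for an edge `u v`: if there is `ℓ < L` with `mm ℓ u = v` the (unique) such `ℓ`, and
`L + ec s(u, v)` otherwise (a function of the unordered pair: define it with `Sym2.lift`, or by
choice: `fE e = if h : ∃ ℓ < L, ∃ u v, e = s(u, v) ∧ u ≠ v ∧ mm ℓ u = v then h.choose else L + ec e`).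
Checks: `c v < k' ≤ L + 1`, `c v ≤ Δ + 2 p - 1`; `L + ec ≤ L + D' = Δ + 2 p - 1`. If the label of `u v` is
`ℓ < L` then `mm ℓ u = v ≠ u`, so `u ∉ U ℓ` (`hPM.fix`), so by `hU` `c u ≥ ℓ + p` or `ℓ ≥ c u + p`.
If it is `L + j` then `L + j - c u ≥ k' + p - 1 - (k' - 1) = p`. Two edges at `u` have different
labels: both `< L`: `mm ℓ u` is one vertex; both `≥ L`: `ec` is proper; otherwise clear.
-/

set_option autoImplicit false

namespace Pool.Agent.H71.DN

open Finset Classical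

theorem final {V : Type} [Fintype V] (G : SimpleGraph V) (Δ p k' : ℕ) (hp : 1 ≤ p) (c : V → ℕ)
    (hc : ∀ v, c v < k') (hprop : ∀ u v, G.Adj u v → c u ≠ c v) (U : ℕ → Finset V)
    (mm : ℕ → V → V) (hPM : PM G (k' + p - 1) U mm)
    (hU : ∀ ℓ < k' + p - 1, ∀ v, c v < ℓ + p → ℓ < c v + p → v ∈ U ℓ)
    (hL : k' + p - 1 ≤ Δ + 2 * p - 1)
    (hd : ∀ v, dg G v + ((range (k' + p - 1)).filter fun ℓ => mm ℓ v = v).card
      ≤ Δ + 2 * p - 1) :
    H70.HY.HYLab G Δ p := by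
  obtain ⟨L, hLdef⟩ : ∃ L, L = k' + p - 1 := ⟨_, rfl⟩
  rw [← hLdef] at hPM hU hL hd
  obtain ⟨D', hD'⟩ : ∃ D', D' = Δ + 2 * p - 1 - L := ⟨_, rfl⟩
  have hinv : ∀ ℓ < L, ∀ u v, mm ℓ u = v → mm ℓ v = u := by
    intro ℓ hℓ u v h
    rw [← h]
    exact hPM.inv ℓ hℓ u
  obtain ⟨G', hG'⟩ : ∃ G' : SimpleGraph V, ∀ u v, G'.Adj u v ↔
      G.Adj u v ∧ ∀ ℓ < L, mm ℓ u ≠ v :=
    ⟨{ Adj := fun u v => G.Adj u v ∧ ∀ ℓ < L, mm ℓ u ≠ v
       symm := ⟨fun u v h => ⟨h.1.symm, fun ℓ hℓ h' => h.2 ℓ hℓ (hinv ℓ hℓ v u h')⟩⟩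
       loopless := ⟨fun u h => h.1.ne rfl⟩ }, fun _ _ => Iff.rfl⟩
  have hdeg : ∀ v, (G'.neighborSet v).ncard ≤ D' := by
    intro v
    have h1 : (G'.neighborSet v).ncard = dg G' v := by
      unfold dg
      rw [← Set.ncard_coe_finset]
      congr 1
      ext w
      simp [SimpleGraph.mem_neighborSet]
    rw [h1]
    -- the neighbours `mm ℓ v`
    have h2 : ((range L).filter fun ℓ => mm ℓ v ≠ v).card + dg G' v ≤ dg G v := by
      have h3 : (((range L).filter fun ℓ => mm ℓ v ≠ v).image fun ℓ => mm ℓ v).card =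
          ((range L).filter fun ℓ => mm ℓ v ≠ v).card := by
        refine Finset.card_image_of_injOn ?_
        intro a ha b hb hab
        simp only [Finset.coe_filter, Finset.mem_range, Set.mem_ofPred_eq] at ha hb
        by_contra hne
        exact hPM.dis a ha.1 b hb.1 hne v ha.2 hab
      rw [← h3]
      unfold dg
      rw [← Finset.card_union_of_disjoint]
      · refine Finset.card_le_card fun w hw => ?_
        rw [Finset.mem_union] at hw
        rw [Finset.mem_filter]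
        refine ⟨Finset.mem_univ _, ?_⟩
        rcases hw with hw | hw
        · obtain ⟨ℓ, hℓ, rfl⟩ := Finset.mem_image.1 hw
          rw [Finset.mem_filter, Finset.mem_range] at hℓ
          exact hPM.adj ℓ hℓ.1 v hℓ.2
        · exact ((hG' v w).1 (Finset.mem_filter.1 hw).2).1
      · rw [Finset.disjoint_left]
        intro w hw hw'
        obtain ⟨ℓ, hℓ, rfl⟩ := Finset.mem_image.1 hw
        rw [Finset.mem_filter, Finset.mem_range] at hℓ
        exact ((hG' v _).1 (Finset.mem_filter.1 hw').2).2 ℓ hℓ.1 rfl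
    have h4 : ((range L).filter fun ℓ => mm ℓ v = v).card +
        ((range L).filter fun ℓ => mm ℓ v ≠ v).card = L := by
      rw [Finset.card_filter_add_card_filter_not, Finset.card_range]
    have h5 := hd v
    omega
  obtain ⟨ec, hec1, hec2⟩ := H28.vizing (G := G') (d := D') hdeg
  let Q : ℕ → Sym2 V → Prop := fun ℓ e => ∃ u v, e = s(u, v) ∧ mm ℓ u = v
  have hQ : ∀ ℓ < L, ∀ u v, Q ℓ s(u, v) → mm ℓ u = v := by
    rintro ℓ hℓ u v ⟨u', v', he, hm⟩
    rcases Sym2.eq_iff.1 he with ⟨h1, h2⟩ | ⟨h1, h2⟩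
    · rw [h1, h2]; exact hm
    · rw [h1, h2]; exact hinv ℓ hℓ _ _ hm
  let fE : Sym2 V → ℕ := fun e => if h : ∃ ℓ, ℓ < L ∧ Q ℓ e then h.choose else L + ec e
  have hfE : ∀ u v, G.Adj u v → (∃ ℓ < L, fE s(u, v) = ℓ ∧ mm ℓ u = v) ∨
      (fE s(u, v) = L + ec s(u, v) ∧ G'.Adj u v) := by
    intro u v huv
    by_cases h : ∃ ℓ, ℓ < L ∧ Q ℓ s(u, v)
    · left
      refine ⟨h.choose, h.choose_spec.1, ?_, hQ _ h.choose_spec.1 _ _ h.choose_spec.2⟩
      simp only [fE]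
      rw [dif_pos h]
    · right
      refine ⟨?_, (hG' u v).2 ⟨huv, fun ℓ hℓ hm => h ⟨ℓ, hℓ, u, v, rfl, hm⟩⟩⟩
      simp only [fE]
      rw [dif_neg h]
  refine ⟨c, fE, ?_, ?_, hprop, ?_, ?_⟩
  · intro v
    have := hc v
    omega
  · intro e he
    induction e using Sym2.ind with
    | _ u v =>
      rw [SimpleGraph.mem_edgeSet] at he
      rcases hfE u v he with ⟨ℓ, hℓ, h1, _⟩ | ⟨h1, h2⟩
      · rw [h1]; omega
      · have h3 := hec1 u v h2
        rw [h1]; omega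
  · intro u v huv
    rcases hfE u v huv with ⟨ℓ, hℓ, h1, h2⟩ | ⟨h1, h2⟩
    · have h3 : u ∉ U ℓ := by
        intro h4
        have h5 := hPM.fix ℓ hℓ u h4
        rw [h2] at h5
        exact huv.ne h5.symm
      have h4 : ¬ (c u < ℓ + p ∧ ℓ < c u + p) := fun h => h3 (hU ℓ hℓ u h.1 h.2)
      rw [h1, le_abs]
      omega
    · have h3 := hc u
      rw [h1, le_abs]
      right
      push_cast
      omega
  · intro u v w huv huw hvw
    rcases hfE u v huv with ⟨ℓ, hℓ, h1, h2⟩ | ⟨h1, h2⟩ <;>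
      rcases hfE u w huw with ⟨ℓ', hℓ', h1', h2'⟩ | ⟨h1', h2'⟩
    · rw [h1, h1']
      intro h
      rw [h, h2'] at h2
      exact hvw h2.symm
    · rw [h1, h1']; omega
    · rw [h1, h1']; omega
    · rw [h1, h1']
      have := hec2 u v w h2 h2' hvw
      omega

end Pool.Agent.H71.DN
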