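import Mathlib

/-!
PATE: positions for the classes, `n` even. `w = 2 p - 1` is the length of the windows
`{x : |x - ℓ| < p}`. The windows have to contain an even number of odd classes, up to
`2 (p - 1)` exceptional labels.

Proof.  `B := w + E`; `pos i := B + i + i / (w - 1)` for the odd classes `i < O`,
 `pos i := w + (i - O)` for the even classes `O ≤ i < O + E`, `k' := B + O + O / (w - 1)`.
Clearly `w ≤ pos i < k'`, `pos` is injective on `[0, O + E)`, and (`w - 1 ≥ 2`)
 `2 k' = 2 w + 2 E + 2 O + 2 (O / (w - 1)) ≤ 4 w + 3 O + 2 E`.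
Write `O = P (w - 1) + r` (`P = O / (w - 1)`, `r = O % (w - 1)`, `r` is even because `O` and `w - 1`
are), `X = P w + r`, so `k' = B + X`. The positions of the odd classes are exactly the `B + x` with
`x < X`, `x % w ≠ w - 1`. Let `ℓ < k' + p - 1` and `y = ℓ - (p - 1)` (an integer; the window is
`[y, y + w - 1]`), and `N` the number of odd classes in the window.
 * `y + w ≤ B`: `N = 0`, even.
 * `y = B - w + u` with `1 ≤ u ≤ w - 1`: `N = min u X` (`x < u ≤ w - 1`; `min u X = u` if `P ≥ 1`,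
   `min u r` if `P = 0`). Wrong (odd) only if `u` is odd and (`P ≥ 1` or `u ≤ r`) [for `P = 0` and
   `u > r`: `N = r` is even].
 * `y = B + b`, `b ≥ 0`, `b + w ≤ X`: `w` consecutive `x < X` contain exactly one with
   `x % w = w - 1`; `N = w - 1`, even.
 * `y = B + b`, `b + w > X`, `v := X - b ∈ [1, w - 1]` (`b < X` because `ℓ < k' + p - 1`): the `x` in
   `[X - v, X - 1]`; they contain an `x ≡ w - 1` iff `v > r` (and `P ≥ 1`, automatic if `v > r` since
   `v ≤ X`). `N = v` if `v ≤ r`, `N = v - 1` if `v > r`. Wrong only if (`v ≤ r`, `v` odd) or (`v > r`,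
   `v` even).
So if `P ≥ 1` the number of wrong `ℓ` is at most `(w - 1) / 2 + (r / 2 + (w - 1 - r) / 2) = w - 1`
`= 2 (p - 1)`, and if `P = 0` at most `r / 2 + r / 2 = r ≤ w - 1`.
(A convenient way to bound the number of wrong `ℓ`: map `ℓ = B - w + u + p - 1` and
`ℓ = B + X - v + p - 1`; the wrong set is contained in the union of the images of two explicit
subsets of `[1, w - 1]`. Or: send wrong `u` (odd) to `u` and wrong `v` to `v` when `v` is even,
`v + 1` when `v` is odd (`v + 1 ≤ r`): injective into `[1, w - 1]`, as even `v > r` and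
`v + 1 ≤ r` do not collide.)
-/

set_option autoImplicit false

namespace Pool.Agent.H71.DN

open Finset Classical

theorem PatE_lt {h : ℕ} (hh : 1 ≤ h) (i x : ℕ) :
    i + i / (2 * h) < x ↔ i < x - x / (2 * h + 1) := by
  obtain ⟨q, hq⟩ : ∃ q, q = i / (2 * h) := ⟨_, rfl⟩
  obtain ⟨a, ha⟩ : ∃ a, a = x / (2 * h + 1) := ⟨_, rfl⟩
  have h1 : 2 * h * q + i % (2 * h) = i := by rw [hq]; exact Nat.div_add_mod i (2 * h)
  have h2 : i % (2 * h) < 2 * h := Nat.mod_lt _ (by omega)
  have h3 : (2 * h + 1) * a + x % (2 * h + 1) = x := by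
    rw [ha]; exact Nat.div_add_mod x (2 * h + 1)
  have h4 : x % (2 * h + 1) < 2 * h + 1 := Nat.mod_lt _ (by omega)
  rw [← hq, ← ha]
  obtain ⟨r, hr⟩ : ∃ r, r = i % (2 * h) := ⟨_, rfl⟩
  obtain ⟨s, hs⟩ : ∃ s, s = x % (2 * h + 1) := ⟨_, rfl⟩
  rw [← hr] at h1 h2
  rw [← hs] at h3 h4
  have h5 : (2 * h + 1) * a = 2 * h * a + a := by ring
  rw [h5] at h3
  rcases lt_trichotomy q a with hqa | hqa | hqa
  · have h6 : 2 * h * (q + 1) ≤ 2 * h * a := Nat.mul_le_mul_left _ hqa
    have h7 : 2 * h * (q + 1) = 2 * h * q + 2 * h := by ring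
    constructor <;> intro _ <;> omega
  · subst hqa
    constructor <;> intro _ <;> omega
  · have h6 : 2 * h * (a + 1) ≤ 2 * h * q := Nat.mul_le_mul_left _ hqa
    have h7 : 2 * h * (a + 1) = 2 * h * a + 2 * h := by ring
    constructor <;> intro _ <;> omega

theorem PatE_inj {h : ℕ} {b b' : ℕ} (hodd : ¬ Even (b - b / (2 * h + 1)))
    (he : b - b / (2 * h + 1) = b' - b' / (2 * h + 1)) : b = b' := by
  obtain ⟨a, ha⟩ : ∃ a, a = b / (2 * h + 1) := ⟨_, rfl⟩
  obtain ⟨a', ha'⟩ : ∃ a', a' = b' / (2 * h + 1) := ⟨_, rfl⟩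
  have h1 : (2 * h + 1) * a + b % (2 * h + 1) = b := by
    rw [ha]; exact Nat.div_add_mod b (2 * h + 1)
  have h2 : b % (2 * h + 1) < 2 * h + 1 := Nat.mod_lt _ (by omega)
  have h3 : (2 * h + 1) * a' + b' % (2 * h + 1) = b' := by
    rw [ha']; exact Nat.div_add_mod b' (2 * h + 1)
  have h4 : b' % (2 * h + 1) < 2 * h + 1 := Nat.mod_lt _ (by omega)
  rw [← ha] at hodd he
  rw [← ha'] at he
  obtain ⟨s, hs⟩ : ∃ s, s = b % (2 * h + 1) := ⟨_, rfl⟩
  obtain ⟨s', hs'⟩ : ∃ s', s' = b' % (2 * h + 1) := ⟨_, rfl⟩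
  rw [← hs] at h1 h2
  rw [← hs'] at h3 h4
  have e1 : (2 * h + 1) * a = 2 * h * a + a := by ring
  have e2 : (2 * h + 1) * a' = 2 * h * a' + a' := by ring
  rw [e1] at h1
  rw [e2] at h3
  have e3 : 2 * h * a = 2 * (h * a) := by ring
  have e4 : 2 * h * a' = 2 * (h * a') := by ring
  rcases lt_trichotomy a a' with hq | hq | hq
  · exfalso
    have h6 : 2 * h * (a + 1) ≤ 2 * h * a' := Nat.mul_le_mul_left _ hq
    have h7 : 2 * h * (a + 1) = 2 * h * a + 2 * h := by ring
    apply hodd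
    have h8 : b - a = 2 * (h * a + h) := by omega
    rw [h8]
    exact even_two_mul _
  · subst hq
    omega
  · exfalso
    have h6 : 2 * h * (a' + 1) ≤ 2 * h * a := Nat.mul_le_mul_left _ hq
    have h7 : 2 * h * (a' + 1) = 2 * h * a' + 2 * h := by ring
    apply hodd
    have h8 : b - a = 2 * (h * a' + h) := by omega
    rw [h8]
    exact even_two_mul _

theorem PatE_count {h : ℕ} (hh : 1 ≤ h) (O B ℓ : ℕ) (pos : ℕ → ℕ)
    (hpos : ∀ i < O, pos i = B + (i + i / (2 * h))) :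
    ((range O).filter fun i => pos i < ℓ + (h + 1) ∧ ℓ < pos i + (h + 1)).card =
      min O ((ℓ + (h + 1) - B) - (ℓ + (h + 1) - B) / (2 * h + 1)) -
        ((ℓ + 1 - (h + 1) - B) - (ℓ + 1 - (h + 1) - B) / (2 * h + 1)) := by
  have h1 : ((range O).filter fun i => pos i < ℓ + (h + 1) ∧ ℓ < pos i + (h + 1)) =
      Ico ((ℓ + 1 - (h + 1) - B) - (ℓ + 1 - (h + 1) - B) / (2 * h + 1))
        (min O ((ℓ + (h + 1) - B) - (ℓ + (h + 1) - B) / (2 * h + 1))) := by
    ext i
    rw [mem_filter, mem_range, mem_Ico, lt_min_iff]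
    have h4 := PatE_lt hh i (ℓ + (h + 1) - B)
    have h5 := PatE_lt hh i (ℓ + 1 - (h + 1) - B)
    have h6 := hpos i
    obtain ⟨z, hz⟩ : ∃ z, z = i + i / (2 * h) := ⟨_, rfl⟩
    rw [← hz] at h4 h5 h6
    obtain ⟨g2, hg2⟩ : ∃ g2, g2 = (ℓ + (h + 1) - B) - (ℓ + (h + 1) - B) / (2 * h + 1) :=
      ⟨_, rfl⟩
    obtain ⟨g1, hg1⟩ : ∃ g1, g1 = (ℓ + 1 - (h + 1) - B) -
      (ℓ + 1 - (h + 1) - B) / (2 * h + 1) := ⟨_, rfl⟩
    rw [← hg2] at h4 ⊢
    rw [← hg1] at h5 ⊢
    constructor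
    · rintro ⟨hi, h2, h3⟩
      rw [h6 hi] at h2 h3
      refine ⟨?_, hi, h4.1 (by omega)⟩
      by_contra h7
      have h8 := h5.2 (not_le.1 h7)
      omega
    · rintro ⟨h2, hi, h3⟩
      have h7 := h4.2 h3
      have h8 : ¬ (z < ℓ + 1 - (h + 1) - B) := by
        intro h9
        have h10 := h5.1 h9
        omega
      rw [h6 hi]
      refine ⟨hi, ?_, ?_⟩ <;> omega
  rw [h1, Nat.card_Ico]

theorem patE (p O E : ℕ) (hp : 2 ≤ p) (hO : Even O) :
    ∃ (pos : ℕ → ℕ) (k' : ℕ), (∀ i < O + E, 2 * p - 1 ≤ pos i ∧ pos i < k') ∧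
      (∀ i < O + E, ∀ j < O + E, pos i = pos j → i = j) ∧ 2 * p - 1 ≤ k' ∧
      2 * k' ≤ 4 * (2 * p - 1) + 3 * O + 2 * E ∧
      ((range (k' + p - 1)).filter fun ℓ =>
        ¬ Even ((range O).filter fun i => pos i < ℓ + p ∧ ℓ < pos i + p).card).card
          ≤ 2 * (p - 1) := by
  obtain ⟨h, rfl⟩ : ∃ h, p = h + 1 := ⟨p - 1, by omega⟩
  have hh : 1 ≤ h := by omega
  have hw : 2 * (h + 1) - 1 = 2 * h + 1 := by omega
  rw [hw]
  obtain ⟨B, hB⟩ : ∃ B, B = 2 * h + 1 + E := ⟨_, rfl⟩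
  obtain ⟨pos, hposd⟩ : ∃ pos : ℕ → ℕ, pos =
      fun i => if i < O then B + (i + i / (2 * h)) else 2 * h + 1 + (i - O) := ⟨_, rfl⟩
  have hpos : ∀ i < O, pos i = B + (i + i / (2 * h)) := by
    intro i hi
    rw [hposd]
    simp only [if_pos hi]
  have hpos' : ∀ i, ¬ i < O → pos i = 2 * h + 1 + (i - O) := by
    intro i hi
    rw [hposd]
    simp only [if_neg hi]
  obtain ⟨Q, hQ⟩ : ∃ Q, Q = O / (2 * h) := ⟨_, rfl⟩
  refine ⟨pos, B + (O + Q), ?_, ?_, by omega, ?_, ?_⟩
  · intro i hi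
    by_cases h1 : i < O
    · rw [hpos i h1]
      have h2 : i / (2 * h) ≤ O / (2 * h) := Nat.div_le_div_right h1.le
      rw [← hQ] at h2
      generalize i / (2 * h) = q at h2 ⊢
      constructor <;> omega
    · rw [hpos' i h1]
      constructor <;> omega
  · intro i hi j hj hij
    by_cases h1 : i < O
    · by_cases h2 : j < O
      · rw [hpos i h1, hpos j h2] at hij
        rcases lt_trichotomy i j with h3 | h3 | h3
        · have h4 : i / (2 * h) ≤ j / (2 * h) := Nat.div_le_div_right h3.le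
          omega
        · exact h3
        · have h4 : j / (2 * h) ≤ i / (2 * h) := Nat.div_le_div_right h3.le
          omega
      · rw [hpos i h1, hpos' j h2] at hij
        generalize i / (2 * h) = q at hij
        omega
    · by_cases h2 : j < O
      · rw [hpos' i h1, hpos j h2] at hij
        generalize j / (2 * h) = q at hij
        omega
      · rw [hpos' i h1, hpos' j h2] at hij
        omega
  · have h1 : 2 * Q ≤ O := by
      have h2 : O / (2 * h) ≤ O / 2 := Nat.div_le_div_left (by omega) (by norm_num)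
      rw [← hQ] at h2
      omega
    omega
  · obtain ⟨n, hn⟩ : ∃ n, n = B + (O + Q) + (h + 1) - 1 := ⟨_, rfl⟩
    rw [← hn]
    have hsplit : ((range n).filter fun ℓ =>
        ¬ Even ((range O).filter fun i => pos i < ℓ + (h + 1) ∧ ℓ < pos i + (h + 1)).card).card ≤
        ((range n).filter fun ℓ => ℓ < h + B ∧
        ¬ Even ((range O).filter fun i => pos i < ℓ + (h + 1) ∧ ℓ < pos i + (h + 1)).card).card +
        ((range n).filter fun ℓ => h + B ≤ ℓ ∧
        ¬ Even ((range O).filter fun i => pos i < ℓ + (h + 1) ∧ ℓ < pos i + (h + 1)).card).card := by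
      rw [← card_union_of_disjoint]
      · refine card_le_card fun ℓ hℓ => ?_
        rw [mem_filter] at hℓ
        rw [mem_union, mem_filter, mem_filter]
        rcases lt_or_ge ℓ (h + B) with h1 | h1
        · exact Or.inl ⟨hℓ.1, h1, hℓ.2⟩
        · exact Or.inr ⟨hℓ.1, h1, hℓ.2⟩
      · rw [disjoint_left]
        intro ℓ h1 h2
        rw [mem_filter] at h1 h2
        omega
    refine hsplit.trans ?_
    have hA : ((range n).filter fun ℓ => ℓ < h + B ∧
        ¬ Even ((range O).filter fun i => pos i < ℓ + (h + 1) ∧ ℓ < pos i + (h + 1)).card).card ≤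
        (range h).card := by
      have key : ∀ ℓ, ℓ < h + B →
          ¬ Even ((range O).filter fun i => pos i < ℓ + (h + 1) ∧ ℓ < pos i + (h + 1)).card →
          ¬ Even (ℓ + (h + 1) - B) := by
        intro ℓ h1 h2
        rw [PatE_count hh O B ℓ pos hpos] at h2
        have h3 : ℓ + 1 - (h + 1) - B = 0 := by omega
        have h4 : (ℓ + (h + 1) - B) / (2 * h + 1) = 0 := Nat.div_eq_of_lt (by omega)
        rw [h3, h4, Nat.zero_div, Nat.sub_zero, Nat.sub_zero] at h2
        rcases le_total O (ℓ + (h + 1) - B) with h5 | h5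
        · rw [min_eq_left h5] at h2
          exact absurd hO h2
        · rw [min_eq_right h5] at h2
          exact h2
      refine card_le_card_of_injOn (fun ℓ => (ℓ + (h + 1) - B) / 2) ?_ ?_
      · intro ℓ hℓ
        have hℓ' := mem_filter.1 hℓ
        have h1 := key ℓ hℓ'.2.1 hℓ'.2.2
        rw [Nat.not_even_iff] at h1
        simp only [coe_range, Set.mem_Iio]
        omega
      · intro ℓ hℓ ℓ' hℓ2 he
        have hℓ' := mem_filter.1 hℓ
        have hℓ3 := mem_filter.1 hℓ2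
        have h1 := key ℓ hℓ'.2.1 hℓ'.2.2
        have h2 := key ℓ' hℓ3.2.1 hℓ3.2.2
        rw [Nat.not_even_iff] at h1 h2
        have he' : (ℓ + (h + 1) - B) / 2 = (ℓ' + (h + 1) - B) / 2 := he
        omega
    have hB' : ((range n).filter fun ℓ => h + B ≤ ℓ ∧
        ¬ Even ((range O).filter fun i => pos i < ℓ + (h + 1) ∧ ℓ < pos i + (h + 1)).card).card ≤
        (range h).card := by
      have key : ∀ ℓ, h + B ≤ ℓ →
          ¬ Even ((range O).filter fun i => pos i < ℓ + (h + 1) ∧ ℓ < pos i + (h + 1)).card →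
          ¬ Even ((ℓ - h - B) - (ℓ - h - B) / (2 * h + 1)) ∧
            (ℓ - h - B) - (ℓ - h - B) / (2 * h + 1) < O ∧
            O < (ℓ - h - B) - (ℓ - h - B) / (2 * h + 1) + 2 * h := by
        intro ℓ h1 h2
        rw [PatE_count hh O B ℓ pos hpos] at h2
        have h3 : ℓ + 1 - (h + 1) - B = ℓ - h - B := by omega
        have h4 : ℓ + (h + 1) - B = (ℓ - h - B) + (2 * h + 1) := by omega
        rw [h3, h4, Nat.add_div_right _ (by omega)] at h2
        obtain ⟨b, hb⟩ : ∃ b, b = ℓ - h - B := ⟨_, rfl⟩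
        rw [← hb] at h2 ⊢
        have h5 : b / (2 * h + 1) ≤ b := Nat.div_le_self _ _
        have h6 : b + (2 * h + 1) - (b / (2 * h + 1)).succ = b - b / (2 * h + 1) + 2 * h := by
          omega
        rw [h6] at h2
        obtain ⟨g, hg⟩ : ∃ g, g = b - b / (2 * h + 1) := ⟨_, rfl⟩
        rw [← hg] at h2 ⊢
        rw [Nat.even_iff] at hO
        rcases le_total O (g + 2 * h) with h7 | h7
        · rw [min_eq_left h7, Nat.not_even_iff] at h2
          rw [Nat.not_even_iff]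
          omega
        · rw [min_eq_right h7, Nat.not_even_iff] at h2
          omega
      refine card_le_card_of_injOn
        (fun ℓ => (O - 1 - ((ℓ - h - B) - (ℓ - h - B) / (2 * h + 1))) / 2) ?_ ?_
      · intro ℓ hℓ
        have hℓ' := mem_filter.1 hℓ
        obtain ⟨h1, h2, h3⟩ := key ℓ hℓ'.2.1 hℓ'.2.2
        obtain ⟨g, hg⟩ : ∃ g, g = (ℓ - h - B) - (ℓ - h - B) / (2 * h + 1) := ⟨_, rfl⟩
        simp only [coe_range, Set.mem_Iio]
        rw [← hg] at h1 h2 h3 ⊢
        rw [Nat.not_even_iff] at h1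
        omega
      · intro ℓ hℓ ℓ' hℓ2 he
        have hℓ' := mem_filter.1 hℓ
        have hℓ3 := mem_filter.1 hℓ2
        obtain ⟨h1, h2, h3⟩ := key ℓ hℓ'.2.1 hℓ'.2.2
        obtain ⟨h4, h5, h6⟩ := key ℓ' hℓ3.2.1 hℓ3.2.2
        have he' : (O - 1 - ((ℓ - h - B) - (ℓ - h - B) / (2 * h + 1))) / 2 =
            (O - 1 - ((ℓ' - h - B) - (ℓ' - h - B) / (2 * h + 1))) / 2 := he
        have h7 : (ℓ - h - B) - (ℓ - h - B) / (2 * h + 1) =
            (ℓ' - h - B) - (ℓ' - h - B) / (2 * h + 1) := by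
          obtain ⟨g, hg⟩ : ∃ g, g = (ℓ - h - B) - (ℓ - h - B) / (2 * h + 1) := ⟨_, rfl⟩
          obtain ⟨g', hg'⟩ : ∃ g', g' = (ℓ' - h - B) - (ℓ' - h - B) / (2 * h + 1) := ⟨_, rfl⟩
          rw [← hg] at h1 h2 h3 he' ⊢
          rw [← hg'] at h4 h5 h6 he' ⊢
          rw [Nat.not_even_iff] at h1 h4
          rw [Nat.even_iff] at hO
          omega
        have h8 := PatE_inj h1 h7
        have h9 := hℓ'.2.1
        have h10 := hℓ3.2.1
        omega
    rw [card_range] at hA hB'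
    omega

end Pool.Agent.H71.DN
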