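import Mathlib

/-!
PATO: positions for the classes, `n` odd. `w = 2 p - 1` is the length of the windows
`{x : |x - ℓ| < p}`. The windows have to contain an odd number of odd classes (the special class
`C0` at position `0` counted, it is in the window iff `ℓ < p`), up to `2 (p - 1)` exceptional labels.

Proof.  `P := (E + w - 2) / (w - 1)` (`⌈E / (w - 1)⌉ ≤ E ≤ O`; `w - 1 ≥ 2`), `B := w (P + 1)`.
 `pos i := w (i + 1)` for `i < P`; `pos i := B + (i - P)` for `P ≤ i < O`;
 `pos (O + j) := w + (j / (w - 1)) w + 1 + j % (w - 1)` for `j < E` (`j / (w - 1) < P`);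
 `k' := B + (O - P)`. Clearly `w ≤ pos i < k'`, `pos` is injective on `[0, O + E)`, and
 `k' = w + (w - 1) P + O ≤ w + (E + w - 2) + O ≤ 2 w + O + E`.
Let `A := {w i : i ≤ P} ∪ [B, B + r)`, `r = O - P`: the positions of the odd classes and of `C0`
(position `0`). Let `ℓ < k' + p - 1`, `y = ℓ - (p - 1)` (an integer), the window is `[y, y + w - 1]`, and
`N = #(A ∩ window)`: this is the number in the statement (position `0` is in the window iff
`ℓ < p`).
 * `y < 0`: `y + w - 1 < w` and `≥ 0`: `N = 1`.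
 * `0 ≤ y`, `y + w ≤ B`: exactly one multiple of `w` in the window: `N = 1`.
 * `y = B - w + u`, `1 ≤ u ≤ w - 1`: no multiple of `w` below `B` (the last one is `B - w < y`), and
   `[B, B + u)`: `N = min u r`. Wrong iff `min u r` is even.
 * `y = B + b`, `0 ≤ b`; `b < r` as `ℓ < k' + p - 1`; `v := r - b ≥ 1`, `N = min v w`. Wrong iff
   `v < w` and `v` is even (`w` is odd).
Number of wrong `ℓ`, if `r ≥ w`: even `u ≤ w - 1` and even `v ≤ w - 1`: `(p - 1) + (p - 1)`. If `r < w` is
odd: even `u ≤ r`, even `v ≤ r`: `r - 1`. If `r < w` is even (also `r = 0`): even `u ≤ r`, all `u` with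
`r < u ≤ w - 1`, and even `v ≤ r`: `r / 2 + (w - 1 - r) + r / 2 = w - 1`. All `≤ w - 1 = 2 (p - 1)`.
(A convenient injection of the wrong ones into `[1, w - 1]`: wrong `u ↦ u`; wrong `v` (even, `≤ r`,
`≤ w - 1`) `↦ v - 1` (odd); wrong `u` are even or `> r`, and `v - 1 < r`: no collision.)
-/

set_option autoImplicit false

namespace Pool.Agent.H71.DN

open Finset Classical

/-- the positions -/
def PatO_pos (w P O i : ℕ) : ℕ :=
  if i < P then w * (i + 1) else if i < O then w * (P + 1) + (i - P)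
    else w * (1 + (i - O) / (w - 1)) + (1 + (i - O) % (w - 1))

theorem PatO_pos1 {w P O i : ℕ} (h : i < P) : PatO_pos w P O i = w * (i + 1) := by
  unfold PatO_pos
  rw [if_pos h]

theorem PatO_pos2 {w P O i : ℕ} (h : P ≤ i) (h' : i < O) :
    PatO_pos w P O i = w * (P + 1) + (i - P) := by
  unfold PatO_pos
  rw [if_neg (not_lt.2 h), if_pos h']

theorem PatO_pos3 {w P O i : ℕ} (hPO : P ≤ O) (h : O ≤ i) :
    PatO_pos w P O i = w * (1 + (i - O) / (w - 1)) + (1 + (i - O) % (w - 1)) := by
  unfold PatO_pos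
  rw [if_neg (by omega), if_neg (by omega)]

theorem PatO_lt {w P O E i : ℕ} (hw : 3 ≤ w) (hPO : P ≤ O) (hE : E ≤ (w - 1) * P) (h : O ≤ i)
    (h' : i < O + E) : w < PatO_pos w P O i ∧ PatO_pos w P O i < w * (P + 1) ∧
      PatO_pos w P O i % w = 1 + (i - O) % (w - 1) ∧ PatO_pos w P O i / w = 1 + (i - O) / (w - 1) := by
  rw [PatO_pos3 hPO h]
  have h1 : (i - O) % (w - 1) < w - 1 := Nat.mod_lt _ (by omega)
  have h2 : (i - O) / (w - 1) < P := by
    rw [Nat.div_lt_iff_lt_mul (by omega)]
    calc i - O < E := by omega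
      _ ≤ (w - 1) * P := hE
      _ = P * (w - 1) := mul_comm _ _
  generalize (i - O) % (w - 1) = e at h1 ⊢
  generalize (i - O) / (w - 1) = d at h2 ⊢
  have h3 : w * (1 + d) ≤ w * P := Nat.mul_le_mul_left _ (by omega)
  have h4 : w * 1 ≤ w * (1 + d) := Nat.mul_le_mul_left _ (by omega)
  have h5 : w * (P + 1) = w * P + w := by ring
  have h6 : 1 + e < w := by omega
  refine ⟨by omega, by omega, ?_, ?_⟩
  · rw [Nat.mul_add_mod, Nat.mod_eq_of_lt h6]
  · rw [Nat.mul_add_div (by omega), Nat.div_eq_of_lt h6, add_zero]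

theorem PatO_range {w P O E i : ℕ} (hw : 3 ≤ w) (hPO : P ≤ O) (hE : E ≤ (w - 1) * P)
    (h : i < O + E) : w ≤ PatO_pos w P O i ∧ PatO_pos w P O i < w * (P + 1) + (O - P) := by
  rcases lt_or_ge i P with h1 | h1
  · rw [PatO_pos1 h1]
    have h2 : w * (i + 1) ≤ w * P := Nat.mul_le_mul_left _ (by omega)
    have h3 : w * 1 ≤ w * (i + 1) := Nat.mul_le_mul_left _ (by omega)
    have h5 : w * (P + 1) = w * P + w := by ring
    omega
  · rcases lt_or_ge i O with h2 | h2
    · rw [PatO_pos2 h1 h2]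
      have h5 : w * (P + 1) = w * P + w := by ring
      omega
    · have := PatO_lt hw hPO hE h2 h
      omega

theorem PatO_inj {w P O E : ℕ} (hw : 3 ≤ w) (hPO : P ≤ O) (hE : E ≤ (w - 1) * P) :
    ∀ i < O + E, ∀ j < O + E, i ≤ j → PatO_pos w P O i = PatO_pos w P O j → i = j := by
  intro i hi j hj hij h
  have h5 : w * (P + 1) = w * P + w := by ring
  rcases lt_or_ge i P with h1 | h1
  · rcases lt_or_ge j P with h2 | h2
    · rw [PatO_pos1 h1, PatO_pos1 h2] at h
      have := Nat.eq_of_mul_eq_mul_left (by omega) h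
      omega
    · rcases lt_or_ge j O with h3 | h3
      · rw [PatO_pos1 h1, PatO_pos2 h2 h3] at h
        have h6 : w * (i + 1) ≤ w * P := Nat.mul_le_mul_left _ (by omega)
        omega
      · have h4 := (PatO_lt hw hPO hE h3 hj).2.2.1
        rw [← h, PatO_pos1 h1, Nat.mul_mod_right] at h4
        omega
  · rcases lt_or_ge i O with h2 | h2
    · rcases lt_or_ge j O with h3 | h3
      · rw [PatO_pos2 h1 h2, PatO_pos2 (by omega) h3] at h
        omega
      · have h4 := (PatO_lt hw hPO hE h3 hj).2.1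
        rw [← h, PatO_pos2 h1 h2] at h4
        omega
    · have h3 := (PatO_lt hw hPO hE h2 hi).2.2
      have h4 := (PatO_lt hw hPO hE (by omega) hj).2.2
      rw [h] at h3
      have h6 : (i - O) % (w - 1) = (j - O) % (w - 1) := Nat.add_left_cancel (h3.1.symm.trans h4.1)
      have h7 : (i - O) / (w - 1) = (j - O) / (w - 1) := Nat.add_left_cancel (h3.2.symm.trans h4.2)
      have h8 := Nat.div_add_mod (i - O) (w - 1)
      have h9 := Nat.div_add_mod (j - O) (w - 1)
      rw [h6, h7] at h8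
      omega

/-- the number of positions of the odd classes in the window -/
theorem PatO_count {p w P O : ℕ} (hPO : P ≤ O) (ℓ : ℕ) :
    ((range O).filter fun i => PatO_pos w P O i < ℓ + p ∧ ℓ < PatO_pos w P O i + p).card =
      ((range P).filter fun i => w * (i + 1) < ℓ + p ∧ ℓ < w * (i + 1) + p).card +
      ((range (O - P)).filter fun v =>
        w * (P + 1) + v < ℓ + p ∧ ℓ < w * (P + 1) + v + p).card := by
  have e : O = P + (O - P) := by omega
  simp only [Finset.card_filter]
  conv_lhs => rw [e]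
  rw [Finset.sum_range_add]
  refine congrArg₂ _ ?_ ?_
  · refine Finset.sum_congr rfl fun i hi => ?_
    rw [PatO_pos1 (Finset.mem_range.1 hi)]
  · refine Finset.sum_congr rfl fun i hi => ?_
    have := Finset.mem_range.1 hi
    rw [PatO_pos2 (by omega) (by omega), show P + i - P = i by omega]

/-- left part -/
theorem PatO_left {p w P ℓ : ℕ} (hp : 2 ≤ p) (hw : w = 2 * p - 1) (h : ℓ + p ≤ w * (P + 1)) :
    ((range P).filter fun i => w * (i + 1) < ℓ + p ∧ ℓ < w * (i + 1) + p).card +
      (if ℓ < p then 1 else 0) = 1 := by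
  obtain ⟨q, hq⟩ : ∃ q, q = (ℓ + p - 1) / w := ⟨_, rfl⟩
  have h1 : w * q ≤ ℓ + p - 1 := by rw [hq]; exact Nat.mul_div_le _ _
  have h2 : ℓ + p - 1 < w * (q + 1) := by rw [hq]; exact Nat.lt_mul_div_succ _ (by omega)
  rcases Nat.eq_zero_or_pos q with h0 | h0
  · subst h0
    have h3 : ℓ < p := by omega
    rw [if_pos h3]
    have : ((range P).filter fun i => w * (i + 1) < ℓ + p ∧ ℓ < w * (i + 1) + p) = ∅ := by
      refine Finset.filter_eq_empty_iff.2 fun i _ hi => ?_
      have h4 : w * 1 ≤ w * (i + 1) := Nat.mul_le_mul_left _ (by omega)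
      omega
    rw [this]
    rfl
  · have h3 : w * 1 ≤ w * q := Nat.mul_le_mul_left _ h0
    rw [if_neg (by omega), add_zero, Finset.card_eq_one]
    have hqP : q ≤ P := by
      by_contra hcon
      push Not at hcon
      have : w * (P + 1) ≤ w * q := Nat.mul_le_mul_left _ (by omega)
      omega
    refine ⟨q - 1, ?_⟩
    ext i
    simp only [Finset.mem_filter, Finset.mem_range, Finset.mem_singleton]
    constructor
    · rintro ⟨_, h4, h5⟩
      have h6 : i + 1 ≤ q := by
        by_contra hcon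
        push Not at hcon
        have : w * (q + 1) ≤ w * (i + 1) := Nat.mul_le_mul_left _ (by omega)
        omega
      have h7 : q ≤ i + 1 := by
        by_contra hcon
        push Not at hcon
        have h8 : w * (i + 2) ≤ w * q := Nat.mul_le_mul_left _ (by omega)
        have h9 : w * (i + 2) = w * (i + 1) + w := by ring
        omega
      omega
    · intro hi
      subst hi
      rw [show q - 1 + 1 = q by omega]
      have h9 : w * (q + 1) = w * q + w := by ring
      omega

/-- right part -/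
theorem PatO_right {p w P ℓ : ℕ} (hp : 2 ≤ p) (hw : w = 2 * p - 1) (h : w * (P + 1) < ℓ + p) :
    ((range P).filter fun i => w * (i + 1) < ℓ + p ∧ ℓ < w * (i + 1) + p).card +
      (if ℓ < p then 1 else 0) = 0 := by
  have h5 : w * (P + 1) = w * P + w := by ring
  rw [if_neg (by omega), add_zero, Finset.card_eq_zero]
  refine Finset.filter_eq_empty_iff.2 fun i hi hh => ?_
  have hi' := Finset.mem_range.1 hi
  have h6 : w * (i + 1) ≤ w * P := Nat.mul_le_mul_left _ (by omega)
  omega

theorem PatO_block {p w B r ℓ : ℕ} (hp : 2 ≤ p) (hw : w = 2 * p - 1) :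
    ((range r).filter fun v => B + v < ℓ + p ∧ ℓ < B + v + p).card =
      min r (ℓ + p - B) - (ℓ + p - B - w) := by
  have e : ((range r).filter fun v => B + v < ℓ + p ∧ ℓ < B + v + p) =
      Finset.Ico (ℓ + p - B - w) (min r (ℓ + p - B)) := by
    ext v
    simp only [Finset.mem_filter, Finset.mem_range, Finset.mem_Ico, lt_min_iff]
    omega
  rw [e, Nat.card_Ico]

theorem patO (p O E : ℕ) (hp : 2 ≤ p) (hE : E ≤ O) :
    ∃ (pos : ℕ → ℕ) (k' : ℕ), (∀ i < O + E, 2 * p - 1 ≤ pos i ∧ pos i < k') ∧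
      (∀ i < O + E, ∀ j < O + E, pos i = pos j → i = j) ∧ 2 * p - 1 ≤ k' ∧
      k' ≤ 2 * (2 * p - 1) + O + E ∧
      ((range (k' + p - 1)).filter fun ℓ =>
        ¬ Odd (((range O).filter fun i => pos i < ℓ + p ∧ ℓ < pos i + p).card +
          (if ℓ < p then 1 else 0))).card ≤ 2 * (p - 1) := by
  obtain ⟨w, hw⟩ : ∃ w, w = 2 * p - 1 := ⟨_, rfl⟩
  have hw3 : 3 ≤ w := by omega
  rw [← hw]
  obtain ⟨P, hP⟩ : ∃ P, P = (E + w - 2) / (w - 1) := ⟨_, rfl⟩
  have hP1 : (w - 1) * P ≤ E + w - 2 := by rw [hP]; exact Nat.mul_div_le _ _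
  have hP2 : E ≤ (w - 1) * P := by
    have h1 : E + w - 2 < (w - 1) * (P + 1) := by
      rw [hP]; exact Nat.lt_mul_div_succ _ (by omega)
    have h2 : (w - 1) * (P + 1) = (w - 1) * P + (w - 1) := by ring
    omega
  have hPE : P ≤ E := by
    by_contra hcon
    push Not at hcon
    have h1 : (w - 1) * (E + 1) ≤ (w - 1) * P := Nat.mul_le_mul_left _ (by omega)
    have h2 : (w - 1) * (E + 1) = (w - 1) * E + (w - 1) := by ring
    have h3 : 1 * E ≤ (w - 1) * E := Nat.mul_le_mul_right _ (by omega)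
    omega
  have hPO : P ≤ O := hPE.trans hE
  have hB : w * (P + 1) = (w - 1) * P + P + w := by
    obtain ⟨v, rfl⟩ : ∃ v, w = v + 1 := ⟨w - 1, by omega⟩
    rw [show v + 1 - 1 = v by omega]
    ring
  refine ⟨PatO_pos w P O, w * (P + 1) + (O - P), fun i hi => PatO_range hw3 hPO hP2 hi, ?_, ?_,
    ?_, ?_⟩
  · intro i hi j hj h
    rcases le_total i j with h1 | h1
    · exact PatO_inj hw3 hPO hP2 i hi j hj h1 h
    · exact (PatO_inj hw3 hPO hP2 j hj i hi h1 h.symm).symm
  · omega
  · omega
  · obtain ⟨B, hBd⟩ : ∃ B, B = w * (P + 1) := ⟨_, rfl⟩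
    obtain ⟨r, hr⟩ : ∃ r, r = O - P := ⟨_, rfl⟩
    have key : ∀ ℓ ∈ (range (w * (P + 1) + (O - P) + p - 1)).filter fun ℓ =>
        ¬ Odd (((range O).filter fun i => PatO_pos w P O i < ℓ + p ∧
          ℓ < PatO_pos w P O i + p).card + (if ℓ < p then 1 else 0)),
        B < ℓ + p ∧ ℓ + p < B + r + w ∧ (min r (ℓ + p - B) - (ℓ + p - B - w)) % 2 = 0 := by
      intro ℓ hℓ
      rw [Finset.mem_filter, Finset.mem_range] at hℓ
      obtain ⟨h1, h2⟩ := hℓ
      rw [PatO_count hPO, PatO_block hp hw] at h2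
      rcases le_or_gt (ℓ + p) (w * (P + 1)) with h3 | h3
      · exfalso
        apply h2
        have h4 := PatO_left hp hw h3
        have h5 : min (O - P) (ℓ + p - w * (P + 1)) - (ℓ + p - w * (P + 1) - w) = 0 := by
          rw [Nat.sub_eq_zero_of_le h3]
          simp
        rw [h5, add_zero, h4]
        exact odd_one
      · have h4 := PatO_right hp hw h3
        rw [add_right_comm, h4, zero_add, Nat.not_odd_iff] at h2
        rw [hBd, hr]
        refine ⟨h3, by omega, h2⟩
    have hcard : (Finset.Icc 1 (w - 1)).card = 2 * (p - 1) := by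
      rw [Nat.card_Icc]
      omega
    rw [← hcard]
    refine Finset.card_le_card_of_injOn
      (fun ℓ => if ℓ + p - B < w then ℓ + p - B else r + w - (ℓ + p - B) - 1) ?_ ?_
    · intro ℓ hℓ
      obtain ⟨h1, h2, h3⟩ := key ℓ hℓ
      rw [Finset.mem_coe, Finset.mem_Icc]
      dsimp only
      split_ifs with h4
      · omega
      · have h5 : w ≤ ℓ + p - B := not_lt.1 h4
        rcases le_total r (ℓ + p - B) with h6 | h6
        · rw [min_eq_left h6] at h3
          omega
        · rw [min_eq_right h6] at h3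
          omega
    · intro ℓ hℓ ℓ' hℓ' h
      obtain ⟨h1, h2, h3⟩ := key ℓ hℓ
      obtain ⟨h1', h2', h3'⟩ := key ℓ' hℓ'
      dsimp only at h
      rcases le_total r (ℓ + p - B) with h6 | h6 <;> rcases le_total r (ℓ' + p - B) with h7 | h7
      · rw [min_eq_left h6] at h3
        rw [min_eq_left h7] at h3'
        split_ifs at h with h8 h9 h9 <;> omega
      · rw [min_eq_left h6] at h3
        rw [min_eq_right h7] at h3'
        split_ifs at h with h8 h9 h9 <;> omega
      · rw [min_eq_right h6] at h3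
        rw [min_eq_left h7] at h3'
        split_ifs at h with h8 h9 h9 <;> omega
      · rw [min_eq_right h6] at h3
        rw [min_eq_right h7] at h3'
        split_ifs at h with h8 h9 h9 <;> omega

end Pool.Agent.H71.DN
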