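import Mathlib
import Pool.Agent.H71.DN.PatE
import Pool.Agent.H71.DN.PatO
import Pool.Agent.H71.DN.Rfp

/-!
LAY: vertex labels `c` and forbidden sets `U ℓ` of the right parity, `p ≥ 2`.

Proof (`n = #V`, `w = 2 p - 1`).
Case `n` even. `C0` := two of the three vertices of `C` (`#C0 = 2`). `refE` gives `O, E, cl`; `O` is even,
as `n = 2 + ∑_{i < O + E} #{v ∉ C0 : cl v = i}` has the parity of `O`. `patE` gives `pos`, `k'`.
Case `n` odd. `C0 := C`, `#C0 = 3`; `refO`, `patO`.
`c v := 0` for `v ∈ C0`, `c v := pos (cl v)` for `v ∉ C0`. `c v < k'` (`k' ≥ w ≥ 1`). Proper: two adjacent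
vertices are not both in `C0`; if exactly one is, `0 ≠ pos _ ≥ w`; if none is, `cl` differs and `pos`
is injective. Bound: `n` even `2 k' ≤ 4 w + 3 (O + E) ≤ 8 p + 3 (k + n / s)`; `n` odd
`2 k' ≤ 4 w + 2 (O + E) ≤ 8 p - 4 + 3 (k + n / s) + 2`.
`U0 ℓ := {v : c v < ℓ + p ∧ ℓ < c v + p}`. `#(U0 ℓ)` has the parity of
`[ℓ < p] #C0 + #{i < O : pos i < ℓ + p ∧ ℓ < pos i + p}` (the even classes do not matter, `C0` is in
`U0 ℓ` iff `ℓ < p`). Call `ℓ < L := k' + p - 1` wrong if `n - #(U0 ℓ)` is odd. By `patE` / `patO` there are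
at most `2 (p - 1)` wrong `ℓ` (`#C0 ≡ n` mod 2). If `ℓ < p` then no `pos i` is in the window
(`pos i ≥ 2 p - 1 ≥ ℓ + p`), so the number is `[ℓ < p] #C0 ≡ n`: not wrong. So wrong `ℓ` are `≥ p`,
and then `C0` is disjoint from `U0 ℓ`.
Choose two different vertices `z1, z2 ∈ C0` and split the wrong labels into two sets `Y1, Y2` of at most
`p - 1` elements each. `U ℓ := U0 ℓ ∪ {z1 if ℓ ∈ Y1} ∪ {z2 if ℓ ∈ Y2}`: one vertex is added exactly for the
wrong labels, so `n - #(U ℓ)` is even for all `ℓ < L`.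
`#(U0 ℓ) ≤ (2 p - 1) s`: the window contains at most `2 p - 1` values of `c`, and each value is taken
at most `s` times (`#C0 ≤ 3 ≤ s`).
For `v ∉ C0`: `#{ℓ < L : v ∈ U ℓ} = #{ℓ < L : c v < ℓ + p ∧ ℓ < c v + p} ≤ 2 p - 1`. For `v ∈ C0`:
`v ∈ U0 ℓ` iff `ℓ < p`, and at most `p - 1` more labels: `≤ p + (p - 1)`.
-/

set_option autoImplicit false

namespace Pool.Agent.H71.DN

open Finset Classical

theorem DnLay_cnt {V : Type} [Fintype V] (G : SimpleGraph V) (C0 : Finset V) (s O E : ℕ)
    (cl : V → ℕ) (hF : Fam G C0 s O E cl) (w : ℕ → Prop) [DecidablePred w] :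
    (univ.filter fun v => v ∉ C0 ∧ w (cl v)).card % 2 = ((range O).filter w).card % 2 := by
  have h0 : (univ.filter fun v => v ∉ C0 ∧ w (cl v)).card =
      ∑ i ∈ range (O + E), if w i then (univ.filter fun v => v ∉ C0 ∧ cl v = i).card else 0 := by
    rw [card_eq_sum_card_fiberwise (f := cl) (t := range (O + E))]
    · refine sum_congr rfl fun i _ => ?_
      by_cases hw : w i
      · rw [if_pos hw, filter_filter]
        congr 1
        refine filter_congr fun v _ => ?_
        constructor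
        · rintro ⟨⟨h1, _⟩, h2⟩
          exact ⟨h1, h2⟩
        · rintro ⟨h1, h2⟩
          exact ⟨⟨h1, by rw [h2]; exact hw⟩, h2⟩
      · rw [if_neg hw, card_eq_zero, filter_eq_empty_iff]
        intro v hv h2
        have h1 := (mem_filter.1 hv).2.2
        rw [h2] at h1
        exact hw h1
    · intro v hv
      have h1 := (mem_filter.1 hv).2.1
      exact mem_coe.2 (mem_range.2 (hF.lt v h1))
  have h1 : ((univ.filter fun v => v ∉ C0 ∧ w (cl v)).card : ZMod 2) =
      (((range O).filter w).card : ZMod 2) := by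
    rw [h0, sum_range_add]
    push_cast
    have h2 : ∑ x ∈ range E, (if w (O + x) then
        ((univ.filter fun v => v ∉ C0 ∧ cl v = O + x).card : ZMod 2) else 0) = 0 := by
      refine sum_eq_zero fun x hx => ?_
      have h3 := hF.even (O + x) (by omega) (by have := mem_range.1 hx; omega)
      have h4 : ((univ.filter fun v => v ∉ C0 ∧ cl v = O + x).card : ZMod 2) = 0 :=
        (ZMod.natCast_eq_zero_iff_even).2 h3
      rw [h4]
      split_ifs <;> rfl
    rw [h2, add_zero, card_filter]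
    push_cast
    refine sum_congr rfl fun i hi => ?_
    have h3 := hF.odd i (mem_range.1 hi)
    have h4 : ((univ.filter fun v => v ∉ C0 ∧ cl v = i).card : ZMod 2) = 1 :=
      (ZMod.natCast_eq_one_iff_odd).2 h3
    rw [h4]
  exact (ZMod.natCast_eq_natCast_iff' _ _ _).1 h1

theorem DnLay_win (a p : ℕ) (hp : 2 ≤ p) (S : Finset ℕ)
    (hS : ∀ x ∈ S, x < a + p ∧ a < x + p) : S.card ≤ 2 * p - 1 := by
  have h1 : S ⊆ Ico (a + 1 - p) (a + p) := by
    intro x hx
    have := hS x hx
    rw [mem_Ico]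
    omega
  have h2 := card_le_card h1
  rw [Nat.card_Ico] at h2
  omega

theorem DnLay_core {V : Type} [Fintype V] (G : SimpleGraph V) (C0 : Finset V) (s O E : ℕ)
    (cl : V → ℕ) (hF : Fam G C0 s O E cl) (p : ℕ) (hp : 2 ≤ p) (hs : C0.card ≤ s)
    (hind : ∀ u ∈ C0, ∀ v ∈ C0, ¬ G.Adj u v) (z1 z2 : V) (hz1 : z1 ∈ C0) (hz2 : z2 ∈ C0)
    (hz : z1 ≠ z2) (hpar : (Fintype.card V + C0.card) % 2 = 0) (pos : ℕ → ℕ) (k' : ℕ)
    (P1 : ∀ i < O + E, 2 * p - 1 ≤ pos i ∧ pos i < k')
    (P2 : ∀ i < O + E, ∀ j < O + E, pos i = pos j → i = j) (P3 : 2 * p - 1 ≤ k')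
    (hW : ((range (k' + p - 1)).filter fun ℓ =>
      ¬ ((Fintype.card V + (((range O).filter fun i => pos i < ℓ + p ∧ ℓ < pos i + p).card +
        (if ℓ < p then C0.card else 0))) % 2 = 0)).card ≤ 2 * (p - 1)) :
    ∃ (c : V → ℕ) (U : ℕ → Finset V), (∀ v, c v < k') ∧
      (∀ u v, G.Adj u v → c u ≠ c v) ∧
      (∀ ℓ < k' + p - 1, ∀ v, c v < ℓ + p → ℓ < c v + p → v ∈ U ℓ) ∧
      (∀ ℓ < k' + p - 1, (U ℓ).card ≤ (2 * p - 1) * s + 1) ∧
      (∀ v, ((range (k' + p - 1)).filter fun ℓ => v ∈ U ℓ).card ≤ 2 * p - 1) ∧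
      (∀ ℓ < k' + p - 1, Even (univ \ U ℓ).card) := by
  obtain ⟨c, hc⟩ : ∃ c : V → ℕ, ∀ v, c v = if v ∈ C0 then 0 else pos (cl v) := ⟨_, fun _ => rfl⟩
  have hc0 : ∀ v, v ∈ C0 → c v = 0 := fun v hv => by rw [hc, if_pos hv]
  have hc1 : ∀ v, v ∉ C0 → c v = pos (cl v) := fun v hv => by rw [hc, if_neg hv]
  obtain ⟨U0, hU0⟩ : ∃ U0 : ℕ → Finset V, ∀ ℓ, U0 ℓ = univ.filter fun v => c v < ℓ + p ∧ ℓ < c v + p :=
    ⟨_, fun _ => rfl⟩
  have hmem : ∀ ℓ v, v ∈ U0 ℓ ↔ (c v < ℓ + p ∧ ℓ < c v + p) := by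
    intro ℓ v
    rw [hU0, mem_filter]
    exact ⟨fun h => h.2, fun h => ⟨mem_univ _, h⟩⟩
  -- the cardinality of `U0`
  have hsplit : ∀ ℓ, (U0 ℓ).card = (if ℓ < p then C0.card else 0) +
      (univ.filter fun v => v ∉ C0 ∧ (pos (cl v) < ℓ + p ∧ ℓ < pos (cl v) + p)).card := by
    intro ℓ
    have h1 : U0 ℓ = (if ℓ < p then C0 else ∅) ∪
        (univ.filter fun v => v ∉ C0 ∧ (pos (cl v) < ℓ + p ∧ ℓ < pos (cl v) + p)) := by
      ext v
      rw [hmem, mem_union, mem_filter]
      by_cases hv : v ∈ C0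
      · rw [hc0 v hv]
        constructor
        · rintro ⟨_, h2⟩
          left
          rw [if_pos (by omega)]
          exact hv
        · rintro (h | h)
          · by_cases hl : ℓ < p
            · omega
            · rw [if_neg hl] at h
              exact absurd h (notMem_empty v)
          · exact absurd hv h.2.1
      · rw [hc1 v hv]
        constructor
        · intro h
          exact Or.inr ⟨mem_univ _, hv, h⟩
        · rintro (h | h)
          · by_cases hl : ℓ < p
            · rw [if_pos hl] at h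
              exact absurd h hv
            · rw [if_neg hl] at h
              exact absurd h (notMem_empty v)
          · exact h.2.2
    rw [h1, card_union_of_disjoint]
    · congr 1
      split_ifs
      · rfl
      · rfl
    · rw [disjoint_left]
      intro v h2 h3
      have h4 := (mem_filter.1 h3).2.1
      by_cases hl : ℓ < p
      · rw [if_pos hl] at h2
        exact h4 h2
      · rw [if_neg hl] at h2
        exact absurd h2 (notMem_empty v)
  have hmod : ∀ ℓ, (U0 ℓ).card % 2 =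
      ((((range O).filter fun i => pos i < ℓ + p ∧ ℓ < pos i + p).card +
        (if ℓ < p then C0.card else 0))) % 2 := by
    intro ℓ
    have h1 := DnLay_cnt G C0 s O E cl hF (fun i => pos i < ℓ + p ∧ ℓ < pos i + p)
    have h2 := hsplit ℓ
    rw [h2]
    omega
  have hsum : ∀ ℓ, (univ \ U0 ℓ).card + (U0 ℓ).card = Fintype.card V := by
    intro ℓ
    rw [card_sdiff_add_card, union_eq_left.2 (subset_univ _), card_univ]
  -- the wrong labels
  obtain ⟨Wr, hWr⟩ : ∃ Wr : Finset ℕ, Wr = (range (k' + p - 1)).filter fun ℓ =>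
      ¬ ((univ \ U0 ℓ).card % 2 = 0) := ⟨_, rfl⟩
  have hWr1 : Wr.card ≤ 2 * (p - 1) := by
    refine le_trans (card_le_card ?_) hW
    intro ℓ hℓ
    rw [hWr, mem_filter] at hℓ
    rw [mem_filter]
    refine ⟨hℓ.1, ?_⟩
    have h1 := hmod ℓ
    have h2 := hsum ℓ
    have h3 := hℓ.2
    omega
  have hWr2 : ∀ ℓ ∈ Wr, p ≤ ℓ := by
    intro ℓ hℓ
    by_contra hcon
    push Not at hcon
    rw [hWr, mem_filter] at hℓ
    have h1 := hmod ℓ
    have h2 := hsum ℓ
    have h3 := hℓ.2
    have h4 : ((range O).filter fun i => pos i < ℓ + p ∧ ℓ < pos i + p).card = 0 := by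
      rw [card_eq_zero, filter_eq_empty_iff]
      intro i hi h5
      have h6 := P1 i (by have := mem_range.1 hi; omega)
      omega
    rw [h4, if_pos hcon] at h1
    omega
  obtain ⟨Y1, hY1, hY1c, hY2c⟩ : ∃ Y1 : Finset ℕ, Y1 ⊆ Wr ∧ Y1.card ≤ p - 1 ∧
      (Wr \ Y1).card ≤ p - 1 := by
    by_cases h : p - 1 ≤ Wr.card
    · obtain ⟨Y1, h1, h2⟩ := exists_subset_card_eq h
      refine ⟨Y1, h1, h2.le, ?_⟩
      rw [card_sdiff_of_subset h1]
      omega
    · refine ⟨Wr, Subset.refl _, by omega, ?_⟩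
      rw [sdiff_self]
      simp
  obtain ⟨U, hU⟩ : ∃ U : ℕ → Finset V, ∀ ℓ, U ℓ =
      if ℓ ∈ Y1 then insert z1 (U0 ℓ) else if ℓ ∈ Wr \ Y1 then insert z2 (U0 ℓ) else U0 ℓ :=
    ⟨_, fun _ => rfl⟩
  have hUY1 : ∀ ℓ, ℓ ∈ Y1 → U ℓ = insert z1 (U0 ℓ) := fun ℓ h => by rw [hU, if_pos h]
  have hUY2 : ∀ ℓ, ℓ ∈ Wr \ Y1 → U ℓ = insert z2 (U0 ℓ) := fun ℓ h => by
    rw [hU, if_neg (mem_sdiff.1 h).2, if_pos h]
  have hUY3 : ∀ ℓ, ℓ ∉ Wr → U ℓ = U0 ℓ := fun ℓ h => by
    rw [hU, if_neg (fun h' => h (hY1 h')), if_neg (fun h' => h (mem_sdiff.1 h').1)]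
  have hnotin : ∀ ℓ ∈ Wr, ∀ z ∈ C0, z ∉ U0 ℓ := by
    intro ℓ hℓ z hz h
    rw [hmem, hc0 z hz] at h
    have := hWr2 ℓ hℓ
    omega
  have hins : ∀ ℓ ∈ Wr, ∀ z ∈ C0, (univ \ insert z (U0 ℓ)).card % 2 = 0 := by
    intro ℓ hℓ z hz
    have h1 := card_insert_of_notMem (hnotin ℓ hℓ z hz)
    have h2 : (univ \ insert z (U0 ℓ)).card + (insert z (U0 ℓ)).card = Fintype.card V := by
      rw [card_sdiff_add_card, union_eq_left.2 (subset_univ _), card_univ]
    have h3 := hsum ℓ
    have h4 : ¬ ((univ \ U0 ℓ).card % 2 = 0) := by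
      rw [hWr, mem_filter] at hℓ
      exact hℓ.2
    omega
  have hU0card : ∀ ℓ, (U0 ℓ).card ≤ (2 * p - 1) * s := by
    intro ℓ
    rw [hsplit ℓ]
    by_cases hl : ℓ < p
    · rw [if_pos hl]
      have h1 : (univ.filter fun v => v ∉ C0 ∧ (pos (cl v) < ℓ + p ∧ ℓ < pos (cl v) + p)).card = 0 := by
        rw [card_eq_zero, filter_eq_empty_iff]
        rintro v _ ⟨h2, h3⟩
        have h4 := P1 (cl v) (hF.lt v h2)
        omega
      rw [h1, add_zero]
      refine hs.trans ?_
      exact Nat.le_mul_of_pos_left s (by omega)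
    · rw [if_neg hl, zero_add]
      have h1 : (univ.filter fun v => v ∉ C0 ∧ (pos (cl v) < ℓ + p ∧ ℓ < pos (cl v) + p)).card =
          ∑ x ∈ ((range (O + E)).filter fun i => pos i < ℓ + p ∧ ℓ < pos i + p),
            ((univ.filter fun v => v ∉ C0 ∧ (pos (cl v) < ℓ + p ∧ ℓ < pos (cl v) + p)).filter
              fun v => cl v = x).card := by
        refine card_eq_sum_card_fiberwise ?_
        intro v hv
        have h2 := (mem_filter.1 hv).2
        exact mem_coe.2 (mem_filter.2 ⟨mem_range.2 (hF.lt v h2.1), h2.2⟩)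
      rw [h1]
      have h3 : ((range (O + E)).filter fun i => pos i < ℓ + p ∧ ℓ < pos i + p).card ≤ 2 * p - 1 := by
        rw [← card_image_of_injOn (f := pos)]
        · refine DnLay_win ℓ p hp _ ?_
          intro x hx
          obtain ⟨i, hi, rfl⟩ := mem_image.1 hx
          exact (mem_filter.1 hi).2
        · intro i hi j hj hij
          have hi' := (mem_filter.1 (mem_coe.1 hi)).1
          have hj' := (mem_filter.1 (mem_coe.1 hj)).1
          exact P2 i (mem_range.1 hi') j (mem_range.1 hj') hij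
      calc _ ≤ ∑ _x ∈ ((range (O + E)).filter fun i => pos i < ℓ + p ∧ ℓ < pos i + p), s := by
            refine sum_le_sum fun x _ => ?_
            refine le_trans (card_le_card ?_) (hF.small x)
            intro v hv
            have h4 := mem_filter.1 hv
            have h5 := (mem_filter.1 h4.1).2
            exact mem_filter.2 ⟨mem_univ _, h5.1, h4.2⟩
        _ = _ * s := by rw [sum_const, smul_eq_mul]
        _ ≤ (2 * p - 1) * s := Nat.mul_le_mul_right _ h3
  refine ⟨c, U, ?_, ?_, ?_, ?_, ?_, ?_⟩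
  · intro v
    by_cases hv : v ∈ C0
    · rw [hc0 v hv]
      omega
    · rw [hc1 v hv]
      exact (P1 _ (hF.lt v hv)).2
  · intro u v huv h
    by_cases hu : u ∈ C0
    · by_cases hv : v ∈ C0
      · exact hind u hu v hv huv
      · rw [hc0 u hu, hc1 v hv] at h
        have := (P1 _ (hF.lt v hv)).1
        omega
    · by_cases hv : v ∈ C0
      · rw [hc1 u hu, hc0 v hv] at h
        have := (P1 _ (hF.lt u hu)).1
        omega
      · rw [hc1 u hu, hc1 v hv] at h
        exact hF.prop u hu v hv huv (P2 _ (hF.lt u hu) _ (hF.lt v hv) h)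
  · intro ℓ _ v h1 h2
    have h3 : v ∈ U0 ℓ := (hmem ℓ v).2 ⟨h1, h2⟩
    rw [hU]
    split_ifs
    · exact mem_insert_of_mem h3
    · exact mem_insert_of_mem h3
    · exact h3
  · intro ℓ _
    have h1 := hU0card ℓ
    rw [hU]
    split_ifs
    · have := card_insert_le z1 (U0 ℓ)
      omega
    · have := card_insert_le z2 (U0 ℓ)
      omega
    · omega
  · intro v
    by_cases hv : v ∈ C0
    · by_cases hv1 : v = z1
      · have h1 : ((range (k' + p - 1)).filter fun ℓ => v ∈ U ℓ) ⊆ range p ∪ Y1 := by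
          intro ℓ hℓ
          have h2 := (mem_filter.1 hℓ).2
          rw [mem_union, mem_range]
          by_cases hY : ℓ ∈ Y1
          · exact Or.inr hY
          · left
            have h3 : v ∈ U0 ℓ := by
              by_cases hY' : ℓ ∈ Wr \ Y1
              · rw [hUY2 ℓ hY', mem_insert] at h2
                rcases h2 with h2 | h2
                · exact absurd (hv1.symm.trans h2) hz
                · exact h2
              · have h4 : ℓ ∉ Wr := fun h => hY' (mem_sdiff.2 ⟨h, hY⟩)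
                rw [hUY3 ℓ h4] at h2
                exact h2
            rw [hmem, hc0 v hv] at h3
            omega
        have h2 := card_le_card h1
        have h3 := card_union_le (range p) Y1
        rw [card_range] at h3
        omega
      · have h1 : ((range (k' + p - 1)).filter fun ℓ => v ∈ U ℓ) ⊆ range p ∪ (Wr \ Y1) := by
          intro ℓ hℓ
          have h2 := (mem_filter.1 hℓ).2
          rw [mem_union, mem_range]
          by_cases hY : ℓ ∈ Wr \ Y1
          · exact Or.inr hY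
          · left
            have h3 : v ∈ U0 ℓ := by
              by_cases hY' : ℓ ∈ Y1
              · rw [hUY1 ℓ hY', mem_insert] at h2
                rcases h2 with h2 | h2
                · exact absurd h2 hv1
                · exact h2
              · have h4 : ℓ ∉ Wr := fun h => hY (mem_sdiff.2 ⟨h, hY'⟩)
                rw [hUY3 ℓ h4] at h2
                exact h2
            rw [hmem, hc0 v hv] at h3
            omega
        have h2 := card_le_card h1
        have h3 := card_union_le (range p) (Wr \ Y1)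
        rw [card_range] at h3
        omega
    · refine DnLay_win (c v) p hp _ ?_
      intro ℓ hℓ
      have h2 := (mem_filter.1 hℓ).2
      have h3 : v ∈ U0 ℓ := by
        rw [hU] at h2
        have hvz1 : v ≠ z1 := fun h => hv (h ▸ hz1)
        have hvz2 : v ≠ z2 := fun h => hv (h ▸ hz2)
        split_ifs at h2
        · rcases mem_insert.1 h2 with h | h
          · exact absurd h hvz1
          · exact h
        · rcases mem_insert.1 h2 with h | h
          · exact absurd h hvz2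
          · exact h
        · exact h2
      have h4 := (hmem ℓ v).1 h3
      exact ⟨h4.2, h4.1⟩
  · intro ℓ hℓ
    rw [Nat.even_iff]
    by_cases h : ℓ ∈ Wr
    · by_cases hY : ℓ ∈ Y1
      · rw [hUY1 ℓ hY]
        exact hins ℓ h z1 hz1
      · rw [hUY2 ℓ (mem_sdiff.2 ⟨h, hY⟩)]
        exact hins ℓ h z2 hz2
    · rw [hUY3 ℓ h]
      by_contra hcon
      exact h (by rw [hWr, mem_filter]; exact ⟨mem_range.2 hℓ, hcon⟩)

theorem lay {V : Type} [Fintype V] (G : SimpleGraph V) (k : ℕ) (col : V → ℕ)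
    (hcol : ∀ v, col v < k) (hprop : ∀ u v, G.Adj u v → col u ≠ col v) (p s : ℕ) (hp : 2 ≤ p)
    (hs : 3 ≤ s) (hC : ∃ C : Finset V, C.card = 3 ∧ ∀ u ∈ C, ∀ v ∈ C, ¬ G.Adj u v) :
    ∃ (c : V → ℕ) (k' : ℕ) (U : ℕ → Finset V), (∀ v, c v < k') ∧
      (∀ u v, G.Adj u v → c u ≠ c v) ∧ 2 * k' ≤ 3 * (k + Fintype.card V / s) + 8 * p ∧
      (∀ ℓ < k' + p - 1, ∀ v, c v < ℓ + p → ℓ < c v + p → v ∈ U ℓ) ∧
      (∀ ℓ < k' + p - 1, (U ℓ).card ≤ (2 * p - 1) * s + 1) ∧
      (∀ v, ((range (k' + p - 1)).filter fun ℓ => v ∈ U ℓ).card ≤ 2 * p - 1) ∧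
      (∀ ℓ < k' + p - 1, Even (univ \ U ℓ).card) := by
  obtain ⟨C, hC3, hCi⟩ := hC
  obtain ⟨x, y, z, hxy, hxz, hyz, rfl⟩ := card_eq_three.1 hC3
  by_cases hn : Even (Fintype.card V)
  · obtain ⟨O, E, cl, hF, hOE⟩ := refE G k col hcol hprop s (by omega) {x, y}
    have hc2 : ({x, y} : Finset V).card = 2 := card_pair hxy
    have hO : Even O := by
      have h1 := DnLay_cnt G {x, y} s O E cl hF (fun _ => True)
      have h2 : ((range O).filter fun _ => True).card = O := by
        rw [filter_true_of_mem (fun _ _ => trivial), card_range]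
      have h3 : (univ.filter fun v => v ∉ ({x, y} : Finset V) ∧ True) = univ \ {x, y} := by
        ext v
        rw [mem_filter, mem_sdiff]
        constructor
        · exact fun h => ⟨h.1, h.2.1⟩
        · exact fun h => ⟨h.1, h.2, trivial⟩
      have h4 : (univ \ ({x, y} : Finset V)).card + ({x, y} : Finset V).card = Fintype.card V := by
        rw [card_sdiff_add_card, union_eq_left.2 (subset_univ _), card_univ]
      rw [h3, h2] at h1
      rw [Nat.even_iff] at hn ⊢
      omega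
    obtain ⟨pos, k', P1, P2, P3, P4, P5⟩ := patE p O E hp hO
    have hW : ((range (k' + p - 1)).filter fun ℓ =>
        ¬ ((Fintype.card V + (((range O).filter fun i => pos i < ℓ + p ∧ ℓ < pos i + p).card +
          (if ℓ < p then ({x, y} : Finset V).card else 0))) % 2 = 0)).card ≤ 2 * (p - 1) := by
      refine le_trans (card_le_card ?_) P5
      intro ℓ hℓ
      rw [mem_filter] at hℓ ⊢
      refine ⟨hℓ.1, fun h => hℓ.2 ?_⟩
      rw [Nat.even_iff] at h hn
      rw [hc2]
      split_ifs <;> omega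
    obtain ⟨c, U, h1, h2, h3, h4, h5, h6⟩ := DnLay_core G {x, y} s O E cl hF p hp (by omega)
      (fun u hu v hv => hCi u (by
        rw [mem_insert, mem_singleton] at hu
        rcases hu with rfl | rfl <;> simp) v (by
        rw [mem_insert, mem_singleton] at hv
        rcases hv with rfl | rfl <;> simp)) x y (by simp) (by simp) hxy
      (by rw [Nat.even_iff] at hn; omega) pos k' P1 P2 P3 hW
    exact ⟨c, k', U, h1, h2, by omega, h3, h4, h5, h6⟩
  · obtain ⟨O, E, cl, hF, hEO, hOE⟩ := refO G k col hcol hprop s (by omega) {x, y, z}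
    obtain ⟨pos, k', P1, P2, P3, P4, P5⟩ := patO p O E hp hEO
    have hW : ((range (k' + p - 1)).filter fun ℓ =>
        ¬ ((Fintype.card V + (((range O).filter fun i => pos i < ℓ + p ∧ ℓ < pos i + p).card +
          (if ℓ < p then ({x, y, z} : Finset V).card else 0))) % 2 = 0)).card ≤ 2 * (p - 1) := by
      refine le_trans (card_le_card ?_) P5
      intro ℓ hℓ
      rw [mem_filter] at hℓ ⊢
      refine ⟨hℓ.1, fun h => hℓ.2 ?_⟩
      rw [Nat.odd_iff] at h
      rw [Nat.even_iff] at hn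
      rw [hC3]
      split_ifs at h ⊢ <;> omega
    obtain ⟨c, U, h1, h2, h3, h4, h5, h6⟩ := DnLay_core G {x, y, z} s O E cl hF p hp (by omega)
      hCi x y (by simp) (by simp) hxy
      (by rw [Nat.even_iff] at hn; omega) pos k' P1 P2 P3 hW
    exact ⟨c, k', U, h1, h2, by omega, h3, h4, h5, h6⟩

end Pool.Agent.H71.DN
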