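import Mathlib
import Pool.Agent.H71.DN.Cor
import Pool.Agent.H71.DN.Fnl
import Pool.Agent.H71.DN.Lay
import Pool.Agent.H28.HZ.ALL

/-!
MNA: the main theorem for nearly regular graphs, `p ≥ 2`.
-/

set_option autoImplicit false

namespace Pool.Agent.H71.DN

open Finset Classical

theorem dg_eq {V : Type} [Fintype V] (G : SimpleGraph V) [DecidableRel G.Adj] (v : V) :
    dg G v = G.degree v := by
  unfold dg
  rw [← SimpleGraph.card_neighborFinset_eq_degree]
  congr 1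
  ext u
  simp

theorem dg_bd {V : Type} [Fintype V] (G : SimpleGraph V) [DecidableRel G.Adj] (v : V) :
    G.minDegree ≤ dg G v ∧ dg G v ≤ G.maxDegree := by
  rw [dg_eq]
  exact ⟨G.minDegree_le_degree v, G.degree_le_maxDegree v⟩

theorem colr {V : Type} (G : SimpleGraph V) (k : ℕ) (h : G.Colorable k) :
    ∃ col : V → ℕ, (∀ v, col v < k) ∧ ∀ u v, G.Adj u v → col u ≠ col v := by
  obtain ⟨c⟩ := h
  refine ⟨fun v => (c v : ℕ), fun v => (c v).isLt, ?_⟩
  intro u v huv h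
  exact c.valid huv (Fin.ext h)

/-- The size of the classes. -/
theorem ssize (κ n p : ℝ) (hκ : 0 < κ) (hn : 0 < n) (hp : 1 ≤ p) (h : 8 * p ≤ κ * n) :
    ∃ s : ℕ, 3 ≤ s ∧ (2 * p - 1) * s + 1 ≤ κ * n ∧ n / s ≤ 4 * p / κ := by
  have hp0 : 0 < p := by linarith
  refine ⟨⌊κ * n / (2 * p)⌋₊, ?_, ?_, ?_⟩
  · apply Nat.le_floor
    rw [le_div_iff₀ (by positivity)]
    push_cast
    linarith
  · have h1 : (⌊κ * n / (2 * p)⌋₊ : ℝ) ≤ κ * n / (2 * p) :=
      Nat.floor_le (by positivity)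
    have h2 : (⌊κ * n / (2 * p)⌋₊ : ℝ) * (2 * p) ≤ κ * n := by
      rwa [le_div_iff₀ (by positivity)] at h1
    have h3 : (1 : ℝ) ≤ ⌊κ * n / (2 * p)⌋₊ := by
      have : 1 ≤ ⌊κ * n / (2 * p)⌋₊ := by
        apply Nat.le_floor
        rw [le_div_iff₀ (by positivity)]
        push_cast
        linarith
      exact_mod_cast this
    nlinarith
  · have h1 : κ * n / (2 * p) < ⌊κ * n / (2 * p)⌋₊ + 1 := Nat.lt_floor_add_one _
    have h2 : 2 ≤ κ * n / (4 * p) := by
      rw [le_div_iff₀ (by positivity)]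
      linarith
    have h4 : κ * n / (2 * p) = 2 * (κ * n / (4 * p)) := by
      field_simp
      ring
    have h3 : κ * n / (4 * p) ≤ ⌊κ * n / (2 * p)⌋₊ := by linarith
    have h5 : 0 < κ * n / (4 * p) := by positivity
    calc n / (⌊κ * n / (2 * p)⌋₊ : ℝ) ≤ n / (κ * n / (4 * p)) := by
          apply div_le_div_of_nonneg_left hn.le h5 h3
      _ = 4 * p / κ := by
          field_simp

/-- The Havet-Yu bound for nearly regular robust expanders, `p ≥ 2`. -/
theorem mainA (ε : ℝ) (hε : 0 < ε) (hε1 : ε ≤ 1) :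
    ∃ (θ ρ : ℝ) (n0 : ℕ), 0 < θ ∧ 0 < ρ ∧
      ∀ (V : Type) [Fintype V] (G : SimpleGraph V) [DecidableRel G.Adj] (p k : ℕ),
        n0 ≤ Fintype.card V → 2 ≤ p →
        (G.maxDegree : ℝ) ≤ G.minDegree + ρ * Fintype.card V → Rob G G.minDegree ε θ →
        G.Colorable k → (k : ℝ) ≤ (2 / 3 - ε) * G.maxDegree →
        (∃ C : Finset V, C.card = 3 ∧ ∀ u ∈ C, ∀ v ∈ C, ¬ G.Adj u v) →
        H70.HY.HYLab G G.maxDegree p := by
  obtain ⟨θ, κ, ρ, n1, hθ, hκ, hρ, hκ1, hcore⟩ := core ε hε hε1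
  obtain ⟨κ₂, hκ₂⟩ : ∃ κ₂ : ℝ, κ₂ = ε ^ 2 * κ / 11 := ⟨_, rfl⟩
  have hκ₂0 : 0 < κ₂ := by rw [hκ₂]; positivity
  obtain ⟨N0, hN0⟩ := H28.HZ.all κ₂ hκ₂0
  refine ⟨θ, ρ, max n1 (max 1 ⌈(N0 : ℝ) / ε⌉₊), hθ, hρ, ?_⟩
  intro V _ G _ p k hn hp hreg hrob hcol hk hC
  have hn1 : n1 ≤ Fintype.card V := (le_max_left _ _).trans hn
  have hn2 : 1 ≤ Fintype.card V :=
    ((le_max_left _ _).trans (le_max_right _ _)).trans hn
  have hn3 : ⌈(N0 : ℝ) / ε⌉₊ ≤ Fintype.card V :=
    ((le_max_right _ _).trans (le_max_right _ _)).trans hn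
  obtain ⟨n, hnn⟩ : ∃ n : ℝ, n = (Fintype.card V : ℝ) := ⟨_, rfl⟩
  have hnpos : 0 < n := by
    rw [hnn]
    exact_mod_cast hn2
  obtain ⟨hδ, hc⟩ := hcore V G G.minDegree G.maxDegree hn1 (fun v => dg_bd G v) hrob
  rw [← hnn] at hδ hc hreg
  have hδΔ : (G.minDegree : ℝ) ≤ G.maxDegree := by exact_mod_cast G.minDegree_le_maxDegree
  have hΔn : (G.maxDegree : ℝ) ≤ n := by
    rw [hnn]
    have h1 := @SimpleGraph.maxDegree_lt_card_verts V G _ _ (Fintype.card_pos_iff.1 hn2)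
    exact_mod_cast h1.le
  have hεn : ε * n ≤ G.maxDegree := hδ.trans hδΔ
  by_cases hpκ : κ₂ * n < p
  · apply hN0 V G p
    · have h1 : (N0 : ℝ) / ε ≤ n := by
        rw [hnn]
        exact (Nat.le_ceil _).trans (by exact_mod_cast hn3)
      rw [div_le_iff₀ hε] at h1
      have h2 : (N0 : ℝ) ≤ G.maxDegree := by linarith
      exact_mod_cast h2
    · have h1 : κ₂ * (G.maxDegree : ℝ) ≤ κ₂ * n := mul_le_mul_of_nonneg_left hΔn hκ₂0.le
      linarith
  · push Not at hpκ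
    have hp1 : (1 : ℝ) ≤ p := by
      have : 1 ≤ p := by omega
      exact_mod_cast this
    have hp11 : (p : ℝ) * (11 / κ) ≤ ε ^ 2 * n := by
      have h1 : (p : ℝ) * (11 / κ) ≤ κ₂ * n * (11 / κ) :=
        mul_le_mul_of_nonneg_right hpκ (by positivity)
      have h2 : κ₂ * n * (11 / κ) = ε ^ 2 * n := by
        rw [hκ₂]
        field_simp
      linarith
    have hεε : ε ^ 2 * n ≤ ε * G.maxDegree := by
      have : ε ^ 2 * n = ε * (ε * n) := by ring
      rw [this]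
      exact mul_le_mul_of_nonneg_left hεn hε.le
    have h8p : 8 * (p : ℝ) ≤ κ * n := by
      have h1 : κ₂ ≤ κ / 11 := by
        rw [hκ₂]
        have : ε ^ 2 ≤ 1 := by nlinarith
        have h2 : ε ^ 2 * κ ≤ 1 * κ := mul_le_mul_of_nonneg_right this hκ.le
        linarith
      have h2 : κ₂ * n ≤ κ / 11 * n := mul_le_mul_of_nonneg_right h1 hnpos.le
      have h3 : 0 < κ * n := by positivity
      linarith
    obtain ⟨s, hs3, hs1, hs2⟩ := ssize κ n p hκ hnpos hp1 h8p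
    obtain ⟨col, hcol1, hcol2⟩ := colr G k hcol
    obtain ⟨c, k', U, hc1, hc2, hk', hU1, hU2, hU3, hU4⟩ :=
      lay G k col hcol1 hcol2 p s hp hs3 hC
    have hs0 : (0 : ℝ) < s := by
      have : 0 < s := by omega
      exact_mod_cast this
    have hns : ((Fintype.card V / s : ℕ) : ℝ) ≤ 4 * p / κ := by
      refine le_trans Nat.cast_div_le ?_
      rw [← hnn]
      exact hs2
    have hk2 : (2 : ℝ) * k' ≤ 3 * (k + 4 * p / κ) + 8 * p := by
      have h1 : ((2 * k' : ℕ) : ℝ) ≤ ((3 * (k + Fintype.card V / s) + 8 * p : ℕ) : ℝ) := by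
        exact_mod_cast hk'
      push_cast at h1
      have h2 : ((Fintype.card V / s : ℕ) : ℝ) ≤ 4 * p / κ := hns
      push_cast at h2
      linarith
    have hL1 : ((k' + p - 1 : ℕ) : ℝ) ≤ k' + p := by
      have : k' + p - 1 ≤ k' + p := Nat.sub_le _ _
      exact_mod_cast this
    have h5p : 6 * (p : ℝ) / κ + 5 * p ≤ p * (11 / κ) := by
      have h1 : (5 : ℝ) * p ≤ 5 * p / κ := by
        rw [le_div_iff₀ hκ]
        nlinarith
      have h2 : 6 * (p : ℝ) / κ + 5 * p / κ = p * (11 / κ) := by ring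
      linarith
    have hL : ((k' + p - 1 : ℕ) : ℝ) ≤ (1 - ε / 2) * G.maxDegree := by
      have h3 : 3 * (4 * (p : ℝ) / κ) = 2 * (6 * p / κ) := by ring
      nlinarith
    have hκn : (2 * (p : ℝ) - 1) ≤ κ * n := by linarith
    have hA := (hc (k' + p - 1) U hL (fun ℓ hℓ => by
      have h1 : ((U ℓ).card : ℝ) ≤ ((2 * p - 1) * s + 1 : ℕ) := by
        exact_mod_cast hU2 ℓ hℓ
      have h2 : (((2 * p - 1) * s + 1 : ℕ) : ℝ) = (2 * p - 1) * s + 1 := by
        have : 1 ≤ 2 * p := by omega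
        push_cast [Nat.cast_sub this]
        ring
      rw [h2] at h1
      linarith)).1
    obtain ⟨mm, hPM, hmm⟩ := hA (fun v => by
      have h1 : (G.minDegree : ℝ) ≤ dg G v := by exact_mod_cast (dg_bd G v).1
      linarith) (fun v => by
      have h1 : (((range (k' + p - 1)).filter fun ℓ => v ∈ U ℓ).card : ℝ) ≤ (2 * p - 1 : ℕ) := by
        exact_mod_cast hU3 v
      have h2 : ((2 * p - 1 : ℕ) : ℝ) = 2 * p - 1 := by
        have : 1 ≤ 2 * p := by omega
        push_cast [Nat.cast_sub this]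
        ring
      rw [h2] at h1
      linarith) hU4
    have hLΔ : k' + p - 1 ≤ G.maxDegree := by
      have h1 : ((k' + p - 1 : ℕ) : ℝ) ≤ G.maxDegree := by
        have h2 : (0 : ℝ) ≤ G.maxDegree := Nat.cast_nonneg _
        nlinarith
      exact_mod_cast h1
    refine final G G.maxDegree p k' (by omega) c hc1 hc2 U mm hPM hU1 (by omega) ?_
    intro v
    have h1 : ((range (k' + p - 1)).filter fun ℓ => mm ℓ v = v).card ≤
        ((range (k' + p - 1)).filter fun ℓ => v ∈ U ℓ).card := by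
      apply card_le_card
      intro ℓ hℓ
      simp only [mem_filter, mem_range] at hℓ ⊢
      refine ⟨hℓ.1, ?_⟩
      by_contra h
      exact hmm ℓ hℓ.1 v h hℓ.2
    have h2 := hU3 v
    have h3 := (dg_bd G v).2
    omega

end Pool.Agent.H71.DN
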