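import Mathlib
import Pool.Agent.H71.DN.MnA
import Pool.Agent.H71.DN.LayB

/-!
MNB: the main theorem for robust expanders with enough deficiency, `p ≥ 1`.
-/

set_option autoImplicit false

namespace Pool.Agent.H71.DN

open Finset Classical

/-- The Havet-Yu bound for robust expanders with total truncated deficiency at least `n`. -/
theorem mainB (ε : ℝ) (hε : 0 < ε) (hε1 : ε ≤ 1) :
    ∃ (θ ρ : ℝ) (n0 : ℕ), 0 < θ ∧ 0 < ρ ∧
      ∀ (V : Type) [Fintype V] (G : SimpleGraph V) [DecidableRel G.Adj] (p k : ℕ),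
        n0 ≤ Fintype.card V → 1 ≤ p →
        (Fintype.card V : ℝ) ≤ ∑ v, min ((G.maxDegree : ℝ) - G.degree v) (ρ * Fintype.card V) →
        Rob G G.minDegree ε θ →
        G.Colorable k → (k : ℝ) ≤ (1 - ε) * G.maxDegree →
        H70.HY.HYLab G G.maxDegree p := by
  obtain ⟨θ, κ, ρ0, n1, hθ, hκ, hρ0, hκ1, hcore⟩ := core ε hε hε1
  obtain ⟨κ₂, hκ₂⟩ : ∃ κ₂ : ℝ, κ₂ = ε ^ 2 * κ / 22 := ⟨_, rfl⟩
  have hκ₂0 : 0 < κ₂ := by rw [hκ₂]; positivity
  obtain ⟨N0, hN0⟩ := H28.HZ.all κ₂ hκ₂0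
  refine ⟨θ, κ / 2, max n1 (max 1 (max ⌈(N0 : ℝ) / ε⌉₊ ⌈(2 / κ) * (4 / ε + 1)⌉₊)), hθ,
    by positivity, ?_⟩
  intro V _ G _ p k hn hp hdef hrob hcol hk
  have hn1 : n1 ≤ Fintype.card V := (le_max_left _ _).trans hn
  have hn2 : 1 ≤ Fintype.card V :=
    ((le_max_left _ _).trans (le_max_right _ _)).trans hn
  have hn3 : ⌈(N0 : ℝ) / ε⌉₊ ≤ Fintype.card V :=
    ((le_max_left _ _).trans ((le_max_right _ _).trans (le_max_right _ _))).trans hn
  have hn4 : ⌈(2 / κ) * (4 / ε + 1)⌉₊ ≤ Fintype.card V :=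
    ((le_max_right _ _).trans ((le_max_right _ _).trans (le_max_right _ _))).trans hn
  obtain ⟨n, hnn⟩ : ∃ n : ℝ, n = (Fintype.card V : ℝ) := ⟨_, rfl⟩
  have hnpos : 0 < n := by
    rw [hnn]
    exact_mod_cast hn2
  obtain ⟨hδ, hc⟩ := hcore V G G.minDegree G.maxDegree hn1 (fun v => dg_bd G v) hrob
  rw [← hnn] at hδ hc hdef
  have hδΔ : (G.minDegree : ℝ) ≤ G.maxDegree := by exact_mod_cast G.minDegree_le_maxDegree
  have hΔn : (G.maxDegree : ℝ) ≤ n := by
    rw [hnn]
    have h1 := @SimpleGraph.maxDegree_lt_card_verts V G _ _ (Fintype.card_pos_iff.1 hn2)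
    exact_mod_cast h1.le
  have hεn : ε * n ≤ G.maxDegree := hδ.trans hδΔ
  by_cases hpκ : κ₂ * n < p
  · apply hN0 V G p
    · have h1 : (N0 : ℝ) / ε ≤ n := by
        rw [hnn]
        exact (Nat.le_ceil _).trans (by exact_mod_cast hn3)
      rw [div_le_iff₀ hε] at h1
      have h2 : (N0 : ℝ) ≤ G.maxDegree := by linarith
      exact_mod_cast h2
    · have h1 : κ₂ * (G.maxDegree : ℝ) ≤ κ₂ * n := mul_le_mul_of_nonneg_left hΔn hκ₂0.le
      linarith
  · push Not at hpκ
    have hp1 : (1 : ℝ) ≤ p := by exact_mod_cast hp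
    have hp11 : (p : ℝ) * (11 / κ) ≤ ε ^ 2 / 2 * n := by
      have h1 : (p : ℝ) * (11 / κ) ≤ κ₂ * n * (11 / κ) :=
        mul_le_mul_of_nonneg_right hpκ (by positivity)
      have h2 : κ₂ * n * (11 / κ) = ε ^ 2 / 2 * n := by
        rw [hκ₂]
        field_simp
        ring
      linarith
    have hεε : ε ^ 2 * n ≤ ε * G.maxDegree := by
      have : ε ^ 2 * n = ε * (ε * n) := by ring
      rw [this]
      exact mul_le_mul_of_nonneg_left hεn hε.le
    have hε2 : ε ^ 2 ≤ ε := by nlinarith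
    have hκ₂κ : κ₂ ≤ κ / 22 := by
      rw [hκ₂]
      have h2 : ε ^ 2 * κ ≤ 1 * κ := mul_le_mul_of_nonneg_right (by linarith) hκ.le
      linarith
    have hpκn : (p : ℝ) ≤ κ * n / 22 := by
      have h2 : κ₂ * n ≤ κ / 22 * n := mul_le_mul_of_nonneg_right hκ₂κ hnpos.le
      linarith
    have hκn0 : 0 < κ * n := by positivity
    have h8p : 8 * (p : ℝ) ≤ κ * n := by linarith
    obtain ⟨s, hs3, hs1, hs2⟩ := ssize κ n p hκ hnpos hp1 h8p
    obtain ⟨col, hcol1, hcol2⟩ := colr G k hcol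
    -- the capacities
    obtain ⟨M, hM⟩ : ∃ M : ℕ, M = ⌊κ / 2 * n⌋₊ := ⟨_, rfl⟩
    have hM1 : (M : ℝ) ≤ κ / 2 * n := by
      rw [hM]
      exact Nat.floor_le (by positivity)
    have hM2 : κ / 2 * n < M + 1 := by
      rw [hM]
      exact Nat.lt_floor_add_one _
    have hM3 : 4 / ε ≤ M := by
      have h1 : (2 / κ) * (4 / ε + 1) ≤ n := by
        rw [hnn]
        exact (Nat.le_ceil _).trans (by exact_mod_cast hn4)
      have h2 : κ / 2 * ((2 / κ) * (4 / ε + 1)) ≤ κ / 2 * n :=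
        mul_le_mul_of_nonneg_left h1 (by positivity)
      have h3 : κ / 2 * ((2 / κ) * (4 / ε + 1)) = 4 / ε + 1 := by
        field_simp
      linarith
    have hM0 : (0 : ℝ) < M := lt_of_lt_of_le (by positivity) hM3
    obtain ⟨f, hf⟩ : ∃ f : V → ℕ, ∀ v, f v = min (G.maxDegree - G.degree v) M :=
      ⟨_, fun v => rfl⟩
    have hfM : ∀ v, f v ≤ M := fun v => by rw [hf]; exact min_le_right _ _
    have hfd : ∀ v, G.degree v + f v ≤ G.maxDegree := fun v => by
      have h1 := G.degree_le_maxDegree v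
      have h2 : f v ≤ G.maxDegree - G.degree v := by rw [hf]; exact min_le_left _ _
      omega
    have hfmin : ∀ v, min ((G.maxDegree : ℝ) - G.degree v) (κ / 2 * n) ≤
        f v * (1 + ε / 4) := by
      intro v
      have h1 := G.degree_le_maxDegree v
      rcases le_total (G.maxDegree - G.degree v) M with h | h
      · have h2 : f v = G.maxDegree - G.degree v := by rw [hf]; exact min_eq_left h
        have h3 : (f v : ℝ) = (G.maxDegree : ℝ) - G.degree v := by
          rw [h2]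
          push_cast [Nat.cast_sub h1]
          ring
        have h4 : (0 : ℝ) ≤ f v := Nat.cast_nonneg _
        refine (min_le_left _ _).trans ?_
        rw [← h3]
        nlinarith
      · have h2 : f v = M := by rw [hf]; exact min_eq_right h
        refine (min_le_right _ _).trans ?_
        rw [h2]
        have h5 : 1 ≤ (M : ℝ) * (ε / 4) := by
          have h6 : 4 / ε * (ε / 4) ≤ M * (ε / 4) :=
            mul_le_mul_of_nonneg_right hM3 (by positivity)
          have h7 : 4 / ε * (ε / 4) = 1 := by field_simp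
          linarith
        linarith
    have hSf : n ≤ (∑ v, f v : ℕ) * (1 + ε / 4) := by
      refine hdef.trans ?_
      push_cast
      rw [sum_mul]
      exact sum_le_sum fun v _ => hfmin v
    have hSf2 : (1 - ε / 4) * n ≤ (∑ v, f v : ℕ) := by
      have h1 : (0 : ℝ) ≤ (∑ v, f v : ℕ) := Nat.cast_nonneg _
      have h2 : (1 - ε / 4) * n ≤ (1 - ε / 4) * ((∑ v, f v : ℕ) * (1 + ε / 4)) :=
        mul_le_mul_of_nonneg_left hSf (by linarith)
      have h3 : (1 - ε / 4) * (((∑ v, f v : ℕ) : ℝ) * (1 + ε / 4)) =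
          ((∑ v, f v : ℕ) : ℝ) - (ε / 4) ^ 2 * ((∑ v, f v : ℕ) : ℝ) := by ring
      have h4 : 0 ≤ (ε / 4) ^ 2 * ((∑ v, f v : ℕ) : ℝ) := by positivity
      linarith
    have hs0 : (0 : ℝ) < s := by
      have : 0 < s := by omega
      exact_mod_cast this
    have hns : ((Fintype.card V / s : ℕ) : ℝ) ≤ 4 * p / κ := by
      refine le_trans Nat.cast_div_le ?_
      rw [← hnn]
      exact hs2
    have h7p : 4 * (p : ℝ) / κ + 7 * p ≤ p * (11 / κ) := by
      have h1 : (7 : ℝ) * p ≤ 7 * p / κ := by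
        rw [le_div_iff₀ hκ]
        nlinarith
      have h2 : 4 * (p : ℝ) / κ + 7 * p / κ = p * (11 / κ) := by ring
      linarith
    have hkn : (k : ℝ) ≤ (1 - ε) * n := by
      have : (1 - ε) * (G.maxDegree : ℝ) ≤ (1 - ε) * n :=
        mul_le_mul_of_nonneg_left hΔn (by linarith)
      linarith
    have hε2n : ε ^ 2 / 2 * n ≤ ε / 2 * n := by
      have := mul_le_mul_of_nonneg_right hε2 hnpos.le
      linarith
    have hsum : k + Fintype.card V / s + 7 * p ≤ ∑ v, f v := by
      have h1 : ((k + Fintype.card V / s + 7 * p : ℕ) : ℝ) ≤ (∑ v, f v : ℕ) := by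
        rw [Nat.cast_add, Nat.cast_add, Nat.cast_mul]
        push_cast at hSf2 ⊢
        push_cast at hns
        have h2 : 0 < ε * n := by positivity
        linarith
      exact_mod_cast h1
    have hbig : 2 * (2 * p - 1) + M ≤ ∑ v, f v := by
      have h0 : 2 * (2 * p - 1) + M ≤ 4 * p + M := by omega
      have h1 : ((4 * p + M : ℕ) : ℝ) ≤ (∑ v, f v : ℕ) := by
        rw [Nat.cast_add, Nat.cast_mul]
        push_cast at hSf2 ⊢
        have h3 : ε * n ≤ 1 * n := mul_le_mul_of_nonneg_right hε1 hnpos.le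
        have h4 : κ * n ≤ 1 / 10 * n := mul_le_mul_of_nonneg_right hκ1 hnpos.le
        linarith
      have h2 : 4 * p + M ≤ ∑ v, f v := by exact_mod_cast h1
      omega
    obtain ⟨c, k', U, z, hc1, hc2, hk', hU1, hU2, hU3, hz1, hz2⟩ :=
      layB G k col hcol1 hcol2 p s hp (by omega) f M hfM hbig hsum
    have hk2 : (k' : ℝ) ≤ k + 4 * p / κ + 6 * p := by
      have h1 : ((k' : ℕ) : ℝ) ≤ ((k + Fintype.card V / s + 6 * p : ℕ) : ℝ) := by
        exact_mod_cast hk'
      rw [Nat.cast_add, Nat.cast_add, Nat.cast_mul] at h1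
      push_cast at h1 hns
      linarith
    have hL1 : ((k' + p - 1 : ℕ) : ℝ) ≤ k' + p := by
      have : k' + p - 1 ≤ k' + p := Nat.sub_le _ _
      exact_mod_cast this
    have hL : ((k' + p - 1 : ℕ) : ℝ) ≤ (1 - ε / 2) * G.maxDegree := by
      linarith
    have hB := (hc (k' + p - 1) U hL (fun ℓ hℓ => by
      have h1 : ((U ℓ).card : ℝ) ≤ ((2 * p - 1) * s : ℕ) := by
        exact_mod_cast hU2 ℓ hℓ
      have h2 : (((2 * p - 1) * s : ℕ) : ℝ) = (2 * p - 1) * s := by
        have : 1 ≤ 2 * p := by omega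
        push_cast [Nat.cast_sub this]
        ring
      rw [h2] at h1
      linarith)).2
    obtain ⟨mm, hPM, hmm⟩ := hB z hz1 (fun v => by
      have h1 := hz2 v
      have h2 := hfd v
      rw [dg_eq]
      omega) (fun v => by
      have h0 : ((range (k' + p - 1)).filter fun ℓ => v ∈ U ℓ ∨ z ℓ = v).card ≤
          (2 * p - 1) + M := by
        rw [filter_or]
        exact (card_union_le _ _).trans (add_le_add (hU3 v) ((hz2 v).trans (hfM v)))
      have h1 : (((range (k' + p - 1)).filter fun ℓ => v ∈ U ℓ ∨ z ℓ = v).card : ℝ) ≤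
          ((2 * p - 1 : ℕ) : ℝ) + M := by
        exact_mod_cast h0
      have h2 : ((2 * p - 1 : ℕ) : ℝ) = 2 * p - 1 := by
        have : 1 ≤ 2 * p := by omega
        push_cast [Nat.cast_sub this]
        ring
      rw [h2] at h1
      linarith)
    have hLΔ : k' + p - 1 ≤ G.maxDegree := by
      have h1 : ((k' + p - 1 : ℕ) : ℝ) ≤ G.maxDegree := by
        have h2 : (0 : ℝ) ≤ G.maxDegree := Nat.cast_nonneg _
        nlinarith
      exact_mod_cast h1
    refine final G G.maxDegree p k' hp c hc1 hc2 U mm hPM hU1 (by omega) ?_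
    intro v
    have h1 : ((range (k' + p - 1)).filter fun ℓ => mm ℓ v = v).card ≤
        ((range (k' + p - 1)).filter fun ℓ => v ∈ U ℓ).card +
        ((range (k' + p - 1)).filter fun ℓ => v ∉ U ℓ ∧ mm ℓ v = v).card := by
      refine le_trans (card_le_card ?_) (card_union_le _ _)
      intro ℓ hℓ
      simp only [mem_filter, mem_range, mem_union] at hℓ ⊢
      by_cases h : v ∈ U ℓ
      · exact Or.inl ⟨hℓ.1, h⟩
      · exact Or.inr ⟨hℓ.1, h, hℓ.2⟩
    have h2 := hU3 v
    have h3 := hmm v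
    omega

end Pool.Agent.H71.DN
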