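import Mathlib
import Pool.Agent.H71.DN.Chn

/-!
RG1: almost all functions `f : Sym2 (Fin n) → Fin 2` give a quasirandom graph of density `1/2`.

Proof.  Let `E = Sym2 (Fin n)`, `x = min 1 (θ / 4)`; `G = gr f`.
 * Degrees. `D_v = image (fun u => s(v, u)) (univ.erase v)`, `#D_v = n - 1`, and `dg G v` is
   `#{e ∈ D_v : f e = 0}`. `tail2` (`g = 2`, real bound `n`): for all but at most
   `2 * 2 ^ #E exp (- x ^ 2 n / 4)` functions `f`, `|dg G v - (n - 1) / 2| ≤ x n`, so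
   `|dg G v - n / 2| ≤ x n + 1/2 ≤ θ n` for `n ≥ n0`. There are `n` vertices.
 * Pairs `(A, B)`: let `c e = #{y ∈ A ×ˢ B : y.1 ≠ y.2 ∧ s(y.1, y.2) = e} ∈ {0, 1, 2}`,
   `D1 = {e : c e ≥ 1}`, `D2 = {e : c e = 2}`; then `ee G A B = #{e ∈ D1 : f e = 0} + #{e ∈ D2 : f e = 0}`
   and `#D1 + #D2 = ∑ c = #A #B - #(A ∩ B)`. `tail2` for `D1` and for `D2` (real bound `n ^ 2`;
   `#D1, #D2 ≤ n ^ 2`): for all but `4 * 2 ^ #E exp (- x ^ 2 n ^ 2 / 4)` functions
   `|ee G A B - (#A #B - #(A ∩ B)) / 2| ≤ 2 x n ^ 2`, so `|ee G A B - #A #B / 2| ≤ 2 x n ^ 2 + n / 2`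
   `≤ θ n ^ 2` for `n ≥ n0`. There are `4 ^ n` pairs.
 The number of bad `f` is at most
 `2 ^ #E (2 n exp (- x ^ 2 n / 4) + 4 ^ n * 4 * exp (- x ^ 2 n ^ 2 / 4)) ≤ τ 2 ^ #E` for `n ≥ n0`.
-/

set_option autoImplicit false

namespace Pool.Agent.H71.DN

open Finset Classical

/-- The graph of a function on the pairs. -/
def gr {V : Type} (f : Sym2 V → Fin 2) : SimpleGraph V where
  Adj u v := u ≠ v ∧ (f s(u, v) : ℕ) = 0
  symm := ⟨fun u v h => ⟨h.1.symm, by rw [Sym2.eq_swap]; exact h.2⟩⟩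
  loopless := ⟨fun u h => h.1 rfl⟩

theorem Rg1_key {E ι : Type} [Fintype E] [DecidableEq E] (P : Finset ι) (φ : ι → E) (hφ : Set.InjOn φ P)
    (x N : ℝ) (hx0 : 0 ≤ x) (hx1 : x ≤ 1) (hN : (P.card : ℝ) ≤ N) :
    ((univ.filter fun f : E → Fin 2 =>
      x * N < |((P.filter fun p => (f (φ p) : ℕ) = 0).card : ℝ) - (P.card : ℝ) / 2|).card : ℝ) ≤
      2 * 2 ^ Fintype.card E * Real.exp (-(x ^ 2 * N / 4)) := by
  have hc : (P.image φ).card = P.card := card_image_of_injOn hφ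
  have h := tail2 2 (by norm_num) (P.image φ) x N hx0 hx1 (by rw [hc]; exact hN)
  have e : ∀ f : E → Fin 2, ((P.image φ).filter fun e => (f e : ℕ) = 0).card =
      (P.filter fun p => (f (φ p) : ℕ) = 0).card := by
    intro f
    rw [Finset.filter_image]
    refine card_image_of_injOn (hφ.mono ?_)
    intro a ha
    exact (Finset.mem_filter.1 ha).1
  simp only [e, hc, Nat.cast_ofNat] at h
  refine le_trans (le_of_eq ?_) h
  refine congrArg (fun k : ℕ => (k : ℝ)) (congrArg Finset.card ?_)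
  ext f
  simp only [Finset.mem_filter, Finset.mem_univ, true_and]

theorem Rg1_ev1 {c τ : ℝ} (hc : 0 < c) (hτ : 0 < τ) :
    ∀ᶠ n : ℕ in Filter.atTop, (n : ℝ) * (2 * Real.exp (-(c * n))) ≤ τ := by
  have h1 : Filter.Tendsto (fun n : ℕ => (n : ℝ) ^ 1 * (Real.exp (-c)) ^ n) Filter.atTop (nhds 0) := by
    refine tendsto_pow_const_mul_const_pow_of_abs_lt_one 1 ?_
    rw [abs_of_pos (Real.exp_pos _)]
    exact Real.exp_lt_one_iff.2 (by linarith)
  have h2 : ∀ᶠ n : ℕ in Filter.atTop, (n : ℝ) ^ 1 * (Real.exp (-c)) ^ n < τ / 2 :=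
    h1.eventually (gt_mem_nhds (by positivity))
  filter_upwards [h2] with n hn
  have e : Real.exp (-(c * n)) = Real.exp (-c) ^ n := by
    rw [← Real.exp_nat_mul]
    congr 1
    ring
  rw [e]
  rw [pow_one] at hn
  linarith

theorem Rg1_ev2 {c τ : ℝ} (hc : 0 < c) (hτ : 0 < τ) :
    ∀ᶠ n : ℕ in Filter.atTop, (4 : ℝ) ^ n * (4 * Real.exp (-(c * (n : ℝ) ^ 2))) ≤ τ := by
  have h1 : Filter.Tendsto (fun n : ℕ => (Real.exp (-c)) ^ n) Filter.atTop (nhds 0) := by
    refine tendsto_pow_atTop_nhds_zero_of_abs_lt_one ?_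
    rw [abs_of_pos (Real.exp_pos _)]
    exact Real.exp_lt_one_iff.2 (by linarith)
  have h2 : ∀ᶠ n : ℕ in Filter.atTop, (Real.exp (-c)) ^ n < 1 / 8 :=
    h1.eventually (gt_mem_nhds (by norm_num))
  have h3 : Filter.Tendsto (fun n : ℕ => ((1 : ℝ) / 2) ^ n) Filter.atTop (nhds 0) :=
    tendsto_pow_atTop_nhds_zero_of_lt_one (by norm_num) (by norm_num)
  have h4 : ∀ᶠ n : ℕ in Filter.atTop, ((1 : ℝ) / 2) ^ n < τ / 4 :=
    h3.eventually (gt_mem_nhds (by positivity))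
  filter_upwards [h2, h4] with n hn hn'
  have e : Real.exp (-(c * (n : ℝ) ^ 2)) = (Real.exp (-c) ^ n) ^ n := by
    rw [← pow_mul, ← Real.exp_nat_mul]
    congr 1
    push_cast
    ring
  have h5 : (4 : ℝ) ^ n * (Real.exp (-c) ^ n) ^ n ≤ (1 / 2) ^ n := by
    rw [← mul_pow]
    refine pow_le_pow_left₀ (by positivity) ?_ n
    linarith
  rw [e]
  linarith

theorem Rg1_dg {n : ℕ} (f : Sym2 (Fin n) → Fin 2) (v : Fin n) :
    dg (gr f) v = ((univ.erase v).filter fun u => (f s(v, u) : ℕ) = 0).card := by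
  unfold dg
  congr 1
  ext u
  simp only [mem_filter, mem_univ, true_and, mem_erase, and_true]
  constructor
  · rintro ⟨h1, h2⟩
    exact ⟨h1.symm, h2⟩
  · rintro ⟨h1, h2⟩
    exact ⟨h1.symm, h2⟩

theorem Rg1_ee {n : ℕ} (f : Sym2 (Fin n) → Fin 2) (A B : Finset (Fin n)) :
    ee (gr f) A B =
      (((A ×ˢ B).filter fun y => y.1 < y.2).filter fun y => (f s(y.1, y.2) : ℕ) = 0).card +
      (((A ×ˢ B).filter fun y => y.2 < y.1).filter fun y => (f s(y.1, y.2) : ℕ) = 0).card := by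
  unfold ee
  rw [← card_union_of_disjoint]
  · congr 1
    ext y
    simp only [mem_filter, mem_union]
    constructor
    · rintro ⟨h1, h2, h3⟩
      rcases lt_or_gt_of_ne h2 with h | h
      · exact Or.inl ⟨⟨h1, h⟩, h3⟩
      · exact Or.inr ⟨⟨h1, h⟩, h3⟩
    · rintro (⟨⟨h1, h⟩, h3⟩ | ⟨⟨h1, h⟩, h3⟩)
      · exact ⟨h1, h.ne, h3⟩
      · exact ⟨h1, h.ne', h3⟩
  · rw [Finset.disjoint_left]
    intro y h1 h2
    simp only [mem_filter] at h1 h2
    exact absurd h1.1.2 (not_lt.2 h2.1.2.le)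

theorem Rg1_inj1 {n : ℕ} (A B : Finset (Fin n)) :
    Set.InjOn (fun y : Fin n × Fin n => s(y.1, y.2)) ((A ×ˢ B).filter fun y => y.1 < y.2) := by
  rintro ⟨a, b⟩ h1 ⟨c, d⟩ h2 h
  simp only [coe_filter, Set.mem_ofPred_eq] at h1 h2
  rcases Sym2.eq_iff.1 h with ⟨e1, e2⟩ | ⟨e1, e2⟩
  · simp only at e1 e2
    rw [e1, e2]
  · simp only at e1 e2
    subst e1 e2
    exact absurd h1.2 (not_lt.2 h2.2.le)

theorem Rg1_inj2 {n : ℕ} (A B : Finset (Fin n)) :
    Set.InjOn (fun y : Fin n × Fin n => s(y.1, y.2)) ((A ×ˢ B).filter fun y => y.2 < y.1) := by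
  rintro ⟨a, b⟩ h1 ⟨c, d⟩ h2 h
  simp only [coe_filter, Set.mem_ofPred_eq] at h1 h2
  rcases Sym2.eq_iff.1 h with ⟨e1, e2⟩ | ⟨e1, e2⟩
  · simp only at e1 e2
    rw [e1, e2]
  · simp only at e1 e2
    subst e1 e2
    exact absurd h1.2 (not_lt.2 h2.2.le)

theorem Rg1_cards {n : ℕ} (A B : Finset (Fin n)) :
    ((A ×ˢ B).filter fun y => y.1 < y.2).card + ((A ×ˢ B).filter fun y => y.2 < y.1).card ≤
      A.card * B.card ∧
    A.card * B.card ≤ ((A ×ˢ B).filter fun y => y.1 < y.2).card +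
      ((A ×ˢ B).filter fun y => y.2 < y.1).card + n := by
  have h0 : ((A ×ˢ B).filter fun y => y.1 = y.2).card ≤ n := by
    have : ((A ×ˢ B).filter fun y => y.1 = y.2).card ≤ (univ : Finset (Fin n)).card := by
      refine card_le_card_of_injOn Prod.fst (fun _ _ => mem_coe.2 (mem_univ _)) ?_
      rintro ⟨a, b⟩ h1 ⟨c, d⟩ h2 h
      simp only [coe_filter, Set.mem_ofPred_eq] at h1 h2 h
      rw [Prod.mk.injEq]
      exact ⟨h, by rw [← h1.2, ← h2.2, h]⟩
    rwa [card_univ, Fintype.card_fin] at this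
  have h1 : (A ×ˢ B).card = ((A ×ˢ B).filter fun y => y.1 < y.2).card +
      (((A ×ˢ B).filter fun y => y.2 < y.1).card + ((A ×ˢ B).filter fun y => y.1 = y.2).card) := by
    rw [← card_union_of_disjoint, ← card_union_of_disjoint]
    · congr 1
      ext y
      simp only [mem_union, mem_filter]
      constructor
      · intro h
        rcases lt_trichotomy y.1 y.2 with h' | h' | h'
        · exact Or.inl ⟨h, h'⟩
        · exact Or.inr (Or.inr ⟨h, h'⟩)
        · exact Or.inr (Or.inl ⟨h, h'⟩)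
      · rintro (⟨h, _⟩ | ⟨h, _⟩ | ⟨h, _⟩) <;> exact h
    · rw [Finset.disjoint_left]
      intro y h1 h2
      simp only [mem_union, mem_filter] at h1 h2
      rcases h2 with h2 | h2
      · exact absurd h1.2 (not_lt.2 h2.2.le)
      · exact absurd h1.2 (not_lt.2 h2.2.ge)
    · rw [Finset.disjoint_left]
      intro y h1 h2
      simp only [mem_filter] at h1 h2
      exact absurd h1.2 (not_lt.2 h2.2.le)
  rw [card_product] at h1
  omega

theorem rg1 (θ τ : ℝ) (hθ : 0 < θ) (hτ : 0 < τ) :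
    ∃ n0 : ℕ, ∀ n : ℕ, n0 ≤ n →
      ((univ.filter fun f : Sym2 (Fin n) → Fin 2 => ¬ QR (gr f) (1 / 2) θ).card : ℝ) ≤
        τ * 2 ^ Fintype.card (Sym2 (Fin n)) := by
  obtain ⟨x, hx⟩ : ∃ x : ℝ, x = min 1 (θ / 4) := ⟨_, rfl⟩
  have hx0 : 0 < x := by rw [hx]; positivity
  have hx1 : x ≤ 1 := by rw [hx]; exact min_le_left _ _
  have hxθ : x ≤ θ / 4 := by rw [hx]; exact min_le_right _ _
  have hc : 0 < x ^ 2 / 4 := by positivity
  have hev := ((Rg1_ev1 hc (half_pos hτ)).and (Rg1_ev2 hc (half_pos hτ))).and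
    (Filter.eventually_ge_atTop (⌈1 / θ⌉₊ + 1))
  obtain ⟨n0, hn0⟩ := Filter.eventually_atTop.1 hev
  refine ⟨n0, fun n hn => ?_⟩
  obtain ⟨⟨h1, h2⟩, h3⟩ := hn0 n hn
  have hn1 : (1 : ℝ) ≤ n := by
    have : 1 ≤ n := by omega
    exact_mod_cast this
  have hnθ : 1 ≤ θ * n := by
    have h4 : 1 / θ ≤ (n : ℝ) := (Nat.le_ceil _).trans (by exact_mod_cast (by omega : ⌈1 / θ⌉₊ ≤ n))
    rwa [div_le_iff₀ hθ, mul_comm] at h4
  obtain ⟨K, hK⟩ : ∃ K : ℝ, K = 2 ^ Fintype.card (Sym2 (Fin n)) := ⟨_, rfl⟩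
  have hK0 : 0 ≤ K := by rw [hK]; positivity
  -- the bad sets
  let BV : Fin n → Finset (Sym2 (Fin n) → Fin 2) := fun v => univ.filter fun f =>
    x * (n : ℝ) < |(((univ.erase v).filter fun u => (f s(v, u) : ℕ) = 0).card : ℝ) -
      ((univ.erase v).card : ℝ) / 2|
  let B1 : Finset (Fin n) × Finset (Fin n) → Finset (Sym2 (Fin n) → Fin 2) := fun q =>
    univ.filter fun f => x * (n : ℝ) ^ 2 <
      |((((q.1 ×ˢ q.2).filter fun y => y.1 < y.2).filter fun y => (f s(y.1, y.2) : ℕ) = 0).card : ℝ) -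
      (((q.1 ×ˢ q.2).filter fun y => y.1 < y.2).card : ℝ) / 2|
  let B2 : Finset (Fin n) × Finset (Fin n) → Finset (Sym2 (Fin n) → Fin 2) := fun q =>
    univ.filter fun f => x * (n : ℝ) ^ 2 <
      |((((q.1 ×ˢ q.2).filter fun y => y.2 < y.1).filter fun y => (f s(y.1, y.2) : ℕ) = 0).card : ℝ) -
      (((q.1 ×ˢ q.2).filter fun y => y.2 < y.1).card : ℝ) / 2|
  have hAB : ∀ q : Finset (Fin n) × Finset (Fin n), ((q.1.card : ℝ) * q.2.card) ≤ (n : ℝ) ^ 2 := by
    intro q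
    have a1 : (q.1.card : ℝ) ≤ n := by
      have := card_le_univ q.1
      rw [Fintype.card_fin] at this
      exact_mod_cast this
    have a2 : (q.2.card : ℝ) ≤ n := by
      have := card_le_univ q.2
      rw [Fintype.card_fin] at this
      exact_mod_cast this
    nlinarith [Nat.cast_nonneg (α := ℝ) q.1.card, Nat.cast_nonneg (α := ℝ) q.2.card]
  have bV : ∀ v, ((BV v).card : ℝ) ≤ 2 * K * Real.exp (-(x ^ 2 * n / 4)) := by
    intro v
    rw [hK]
    refine Rg1_key (univ.erase v) (fun u => s(v, u)) ?_ x n hx0.le hx1 ?_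
    · intro a ha b hb h
      exact Sym2.congr_right.1 h
    · have : (univ.erase v).card ≤ n := by
        rw [card_erase_of_mem (mem_univ v), card_univ, Fintype.card_fin]
        omega
      exact_mod_cast this
  have b1 : ∀ q, ((B1 q).card : ℝ) ≤ 2 * K * Real.exp (-(x ^ 2 * (n : ℝ) ^ 2 / 4)) := by
    intro q
    rw [hK]
    refine Rg1_key _ (fun y : Fin n × Fin n => s(y.1, y.2)) (Rg1_inj1 q.1 q.2) x _ hx0.le hx1 ?_
    refine le_trans ?_ (hAB q)
    have := (Rg1_cards q.1 q.2).1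
    exact_mod_cast (by omega)
  have b2 : ∀ q, ((B2 q).card : ℝ) ≤ 2 * K * Real.exp (-(x ^ 2 * (n : ℝ) ^ 2 / 4)) := by
    intro q
    rw [hK]
    refine Rg1_key _ (fun y : Fin n × Fin n => s(y.1, y.2)) (Rg1_inj2 q.1 q.2) x _ hx0.le hx1 ?_
    refine le_trans ?_ (hAB q)
    have := (Rg1_cards q.1 q.2).1
    exact_mod_cast (by omega)
  -- inclusion
  have hsub : (univ.filter fun f : Sym2 (Fin n) → Fin 2 => ¬ QR (gr f) (1 / 2) θ) ⊆
      (univ : Finset (Fin n)).biUnion BV ∪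
        (univ : Finset (Finset (Fin n) × Finset (Fin n))).biUnion (fun q => B1 q ∪ B2 q) := by
    intro f hf
    rw [mem_filter] at hf
    by_contra hcon
    apply hf.2
    rw [mem_union, not_or] at hcon
    obtain ⟨hc1, hc2⟩ := hcon
    constructor
    · intro v
      have h4 : f ∉ BV v := fun h => hc1 (mem_biUnion.2 ⟨v, mem_univ v, h⟩)
      simp only [BV, mem_filter, mem_univ, true_and, not_lt] at h4
      rw [Fintype.card_fin, Rg1_dg]
      have h5 : ((univ.erase v).card : ℝ) = n - 1 := by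
        rw [card_erase_of_mem (mem_univ v), card_univ, Fintype.card_fin, Nat.cast_sub (by omega)]
        norm_num
      rw [h5] at h4
      rw [abs_le] at h4 ⊢
      have h6 : x * n ≤ θ / 4 * n := mul_le_mul_of_nonneg_right hxθ (by linarith)
      constructor <;> nlinarith [h4.1, h4.2]
    · intro A B
      have h4 : f ∉ B1 (A, B) := fun h =>
        hc2 (mem_biUnion.2 ⟨(A, B), mem_univ _, mem_union_left _ h⟩)
      have h4' : f ∉ B2 (A, B) := fun h =>
        hc2 (mem_biUnion.2 ⟨(A, B), mem_univ _, mem_union_right _ h⟩)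
      simp only [B1, mem_filter, mem_univ, true_and, not_lt] at h4
      simp only [B2, mem_filter, mem_univ, true_and, not_lt] at h4'
      rw [Fintype.card_fin, Rg1_ee]
      push_cast
      obtain ⟨c1, c2⟩ := Rg1_cards A B
      have c1' : ((((A ×ˢ B).filter fun y => y.1 < y.2).card : ℝ)) +
          (((A ×ˢ B).filter fun y => y.2 < y.1).card : ℝ) ≤ A.card * B.card := by exact_mod_cast c1
      have c2' : ((A.card : ℝ) * B.card) ≤ (((A ×ˢ B).filter fun y => y.1 < y.2).card : ℝ) +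
          (((A ×ˢ B).filter fun y => y.2 < y.1).card : ℝ) + n := by exact_mod_cast c2
      have h6 : x * (n : ℝ) ^ 2 ≤ θ / 4 * (n : ℝ) ^ 2 :=
        mul_le_mul_of_nonneg_right hxθ (by positivity)
      have h7 : (n : ℝ) ≤ θ * (n : ℝ) ^ 2 := by nlinarith
      rw [abs_le] at h4 h4' ⊢
      constructor <;> linarith [h4.1, h4.2, h4'.1, h4'.2]
  have hcard : ((univ.filter fun f : Sym2 (Fin n) → Fin 2 => ¬ QR (gr f) (1 / 2) θ).card : ℝ) ≤
      (∑ v, ((BV v).card : ℝ)) + ∑ q, (((B1 q).card : ℝ) + (B2 q).card) := by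
    have a1 := (card_le_card hsub).trans (card_union_le _ _)
    have a2 := card_biUnion_le (s := (univ : Finset (Fin n))) (t := BV)
    have a3 := card_biUnion_le (s := (univ : Finset (Finset (Fin n) × Finset (Fin n))))
      (t := fun q => B1 q ∪ B2 q)
    have a4 : ∑ q, (B1 q ∪ B2 q).card ≤ ∑ q, ((B1 q).card + (B2 q).card) :=
      Finset.sum_le_sum fun q _ => card_union_le _ _
    have a5 : (univ.filter fun f : Sym2 (Fin n) → Fin 2 => ¬ QR (gr f) (1 / 2) θ).card ≤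
        (∑ v, (BV v).card) + ∑ q, ((B1 q).card + (B2 q).card) := by omega
    exact_mod_cast a5
  have s1 : (∑ v, ((BV v).card : ℝ)) ≤ n * (2 * K * Real.exp (-(x ^ 2 * n / 4))) := by
    refine (Finset.sum_le_sum fun v _ => bV v).trans ?_
    rw [Finset.sum_const, card_univ, Fintype.card_fin, nsmul_eq_mul]
  have s2 : (∑ q, (((B1 q).card : ℝ) + (B2 q).card)) ≤
      4 ^ n * (4 * K * Real.exp (-(x ^ 2 * (n : ℝ) ^ 2 / 4))) := by
    refine (Finset.sum_le_sum fun q _ => add_le_add (b1 q) (b2 q)).trans ?_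
    rw [Finset.sum_const, card_univ, Fintype.card_prod, Fintype.card_finset, Fintype.card_fin,
      nsmul_eq_mul]
    push_cast
    rw [← mul_pow]
    norm_num
    apply le_of_eq
    ring
  have e1 : Real.exp (-(x ^ 2 / 4 * n)) = Real.exp (-(x ^ 2 * n / 4)) := by
    congr 1
    ring
  have e2 : Real.exp (-(x ^ 2 / 4 * (n : ℝ) ^ 2)) = Real.exp (-(x ^ 2 * (n : ℝ) ^ 2 / 4)) := by
    congr 1
    ring
  rw [e1] at h1
  rw [e2] at h2
  have g1 := mul_le_mul_of_nonneg_left h1 hK0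
  have g2 := mul_le_mul_of_nonneg_left h2 hK0
  rw [← hK]
  refine hcard.trans ((add_le_add s1 s2).trans ?_)
  refine le_trans (le_of_eq ?_) ((add_le_add g1 g2).trans (le_of_eq ?_))
  · ring
  · ring

end Pool.Agent.H71.DN
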