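import Mathlib
import Pool.Agent.H71.DN.Rg1

/-!
RG2: a property that holds for all large quasirandom graphs (density `1/2`) holds for almost all
graphs on `Fin n`.

Proof.  `f ↦ gr f` is a surjection from the functions `Sym2 (Fin n) → Fin 2` to `SimpleGraph (Fin n)`, all
of whose fibres have the same cardinality `2 ^ n` (a function is determined by its values on the
pairs `s(u, v)`, `u ≠ v`, which are determined by the graph, and by its values on the `n` diagonal
elements, which are arbitrary). So for a set `X` of graphs `#X * 2 ^ n = #{f : gr f ∈ X}` and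
`Nat.card (SimpleGraph (Fin n)) * 2 ^ n = 2 ^ #(Sym2 (Fin n))`. Given `τ > 0`, by `rg1`, for `n` large
(`n ≥ n0` of `rg1` and `n ≥ n1`) the fraction of the graphs for which `P` fails is at most `τ`; so the
fraction of the graphs with `P` is in `[1 - τ, 1]`.
-/

set_option autoImplicit false

namespace Pool.Agent.H71.DN

open Finset Classical

theorem rg2_bij (n : ℕ) : Function.Bijective
    (fun f : Sym2 (Fin n) → Fin 2 => ((gr f, fun v => f s(v, v)) : SimpleGraph (Fin n) × (Fin n → Fin 2))) := by
  constructor
  · intro f f' hff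
    simp only [Prod.mk.injEq] at hff
    obtain ⟨h1, h2⟩ := hff
    funext e
    induction e using Sym2.ind with
    | _ u v =>
      by_cases huv : u = v
      · subst huv
        exact congrFun h2 u
      · have h3 : (gr f).Adj u v ↔ (gr f').Adj u v := by rw [h1]
        have h4 : ((f s(u, v) : Fin 2) : ℕ) = 0 ↔ ((f' s(u, v) : Fin 2) : ℕ) = 0 := by
          constructor
          · intro h; exact (h3.mp ⟨huv, h⟩).2
          · intro h; exact (h3.mpr ⟨huv, h⟩).2
        apply Fin.ext
        have := (f s(u, v)).isLt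
        have := (f' s(u, v)).isLt
        omega
  · rintro ⟨G, d⟩
    refine ⟨Sym2.lift ⟨fun u v => if u = v then d u else if G.Adj u v then 0 else 1, ?_⟩, ?_⟩
    · intro u v
      by_cases huv : u = v
      · subst huv; rfl
      · have hvu : ¬ v = u := fun h => huv h.symm
        simp only [huv, hvu, if_false, G.adj_comm u v]
    · simp only [Prod.mk.injEq]
      constructor
      · ext u v
        change (u ≠ v ∧ ((Sym2.lift _ s(u, v) : Fin 2) : ℕ) = 0) ↔ _
        simp only [Sym2.lift_mk]
        by_cases huv : u = v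
        · subst huv; simp
        · by_cases hG : G.Adj u v
          · simp [huv, hG]
          · simp [huv, hG]
      · funext v
        simp

theorem rg2_card (n : ℕ) (X : SimpleGraph (Fin n) → Prop) :
    ((univ.filter fun f : Sym2 (Fin n) → Fin 2 => X (gr f)).card) =
      (univ.filter fun G : SimpleGraph (Fin n) => X G).card * 2 ^ n := by
  have e := Equiv.ofBijective _ (rg2_bij n)
  have h1 : (univ.filter fun f : Sym2 (Fin n) → Fin 2 => X (gr f)).card =
      ((univ.filter fun G : SimpleGraph (Fin n) => X G) ×ˢ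
        (univ : Finset (Fin n → Fin 2))).card := by
    apply Finset.card_bij (fun f _ => (gr f, fun v => f s(v, v)))
    · intro f hf
      simpa using hf
    · intro f _ f' _ hff
      exact (rg2_bij n).1 hff
    · rintro ⟨G, d⟩ hG
      obtain ⟨f, hf⟩ := (rg2_bij n).2 (G, d)
      refine ⟨f, ?_, hf⟩
      simp only [mem_product, mem_filter, mem_univ, true_and, and_true] at hG
      simp only [mem_filter, mem_univ, true_and]
      have : gr f = G := congrArg Prod.fst hf
      rw [this]; exact hG
  rw [h1, card_product]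
  simp

theorem rg2 (P : ∀ n : ℕ, SimpleGraph (Fin n) → Prop) (θ : ℝ) (hθ : 0 < θ) (n1 : ℕ)
    (h : ∀ n : ℕ, n1 ≤ n → ∀ G : SimpleGraph (Fin n), QR G (1 / 2) θ → P n G) :
    Filter.Tendsto (fun n : ℕ =>
      (Nat.card {G : SimpleGraph (Fin n) // P n G} : ℝ) / Nat.card (SimpleGraph (Fin n)))
      Filter.atTop (nhds 1) := by
  rw [Metric.tendsto_atTop]
  intro ε hε
  obtain ⟨n0, hn0⟩ := rg1 θ (ε / 2) hθ (by positivity)
  refine ⟨max n0 n1, fun n hn => ?_⟩
  have h0 := hn0 n (le_trans (le_max_left _ _) hn)
  have h1 := h n (le_trans (le_max_right _ _) hn)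
  have hT := rg2_card n (fun _ => True)
  have hX : ((univ.filter fun f : Sym2 (Fin n) → Fin 2 => ¬ P n (gr f)).card) =
      (univ.filter fun G : SimpleGraph (Fin n) => ¬ P n G).card * 2 ^ n := by
    convert rg2_card n (fun G => ¬ P n G)
  simp only [filter_true] at hT
  have hT' : Fintype.card (SimpleGraph (Fin n)) * 2 ^ n = 2 ^ Fintype.card (Sym2 (Fin n)) := by
    rw [← Finset.card_univ, ← hT]
    simp
  have hle : (univ.filter fun f : Sym2 (Fin n) → Fin 2 => ¬ P n (gr f)).card ≤
      (univ.filter fun f : Sym2 (Fin n) → Fin 2 => ¬ QR (gr f) (1 / 2) θ).card := by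
    apply Finset.card_le_card
    intro f hf
    simp only [mem_filter, mem_univ, true_and] at hf ⊢
    exact fun hq => hf (h1 _ hq)
  have hsplit : (univ.filter fun G : SimpleGraph (Fin n) => P n G).card +
      (univ.filter fun G : SimpleGraph (Fin n) => ¬ P n G).card =
        Fintype.card (SimpleGraph (Fin n)) := by
    rw [Finset.card_filter_add_card_filter_not, Finset.card_univ]
  rw [Nat.card_eq_fintype_card, Nat.card_eq_fintype_card, Fintype.card_subtype]
  set a : ℕ := (univ.filter fun G : SimpleGraph (Fin n) => P n G).card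
  set b : ℕ := (univ.filter fun G : SimpleGraph (Fin n) => ¬ P n G).card
  set t : ℕ := Fintype.card (SimpleGraph (Fin n))
  have ht : 0 < t := Fintype.card_pos
  have h2n : (0 : ℝ) < 2 ^ n := by positivity
  have hb : (b : ℝ) ≤ ε / 2 * t := by
    have e1 : (b : ℝ) * 2 ^ n ≤ ε / 2 * (t * 2 ^ n) := by
      have e2 : ((t : ℝ) * 2 ^ n) = 2 ^ Fintype.card (Sym2 (Fin n)) := by exact_mod_cast hT'
      rw [e2]
      refine le_trans ?_ h0
      have e3 : b * 2 ^ n ≤ (univ.filter fun f : Sym2 (Fin n) → Fin 2 =>
          ¬ QR (gr f) (1 / 2) θ).card := le_of_eq_of_le hX.symm hle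
      exact_mod_cast e3
    have e4 : (b : ℝ) * 2 ^ n ≤ (ε / 2 * t) * 2 ^ n := by linarith [e1]
    exact le_of_mul_le_mul_right e4 h2n
  have htR : (0 : ℝ) < t := by exact_mod_cast ht
  have hab : (a : ℝ) + b = t := by exact_mod_cast hsplit
  rw [Real.dist_eq, abs_lt]
  have e5 : (a : ℝ) / t - 1 = - (b / t) := by
    field_simp
    linarith
  rw [e5]
  have e6 : (b : ℝ) / t ≤ ε / 2 := by
    rw [div_le_iff₀ htR]; exact hb
  have e7 : (0 : ℝ) ≤ (b : ℝ) / t := by positivity
  constructor <;> linarith

end Pool.Agent.H71.DN
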