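import Mathlib
import Pool.Agent.H71.DN.MnB
import Pool.Agent.H71.DN.Ind
import Pool.Agent.H71.DN.Rg2

/-!
The minimum degree condition and quasirandom graphs.
-/

set_option autoImplicit false

namespace Pool.Agent.H71.DN

open Finset Classical

theorem ee_swap {V : Type} [Fintype V] (G : SimpleGraph V) (A B : Finset V) :
    ee G A B = ∑ b ∈ B, (A.filter fun a => G.Adj a b).card := by
  unfold ee
  rw [card_eq_sum_card_fiberwise (f := Prod.snd) (t := B)]
  · apply sum_congr rfl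
    intro b hb
    apply card_bij (fun x _ => x.1)
    · intro x hx
      simp only [mem_filter, mem_product] at hx ⊢
      exact ⟨hx.1.1.1, by rw [← hx.2]; exact hx.1.2⟩
    · intro x hx y hy h
      simp only [mem_filter, mem_product] at hx hy
      exact Prod.ext h (hx.2.trans hy.2.symm)
    · intro a ha
      simp only [mem_filter] at ha
      exact ⟨(a, b), by simp only [mem_filter, mem_product]; exact ⟨⟨⟨ha.1, hb⟩, ha.2⟩, trivial⟩, rfl⟩
  · intro x hx
    simp only [coe_filter, mem_product, Set.mem_ofPred_eq] at hx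
    exact hx.1.2

theorem dirac_rob0 {V : Type} [Fintype V] (G : SimpleGraph V) (δ ε θ : ℝ)
    (hθ : 0 ≤ θ) (h : (1 / 2 + ε) * Fintype.card V ≤ δ) (hδ : ∀ v, δ ≤ dg G v) :
    Rob G δ ε θ := by
  intro A B hA
  have h1 : ∀ b ∈ B, ε * (Fintype.card V : ℝ) ≤ ((A.filter fun a => G.Adj a b).card : ℝ) := by
    intro b _
    have h2 : (univ.filter fun u => G.Adj b u).card + A.card ≤
        (A.filter fun a => G.Adj a b).card + Fintype.card V := by
      have h3 : A.filter (fun a => G.Adj a b) = univ.filter (fun u => G.Adj b u) ∩ A := by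
        ext a
        simp only [mem_filter, mem_inter, mem_univ, true_and]
        constructor
        · rintro ⟨h4, h5⟩
          exact ⟨h5.symm, h4⟩
        · rintro ⟨h4, h5⟩
          exact ⟨h5, h4.symm⟩
      rw [h3, ← card_union_add_card_inter, add_comm]
      exact Nat.add_le_add_left (card_le_univ _) _
    have h4 := hδ b
    unfold dg at h4
    have h5 : ((univ.filter fun u => G.Adj b u).card : ℝ) + A.card ≤
        (A.filter fun a => G.Adj a b).card + Fintype.card V := by exact_mod_cast h2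
    linarith
  rw [ee_swap]
  push_cast
  have h7 := sum_le_sum h1
  rw [sum_const, nsmul_eq_mul] at h7
  have h8 : 0 ≤ θ * (Fintype.card V : ℝ) ^ 2 := by positivity
  have h9 : ε * (Fintype.card V : ℝ) * B.card = B.card * (ε * Fintype.card V) := by ring
  linarith

/-- Minimum degree at least `(1/2 + ε) n` gives robust expansion. -/
theorem dirac_rob {V : Type} [Fintype V] (G : SimpleGraph V) [DecidableRel G.Adj] (ε θ : ℝ)
    (hθ : 0 ≤ θ) (h : (1 / 2 + ε) * Fintype.card V ≤ G.minDegree) :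
    Rob G G.minDegree ε θ :=
  dirac_rob0 G _ ε θ hθ h fun v => by exact_mod_cast (dg_bd G v).1

theorem QR.mono {V : Type} [Fintype V] {G : SimpleGraph V} {q θ θ' : ℝ} (h : θ ≤ θ')
    (hQ : QR G q θ) : QR G q θ' := by
  refine ⟨fun v => (hQ.1 v).trans ?_, fun A B => (hQ.2 A B).trans ?_⟩
  · exact mul_le_mul_of_nonneg_right h (Nat.cast_nonneg _)
  · exact mul_le_mul_of_nonneg_right h (by positivity)

theorem Rob.mono {V : Type} [Fintype V] {G : SimpleGraph V} {δ ε θ θ' : ℝ} (h : θ ≤ θ')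
    (hR : Rob G δ ε θ) : Rob G δ ε θ' := by
  intro A B hA
  have h1 := hR A B hA
  have h2 : θ * (Fintype.card V : ℝ) ^ 2 ≤ θ' * (Fintype.card V : ℝ) ^ 2 :=
    mul_le_mul_of_nonneg_right h (by positivity)
  linarith

/-- Quasirandom graphs of density `q` with almost equal degrees. -/
theorem mainQ (q : ℝ) (hq0 : 0 < q) (hq1 : q < 1) :
    ∃ (θ : ℝ) (n0 : ℕ), 0 < θ ∧
      ∀ (V : Type) [Fintype V] (G : SimpleGraph V) [DecidableRel G.Adj] (p : ℕ),
        n0 ≤ Fintype.card V → 2 ≤ p → QR G q θ → H70.HY.HYLab G G.maxDegree p := by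
  obtain ⟨ε, hε⟩ : ∃ ε : ℝ, ε = q ^ 2 / 4 := ⟨_, rfl⟩
  have hε0 : 0 < ε := by rw [hε]; positivity
  have hε4 : ε ≤ 1 / 4 := by rw [hε]; nlinarith
  obtain ⟨θ1, ρ, n1, hθ1, hρ, hA⟩ := mainA ε hε0 (by linarith)
  obtain ⟨r, hr⟩ : ∃ r : ℕ, r = ⌈4 / q⌉₊ := ⟨_, rfl⟩
  have hr4 : 4 / q ≤ r := by rw [hr]; exact Nat.le_ceil _
  have hr3 : 4 ≤ r := by
    have h1 : (4 : ℝ) ≤ 4 / q := by
      rw [le_div_iff₀ hq0]
      nlinarith
    have h2 : (4 : ℝ) ≤ r := h1.trans hr4
    exact_mod_cast h2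
  obtain ⟨θ2, n2, hθ2, hI⟩ := indep q hq0.le hq1 r (q / 16) (by positivity)
  obtain ⟨θ, hθ⟩ : ∃ θ : ℝ, θ = min (min θ1 θ2) (min (ρ / 2) (q / 10)) := ⟨_, rfl⟩
  have hθ0 : 0 < θ := by
    rw [hθ]
    exact lt_min (lt_min hθ1 hθ2) (lt_min (by positivity) (by positivity))
  have ha1 : θ ≤ θ1 := by rw [hθ]; exact (min_le_left _ _).trans (min_le_left _ _)
  have ha2 : θ ≤ θ2 := by rw [hθ]; exact (min_le_left _ _).trans (min_le_right _ _)
  have ha3 : θ ≤ ρ / 2 := by rw [hθ]; exact (min_le_right _ _).trans (min_le_left _ _)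
  have ha4 : θ ≤ q / 10 := by rw [hθ]; exact (min_le_right _ _).trans (min_le_right _ _)
  refine ⟨θ, max (max n1 n2) (max 1 ⌈100 / q⌉₊), hθ0, ?_⟩
  intro V _ G _ p hn hp hQ
  have hn1 : n1 ≤ Fintype.card V := ((le_max_left _ _).trans (le_max_left _ _)).trans hn
  have hn2 : n2 ≤ Fintype.card V := ((le_max_right _ _).trans (le_max_left _ _)).trans hn
  have hn3 : 1 ≤ Fintype.card V := ((le_max_left _ _).trans (le_max_right _ _)).trans hn
  have hn4 : ⌈100 / q⌉₊ ≤ Fintype.card V :=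
    ((le_max_right _ _).trans (le_max_right _ _)).trans hn
  obtain ⟨n, hnn⟩ : ∃ n : ℝ, n = (Fintype.card V : ℝ) := ⟨_, rfl⟩
  have hnpos : 0 < n := by
    rw [hnn]
    exact_mod_cast hn3
  have hqn : 100 ≤ q * n := by
    have h1 : 100 / q ≤ n := by
      rw [hnn]
      exact (Nat.le_ceil _).trans (by exact_mod_cast hn4)
    rw [div_le_iff₀ hq0] at h1
    linarith
  have : Nonempty V := Fintype.card_pos_iff.1 hn3
  have hdeg : ∀ v, (q - θ) * n ≤ dg G v ∧ (dg G v : ℝ) ≤ (q + θ) * n := by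
    intro v
    have h1 := abs_le.1 (hQ.1 v)
    rw [← hnn] at h1
    constructor <;> linarith [h1.1, h1.2]
  obtain ⟨v1, hv1⟩ := G.exists_minimal_degree_vertex
  obtain ⟨v2, hv2⟩ := G.exists_maximal_degree_vertex
  have hmin : (q - θ) * n ≤ G.minDegree ∧ (G.minDegree : ℝ) ≤ (q + θ) * n := by
    rw [hv1, ← dg_eq]
    exact hdeg v1
  have hmax : (q - θ) * n ≤ G.maxDegree ∧ (G.maxDegree : ℝ) ≤ (q + θ) * n := by
    rw [hv2, ← dg_eq]
    exact hdeg v2
  have hθn : θ * n ≤ ρ / 2 * n := mul_le_mul_of_nonneg_right ha3 hnpos.le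
  have hθn2 : θ * n ≤ q / 10 * n := mul_le_mul_of_nonneg_right ha4 hnpos.le
  have hrob : Rob G G.minDegree ε θ1 := by
    refine Rob.mono ha1 (qr_rob G q θ ε G.minDegree hq0.le ?_ hQ ?_)
    · rw [hε]
      have h1 : q ^ 2 / 4 ≤ q / 4 := by nlinarith
      have h2 : q / 2 ≤ q - θ - q ^ 2 / 4 := by linarith
      have h3 : q * (q / 2) ≤ q * (q - θ - q ^ 2 / 4) := mul_le_mul_of_nonneg_left h2 hq0.le
      nlinarith
    · rw [← hnn]
      exact hmin.1
  -- independent sets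
  obtain ⟨M, hM⟩ : ∃ M : ℕ, M = ⌈q / 16 * n⌉₊ := ⟨_, rfl⟩
  have hM1 : q / 16 * n ≤ M := by rw [hM]; exact Nat.le_ceil _
  have hM2 : (M : ℝ) ≤ q / 16 * n + 1 := by
    rw [hM]
    exact (Nat.ceil_lt_add_one (by positivity)).le
  have hind : ∀ S : Finset V, M ≤ S.card →
      ∃ C ⊆ S, C.card = r ∧ ∀ u ∈ C, ∀ v ∈ C, ¬ G.Adj u v := by
    intro S hS
    refine hI V G hn2 (hQ.mono ha2) S ?_
    rw [← hnn]
    exact hM1.trans (by exact_mod_cast hS)
  obtain ⟨k, col, hk, hcol1, hcol2⟩ := greedyCol G r M (by omega) hind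
  have hcol : G.Colorable k := ⟨SimpleGraph.Coloring.mk (fun v => (⟨col v, hcol1 v⟩ : Fin k))
    (fun {u v} huv h => hcol2 u v huv (by simpa using h))⟩
  refine hA V G p k hn1 hp ?_ hrob hcol ?_ ?_
  · rw [← hnn]
    linarith [hmax.2, hmin.1]
  · have h1 : (k : ℝ) ≤ ((Fintype.card V / r + M : ℕ) : ℝ) := by exact_mod_cast hk
    have h2 : ((Fintype.card V / r : ℕ) : ℝ) ≤ q / 4 * n := by
      refine le_trans Nat.cast_div_le ?_
      rw [← hnn]
      have hr0 : (0 : ℝ) < r := lt_of_lt_of_le (by positivity) hr4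
      rw [div_le_iff₀ hr0]
      have h3 : q / 4 * n * (4 / q) ≤ q / 4 * n * r :=
        mul_le_mul_of_nonneg_left hr4 (by positivity)
      have h4 : q / 4 * n * (4 / q) = n := by field_simp
      linarith
    rw [Nat.cast_add] at h1
    have h5 : (5 / 12 : ℝ) ≤ 2 / 3 - ε := by linarith
    have h6 : (5 / 12 : ℝ) * ((9 / 10) * (q * n)) ≤ (2 / 3 - ε) * G.maxDegree := by
      apply mul_le_mul h5 _ (by positivity) (by linarith)
      linarith [hmax.1]
    linarith
  · obtain ⟨C, _, hC1, hC2⟩ := hind univ (by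
      have h1 : (M : ℝ) ≤ n := by
        have : q * n ≤ 1 * n := mul_le_mul_of_nonneg_right hq1.le hnpos.le
        linarith
      rw [card_univ]
      have h2 : (M : ℝ) ≤ (Fintype.card V : ℝ) := by rw [← hnn]; exact h1
      exact_mod_cast h2)
    obtain ⟨C', hC'1, hC'2⟩ := exists_subset_card_eq (show 3 ≤ C.card by omega)
    exact ⟨C', hC'2, fun u hu v hv => hC2 u (hC'1 hu) v (hC'1 hv)⟩

end Pool.Agent.H71.DN
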